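import Pool.Agent.MO.Mom

/-!
# Admissible functions are controlled by their energy

`K1 = {V ≤ 1}`. For `w ∈ K1` and `p, q ∈ K1` the vector `w` is the sum of the differences
`Y p - Z q` and `Y (-p) - Z (-q)`, `Y p = (w + p) / 4`, `Z q = (q - w) / 4`, and `Y p, Z q ∈ K1`.
Integration over `p, q ∈ K1` bounds `ρ(w)^2 |K1|^2` by the energy. For general `x` use `ρ x ≤ i ρ (x/i)`.
-/

set_option autoImplicit false

open MeasureTheory Set
open scoped ENNReal NNReal

namespace Pool.Agent.MO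

section

variable {E : Type} [NormedAddCommGroup E] [NormedSpace ℝ E]

private theorem affK {V : E → ℝ≥0∞} {w q : E} (hw : V w ≤ 1)
    (hq : V q ≤ 1) (hconv : Convex ℝ {x | V x ≤ 1}) (hray : ∀ x, V ((1 / 2 : ℝ) • x) ≤ V x) :
    V ((1 / 4 : ℝ) • w + (1 / 4 : ℝ) • q) ≤ 1 := by
  have h1 : V ((1 / 2 : ℝ) • w + (1 / 2 : ℝ) • q) ≤ 1 :=
    hconv hw hq (by norm_num) (by norm_num) (by norm_num)
  have h2 : (1 / 4 : ℝ) • w + (1 / 4 : ℝ) • q =
      (1 / 2 : ℝ) • ((1 / 2 : ℝ) • w + (1 / 2 : ℝ) • q) := by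
    rw [smul_add, smul_smul, smul_smul]
    norm_num
  rw [h2]
  exact (hray _).trans h1

variable [FiniteDimensional ℝ E] [MeasureSpace E] [BorelSpace E]
  [Measure.IsAddHaarMeasure (volume : Measure E)]

omit [FiniteDimensional ℝ E] [BorelSpace E] [Measure.IsAddHaarMeasure (volume : Measure E)] in
private theorem gbn {k : ℕ} {V : E → ℝ≥0∞} (h : GV k V) (x : E) : 0 ≤ gb V x :=
  div_nonneg (er_nonneg _) h.pos.le

omit [FiniteDimensional ℝ E] [BorelSpace E] [Measure.IsAddHaarMeasure (volume : Measure E)] in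
private theorem gbi {k : ℕ} {V : E → ℝ≥0∞} (h : GV k V) : Integrable (gb V) :=
  h.int.div_const _

omit [FiniteDimensional ℝ E] [Measure.IsAddHaarMeasure (volume : Measure E)] in
private theorem gb_mul_int {k : ℕ} {V : E → ℝ≥0∞} (h : GV k V) {b : E → ℝ} (hb : Continuous b)
    {B : ℝ} (h0 : ∀ x, 0 ≤ b x) (hB : ∀ x, b x ≤ B) : Integrable (fun z => gb V z * b z) := by
  have h1 := (gbi h).bdd_mul (c := B) hb.aestronglyMeasurable
    (Filter.Eventually.of_forall fun x => by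
      rw [Real.norm_of_nonneg (h0 x)]; exact hB x)
  refine h1.congr (Filter.Eventually.of_forall fun x => ?_)
  exact mul_comm _ _

/-- the transfer from `K1` to the Gibbs density -/
private theorem transf {k : ℕ} {V : E → ℝ≥0∞} (h : GV k V) {b : E → ℝ} (hb : Continuous b)
    {B : ℝ} (h0 : ∀ x, 0 ≤ b x) (hB : ∀ x, b x ≤ B) {w : E} (hw : V w ≤ 1) :
    ∫ q in {x | V x ≤ 1}, b ((1 / 4 : ℝ) • w + (1 / 4 : ℝ) • q) ≤
      Real.exp 1 * (∫ x, er (V x)) * 4 ^ Module.finrank ℝ E * ∫ z, gb V z * b z := by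
  have hint := gb_mul_int h hb h0 hB
  have h2 : Integrable (fun q => gb V ((1 / 4 : ℝ) • w + (1 / 4 : ℝ) • q) *
      b ((1 / 4 : ℝ) • w + (1 / 4 : ℝ) • q)) :=
    (hint.comp_add_left ((1 / 4 : ℝ) • w)).comp_smul (R := (1 / 4 : ℝ)) (by norm_num)
  have h3 : ∫ q, gb V ((1 / 4 : ℝ) • w + (1 / 4 : ℝ) • q) *
      b ((1 / 4 : ℝ) • w + (1 / 4 : ℝ) • q) =
      4 ^ Module.finrank ℝ E * ∫ z, gb V z * b z := by
    have e1 := Measure.integral_comp_smul (volume : Measure E)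
      (fun z => gb V ((1 / 4 : ℝ) • w + z) * b ((1 / 4 : ℝ) • w + z)) (1 / 4 : ℝ)
    rw [e1, integral_add_left_eq_self (fun z => gb V z * b z) ((1 / 4 : ℝ) • w), smul_eq_mul]
    congr 1
    rw [one_div, inv_pow, inv_inv, abs_of_nonneg (by positivity)]
  rw [← integral_indicator (h.cv.measSet 1)]
  calc ∫ q, ({x | V x ≤ 1}.indicator fun q => b ((1 / 4 : ℝ) • w + (1 / 4 : ℝ) • q)) q
      ≤ ∫ q, Real.exp 1 * (∫ x, er (V x)) * (gb V ((1 / 4 : ℝ) • w + (1 / 4 : ℝ) • q) *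
          b ((1 / 4 : ℝ) • w + (1 / 4 : ℝ) • q)) := by
        refine integral_mono_of_nonneg (Filter.Eventually.of_forall fun q => ?_)
          (h2.const_mul _) (Filter.Eventually.of_forall fun q => ?_)
        · exact indicator_nonneg (fun q _ => h0 _) q
        · show _ ≤ _
          have hZ := h.pos
          by_cases hq : q ∈ {x | V x ≤ 1}
          · rw [indicator_of_mem hq]
            have hV : V ((1 / 4 : ℝ) • w + (1 / 4 : ℝ) • q) ≤ 1 :=
              affK hw hq (h.cv.convex 1) (fun x => h.cv.ray x (by norm_num) (by norm_num))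
            have hVf : V ((1 / 4 : ℝ) • w + (1 / 4 : ℝ) • q) ≠ ∞ :=
              ne_top_of_le_ne_top ENNReal.one_ne_top hV
            have her : Real.exp (-1) ≤ er (V ((1 / 4 : ℝ) • w + (1 / 4 : ℝ) • q)) := by
              rw [er, if_neg hVf]
              apply Real.exp_le_exp.2
              have := ENNReal.toReal_mono ENNReal.one_ne_top hV
              rw [ENNReal.toReal_one] at this
              linarith
            have hgb : 1 ≤ Real.exp 1 * (∫ x, er (V x)) *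
                gb V ((1 / 4 : ℝ) • w + (1 / 4 : ℝ) • q) := by
              have e1 : Real.exp 1 * (∫ x, er (V x)) * gb V ((1 / 4 : ℝ) • w + (1 / 4 : ℝ) • q) =
                  Real.exp 1 * er (V ((1 / 4 : ℝ) • w + (1 / 4 : ℝ) • q)) := by
                unfold gb
                field_simp
              rw [e1]
              have e2 : Real.exp 1 * Real.exp (-1) = 1 := by
                rw [← Real.exp_add]; norm_num
              calc 1 = Real.exp 1 * Real.exp (-1) := e2.symm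
                _ ≤ _ := mul_le_mul_of_nonneg_left her (Real.exp_pos 1).le
            have hb0 := h0 ((1 / 4 : ℝ) • w + (1 / 4 : ℝ) • q)
            calc b ((1 / 4 : ℝ) • w + (1 / 4 : ℝ) • q) =
                1 * b ((1 / 4 : ℝ) • w + (1 / 4 : ℝ) • q) := (one_mul _).symm
              _ ≤ (Real.exp 1 * (∫ x, er (V x)) * gb V ((1 / 4 : ℝ) • w + (1 / 4 : ℝ) • q)) *
                  b ((1 / 4 : ℝ) • w + (1 / 4 : ℝ) • q) := mul_le_mul_of_nonneg_right hgb hb0
              _ = _ := by ring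
          · rw [indicator_of_notMem hq]
            exact mul_nonneg (mul_nonneg (Real.exp_pos 1).le hZ.le)
              (mul_nonneg (gbn h _) (h0 _))
    _ = _ := by
        rw [integral_const_mul, h3]
        ring

private theorem set_neg {V : E → ℝ≥0∞} (h : CV V) (f : E → ℝ) :
    ∫ q in {x | V x ≤ 1}, f (-q) = ∫ q in {x | V x ≤ 1}, f q := by
  rw [← integral_indicator (h.measSet 1), ← integral_indicator (h.measSet 1),
    ← integral_neg_eq_self]
  refine integral_congr_ae (Filter.Eventually.of_forall fun q => ?_)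
  show ({x | V x ≤ 1}.indicator fun q => f (-q)) (-q) = {x | V x ≤ 1}.indicator f q
  by_cases hq : q ∈ {x | V x ≤ 1}
  · have hq' : -q ∈ {x | V x ≤ 1} := by
      show V (-q) ≤ 1
      rw [h.even]; exact hq
    rw [indicator_of_mem hq', indicator_of_mem hq, neg_neg]
  · have hq' : -q ∉ {x | V x ≤ 1} := by
      intro hc
      apply hq
      have : V (-q) ≤ 1 := hc
      rw [h.even] at this; exact this
    rw [indicator_of_notMem hq', indicator_of_notMem hq]

private theorem set_int {k : ℕ} {V : E → ℝ≥0∞} (h : GV k V) {f : E → ℝ} (hf : Continuous f)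
    {B : ℝ} (h0 : ∀ x, 0 ≤ f x) (hB : ∀ x, f x ≤ B) : IntegrableOn f {x | V x ≤ 1} := by
  refine Measure.integrableOn_of_bounded (M := B) (h.vol_fin 1 ENNReal.one_ne_top)
    hf.aestronglyMeasurable (Filter.Eventually.of_forall fun x => ?_)
  rw [Real.norm_of_nonneg (h0 x)]
  exact hB x

private theorem core {k : ℕ} {V : E → ℝ≥0∞} (h : GV k V) {ρ : E → ℝ} (hρ : Adm ρ) {w : E}
    (hw : V w ≤ 1) :
    ρ w ^ 2 * (volume {x | V x ≤ 1}).toReal ^ 2 ≤
      4 * (Real.exp 1 * (∫ x, er (V x)) * 4 ^ Module.finrank ℝ E) ^ 2 * Dq (gb V) ρ := by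
  obtain ⟨C, hC⟩ := hρ.bdd
  have hC0 : 0 ≤ C := (hρ.nonneg 0).trans (hC 0)
  have hsq : ∀ x, ρ x ^ 2 ≤ C ^ 2 := fun x => pow_le_pow_left₀ (hρ.nonneg x) (hC x) 2
  set M := Real.exp 1 * (∫ x, er (V x)) * 4 ^ Module.finrank ℝ E with hM
  have hM0 : 0 ≤ M := by
    have := h.pos
    positivity
  set vol := (volume {x | V x ≤ 1}).toReal with hvol
  set g : E → ℝ := fun y => ∫ z, gb V z * ρ (y - z) ^ 2 with hg
  have hgc : Continuous g := by
    refine continuous_of_dominated (bound := fun z => gb V z * C ^ 2) ?_ ?_ ?_ ?_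
    · intro y
      exact (gb_mul_int h (b := fun z => ρ (y - z) ^ 2)
        ((hρ.cont.comp (continuous_const.sub continuous_id)).pow 2)
        (fun x => sq_nonneg _) (fun x => hsq _)).aestronglyMeasurable
    · intro y
      refine Filter.Eventually.of_forall fun z => ?_
      rw [Real.norm_of_nonneg (mul_nonneg (gbn h z) (sq_nonneg _))]
      exact mul_le_mul_of_nonneg_left (hsq _) (gbn h z)
    · exact (gbi h).mul_const _
    · refine Filter.Eventually.of_forall fun z => ?_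
      exact continuous_const.mul ((hρ.cont.comp (continuous_id.sub continuous_const)).pow 2)
  have hg0 : ∀ y, 0 ≤ g y := fun y =>
    integral_nonneg fun z => mul_nonneg (gbn h z) (sq_nonneg _)
  have hgB : ∀ y, g y ≤ ∫ z, gb V z * C ^ 2 := by
    intro y
    refine integral_mono (gb_mul_int h (b := fun z => ρ (y - z) ^ 2)
        ((hρ.cont.comp (continuous_const.sub continuous_id)).pow 2)
        (fun x => sq_nonneg _) (fun x => hsq _)) ((gbi h).mul_const _) (fun z => ?_)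
    exact mul_le_mul_of_nonneg_left (hsq _) (gbn h z)
  have hDq : Dq (gb V) ρ = ∫ y, gb V y * g y := by
    unfold Dq
    refine integral_congr_ae (Filter.Eventually.of_forall fun y => ?_)
    show _ = _
    rw [hg]
    simp only
    rw [← integral_const_mul]
    refine integral_congr_ae (Filter.Eventually.of_forall fun z => ?_)
    show _ = _
    ring
  have hwn : V (-w) ≤ 1 := by rw [h.cv.even]; exact hw
  -- the inner estimate
  have hA : ∀ p : E, ρ w ^ 2 * vol ≤ 2 * M * g ((1 / 4 : ℝ) • w + (1 / 4 : ℝ) • p) +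
      2 * M * g ((1 / 4 : ℝ) • w + (1 / 4 : ℝ) • (-p)) := by
    intro p
    set Y1 := (1 / 4 : ℝ) • w + (1 / 4 : ℝ) • p with hY1
    set Y2 := (1 / 4 : ℝ) • w + (1 / 4 : ℝ) • (-p) with hY2
    have hc1 : ∀ Y : E, Continuous fun q : E =>
        ρ (Y - ((1 / 4 : ℝ) • (-w) + (1 / 4 : ℝ) • q)) ^ 2 := fun Y =>
      (hρ.cont.comp (continuous_const.sub (continuous_const.add
        (continuous_const.smul continuous_id)))).pow 2
    have hc2 : Continuous fun q : E =>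
        ρ (Y2 - ((1 / 4 : ℝ) • (-w) + (1 / 4 : ℝ) • (-q))) ^ 2 := (hc1 Y2).comp continuous_neg
    have i1 := set_int h (hc1 Y1) (B := C ^ 2) (fun x => sq_nonneg _) (fun x => hsq _)
    have i2 := set_int h hc2 (B := C ^ 2) (fun x => sq_nonneg _) (fun x => hsq _)
    have h1 : ρ w ^ 2 * vol ≤ ∫ q in {x | V x ≤ 1},
        (2 * ρ (Y1 - ((1 / 4 : ℝ) • (-w) + (1 / 4 : ℝ) • q)) ^ 2 +
        2 * ρ (Y2 - ((1 / 4 : ℝ) • (-w) + (1 / 4 : ℝ) • (-q))) ^ 2) := by
      have e1 : ρ w ^ 2 * vol = ∫ _q in {x | V x ≤ 1}, ρ w ^ 2 := by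
        rw [setIntegral_const, smul_eq_mul, mul_comm]
        rfl
      rw [e1]
      refine setIntegral_mono (integrableOn_const (h.vol_fin 1 ENNReal.one_ne_top))
        ((i1.const_mul 2).add (i2.const_mul 2)) (fun q => ?_)
      have hsum : w = (Y1 - ((1 / 4 : ℝ) • (-w) + (1 / 4 : ℝ) • q)) +
          (Y2 - ((1 / 4 : ℝ) • (-w) + (1 / 4 : ℝ) • (-q))) := by
        rw [hY1, hY2]
        module
      have h3 : ρ w ≤ ρ (Y1 - ((1 / 4 : ℝ) • (-w) + (1 / 4 : ℝ) • q)) +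
          ρ (Y2 - ((1 / 4 : ℝ) • (-w) + (1 / 4 : ℝ) • (-q))) := by
        have h4 := hρ.sub (Y1 - ((1 / 4 : ℝ) • (-w) + (1 / 4 : ℝ) • q))
          (Y2 - ((1 / 4 : ℝ) • (-w) + (1 / 4 : ℝ) • (-q)))
        rw [← hsum] at h4
        exact h4
      have h5 := hρ.nonneg w
      show ρ w ^ 2 ≤ 2 * ρ (Y1 - ((1 / 4 : ℝ) • (-w) + (1 / 4 : ℝ) • q)) ^ 2 +
        2 * ρ (Y2 - ((1 / 4 : ℝ) • (-w) + (1 / 4 : ℝ) • (-q))) ^ 2
      nlinarith [sq_nonneg (ρ (Y1 - ((1 / 4 : ℝ) • (-w) + (1 / 4 : ℝ) • q)) -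
        ρ (Y2 - ((1 / 4 : ℝ) • (-w) + (1 / 4 : ℝ) • (-q))))]
    rw [integral_add (i1.const_mul 2) (i2.const_mul 2), integral_const_mul, integral_const_mul,
      set_neg h.cv (fun q => ρ (Y2 - ((1 / 4 : ℝ) • (-w) + (1 / 4 : ℝ) • q)) ^ 2)] at h1
    have t : ∀ Y : E, ∫ q in {x | V x ≤ 1}, ρ (Y - ((1 / 4 : ℝ) • (-w) + (1 / 4 : ℝ) • q)) ^ 2 ≤
        M * g Y := fun Y =>
      transf h (b := fun z => ρ (Y - z) ^ 2)
        ((hρ.cont.comp (continuous_const.sub continuous_id)).pow 2)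
        (fun x => sq_nonneg _) (fun x => hsq _) hwn
    have t1 := t Y1
    have t2 := t Y2
    linarith
  -- the outer integration
  have hcY : Continuous fun p : E => g ((1 / 4 : ℝ) • w + (1 / 4 : ℝ) • p) :=
    hgc.comp (continuous_const.add (continuous_const.smul continuous_id))
  have hcY2 : Continuous fun p : E => g ((1 / 4 : ℝ) • w + (1 / 4 : ℝ) • (-p)) :=
    hcY.comp continuous_neg
  have j1 := set_int h hcY (fun x => hg0 _) (fun x => hgB _)
  have j2 := set_int h hcY2 (fun x => hg0 _) (fun x => hgB _)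
  have h1 : ρ w ^ 2 * vol * vol ≤ ∫ p in {x | V x ≤ 1},
      (2 * M * g ((1 / 4 : ℝ) • w + (1 / 4 : ℝ) • p) +
      2 * M * g ((1 / 4 : ℝ) • w + (1 / 4 : ℝ) • (-p))) := by
    have e1 : ρ w ^ 2 * vol * vol = ∫ _p in {x | V x ≤ 1}, ρ w ^ 2 * vol := by
      rw [setIntegral_const, smul_eq_mul, mul_comm]
      rfl
    rw [e1]
    exact setIntegral_mono (integrableOn_const (h.vol_fin 1 ENNReal.one_ne_top))
        ((j1.const_mul _).add (j2.const_mul _)) (fun p => hA p)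
  rw [integral_add (j1.const_mul _) (j2.const_mul _), integral_const_mul, integral_const_mul,
    set_neg h.cv (fun p => g ((1 / 4 : ℝ) • w + (1 / 4 : ℝ) • p))] at h1
  have t := transf h hgc hg0 hgB hw
  rw [← hM, ← hDq] at t
  have t2 := mul_le_mul_of_nonneg_left t (by positivity : 0 ≤ 4 * M)
  calc ρ w ^ 2 * vol ^ 2 = ρ w ^ 2 * vol * vol := by ring
    _ ≤ _ := h1
    _ = 4 * M * ∫ p in {x | V x ≤ 1}, g ((1 / 4 : ℝ) • w + (1 / 4 : ℝ) • p) := by ring
    _ ≤ 4 * M * (M * Dq (gb V) ρ) := t2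
    _ = _ := by ring

omit [FiniteDimensional ℝ E] [MeasureSpace E] [BorelSpace E]
  [Measure.IsAddHaarMeasure (volume : Measure E)] in
private theorem sub_nsmul {ρ : E → ℝ} (hs : ∀ y z, ρ (y + z) ≤ ρ y + ρ z)
    (y : E) (m : ℕ) : ρ (((m + 1 : ℕ) : ℝ) • y) ≤ ((m + 1 : ℕ) : ℝ) * ρ y := by
  induction m with
  | zero => simp
  | succ m ih =>
    have e1 : (((m + 1 + 1 : ℕ)) : ℝ) • y = ((m + 1 : ℕ) : ℝ) • y + y := by
      rw [Nat.cast_succ (m + 1), add_smul, one_smul]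
    rw [e1]
    refine (hs _ _).trans ?_
    rw [Nat.cast_succ (m + 1), add_mul, one_mul]
    linarith

end

theorem base (k : ℕ) : ∃ R : ℝ, 1 ≤ R ∧ ∀ (E : Type) [NormedAddCommGroup E] [NormedSpace ℝ E]
      [FiniteDimensional ℝ E] [MeasureSpace E] [BorelSpace E]
      [Measure.IsAddHaarMeasure (volume : Measure E)] (V : E → ℝ≥0∞), GV k V →
      ∀ ρ : E → ℝ, Adm ρ → ∀ x, V x ≠ ∞ →
        ρ x ^ 2 ≤ R * (1 + (V x).toReal) ^ 2 * Dq (gb V) ρ := by
  obtain ⟨C, hC, hCZ⟩ := Z_le_vol k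
  refine ⟨max 1 (4 * (Real.exp 1 * C * 4 ^ k) ^ 2), le_max_left _ _, ?_⟩
  intro E _ _ _ _ _ _ V h ρ hρ x hx
  have hZ := h.pos
  have hZC := hCZ E V h
  set vol := (volume {x | V x ≤ 1}).toReal with hvol
  set Z := ∫ x, er (V x) with hZdef
  have hvpos : 0 < vol := by
    by_contra hc
    push Not at hc
    have : C * vol ≤ 0 := mul_nonpos_of_nonneg_of_nonpos hC.le hc
    linarith
  have hDq0 : 0 ≤ Dq (gb V) ρ := by
    unfold Dq
    exact integral_nonneg fun y => integral_nonneg fun z =>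
      mul_nonneg (mul_nonneg (gbn h y) (gbn h z)) (sq_nonneg _)
  -- points of the unit level set
  have hunit : ∀ w, V w ≤ 1 → ρ w ^ 2 ≤ 4 * (Real.exp 1 * C * 4 ^ k) ^ 2 * Dq (gb V) ρ := by
    intro w hw
    have h1 := core h hρ hw
    rw [← hvol, ← hZdef] at h1
    have h2 : Real.exp 1 * Z * 4 ^ Module.finrank ℝ E ≤ (Real.exp 1 * C * 4 ^ k) * vol := by
      have h3 : (4 : ℝ) ^ Module.finrank ℝ E ≤ 4 ^ k :=
        pow_le_pow_right₀ (by norm_num) h.dim
      calc Real.exp 1 * Z * 4 ^ Module.finrank ℝ E ≤ Real.exp 1 * (C * vol) * 4 ^ k :=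
            mul_le_mul (mul_le_mul_of_nonneg_left hZC (Real.exp_pos 1).le) h3 (by positivity)
              (by positivity)
        _ = _ := by ring
    have h4 : (Real.exp 1 * Z * 4 ^ Module.finrank ℝ E) ^ 2 ≤
        ((Real.exp 1 * C * 4 ^ k) * vol) ^ 2 := pow_le_pow_left₀ (by positivity) h2 2
    have h5 : ρ w ^ 2 * vol ^ 2 ≤ (4 * (Real.exp 1 * C * 4 ^ k) ^ 2 * Dq (gb V) ρ) * vol ^ 2 := by
      refine h1.trans ?_
      calc 4 * (Real.exp 1 * Z * 4 ^ Module.finrank ℝ E) ^ 2 * Dq (gb V) ρ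
          ≤ 4 * ((Real.exp 1 * C * 4 ^ k) * vol) ^ 2 * Dq (gb V) ρ :=
            mul_le_mul_of_nonneg_right (mul_le_mul_of_nonneg_left h4 (by norm_num)) hDq0
        _ = _ := by ring
    exact le_of_mul_le_mul_right h5 (by positivity)
  set v := (V x).toReal with hv
  have hv0 : 0 ≤ v := ENNReal.toReal_nonneg
  obtain ⟨m, hm⟩ : ∃ m : ℕ, v ≤ ((m + 1 : ℕ) : ℝ) ∧ ((m + 1 : ℕ) : ℝ) ≤ 1 + v := by
    refine ⟨⌊v⌋₊, ?_, ?_⟩
    · push_cast
      exact (Nat.lt_floor_add_one v).le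
    · push_cast
      have := Nat.floor_le hv0
      linarith
  have hmpos : (0 : ℝ) < ((m + 1 : ℕ) : ℝ) := by positivity
  set N : ℝ := ((m + 1 : ℕ) : ℝ) with hN
  have hN1 : 1 ≤ N := by
    rw [hN]; push_cast
    have : (0 : ℝ) ≤ m := Nat.cast_nonneg m
    linarith
  have hVw : V (N⁻¹ • x) ≤ 1 := by
    refine (h.cv.smul_le x (inv_nonneg.2 hmpos.le) (inv_le_one_of_one_le₀ hN1)).trans ?_
    rw [← ENNReal.ofReal_toReal hx, ← ENNReal.ofReal_mul (inv_nonneg.2 hmpos.le),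
      ← ENNReal.ofReal_one]
    apply ENNReal.ofReal_le_ofReal
    rw [inv_mul_le_iff₀ hmpos, mul_one]
    exact hm.1
  have h1 := hunit _ hVw
  have h2 : ρ x ≤ N * ρ (N⁻¹ • x) := by
    have := sub_nsmul (ρ := ρ) hρ.sub (N⁻¹ • x) m
    rw [← hN, smul_smul, mul_inv_cancel₀ hmpos.ne', one_smul] at this
    exact this
  have h3 : ρ x ^ 2 ≤ N ^ 2 * ρ (N⁻¹ • x) ^ 2 := by
    rw [← mul_pow]
    exact pow_le_pow_left₀ (hρ.nonneg x) h2 2
  have h4 : N ^ 2 ≤ (1 + v) ^ 2 := pow_le_pow_left₀ hmpos.le hm.2 2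
  calc ρ x ^ 2 ≤ N ^ 2 * ρ (N⁻¹ • x) ^ 2 := h3
    _ ≤ (1 + v) ^ 2 * (4 * (Real.exp 1 * C * 4 ^ k) ^ 2 * Dq (gb V) ρ) :=
        mul_le_mul h4 h1 (sq_nonneg _) (sq_nonneg _)
    _ = (4 * (Real.exp 1 * C * 4 ^ k) ^ 2) * (1 + v) ^ 2 * Dq (gb V) ρ := by ring
    _ ≤ max 1 (4 * (Real.exp 1 * C * 4 ^ k) ^ 2) * (1 + v) ^ 2 * Dq (gb V) ρ := by
        apply mul_le_mul_of_nonneg_right _ hDq0
        exact mul_le_mul_of_nonneg_right (le_max_right _ _) (sq_nonneg _)

end Pool.Agent.MO
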