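import Pool.Agent.MO.Mom

/-!
# MO-Beta: the dilation difference

`t = 1 + ε`, `n = finrank ≤ k`, `Z = ∫ er V`. `V (t⁻¹ x) ≤ V x` (`CV.ray`), so `er (V (t⁻¹ x)) - er (V x) ≥ 0`; integral
`(t^n - 1) Z` (`Measure.integral_comp_inv_smul`) and `(t^n - 1)/ε ≤ 2^k` for `0 < ε ≤ 1`
(`(1+ε)^n ≤ 1 + ε (2^n - 1)` by induction or convexity).
`beta_int`: `β u = (u^2+4u+5) e^{-u}` (`β ∞ = 0`). For `0 ≤ u ≤ u' ≤ ∞`: `(1+u)^2 (e^{-u} - e^{-u'}) ≤ β u - β u'`
(`u'` finite: the derivative of `β` is `-(1+s)^2 e^{-s}`, i.e. `β u - β u' - (1+u)^2(e^{-u} - e^{-u'})` vanishes at `u' = u` and is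
nondecreasing in `u'`; `u' = ∞`: `β u = (1+u)^2 e^{-u} + 2(u+2) e^{-u} ≥ (1+u)^2 e^{-u}`). Substituting `x = t x'`:
`∫ (1 + V(t⁻¹x))^2 (er V(t⁻¹ x) - er V x) dx = t^n ∫ (1+V x')^2 (er V x' - er V (t x')) dx' ≤
t^n ∫ (β(V x') - β(V(t x'))) dx' = (t^n - 1) ∫ β(V)`, and `∫ β(V) ≤ C_k Z` by `GV.mom` (`i = 0,1,2`). Where
`V(t⁻¹ x) = ∞` also `V x = ∞` and the integrand is `0`.
-/

set_option autoImplicit false

open MeasureTheory Set
open scoped ENNReal NNReal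

namespace Pool.Agent.MO

variable {E : Type} [NormedAddCommGroup E] [NormedSpace ℝ E] [FiniteDimensional ℝ E]
  [MeasureSpace E] [BorelSpace E] [Measure.IsAddHaarMeasure (volume : Measure E)]

theorem dil_sub_nonneg {V : E → ℝ≥0∞} (h : CV V) {ε : ℝ} (hε : 0 < ε) (x : E) :
    0 ≤ er (V ((1 + ε)⁻¹ • x)) - er (V x) := by
  have h1 : (1 : ℝ) ≤ 1 + ε := by linarith
  exact sub_nonneg.2 (er_anti (h.ray x (inv_nonneg.2 (by linarith)) (inv_le_one_of_one_le₀ h1)))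

private theorem pow_sub_one_le {ε : ℝ} (hε : 0 < ε) (hε1 : ε ≤ 1) (n : ℕ) :
    (1 + ε) ^ n ≤ 1 + ε * (2 ^ n - 1) := by
  induction n with
  | zero => simp
  | succ n ih =>
    have h1 : (1 : ℝ) ≤ 2 ^ n := one_le_pow₀ (by norm_num)
    have h2 : ε * ε * (2 ^ n - 1) ≤ ε * 1 * (2 ^ n - 1) :=
      mul_le_mul_of_nonneg_right (mul_le_mul_of_nonneg_left hε1 hε.le) (by linarith)
    calc (1 + ε) ^ (n + 1) = (1 + ε) * (1 + ε) ^ n := by ring
      _ ≤ (1 + ε) * (1 + ε * (2 ^ n - 1)) := mul_le_mul_of_nonneg_left ih (by linarith)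
      _ ≤ 1 + ε * (2 ^ (n + 1) - 1) := by
          rw [pow_succ]
          nlinarith

private theorem pow_finrank_le {k n : ℕ} (hn : n ≤ k) {ε : ℝ} (hε : 0 < ε) (hε1 : ε ≤ 1) :
    |(1 + ε) ^ n| - 1 ≤ ε * 2 ^ k := by
  rw [abs_of_nonneg (by positivity)]
  have h1 := pow_sub_one_le hε hε1 n
  have h2 : (2 : ℝ) ^ n ≤ 2 ^ k := pow_le_pow_right₀ (by norm_num) hn
  nlinarith

private theorem one_le_abs_pow {ε : ℝ} (hε : 0 < ε) (n : ℕ) : 1 ≤ |(1 + ε) ^ n| := by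
  rw [abs_of_nonneg (by positivity)]
  exact one_le_pow₀ (by linarith)

/-- the integral of the dilation difference -/
private theorem dil_diff {f : E → ℝ} (hf : Integrable f) {ε : ℝ} (hε : 0 < ε) :
    Integrable (fun x => f ((1 + ε)⁻¹ • x) - f x) ∧
      ∫ x, (f ((1 + ε)⁻¹ • x) - f x) =
        (|(1 + ε) ^ Module.finrank ℝ E| - 1) * ∫ x, f x := by
  have h0 : (1 + ε)⁻¹ ≠ 0 := inv_ne_zero (by linarith)
  have h1 : Integrable (fun x => f ((1 + ε)⁻¹ • x)) :=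
    (integrable_comp_smul_iff volume f h0).2 hf
  refine ⟨h1.sub hf, ?_⟩
  rw [integral_sub h1 hf, Measure.integral_comp_inv_smul, smul_eq_mul]
  ring

theorem dil_sub_int {k : ℕ} {V : E → ℝ≥0∞} (h : GV k V) {ε : ℝ} (hε : 0 < ε) (hε1 : ε ≤ 1) :
    Integrable (fun x => er (V ((1 + ε)⁻¹ • x)) - er (V x)) ∧
      ∫ x, (er (V ((1 + ε)⁻¹ • x)) - er (V x)) ≤ ε * 2 ^ k * ∫ x, er (V x) := by
  obtain ⟨h1, h2⟩ := dil_diff (f := fun x => er (V x)) h.int hε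
  refine ⟨h1, h2.le.trans ?_⟩
  exact mul_le_mul_of_nonneg_right (pow_finrank_le h.dim hε hε1) h.pos.le

/-- the function `β` -/
private noncomputable def bt (v : ℝ≥0∞) : ℝ := (v.toReal ^ 2 + 4 * v.toReal + 5) * er v

private theorem bt_real {a b : ℝ} (ha : 0 ≤ a) (hab : a ≤ b) :
    (1 + a) ^ 2 * (Real.exp (-a) - Real.exp (-b)) ≤
      (a ^ 2 + 4 * a + 5) * Real.exp (-a) - (b ^ 2 + 4 * b + 5) * Real.exp (-b) := by
  obtain ⟨d, rfl⟩ : ∃ d, b = a + d := ⟨b - a, by ring⟩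
  have hd : 0 ≤ d := by linarith
  have h1 := Real.quadratic_le_exp_of_nonneg hd
  have h2 : Real.exp (-a) = Real.exp (-(a + d)) * Real.exp d := by
    rw [← Real.exp_add]
    congr 1
    ring
  have h3 : 0 < Real.exp (-(a + d)) := Real.exp_pos _
  have h4 : 2 * a * d + d ^ 2 + 4 * d + 2 * a + 4 ≤ (2 * a + 4) * Real.exp d := by
    have h5 : (2 * a + 4) * (1 + d + d ^ 2 / 2) ≤ (2 * a + 4) * Real.exp d :=
      mul_le_mul_of_nonneg_left h1 (by linarith)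
    have h6 : 0 ≤ a * d ^ 2 := mul_nonneg ha (sq_nonneg d)
    nlinarith [sq_nonneg d]
  have h5 := mul_le_mul_of_nonneg_left h4 h3.le
  rw [h2]
  nlinarith

private theorem bt_le {v v' : ℝ≥0∞} (h : v ≤ v') :
    (1 + v.toReal) ^ 2 * (er v - er v') ≤ bt v - bt v' := by
  by_cases hv : v = ∞
  · have hv' : v' = ∞ := top_le_iff.1 (hv ▸ h)
    subst hv hv'
    simp
  · by_cases hv' : v' = ∞
    · subst hv'
      have h1 : bt ∞ = 0 := by simp [bt, er_top]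
      rw [h1, er_top, sub_zero, sub_zero]
      unfold bt
      refine mul_le_mul_of_nonneg_right ?_ (er_nonneg v)
      have := ENNReal.toReal_nonneg (a := v)
      nlinarith
    · have h1 := bt_real (ENNReal.toReal_nonneg (a := v)) ((ENNReal.toReal_le_toReal hv hv').2 h)
      have e1 : er v = Real.exp (-v.toReal) := by simp [er, hv]
      have e2 : er v' = Real.exp (-v'.toReal) := by simp [er, hv']
      unfold bt
      rw [e1, e2]
      exact h1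

private theorem bt_int {k : ℕ} {V : E → ℝ≥0∞} (h : GV k V) :
    Integrable (fun x => bt (V x)) ∧ ∫ x, bt (V x) ≤ 32 * 2 ^ k * ∫ x, er (V x) := by
  obtain ⟨h0, h0'⟩ := h.mom 0
  obtain ⟨h1, h1'⟩ := h.mom 1
  obtain ⟨h2, h2'⟩ := h.mom 2
  have e : (fun x => bt (V x)) = fun x => (V x).toReal ^ 2 * er (V x) +
      4 * ((V x).toReal ^ 1 * er (V x)) + 5 * ((V x).toReal ^ 0 * er (V x)) := by
    funext x
    unfold bt
    ring
  have hj : Integrable (fun x => (V x).toReal ^ 2 * er (V x) +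
      4 * ((V x).toReal ^ 1 * er (V x))) := h2.add (h1.const_mul 4)
  have hi : Integrable (fun x => (V x).toReal ^ 2 * er (V x) +
      4 * ((V x).toReal ^ 1 * er (V x)) + 5 * ((V x).toReal ^ 0 * er (V x))) :=
    hj.add (h0.const_mul 5)
  refine ⟨by rw [e]; exact hi, ?_⟩
  rw [e, integral_add hj (h0.const_mul 5),
    integral_add h2 (h1.const_mul 4), integral_const_mul, integral_const_mul]
  simp only [Nat.factorial_zero, Nat.factorial_one, Nat.factorial_two, Nat.cast_one,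
    Nat.cast_ofNat, pow_zero, pow_one, one_mul] at h0' h1' h2' ⊢
  have hz : 0 ≤ 2 ^ k * ∫ x, er (V x) := mul_nonneg (by positivity) h.pos.le
  nlinarith

theorem beta_int {k : ℕ} {V : E → ℝ≥0∞} (h : GV k V) {ε : ℝ} (hε : 0 < ε) (hε1 : ε ≤ 1) :
    Integrable (fun x => (1 + (V ((1 + ε)⁻¹ • x)).toReal) ^ 2 *
        (er (V ((1 + ε)⁻¹ • x)) - er (V x))) ∧
      ∫ x, (1 + (V ((1 + ε)⁻¹ • x)).toReal) ^ 2 * (er (V ((1 + ε)⁻¹ • x)) - er (V x)) ≤
        ε * 2 ^ k * (32 * 2 ^ k) * ∫ x, er (V x) := by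
  obtain ⟨h1, h2⟩ := bt_int h
  obtain ⟨h3, h4⟩ := dil_diff h1 hε
  have h5 : (1 : ℝ) ≤ 1 + ε := by linarith
  have hle : ∀ x, (1 + (V ((1 + ε)⁻¹ • x)).toReal) ^ 2 *
      (er (V ((1 + ε)⁻¹ • x)) - er (V x)) ≤ bt (V ((1 + ε)⁻¹ • x)) - bt (V x) := fun x =>
    bt_le (h.cv.ray x (inv_nonneg.2 (by linarith)) (inv_le_one_of_one_le₀ h5))
  have hnn : ∀ x, 0 ≤ (1 + (V ((1 + ε)⁻¹ • x)).toReal) ^ 2 *
      (er (V ((1 + ε)⁻¹ • x)) - er (V x)) := fun x =>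
    mul_nonneg (sq_nonneg _) (dil_sub_nonneg h.cv hε x)
  have hm0 : Measurable fun x : E => (1 + ε)⁻¹ • x := (continuous_const_smul _).measurable
  have hm1 : Measurable fun x : E => V ((1 + ε)⁻¹ • x) := h.cv.meas.comp hm0
  have hm : Measurable fun x => (1 + (V ((1 + ε)⁻¹ • x)).toReal) ^ 2 *
      (er (V ((1 + ε)⁻¹ • x)) - er (V x)) :=
    ((measurable_const.add hm1.ennreal_toReal).pow_const 2).mul
      ((er_meas.comp hm1).sub (er_meas.comp h.cv.meas))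
  have hi : Integrable (fun x => (1 + (V ((1 + ε)⁻¹ • x)).toReal) ^ 2 *
      (er (V ((1 + ε)⁻¹ • x)) - er (V x))) := by
    refine h3.mono' hm.aestronglyMeasurable (Filter.Eventually.of_forall fun x => ?_)
    rw [Real.norm_of_nonneg (hnn x)]
    exact hle x
  refine ⟨hi, (integral_mono hi h3 hle).trans ?_⟩
  rw [h4]
  have h6 := pow_finrank_le h.dim hε hε1
  have h7 := one_le_abs_pow hε (Module.finrank ℝ E)
  calc (|(1 + ε) ^ Module.finrank ℝ E| - 1) * ∫ x, bt (V x)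
      ≤ (|(1 + ε) ^ Module.finrank ℝ E| - 1) * (32 * 2 ^ k * ∫ x, er (V x)) :=
        mul_le_mul_of_nonneg_left h2 (by linarith)
    _ ≤ (ε * 2 ^ k) * (32 * 2 ^ k * ∫ x, er (V x)) :=
        mul_le_mul_of_nonneg_right h6 (mul_nonneg (by positivity) h.pos.le)
    _ = ε * 2 ^ k * (32 * 2 ^ k) * ∫ x, er (V x) := by ring

end Pool.Agent.MO
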