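import Pool.Agent.CB.RadS
import Pool.Agent.CB.LCu
import Pool.Agent.MO.Bnd

/-!
# MO-Dec0: decay of the Fourier transform of symmetric isotropic log-concave measures

`dec_lc`: `Dec 1 1 K ν` with an absolute constant `K`. For a unit vector `θ` the law `σ` of
`⟨θ, y⟩` on `V 1` is `Rad 1 σ`. Its smoothed density `G = Gd σ ε` is decreasing in the norm (`gd_anti`) and
bounded by an absolute constant (`bound_one`).
* `d1`: with `t = π / r`, `2 ∫ cos (r ⟨e, v⟩) G v = ∫ cos (r ⟨e, v⟩) (G v - G (v - t e))`, and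
  `∫ |G v - G (v - t e)| = 2 ∫_{-t/2 ≤ ⟨e, v⟩ < t/2} G`.
* `d2`: `φ r - φ (R r) = ∫ cos (r ⟨e, v⟩) (G v - R⁻¹ G (R⁻¹ v))`, `∫ |...| ≤ 2 (1 - R⁻¹)`, `R = exp h`;
  for `‖ξ‖ ≤ 1` by `|cos x - cos y| ≤ |x - y|`.
-/

set_option autoImplicit false

open MeasureTheory Set
open scoped ENNReal NNReal

namespace Pool.Agent.MO

open Pool.Agent.CB

/-- A midpoint closed set of reals containing `1` and `-1` is dense in `[-1,1]`. -/
theorem mid_dense {D : Set ℝ} (h1 : (1 : ℝ) ∈ D) (h2 : (-1 : ℝ) ∈ D)
    (hm : ∀ a ∈ D, ∀ b ∈ D, (a + b) / 2 ∈ D) : Icc (-1 : ℝ) 1 ⊆ closure D := by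
  have hmc : ∀ a ∈ closure D, ∀ b ∈ closure D, (a + b) / 2 ∈ closure D := by
    intro a ha b hb
    have hc : Continuous fun p : ℝ × ℝ => (p.1 + p.2) / 2 := by fun_prop
    exact map_mem_closure₂ (f := fun x y : ℝ => (x + y) / 2) hc ha hb fun x hx y hy => hm x hx y hy
  have hit : ∀ x ∈ closure D, ∀ n : ℕ, x + (1 - x) / 2 ^ n ∈ closure D := by
    intro x hx n
    induction n with
    | zero => simpa using subset_closure h1
    | succ n ih =>
      have := hmc x hx _ ih
      have e : (x + (x + (1 - x) / 2 ^ n)) / 2 = x + (1 - x) / 2 ^ (n + 1) := by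
        rw [pow_succ]; field_simp; ring
      rwa [e] at this
  refine IsClosed.Icc_subset_of_forall_exists_gt (isClosed_closure.inter isClosed_Icc)
    (subset_closure h2) ?_
  rintro x ⟨hx, hx1, hx2⟩ y hy
  have hy' : x < y := hy
  have h0 : 0 < (y - x) / (1 - x) := div_pos (by linarith) (by linarith)
  obtain ⟨n, hn⟩ := exists_pow_lt_of_lt_one h0 (show (1 / 2 : ℝ) < 1 by norm_num)
  refine ⟨x + (1 - x) / 2 ^ n, hit x hx n, ?_, ?_⟩
  · have : 0 < (1 - x) / 2 ^ n := div_pos (by linarith) (by positivity)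
    linarith
  · rw [lt_div_iff₀ (by linarith)] at hn
    have : (1 - x) / 2 ^ n = (1 / 2) ^ n * (1 - x) := by
      rw [one_div, inv_pow]; ring
    linarith

theorem one_norm (v : V 1) : ‖v‖ = |v 0| := by
  rw [EuclideanSpace.norm_eq]
  simp [Real.sqrt_sq_eq_abs]

theorem one_smul_eq {v w : V 1} (hvw : ‖v‖ ≤ ‖w‖) : ∃ t : ℝ, |t| ≤ 1 ∧ v = t • w := by
  rw [one_norm, one_norm] at hvw
  by_cases hw : w 0 = 0
  · rw [hw, abs_zero] at hvw
    have hv : v 0 = 0 := abs_nonpos_iff.1 hvw
    refine ⟨1, by simp, ?_⟩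
    ext i
    rw [Subsingleton.elim i 0]
    simp [hv, hw]
  · refine ⟨v 0 / w 0, ?_, ?_⟩
    · rw [abs_div]
      exact div_le_one_of_le₀ hvw (abs_nonneg _)
    · ext i
      rw [Subsingleton.elim i 0]
      simp [hw]

theorem gd_anti {σ : Measure (V 1)} (hσ : Rad 1 σ) {ε : ℝ} (hε : 0 < ε) {v w : V 1}
    (hvw : ‖v‖ ≤ ‖w‖) : Gd σ ε w ≤ Gd σ ε v := by
  have := hσ.prob
  obtain ⟨t, ht, rfl⟩ := one_smul_eq hvw
  have key : ∀ δ : ℝ, 0 < δ → δ < ε → σ (Metric.ball w δ) ≤ σ (Metric.ball (t • w) ε) := by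
    intro δ hδ hδε
    set D : Set ℝ := {u | σ (Metric.ball w δ) ≤ σ (Metric.ball (u • w) δ)} with hD
    have h1 : (1 : ℝ) ∈ D := by simp [hD]
    have h2 : (-1 : ℝ) ∈ D := by
      have h3 := hσ.inv (LinearIsometryEquiv.neg ℝ)
      have h4 : (σ.map (LinearIsometryEquiv.neg ℝ : V 1 ≃ₗᵢ[ℝ] V 1)) (Metric.ball ((-1 : ℝ) • w) δ) =
          σ (Metric.ball w δ) := by
        rw [Measure.map_apply (LinearIsometryEquiv.continuous _).measurable
          Metric.isOpen_ball.measurableSet]
        congr 1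
        ext x
        simp only [mem_preimage, LinearIsometryEquiv.coe_neg, mem_ball_iff_norm]
        rw [show -x - (-1 : ℝ) • w = -(x - w) by rw [neg_one_smul]; abel, norm_neg]
      rw [h3] at h4
      exact h4.ge
    have hm : ∀ a ∈ D, ∀ b ∈ D, (a + b) / 2 ∈ D := by
      intro a ha b hb
      have h3 := hσ.lc (Metric.ball (a • w) δ) (Metric.ball (b • w) δ)
        (Metric.ball (((a + b) / 2) • w) δ) Metric.isOpen_ball.measurableSet
        Metric.isOpen_ball.measurableSet Metric.isOpen_ball.measurableSet (by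
          intro x hx y hy
          rw [mem_ball_iff_norm] at hx hy ⊢
          have h4 : (1 / 2 : ℝ) • (x + y) - ((a + b) / 2) • w =
              (1 / 2 : ℝ) • ((x - a • w) + (y - b • w)) := by
            rw [smul_add, smul_add, smul_sub, smul_sub, smul_smul, smul_smul, add_div, add_smul]
            rw [show (1 / 2 : ℝ) * a = a / 2 by ring, show (1 / 2 : ℝ) * b = b / 2 by ring]
            abel
          rw [h4, norm_smul]
          have h5 := norm_add_le (x - a • w) (y - b • w)
          rw [Real.norm_of_nonneg (by norm_num : (0 : ℝ) ≤ 1 / 2)]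
          linarith)
      have h4 : σ (Metric.ball w δ) ^ 2 ≤ σ (Metric.ball (((a + b) / 2) • w) δ) ^ 2 := by
        refine le_trans ?_ h3
        rw [sq]
        exact mul_le_mul' ha hb
      exact (ENNReal.pow_le_pow_left_iff two_ne_zero).1 h4
    have h3 : t ∈ closure D := mid_dense h1 h2 hm ⟨(abs_le.1 ht).1, (abs_le.1 ht).2⟩
    have h4 : 0 < (ε - δ) / (‖w‖ + 1) := div_pos (by linarith) (by positivity)
    obtain ⟨u, hu, hut⟩ := Metric.mem_closure_iff.1 h3 _ h4
    have hu' : σ (Metric.ball w δ) ≤ σ (Metric.ball (u • w) δ) := hu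
    refine hu'.trans (measure_mono (Metric.ball_subset_ball' ?_))
    rw [dist_eq_norm, ← sub_smul, norm_smul, ← dist_eq_norm, dist_comm]
    rw [lt_div_iff₀ (by positivity)] at hut
    have h5 : 0 ≤ dist t u := dist_nonneg
    nlinarith [norm_nonneg w]
  have hlim : σ (Metric.ball w ε) ≤ σ (Metric.ball (t • w) ε) := by
    have h1 : Metric.ball w ε = ⋃ n : ℕ, Metric.ball w (ε - ε / (n + 2)) := by
      ext x
      simp only [mem_iUnion, Metric.mem_ball]
      constructor
      · intro hx
        obtain ⟨n, hn⟩ := exists_nat_gt (ε / (ε - dist x w))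
        refine ⟨n, ?_⟩
        have h2 : 0 < ε - dist x w := by linarith
        rw [div_lt_iff₀ h2] at hn
        have h3 : ε / (n + 2) < ε - dist x w := by
          rw [div_lt_iff₀ (by positivity)]
          nlinarith
        linarith
      · rintro ⟨n, hn⟩
        have : 0 < ε / ((n : ℝ) + 2) := by positivity
        linarith
    have hmono : Monotone fun n : ℕ => Metric.ball w (ε - ε / ((n : ℝ) + 2)) := by
      intro m n hmn
      refine Metric.ball_subset_ball ?_
      have : (m : ℝ) ≤ n := by exact_mod_cast hmn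
      have : ε / ((n : ℝ) + 2) ≤ ε / ((m : ℝ) + 2) :=
        div_le_div_of_nonneg_left hε.le (by positivity) (by linarith)
      linarith
    rw [h1, hmono.measure_iUnion]
    refine iSup_le fun n => key _ ?_ ?_
    · have h3 : ε / ((n : ℝ) + 2) < ε := by
        rw [div_lt_iff₀ (by positivity)]
        have : (0 : ℝ) ≤ n := Nat.cast_nonneg n
        nlinarith
      linarith
    · have : 0 < ε / ((n : ℝ) + 2) := by positivity
      linarith
  unfold Gd
  exact div_le_div_of_nonneg_right (ENNReal.toReal_mono (measure_ne_top _ _) hlim)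
    ENNReal.toReal_nonneg

theorem rd_integrable {s : ℕ} {G : V s → ℝ} (h : RD s G) : Integrable G ∧ ∫ v, G v = 1 := by
  have hi : Integrable G := by
    refine ⟨h.meas.aestronglyMeasurable, ?_⟩
    refine lt_of_le_of_lt (le_of_eq ?_) (lt_of_le_of_lt h.mass.le ENNReal.one_lt_top)
    refine lintegral_congr fun v => ?_
    rw [Real.enorm_eq_ofReal (h.nonneg v)]
  refine ⟨hi, ?_⟩
  rw [integral_eq_lintegral_of_nonneg_ae (Filter.Eventually.of_forall h.nonneg)
    h.meas.aestronglyMeasurable, h.mass]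
  simp

theorem rd_d1 {s : ℕ} {G : V s → ℝ} (h : RD s G) (ha : ∀ v w, ‖v‖ ≤ ‖w‖ → G w ≤ G v)
    {e : V s} (he : ‖e‖ = 1) {r : ℝ} (hr : 0 < r) :
    |∫ v, Real.cos (r * inner ℝ e v) * G v| ≤
      ∫ v in {v : V s | |inner ℝ e v| ≤ Real.pi / r / 2}, G v := by
  obtain ⟨hGi, -⟩ := rd_integrable h
  have hcos : Measurable fun v : V s => Real.cos (r * inner ℝ e v) := by fun_prop
  set t : ℝ := Real.pi / r with ht
  have ht0 : 0 < t := by positivity
  have hee : inner ℝ e e = (1 : ℝ) := by rw [real_inner_self_eq_norm_sq, he]; norm_num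
  have hGs : Integrable fun v => G (v - t • e) := hGi.comp_sub_right _
  have hb : ∀ g : V s → ℝ, Integrable g → Integrable fun v => Real.cos (r * inner ℝ e v) * g v := by
    intro g hg
    refine hg.bdd_mul (c := 1) hcos.aestronglyMeasurable ?_
    exact Filter.Eventually.of_forall fun v => by simpa using Real.abs_cos_le_one _
  have hshift : ∫ v, Real.cos (r * inner ℝ e v) * G v =
      -∫ v, Real.cos (r * inner ℝ e v) * G (v - t • e) := by
    rw [← integral_sub_right_eq_self (μ := (volume : Measure (V s)))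
      (fun v => Real.cos (r * inner ℝ e v) * G v) (t • e), ← integral_neg]
    refine integral_congr_ae (Filter.Eventually.of_forall fun v => ?_)
    simp only
    have h1 : r * inner ℝ e (v - t • e) = r * inner ℝ e v - Real.pi := by
      rw [inner_sub_right, real_inner_smul_right, hee, ht]
      field_simp
    rw [h1, Real.cos_sub_pi]
    ring
  have h2 : 2 * ∫ v, Real.cos (r * inner ℝ e v) * G v =
      ∫ v, Real.cos (r * inner ℝ e v) * (G v - G (v - t • e)) := by
    have h3 : ∫ v, Real.cos (r * inner ℝ e v) * (G v - G (v - t • e)) =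
        ∫ v, (Real.cos (r * inner ℝ e v) * G v - Real.cos (r * inner ℝ e v) * G (v - t • e)) := by
      refine integral_congr_ae (Filter.Eventually.of_forall fun v => ?_)
      simp only
      ring
    rw [h3, integral_sub (hb _ hGi) (hb _ hGs), two_mul]
    nth_rewrite 2 [hshift]
    ring
  -- the sign
  set q : V s → ℝ := fun v => if t / 2 ≤ inner ℝ e v then -1 else 1 with hq
  have hqm : Measurable q := by
    refine Measurable.ite ?_ measurable_const measurable_const
    exact measurableSet_le measurable_const (by fun_prop)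
  have hqb : ∀ v, ‖q v‖ ≤ 1 := by
    intro v
    simp only [hq]
    split_ifs <;> simp
  have hcmp : ∀ v, |G v - G (v - t • e)| = q v * (G v - G (v - t • e)) := by
    intro v
    have hn : ‖v - t • e‖ ^ 2 = ‖v‖ ^ 2 - 2 * t * inner ℝ e v + t ^ 2 := by
      rw [norm_sub_sq_real, real_inner_smul_right, norm_smul, he, mul_one, Real.norm_eq_abs,
        sq_abs, real_inner_comm]
      ring
    simp only [hq]
    split_ifs with h3
    · have h4 : ‖v - t • e‖ ≤ ‖v‖ := by
        refine (pow_le_pow_iff_left₀ (norm_nonneg _) (norm_nonneg _) two_ne_zero).1 ?_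
        nlinarith
      have := ha _ _ h4
      rw [abs_of_nonpos (by linarith)]
      ring
    · have h4 : ‖v‖ ≤ ‖v - t • e‖ := by
        refine (pow_le_pow_iff_left₀ (norm_nonneg _) (norm_nonneg _) two_ne_zero).1 ?_
        push Not at h3
        nlinarith
      have := ha _ _ h4
      rw [abs_of_nonneg (by linarith)]
      ring
  have hqi : ∀ g : V s → ℝ, Integrable g → Integrable fun v => q v * g v := by
    intro g hg
    exact hg.bdd_mul (c := 1) hqm.aestronglyMeasurable (Filter.Eventually.of_forall hqb)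
  have hqm' : Measurable fun v => q (v + t • e) := hqm.comp (measurable_add_const _)
  have hqi' : Integrable fun v => q (v + t • e) * G v :=
    hGi.bdd_mul (c := 1) hqm'.aestronglyMeasurable (Filter.Eventually.of_forall fun v => hqb _)
  have hS : MeasurableSet {v : V s | |inner ℝ e v| ≤ t / 2} :=
    measurableSet_le (by fun_prop) measurable_const
  have h5 : ∫ v, |G v - G (v - t • e)| ≤ 2 * ∫ v in {v : V s | |inner ℝ e v| ≤ t / 2}, G v := by
    have h6 : ∫ v, |G v - G (v - t • e)| = ∫ v, (q v * G v - q (v + t • e) * G v) := by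
      have h7 : ∫ v, |G v - G (v - t • e)| = ∫ v, (q v * G v - q v * G (v - t • e)) := by
        refine integral_congr_ae (Filter.Eventually.of_forall fun v => ?_)
        simp only
        rw [hcmp]
        ring
      have h8 : ∫ v, q v * G (v - t • e) = ∫ v, q (v + t • e) * G v := by
        rw [← integral_sub_right_eq_self (μ := (volume : Measure (V s)))
          (fun v => q (v + t • e) * G v) (t • e)]
        refine integral_congr_ae (Filter.Eventually.of_forall fun v => ?_)
        simp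
      rw [h7, integral_sub (hqi _ hGi) (hqi _ hGs), integral_sub (hqi _ hGi) hqi', h8]
    rw [h6, ← integral_const_mul, ← integral_indicator hS]
    refine integral_mono ((hqi _ hGi).sub hqi') ((hGi.const_mul 2).indicator hS) fun v => ?_
    simp only
    have h9 : inner ℝ e (v + t • e) = inner ℝ e v + t := by
      rw [inner_add_right, real_inner_smul_right, hee, mul_one]
    have h10 := h.nonneg v
    by_cases hv : |inner ℝ e v| ≤ t / 2
    · have hv' : v ∈ {v : V s | |inner ℝ e v| ≤ t / 2} := hv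
      rw [indicator_of_mem hv']
      have h11 := hqb v
      have h12 := hqb (v + t • e)
      rw [Real.norm_eq_abs, abs_le] at h11 h12
      nlinarith
    · have hv' : v ∉ {v : V s | |inner ℝ e v| ≤ t / 2} := hv
      rw [indicator_of_notMem hv']
      have : q v = q (v + t • e) := by
        simp only [hq, h9]
        rcases lt_or_ge (inner ℝ e v) (t / 2) with h13 | h13
        · have h14 : inner ℝ e v < -(t / 2) := by
            by_contra h15
            exact hv (abs_le.2 ⟨by linarith, h13.le⟩)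
          rw [if_neg (not_le.2 h13), if_neg (by linarith)]
        · rw [if_pos h13, if_pos (by linarith)]
      rw [this, sub_self]
  have h6 : |2 * ∫ v, Real.cos (r * inner ℝ e v) * G v| ≤ ∫ v, |G v - G (v - t • e)| := by
    rw [h2, ← Real.norm_eq_abs]
    refine norm_integral_le_of_norm_le (hGi.sub hGs).abs (Filter.Eventually.of_forall fun v => ?_)
    rw [norm_mul, Real.norm_eq_abs, Real.norm_eq_abs]
    have := Real.abs_cos_le_one (r * inner ℝ e v)
    have h7 := abs_nonneg (G v - G (v - t • e))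
    nlinarith
  rw [abs_mul, abs_of_pos (by norm_num : (0 : ℝ) < 2)] at h6
  linarith

theorem rd_d2 {s : ℕ} {G : V s → ℝ} (h : RD s G) (ha : ∀ v w, ‖v‖ ≤ ‖w‖ → G w ≤ G v)
    (e : V s) (r : ℝ) {R : ℝ} (hR : 1 ≤ R) :
    |(∫ v, Real.cos (r * inner ℝ e v) * G v) - ∫ v, Real.cos (R * r * inner ℝ e v) * G v| ≤
      2 * (1 - (R ^ s)⁻¹) := by
  obtain ⟨hGi, hG1⟩ := rd_integrable h
  have hR0 : 0 < R := by linarith
  have hfr : Module.finrank ℝ (V s) = s := by simp
  have hcos : Measurable fun v : V s => Real.cos (r * inner ℝ e v) := by fun_prop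
  have hRs : 0 < R ^ s := by positivity
  have hGR : Integrable fun v : V s => G (R⁻¹ • v) := hGi.comp_smul (inv_ne_zero hR0.ne')
  have hb : ∀ g : V s → ℝ, Integrable g → Integrable fun v => Real.cos (r * inner ℝ e v) * g v := by
    intro g hg
    refine hg.bdd_mul (c := 1) hcos.aestronglyMeasurable ?_
    exact Filter.Eventually.of_forall fun v => by simpa using Real.abs_cos_le_one _
  have h1 : ∫ v, Real.cos (R * r * inner ℝ e v) * G v =
      (R ^ s)⁻¹ * ∫ v, Real.cos (r * inner ℝ e v) * G (R⁻¹ • v) := by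
    have h2 := Measure.integral_comp_smul (volume : Measure (V s))
      (fun v => Real.cos (r * inner ℝ e v) * G (R⁻¹ • v)) R
    rw [hfr, abs_of_pos (by positivity), smul_eq_mul] at h2
    rw [← h2]
    refine integral_congr_ae (Filter.Eventually.of_forall fun v => ?_)
    simp only
    rw [smul_smul, inv_mul_cancel₀ hR0.ne', one_smul, real_inner_smul_right]
    ring_nf
  have h3 : ∫ v, G (R⁻¹ • v) = R ^ s := by
    have h2 := Measure.integral_comp_smul (volume : Measure (V s)) G R⁻¹
    rw [hfr, hG1, smul_eq_mul, mul_one, inv_pow, inv_inv, abs_of_pos (by positivity)] at h2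
    exact h2
  have h4 : (∫ v, Real.cos (r * inner ℝ e v) * G v) - ∫ v, Real.cos (R * r * inner ℝ e v) * G v =
      ∫ v, Real.cos (r * inner ℝ e v) * (G v - (R ^ s)⁻¹ * G (R⁻¹ • v)) := by
    rw [h1, ← integral_const_mul, ← integral_sub (hb _ hGi) ((hb _ hGR).const_mul _)]
    refine integral_congr_ae (Filter.Eventually.of_forall fun v => ?_)
    simp only
    ring
  have hinv1 : (R ^ s)⁻¹ ≤ 1 := inv_le_one_of_one_le₀ (one_le_pow₀ hR)
  have hinv0 : 0 ≤ (R ^ s)⁻¹ := by positivity
  have h5 : ∫ v, ((1 - (R ^ s)⁻¹) * G v + (R ^ s)⁻¹ * (G (R⁻¹ • v) - G v)) = 2 * (1 - (R ^ s)⁻¹) := by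
    have hi : Integrable fun v => (R ^ s)⁻¹ * (G (R⁻¹ • v) - G v) := (hGR.sub hGi).const_mul _
    rw [integral_add (hGi.const_mul _) hi, integral_const_mul, integral_const_mul,
      integral_sub hGR hGi, hG1, h3]
    field_simp
    ring
  rw [h4, ← h5, ← Real.norm_eq_abs]
  have hi2 : Integrable fun v => (1 - (R ^ s)⁻¹) * G v + (R ^ s)⁻¹ * (G (R⁻¹ • v) - G v) :=
    (hGi.const_mul _).add ((hGR.sub hGi).const_mul _)
  refine norm_integral_le_of_norm_le hi2 (Filter.Eventually.of_forall fun v => ?_)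
  rw [norm_mul, Real.norm_eq_abs, Real.norm_eq_abs]
  have h6 : G v ≤ G (R⁻¹ • v) := by
    refine ha _ _ ?_
    rw [norm_smul, Real.norm_of_nonneg (by positivity)]
    have : R⁻¹ ≤ 1 := inv_le_one_of_one_le₀ hR
    nlinarith [norm_nonneg v]
  have h7 := h.nonneg v
  have h8 : |G v - (R ^ s)⁻¹ * G (R⁻¹ • v)| ≤
      (1 - (R ^ s)⁻¹) * G v + (R ^ s)⁻¹ * (G (R⁻¹ • v) - G v) := by
    have h9 : G v - (R ^ s)⁻¹ * G (R⁻¹ • v) =
        (1 - (R ^ s)⁻¹) * G v - (R ^ s)⁻¹ * (G (R⁻¹ • v) - G v) := by ring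
    have h10 : 0 ≤ (1 - (R ^ s)⁻¹) * G v := mul_nonneg (by linarith) h7
    have h11 : 0 ≤ (R ^ s)⁻¹ * (G (R⁻¹ • v) - G v) := mul_nonneg hinv0 (by linarith)
    rw [h9, abs_le]
    constructor <;> linarith
  have := Real.abs_cos_le_one (r * inner ℝ e v)
  have h12 := abs_nonneg (G v - (R ^ s)⁻¹ * G (R⁻¹ • v))
  nlinarith

private theorem le_of_eps0 {x y c : ℝ} (hc : 0 ≤ c)
    (h : ∀ ε : ℝ, 0 < ε → ε ≤ 1 → x ≤ y + c * ε) : x ≤ y := by
  refine le_of_forall_pos_le_add fun δ hδ => ?_
  have h1 : 0 < min 1 (δ / (c + 1)) := lt_min one_pos (by positivity)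
  refine (h _ h1 (min_le_left _ _)).trans ?_
  have h2 : c * min 1 (δ / (c + 1)) ≤ c * (δ / (c + 1)) :=
    mul_le_mul_of_nonneg_left (min_le_right _ _) hc
  have h3 : c * (δ / (c + 1)) ≤ δ := by
    rw [mul_div_assoc', div_le_iff₀ (by positivity)]
    nlinarith
  linarith

/-- Decay for symmetric log-concave probability measures on the line with variance `1`. -/
theorem dec_rad1 : ∃ K : ℝ, 0 < K ∧ ∀ σ : Measure (V 1), Rad 1 σ → ∀ e : V 1, ‖e‖ = 1 →
    (∀ r : ℝ, 0 < r → |∫ v, Real.cos (r * inner ℝ e v) ∂σ| ≤ K * r⁻¹) ∧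
    ∀ r : ℝ, 0 ≤ r → ∀ R : ℝ, 1 ≤ R →
      |(∫ v, Real.cos (r * inner ℝ e v) ∂σ) - ∫ v, Real.cos (R * r * inner ℝ e v) ∂σ| ≤
        2 * (1 - R⁻¹) := by
  obtain ⟨C, hC, hbd⟩ := exists_bound' (s := 1) one_pos
  set c : ℝ := (volume (Metric.closedBall (0 : V 1) 1)).toReal with hc
  have hcfin : volume (Metric.closedBall (0 : V 1) 1) ≠ ∞ := measure_closedBall_lt_top.ne
  have hcpos : 0 < c := ENNReal.toReal_pos (Metric.measure_closedBall_pos volume _ one_pos).ne' hcfin
  refine ⟨C * c * Real.pi, by positivity, fun σ hσ e he => ⟨fun r hr => ?_, fun r hr R hR => ?_⟩⟩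
  · have := hσ.prob
    refine le_of_eps0 hr.le fun ε hε hε1 => ?_
    have hRD := rd_Gd hσ hε hε1
    have ha : ∀ v w : V 1, ‖v‖ ≤ ‖w‖ → Gd σ ε w ≤ Gd σ ε v := fun v w => gd_anti hσ hε
    have h1 := rd_d1 hRD ha he hr
    have h2 := smooth_close (σ := σ) hε he hr.le
    obtain ⟨hGi, -⟩ := rd_integrable hRD
    have hsub : {v : V 1 | |inner ℝ e v| ≤ Real.pi / r / 2} ⊆
        Metric.closedBall (0 : V 1) (Real.pi / r / 2) := by
      intro v hv
      have hv' : |inner ℝ e v| ≤ Real.pi / r / 2 := hv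
      rw [mem_closedBall_zero_iff]
      have h3 : |inner ℝ e v| = ‖v‖ := by
        have h4 : inner ℝ e v = e 0 * v 0 := by
          simp [PiLp.inner_apply, mul_comm]
        rw [h4, abs_mul, ← one_norm, ← one_norm, he, one_mul]
      rwa [h3] at hv'
    have ht : 0 ≤ Real.pi / r / 2 := by positivity
    have hfr : Module.finrank ℝ (V 1) = 1 := by simp
    have hvol : (volume (Metric.closedBall (0 : V 1) (Real.pi / r / 2))).toReal =
        Real.pi / r / 2 * c := by
      rw [Measure.addHaar_closedBall' volume (0 : V 1) ht, hfr, pow_one, ENNReal.toReal_mul,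
        ENNReal.toReal_ofReal ht]
    have h3 : ∫ v in {v : V 1 | |inner ℝ e v| ≤ Real.pi / r / 2}, Gd σ ε v ≤
        C * (Real.pi / r / 2 * c) := by
      calc ∫ v in {v : V 1 | |inner ℝ e v| ≤ Real.pi / r / 2}, Gd σ ε v
          ≤ ∫ v in Metric.closedBall (0 : V 1) (Real.pi / r / 2), Gd σ ε v :=
            setIntegral_mono_set hGi.integrableOn
              (Filter.Eventually.of_forall fun v => hRD.nonneg v)
              (Filter.Eventually.of_forall hsub)
        _ ≤ ∫ _v in Metric.closedBall (0 : V 1) (Real.pi / r / 2), C := by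
            refine setIntegral_mono_on hGi.integrableOn
              (integrableOn_const measure_closedBall_lt_top.ne)
              Metric.isClosed_closedBall.measurableSet fun v _ => hbd _ hRD ha v
        _ = C * (Real.pi / r / 2 * c) := by
            rw [setIntegral_const, smul_eq_mul, mul_comm C]
            congr 1
    have h4 : |∫ v, Real.cos (r * inner ℝ e v) ∂σ| ≤
        |∫ v, Real.cos (r * inner ℝ e v) * Gd σ ε v| +
          |(∫ v, Real.cos (r * inner ℝ e v) * Gd σ ε v) - ∫ w, Real.cos (r * inner ℝ e w) ∂σ| := by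
      have h4 := abs_sub_abs_le_abs_sub (∫ v, Real.cos (r * inner ℝ e v) ∂σ)
        (∫ v, Real.cos (r * inner ℝ e v) * Gd σ ε v)
      rw [abs_sub_comm (∫ v, Real.cos (r * inner ℝ e v) ∂σ)] at h4
      linarith
    have h5 : C * (Real.pi / r / 2 * c) ≤ C * c * Real.pi * r⁻¹ := by
      have : C * c * Real.pi * r⁻¹ = 2 * (C * (Real.pi / r / 2 * c)) := by
        field_simp
      rw [this]
      have : 0 ≤ C * (Real.pi / r / 2 * c) := by positivity
      linarith
    linarith
  · have := hσ.prob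
    have hRr : 0 ≤ R * r := by positivity
    refine le_of_eps0 (c := r + R * r) (by positivity) fun ε hε hε1 => ?_
    have hRD := rd_Gd hσ hε hε1
    have ha : ∀ v w : V 1, ‖v‖ ≤ ‖w‖ → Gd σ ε w ≤ Gd σ ε v := fun v w => gd_anti hσ hε
    have h1 := rd_d2 hRD ha e r hR
    rw [pow_one] at h1
    have h2 := smooth_close (σ := σ) hε he hr
    have h3 := smooth_close (σ := σ) hε he hRr
    rw [abs_le] at h1 h2 h3 ⊢
    constructor <;> linarith [h1.1, h1.2, h2.1, h2.2, h3.1, h3.2]

/-- The one dimensional marginal in the direction `θ`. -/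
noncomputable def marg {n : ℕ} (θ : V n) : V n →ₗ[ℝ] V 1 where
  toFun y := WithLp.toLp 2 fun _ => inner ℝ θ y
  map_add' x y := by
    ext i
    simp [inner_add_right]
  map_smul' c x := by
    ext i
    simp [real_inner_smul_right]

theorem marg_apply {n : ℕ} (θ y : V n) : marg θ y 0 = inner ℝ θ y := rfl

theorem measurable_marg {n : ℕ} (θ : V n) : Measurable (marg θ) :=
  (LinearMap.continuous_of_finiteDimensional (marg θ)).measurable

theorem one_isom (O : V 1 ≃ₗᵢ[ℝ] V 1) : (∀ v, O v = v) ∨ ∀ v, O v = -v := by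
  set e : V 1 := EuclideanSpace.single 0 1 with he
  have hv : ∀ v : V 1, v = v 0 • e := by
    intro v
    ext i
    rw [Subsingleton.elim i 0]
    simp [he]
  have h1 : |O e 0| = 1 := by
    rw [← one_norm, O.norm_map, he, one_norm]
    simp
  have h2 : ∀ v, O v = (v 0 * O e 0) • e := by
    intro v
    conv_lhs => rw [hv v, map_smul, hv (O e)]
    rw [smul_smul]
  rcases eq_or_eq_neg_of_abs_eq h1 with h3 | h3
  · left
    intro v
    rw [h2, h3, mul_one, ← hv]
  · right
    intro v
    rw [h2, h3, mul_neg, mul_one, neg_smul, ← hv]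

theorem rad_marg {n : ℕ} {ν : Measure (V n)} (hs : SymP ν) (hlc : LC ν)
    (hint : ∀ ξ : V n, Integrable (fun y => inner ℝ ξ y ^ 2) ν)
    (hiso : ∀ ξ : V n, ∫ y, inner ℝ ξ y ^ 2 ∂ν = ‖ξ‖ ^ 2) {θ : V n} (hθ : ‖θ‖ = 1) :
    Rad 1 (ν.map (marg θ)) := by
  have := hs.prob
  refine ⟨Measure.isProbabilityMeasure_map (measurable_marg θ).aemeasurable,
    hlc.map _ (measurable_marg θ), ?_, ?_⟩
  · intro O
    rcases one_isom O with h | h
    · have : (O : V 1 → V 1) = id := funext h
      rw [this, Measure.map_id]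
    · have h1 : (O : V 1 → V 1) = fun v => -v := funext h
      rw [h1, Measure.map_map measurable_neg (measurable_marg θ)]
      conv_rhs => rw [← hs.symm, Measure.map_map (measurable_marg θ) measurable_neg]
      congr 1
      funext y
      simp
  · rw [lintegral_map (by fun_prop) (measurable_marg θ)]
    have h1 : ∀ y, ‖marg θ y‖ₑ ^ (2 : ℝ) = ENNReal.ofReal (inner ℝ θ y ^ 2) := by
      intro y
      rw [← ofReal_norm, ENNReal.ofReal_rpow_of_nonneg (norm_nonneg _) (by norm_num), one_norm,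
        marg_apply]
      congr 1
      norm_num
    simp_rw [h1]
    rw [← ofReal_integral_eq_lintegral_ofReal (hint θ)
      (Filter.Eventually.of_forall fun y => sq_nonneg _), hiso, hθ]
    simp

/-- **Decay for symmetric isotropic log-concave measures**, with an absolute constant. -/
theorem dec_lc : ∃ K : ℝ, 0 < K ∧ ∀ (n : ℕ) (ν : Measure (V n)), SymP ν → LC ν →
    (∀ ξ : V n, Integrable (fun y => inner ℝ ξ y ^ 2) ν) →
    (∀ ξ : V n, ∫ y, inner ℝ ξ y ^ 2 ∂ν = ‖ξ‖ ^ 2) → Dec 1 1 K ν := by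
  obtain ⟨K, hK, h⟩ := dec_rad1
  refine ⟨max K 2, lt_of_lt_of_le hK (le_max_left _ _), fun n ν hs hlc hint hiso => ?_⟩
  have := hs.prob
  have key : ∀ ξ : V n, ξ ≠ 0 → ∃ σ : Measure (V 1), Rad 1 σ ∧ ∀ c : ℝ,
      ft ν (c • ξ) =
        ∫ w, Real.cos (c * ‖ξ‖ * inner ℝ (EuclideanSpace.single (0 : Fin 1) (1 : ℝ)) w) ∂σ := by
    intro ξ hξ
    have hn : 0 < ‖ξ‖ := norm_pos_iff.2 hξ
    refine ⟨ν.map (marg (‖ξ‖⁻¹ • ξ)), rad_marg hs hlc hint hiso (by
      rw [norm_smul, norm_inv, norm_norm, inv_mul_cancel₀ hn.ne']), fun c => ?_⟩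
    rw [integral_map (measurable_marg _).aemeasurable]
    · unfold ft
      refine integral_congr_ae (Filter.Eventually.of_forall fun y => ?_)
      simp only
      congr 1
      rw [EuclideanSpace.inner_single_left, marg_apply, inner_smul_left, inner_smul_left]
      simp only [conj_trivial, map_one, one_mul, map_inv₀]
      field_simp
    · refine Continuous.aestronglyMeasurable ?_
      fun_prop
  have hci : ∀ ξ : V n, Integrable (fun y => Real.cos (inner ℝ ξ y)) ν := by
    intro ξ
    refine Integrable.of_bound (C := 1) ?_ (Filter.Eventually.of_forall fun y => ?_)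
    · exact Continuous.aestronglyMeasurable (by fun_prop)
    · rw [Real.norm_eq_abs]; exact Real.abs_cos_le_one _
  have hlip : ∀ (ξ : V n) (a b : ℝ), |ft ν (a • ξ) - ft ν (b • ξ)| ≤ |a - b| * ‖ξ‖ := by
    intro ξ a b
    by_cases hξ : ξ = 0
    · subst hξ
      simp
    have hn : 0 < ‖ξ‖ := norm_pos_iff.2 hξ
    have h2 : Integrable (fun y => |a - b| * ((inner ℝ ξ y ^ 2 / ‖ξ‖ + ‖ξ‖) / 2)) ν := by
      have := ((((hint ξ).div_const ‖ξ‖).add (integrable_const ‖ξ‖)).div_const 2).const_mul |a - b|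
      exact this
    unfold ft
    rw [← integral_sub (hci _) (hci _), ← Real.norm_eq_abs]
    refine (norm_integral_le_of_norm_le h2 (Filter.Eventually.of_forall fun y => ?_)).trans ?_
    · rw [Real.norm_eq_abs]
      have h3 : |Real.cos (inner ℝ (a • ξ) y) - Real.cos (inner ℝ (b • ξ) y)| ≤
          |inner ℝ (a • ξ) y - inner ℝ (b • ξ) y| := Real.abs_cos_sub_cos_le _ _
      refine h3.trans ?_
      rw [real_inner_smul_left, real_inner_smul_left, ← sub_mul, abs_mul]
      refine mul_le_mul_of_nonneg_left ?_ (abs_nonneg _)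
      have h3 : 0 ≤ (|inner ℝ ξ y| - ‖ξ‖) ^ 2 := sq_nonneg _
      have h4 : |(inner ℝ ξ y : ℝ)| ^ 2 = (inner ℝ ξ y : ℝ) ^ 2 := sq_abs _
      rw [le_div_iff₀ (by norm_num), ← sub_nonneg]
      have h5 : (inner ℝ ξ y : ℝ) ^ 2 / ‖ξ‖ + ‖ξ‖ - |(inner ℝ ξ y : ℝ)| * 2 =
          (|(inner ℝ ξ y : ℝ)| - ‖ξ‖) ^ 2 / ‖ξ‖ := by
        rw [← h4]
        field_simp
        ring
      rw [h5]
      positivity
    · rw [integral_const_mul, integral_div, integral_add ((hint ξ).div_const _)
        (integrable_const _), integral_div, hiso ξ]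
      simp only [integral_const, probReal_univ, one_smul, smul_eq_mul]
      refine le_of_eq ?_
      field_simp
      ring
  have hm2 : (2 : ℝ) ≤ max K 2 := le_max_right _ _
  refine ⟨hs, ?_, ?_, ?_⟩
  · -- d0
    intro ξ
    have h1 := hlip ξ 1 0
    rw [one_smul, zero_smul, sub_zero, abs_one, one_mul] at h1
    have h2 : ft ν 0 = 1 := by
      unfold ft
      simp
    rw [h2] at h1
    nlinarith [norm_nonneg ξ]
  · -- d1
    intro ξ hξ
    have hn : 0 < ‖ξ‖ := norm_pos_iff.2 hξ
    obtain ⟨σ, hσ, hf⟩ := key ξ hξ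
    have h1 := (h σ hσ (EuclideanSpace.single 0 1) (by simp)).1 ‖ξ‖ hn
    have h2 := hf 1
    rw [one_smul, one_mul] at h2
    rw [h2, Real.rpow_neg_one]
    refine h1.trans ?_
    gcongr
    exact le_max_left _ _
  · -- d2
    intro ξ t ht0 ht1
    have hdif : ∀ φ : ℕ → ℝ, dif 1 φ = φ 0 - φ 1 := by
      intro φ
      unfold dif
      rw [Finset.sum_range_succ, Finset.sum_range_succ]
      simp
      ring
    rw [hdif, pow_one]
    simp only [Nat.cast_zero, zero_mul, Real.exp_zero, Nat.cast_one, one_mul]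
    have hR : 1 ≤ Real.exp t := Real.one_le_exp ht0
    have hbet : bet 1 1 ‖ξ‖ = if ‖ξ‖ ≤ 1 then ‖ξ‖ else 1 := by
      unfold bet
      simp
    rw [hbet]
    split_ifs with hx
    · refine (hlip ξ 1 (Real.exp t)).trans ?_
      have h1 : |1 - Real.exp t| ≤ 2 * t := by
        rw [abs_of_nonpos (by linarith)]
        have h2 := Real.abs_exp_sub_one_le (x := t) (by rw [abs_of_nonneg ht0]; exact ht1)
        rw [abs_of_nonneg (by linarith), abs_of_nonneg ht0] at h2
        linarith
      have h2 : 2 * t ≤ max K 2 * t := by nlinarith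
      exact mul_le_mul_of_nonneg_right (h1.trans h2) (norm_nonneg _)
    · have hξ : ξ ≠ 0 := by
        rintro rfl
        simp at hx
      obtain ⟨σ, hσ, hf⟩ := key ξ hξ
      have h1 := (h σ hσ (EuclideanSpace.single 0 1) (by simp)).2 ‖ξ‖ (norm_nonneg _) _ hR
      have h2 := hf 1
      rw [one_mul] at h2
      rw [h2, hf]
      refine h1.trans ?_
      have h3 : 1 - (Real.exp t)⁻¹ ≤ t := by
        rw [← Real.exp_neg]
        have := Real.add_one_le_exp (-t)
        linarith
      nlinarith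

end Pool.Agent.MO
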