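import Pool.Agent.MO.Defs
import Pool.Agent.MO.Dec0
import Pool.Agent.CB.GenIso
import Pool.Agent.CB.Cor

/-!
# MO-Body: from one octave to all scales, for symmetric convex bodies

`crit`: the criterion of the CB library with local boundedness at the exponent `p0` as a hypothesis. `dec_lc` gives
`Dec 1 1 K0` for the image of the uniform measure in isotropic position; `locBdd_map` transfers the local bound.
-/

set_option autoImplicit false

open MeasureTheory Set
open scoped ENNReal NNReal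

namespace Pool.Agent.MO

open Pool.Agent.CB

/-- Uniform boundedness at the exponent `q` of all measures with `Dec a N K` and `LocBdd p0 D`. -/
def RgL (a : ℝ) (N : ℕ) (K p0 : ℝ) (D : ℝ≥0) (q : ℝ) : Prop :=
  ∃ C : ℝ≥0, ∀ (n : ℕ) (μ : Measure (V n)), Dec a N K μ → LocBdd p0 (D : ℝ≥0∞) μ →
    MX.BddF q (C : ℝ≥0∞) μ

theorem rgL_two {a K p0 : ℝ} {N : ℕ} {D : ℝ≥0} (hK : 0 ≤ K) (ha : 1 / 2 < a) (haN : a ≤ N) :
    RgL a N K p0 D 2 := by
  obtain ⟨C, hC⟩ := rg_two hK ha haN
  exact ⟨C, fun n μ hμ _ => hC n μ hμ⟩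

theorem rgL_step {a K : ℝ} {N : ℕ} {D : ℝ≥0} (hK : 0 ≤ K) (ha : 1 / 2 < a) (haN : a ≤ N)
    {p0 q ρ : ℝ} (h1 : p0 < 2) (hp0 : 1 < p0) (hq : p0 < q) (_hq2 : q ≤ 2)
    (hρ : 1 / ρ < 1 / 2 + (1 - p0 / 2) / q) (hρ0 : 0 < ρ) (hρ2 : ρ ≤ 2)
    (h : RgL a N K p0 D q) : RgL a N K p0 D ρ := by
  rcases hρ2.eq_or_lt with h2 | h2
  · rw [h2]; exact rgL_two hK ha haN
  have hN : 1 ≤ N := by
    have : (0 : ℝ) < N := by linarith
    exact_mod_cast this
  obtain ⟨B, hB⟩ := h
  obtain ⟨K1, hK1, hg⟩ := exists_dec_gam (show 0 < a by linarith) hN haN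
  obtain ⟨r, hr⟩ : ∃ r : ℝ, r = 1 / (1 / 2 + (1 - p0 / 2) / q) := ⟨_, rfl⟩
  have hq0 : 0 < q := by linarith
  have hden : 0 < 1 / 2 + (1 - p0 / 2) / q := by
    have : 0 ≤ (1 - p0 / 2) / q := div_nonneg (by linarith) hq0.le
    linarith
  have hrq : 1 / r = 1 / 2 + (1 - p0 / 2) / q := by rw [hr, one_div_one_div]
  have hr0 : 0 < r := by rw [hr]; positivity
  have hr1 : 1 < r := by
    rw [hr, lt_div_iff₀ hden, one_mul]
    have : (1 - p0 / 2) / q < 1 / 2 := by
      rw [div_lt_iff₀ hq0]; linarith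
    linarith
  have hr2 : r < 2 := by
    rw [hr, div_lt_iff₀ hden]
    have : 0 < (1 - p0 / 2) / q := div_pos (by linarith) hq0
    linarith
  have hrρ : r < ρ := by
    have h5 : 1 / ρ < 1 / r := by rw [hrq]; exact hρ
    exact (one_div_lt_one_div hρ0 hr0).1 h5
  obtain ⟨C, c, hC, hc, h⟩ := dec_Tj (K := max K K1) (N := N) (le_max_of_le_left hK) ha haN hp0 h1
    (show 1 < q by linarith) hr1 hr2 hrq hrρ h2 D B
  obtain ⟨B', hB'⟩ := bdd_of_Tj (ρ := ρ) (by linarith) hC hc
  refine ⟨B', fun n μ hμ hL => hB' n μ hμ.sym.prob fun S hS f hf j => ?_⟩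
  exact h n μ (hμ.mono (le_max_left _ _)) ((hg n).mono (le_max_right _ _)) hL (hB n μ hμ hL)
    S hS f hf j

/-- The criterion with local boundedness as a hypothesis. -/
theorem crit {a K : ℝ} {N : ℕ} {D : ℝ≥0} (hK : 0 ≤ K) (ha : 1 / 2 < a) (haN : a ≤ N) {p0 p : ℝ}
    (h1 : 1 < p0) (h2 : p0 < p) (hp2 : p ≤ 2) : RgL a N K p0 D p := by
  obtain ⟨δ, hδ⟩ : ∃ δ : ℝ, δ = (1 - p0 / p) / 4 := ⟨_, rfl⟩
  have hδ0 : 0 < δ := by
    rw [hδ]
    have : p0 / p < 1 := by rw [div_lt_one (by linarith)]; exact h2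
    linarith
  have key : ∀ i : ℕ, ∀ q : ℝ, p ≤ q → q ≤ 2 → 1 / q ≤ 1 / 2 + i * δ → RgL a N K p0 D q := by
    intro i
    induction i with
    | zero =>
      intro q hq1 hq2 hq
      have hq0 : 0 < q := by linarith
      have h3 : 2 ≤ q := by
        have h4 : 1 / q ≤ 1 / 2 := by simpa using hq
        exact (one_div_le_one_div hq0 (by norm_num)).1 h4
      rw [le_antisymm hq2 h3]
      exact rgL_two hK ha haN
    | succ i ih =>
      intro q hq1 hq2 hq
      have hq0 : 0 < q := by linarith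
      by_cases hc : 1 / q - δ ≤ 1 / 2
      · refine rgL_step hK ha haN (q := 2) (by linarith) h1 (by linarith) le_rfl ?_ hq0 hq2
          (rgL_two hK ha haN)
        have h5 : 1 / q ≤ 1 / 2 + δ := by linarith
        have h6 : δ < (1 - p0 / 2) / 2 := by
          rw [hδ]
          have : p0 / 2 ≤ p0 / p := div_le_div_of_nonneg_left (by linarith) (by linarith) hp2
          linarith [show 0 < 1 - p0 / 2 by linarith]
        linarith
      · push Not at hc
        have hc0 : 0 < 1 / q - δ := by linarith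
        have e1 : 1 / (1 / (1 / q - δ)) = 1 / q - δ := one_div_one_div _
        have h7 : q < 1 / (1 / q - δ) := by
          rw [lt_div_iff₀ hc0, mul_sub, mul_one_div_cancel hq0.ne']
          nlinarith
        have h8 : 1 / (1 / q - δ) < 2 := by
          rw [div_lt_iff₀ hc0]; linarith
        have h9 := ih (1 / (1 / q - δ)) (by linarith) h8.le (by
          rw [e1]
          push_cast at hq
          linarith)
        refine rgL_step hK ha haN (by linarith) h1 (by linarith) h8.le ?_ hq0 hq2 h9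
        rw [div_div_eq_mul_div, div_one]
        have hqp : 1 / q ≤ 1 / p := one_div_le_one_div_of_le (by linarith) hq1
        have h10 : 1 / 2 - p0 / 2 * (1 / q) ≥ 2 * δ := by
          have : p0 / 2 * (1 / q) ≤ p0 / 2 * (1 / p) :=
            mul_le_mul_of_nonneg_left hqp (by linarith)
          have e2 : p0 / 2 * (1 / p) = p0 / p / 2 := by ring
          rw [hδ]
          linarith
        nlinarith
  obtain ⟨M, hM⟩ := exists_nat_gt ((1 / p) / δ)
  refine key M p le_rfl hp2 ?_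
  rw [div_lt_iff₀ hδ0] at hM
  linarith

section

variable {E : Type} [NormedAddCommGroup E] [NormedSpace ℝ E] [FiniteDimensional ℝ E]
  [MeasureSpace E] [BorelSpace E] [Measure.IsAddHaarMeasure (volume : Measure E)]

theorem locBdd_map {n : ℕ} (T : E ≃L[ℝ] V n) {p : ℝ} {D : ℝ≥0∞} {μ : Measure E}
    (h : LocE p D μ) : LocBdd p D (μ.map T) := by
  have hhaar : Measure.IsAddHaarMeasure ((volume : Measure E).map T) :=
    T.isAddHaarMeasure_map volume
  obtain ⟨c, hc0, hct, hc⟩ : ∃ c : ℝ≥0∞, c ≠ 0 ∧ c ≠ ∞ ∧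
      (volume : Measure E).map T = c • (volume : Measure (V n)) := by
    refine ⟨(Measure.addHaarScalarFactor ((volume : Measure E).map T) (volume : Measure (V n)) :
      ℝ≥0∞), ?_, ENNReal.coe_ne_top, ?_⟩
    · exact ENNReal.coe_ne_zero.mpr (Measure.addHaarScalarFactor_pos_of_isAddHaarMeasure _ _).ne'
    · exact Measure.isAddLeftInvariant_eq_smul _ _
  let e : E ≃ᵐ V n := T.toHomeomorph.toMeasurableEquiv
  have he : ∀ y, e y = T y := fun _ => rfl
  have hmap : ∀ g : V n → ℝ≥0∞, ∫⁻ x, g (T x) = c * ∫⁻ y, g y := by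
    intro g
    have h1 := lintegral_map_equiv (μ := (volume : Measure E)) g e
    have h2 : (volume : Measure E).map e = c • (volume : Measure (V n)) := hc
    rw [h2, lintegral_smul_measure, smul_eq_mul] at h1
    exact h1.symm
  intro k S hS f hf
  have hT : Measurable T := T.continuous.measurable
  have h1 := h k S hS (fun x => f (T x)) (hf.comp hT)
  have h2 : ∀ x : E, MX.mx μ S (fun x => f (T x)) x = MX.mx (μ.map T) S f (T x) := by
    intro x
    unfold MX.mx
    refine iSup_congr fun t => iSup_congr fun _ => ?_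
    rw [lintegral_map (by fun_prop) hT]
    refine lintegral_congr fun y => ?_
    simp only [map_add, map_smul]
  simp_rw [h2] at h1
  rw [hmap (fun y => MX.mx (μ.map T) S f y ^ p), hmap (fun y => f y ^ p)] at h1
  have h3 : c * ∫⁻ y, MX.mx (μ.map T) S f y ^ p ≤ c * (D ^ p * ∫⁻ y, f y ^ p) := by
    refine h1.trans (le_of_eq ?_)
    ring
  exact (ENNReal.mul_le_mul_iff_right hc0 hct).1 h3

end

theorem body_bdd {p0 p : ℝ} (hp0 : 1 < p0) (hp : p0 < p) (hp2 : p ≤ 2) (D : ℝ≥0) :
    ∃ C : ℝ≥0, ∀ (E : Type) [NormedAddCommGroup E] [NormedSpace ℝ E] [FiniteDimensional ℝ E]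
      [MeasureSpace E] [BorelSpace E] [Measure.IsAddHaarMeasure (volume : Measure E)]
      (K : Set E), IsCompact K → Convex ℝ K → (interior K).Nonempty → (∀ x ∈ K, -x ∈ K) →
      LocE p0 (D : ℝ≥0∞) (MX.unif K) → MX.Bdd p (C : ℝ≥0∞) K := by
  obtain ⟨K0, hK0, hdec⟩ := dec_lc
  obtain ⟨C, hC⟩ := crit (a := 1) (N := 1) (K := K0) (D := D) hK0.le (by norm_num) (by norm_num)
    hp0 hp hp2
  refine ⟨C, ?_⟩
  intro E _ _ _ _ _ _ K hK hc hi hs hloc
  obtain ⟨n, T, hT⟩ := exists_iso_gen hK hi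
  have hprob := isProb_unif hK hi
  have hTm : Measurable T := T.continuous.measurable
  set ν : Measure (V n) := (MX.unif K).map T with hν
  have hν1 : IsProbabilityMeasure ν := Measure.isProbabilityMeasure_map hTm.aemeasurable
  have hsym : SymP ν := by
    refine ⟨hν1, ?_⟩
    have h1 := unif_pres hK hi (-LinearMap.id) (-LinearMap.id) (fun x => by simp)
      (fun x hx => by simpa using hs x hx) (fun x hx => by simpa using hs x hx)
    rw [hν, Measure.map_map measurable_neg hTm]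
    conv_rhs => rw [← h1]
    rw [Measure.map_map hTm (by
      exact (LinearMap.continuous_of_finiteDimensional (-LinearMap.id : E →ₗ[ℝ] E)).measurable)]
    congr 1
    funext y
    simp
  have hlc : LC ν := (lc_unif_gen hK.measurableSet hc).map (T : E →L[ℝ] V n).toLinearMap hTm
  have hint : ∀ ξ : V n, Integrable (fun y => inner ℝ ξ y ^ 2) ν := by
    intro ξ
    rw [hν, integrable_map_measure (by fun_prop) hTm.aemeasurable]
    exact integrable_sq hK hi ((innerₛₗ ℝ ξ).comp (T : E →L[ℝ] V n).toLinearMap)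
  have hiso : ∀ ξ : V n, ∫ y, inner ℝ ξ y ^ 2 ∂ν = ‖ξ‖ ^ 2 := by
    intro ξ
    rw [hν, integral_map hTm.aemeasurable (by fun_prop)]
    exact hT ξ
  have h1 := hC n ν (hdec n ν hsym hlc hint hiso) (locBdd_map T hloc)
  refine bdd_of_map (by linarith) hK hc hi ?_ T h1
  obtain ⟨x, hx⟩ := hi
  have hx' := interior_subset hx
  have h3 := hc hx' (hs x hx') (a := 1 / 2) (b := 1 / 2) (by norm_num) (by norm_num) (by norm_num)
  simpa using h3

end Pool.Agent.MO
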