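import Pool.Agent.MO.Defs

/-!
# MO-CVa: the functions `er`, `ec`

All elementary. `er v = exp(-v)` (`0` at `∞`), `ec θ v = exp(-θ v)` (`0` at `∞`), `θ = 1 + i τ`:
`‖exp(-θ v)‖ = exp(-v)`. `ec_diff` (`v ≤ v'`): if `v' = ∞` the left side is `er v` (`0` if also `v = ∞`); if both are
finite, with `g s = exp(-θ s)`, `‖g v - g v'‖ ≤ ‖θ‖ ∫_v^{v'} exp(-s) ds = ‖θ‖ (er v - er v')`, `‖θ‖ ≤ 1 + |τ|` (or:
the function `s ↦ ‖..‖`-free argument: `image_norm_le_of_norm_deriv_right_le_deriv_boundary`, or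
`intervalIntegral.norm_integral_le_integral_norm`). `ec_sub`: `ec θ v - er v = exp(-v)(exp(-iτv) - 1)`,
`‖exp(ix) - 1‖ ≤ |x|` (`Real.norm_exp_I_mul_ofReal_sub_one_le`).
Measurability: `Measurable.ite` with the measurable set `{∞}`, `measurable ENNReal.toReal`.
-/

set_option autoImplicit false

open MeasureTheory Set
open scoped ENNReal NNReal

namespace Pool.Agent.MO

theorem er_nonneg (v : ℝ≥0∞) : 0 ≤ er v := by
  unfold er
  split_ifs
  · exact le_rfl
  · exact (Real.exp_pos _).le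

theorem er_zero : er 0 = 1 := by
  simp [er]

theorem er_top : er ∞ = 0 := by
  simp [er]

private theorem er_fin {v : ℝ≥0∞} (h : v ≠ ∞) : er v = Real.exp (-v.toReal) := by
  rw [er, if_neg h]

private theorem ec_top (θ : ℂ) : ec θ ∞ = 0 := by
  simp [ec]

private theorem ec_fin (θ : ℂ) {v : ℝ≥0∞} (h : v ≠ ∞) :
    ec θ v = Complex.exp (-θ * (v.toReal : ℂ)) := by
  rw [ec, if_neg h]

theorem er_anti : Antitone er := by
  intro v v' h
  by_cases hv' : v' = ∞
  · rw [hv', er_top]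
    exact er_nonneg v
  · have hv : v ≠ ∞ := ne_top_of_le_ne_top hv' h
    rw [er_fin hv, er_fin hv']
    exact Real.exp_le_exp.2 (neg_le_neg (ENNReal.toReal_mono hv' h))

theorem er_le_one (v : ℝ≥0∞) : er v ≤ 1 := by
  rw [← er_zero]
  exact er_anti zero_le

theorem er_meas : Measurable er := by
  unfold er
  exact Measurable.ite (measurableSet_singleton ∞) measurable_const
    (Real.measurable_exp.comp ENNReal.measurable_toReal.neg)

theorem ec_meas (θ : ℂ) : Measurable (ec θ) := by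
  unfold ec
  refine Measurable.ite (measurableSet_singleton ∞) measurable_const ?_
  exact Complex.measurable_exp.comp
    (measurable_const.mul (Complex.measurable_ofReal.comp ENNReal.measurable_toReal))

theorem er_add (v w : ℝ≥0∞) : er (v + w) = er v * er w := by
  by_cases hv : v = ∞
  · rw [hv, top_add, er_top, zero_mul]
  by_cases hw : w = ∞
  · rw [hw, add_top, er_top, mul_zero]
  rw [er_fin hv, er_fin hw, er_fin (ENNReal.add_ne_top.2 ⟨hv, hw⟩), ENNReal.toReal_add hv hw,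
    neg_add, Real.exp_add]

theorem ec_add (θ : ℂ) (v w : ℝ≥0∞) : ec θ (v + w) = ec θ v * ec θ w := by
  by_cases hv : v = ∞
  · rw [hv, top_add, ec_top, zero_mul]
  by_cases hw : w = ∞
  · rw [hw, add_top, ec_top, mul_zero]
  rw [ec_fin θ hv, ec_fin θ hw, ec_fin θ (ENNReal.add_ne_top.2 ⟨hv, hw⟩),
    ENNReal.toReal_add hv hw, Complex.ofReal_add, mul_add, Complex.exp_add]

theorem er_sum {ι : Type} (s : Finset ι) (v : ι → ℝ≥0∞) :
    er (∑ i ∈ s, v i) = ∏ i ∈ s, er (v i) := by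
  classical
  induction s using Finset.induction_on with
  | empty => simp [er_zero]
  | insert i s hi ih => rw [Finset.sum_insert hi, Finset.prod_insert hi, er_add, ih]

theorem ec_sum (θ : ℂ) {ι : Type} (s : Finset ι) (v : ι → ℝ≥0∞) :
    ec θ (∑ i ∈ s, v i) = ∏ i ∈ s, ec θ (v i) := by
  classical
  induction s using Finset.induction_on with
  | empty => simp [ec]
  | insert i s hi ih => rw [Finset.sum_insert hi, Finset.prod_insert hi, ec_add, ih]

private theorem norm_ce (τ s : ℝ) :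
    ‖Complex.exp (-(1 + τ * Complex.I) * (s : ℂ))‖ = Real.exp (-s) := by
  rw [Complex.norm_exp]
  congr 1
  simp

theorem ec_norm (τ : ℝ) (v : ℝ≥0∞) : ‖ec (1 + τ * Complex.I) v‖ = er v := by
  by_cases hv : v = ∞
  · rw [hv, ec_top, er_top, norm_zero]
  · rw [ec_fin _ hv, er_fin hv, norm_ce]

private theorem norm_th (τ : ℝ) : ‖(1 + τ * Complex.I : ℂ)‖ ≤ 1 + |τ| := by
  refine (norm_add_le _ _).trans ?_
  rw [norm_one, norm_mul, Complex.norm_I, mul_one, Complex.norm_real, Real.norm_eq_abs]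

private theorem ce_diff (τ : ℝ) {x y : ℝ} (h : x ≤ y) :
    ‖Complex.exp (-(1 + τ * Complex.I) * (x : ℂ)) - Complex.exp (-(1 + τ * Complex.I) * (y : ℂ))‖ ≤
      (1 + |τ|) * (Real.exp (-x) - Real.exp (-y)) := by
  have hd : ∀ s : ℝ, HasDerivAt
      (fun s : ℝ => Complex.exp (-(1 + τ * Complex.I) * (x : ℂ)) -
        Complex.exp (-(1 + τ * Complex.I) * (s : ℂ)))
      (-(Complex.exp (-(1 + τ * Complex.I) * (s : ℂ)) * (-(1 + τ * Complex.I)))) s := by
    intro s
    have h1 : HasDerivAt (fun s : ℝ => (-(1 + τ * Complex.I)) * (s : ℂ))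
        (-(1 + τ * Complex.I)) s := by
      have h2 := (Complex.ofRealCLM.hasDerivAt (x := s)).const_mul (-(1 + τ * Complex.I))
      simpa using h2
    have h3 := h1.cexp
    exact h3.const_sub _
  have hB : ∀ s : ℝ, HasDerivAt (fun s : ℝ => (1 + |τ|) * (Real.exp (-x) - Real.exp (-s)))
      ((1 + |τ|) * Real.exp (-s)) s := by
    intro s
    have h1 : HasDerivAt (fun s : ℝ => Real.exp (-s)) (Real.exp (-s) * (-1)) s :=
      (hasDerivAt_neg s).exp
    have h2 := (h1.const_sub (Real.exp (-x))).const_mul (1 + |τ|)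
    have h3 : (1 + |τ|) * -(Real.exp (-s) * (-1)) = (1 + |τ|) * Real.exp (-s) := by ring
    rw [h3] at h2
    exact h2
  have key := image_norm_le_of_norm_deriv_right_le_deriv_boundary (a := x) (b := y)
    (f := fun s : ℝ => Complex.exp (-(1 + τ * Complex.I) * (x : ℂ)) -
        Complex.exp (-(1 + τ * Complex.I) * (s : ℂ)))
    (f' := fun s : ℝ => -(Complex.exp (-(1 + τ * Complex.I) * (s : ℂ)) * (-(1 + τ * Complex.I))))
    (fun s _ => (hd s).continuousAt.continuousWithinAt)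
    (fun s _ => (hd s).hasDerivWithinAt)
    (B := fun s : ℝ => (1 + |τ|) * (Real.exp (-x) - Real.exp (-s)))
    (B' := fun s : ℝ => (1 + |τ|) * Real.exp (-s))
    (by simp) hB
    (by
      intro s _
      rw [norm_neg, norm_mul, norm_ce, norm_neg, mul_comm]
      exact mul_le_mul_of_nonneg_right (norm_th τ) (Real.exp_pos _).le)
  exact key (Set.right_mem_Icc.2 h)

theorem ec_diff (τ : ℝ) {v v' : ℝ≥0∞} (h : v ≤ v') :
    ‖ec (1 + τ * Complex.I) v - ec (1 + τ * Complex.I) v'‖ ≤ (1 + |τ|) * (er v - er v') := by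
  by_cases hv' : v' = ∞
  · rw [hv', ec_top, er_top, sub_zero, sub_zero, ec_norm]
    have h1 := er_nonneg v
    have h2 := abs_nonneg τ
    nlinarith
  · have hv : v ≠ ∞ := ne_top_of_le_ne_top hv' h
    rw [er_fin hv, er_fin hv', ec_fin _ hv, ec_fin _ hv']
    exact ce_diff τ (ENNReal.toReal_mono hv' h)

theorem ec_sub (τ : ℝ) (v : ℝ≥0∞) :
    ‖ec (1 + τ * Complex.I) v - (er v : ℂ)‖ ≤ |τ| * (v.toReal * er v) := by
  by_cases hv : v = ∞
  · rw [hv, ec_top, er_top]
    simp
  · rw [er_fin hv, ec_fin _ hv]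
    have h1 : Complex.exp (-(1 + τ * Complex.I) * (v.toReal : ℂ)) -
        ((Real.exp (-v.toReal) : ℝ) : ℂ) =
        ((Real.exp (-v.toReal) : ℝ) : ℂ) *
          (Complex.exp (Complex.I * ((-(τ * v.toReal) : ℝ) : ℂ)) - 1) := by
      rw [mul_sub, mul_one, Complex.ofReal_exp, ← Complex.exp_add]
      congr 2
      push_cast
      ring
    rw [h1, norm_mul, Complex.norm_real, Real.norm_eq_abs, abs_of_pos (Real.exp_pos _)]
    have h2 : ‖Complex.exp (Complex.I * ((-(τ * v.toReal) : ℝ) : ℂ)) - 1‖ ≤ |τ| * v.toReal := by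
      refine (Real.norm_exp_I_mul_ofReal_sub_one_le).trans ?_
      rw [Real.norm_eq_abs, abs_neg, abs_mul, abs_of_nonneg (ENNReal.toReal_nonneg (a := v))]
    calc Real.exp (-v.toReal) * ‖Complex.exp (Complex.I * ((-(τ * v.toReal) : ℝ) : ℂ)) - 1‖
        ≤ Real.exp (-v.toReal) * (|τ| * v.toReal) :=
          mul_le_mul_of_nonneg_left h2 (Real.exp_pos _).le
      _ = |τ| * (v.toReal * Real.exp (-v.toReal)) := by ring

end Pool.Agent.MO
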