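import Pool.Agent.MO.CVa

/-!
# MO-CVb: even convex functions with values in `[0,∞]`

`smul_le`: `conv` with `y = 0`, `a = t`, `b = 1 - t` (as `ℝ≥0`), `V 0 = 0`. `convex`: unfold `Convex`,
`StarConvex`; real weights `a, b ≥ 0`, `a + b = 1` become `ℝ≥0` weights. `vol`: if `V x ≤ t u` then
`V (t⁻¹ • x) ≤ t⁻¹ t u = u` (`smul_le`, `t ≥ 1`; `ENNReal` arithmetic, `u = ∞` trivial because then the right hand side set is
everything: handle by the same inclusion), so `{V ≤ t u} ⊆ t • {V ≤ u}` and `Measure.addHaar_smul`.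
`sum`: the function `x ↦ ∑ V j (x j)` on the product space is `CV` if all `V j` are. `mul`: `x ↦ c * V x`.
-/

set_option autoImplicit false

open MeasureTheory Set
open scoped ENNReal NNReal Pointwise

namespace Pool.Agent.MO

variable {E : Type} [NormedAddCommGroup E] [NormedSpace ℝ E] [FiniteDimensional ℝ E]
  [MeasureSpace E] [BorelSpace E] [Measure.IsAddHaarMeasure (volume : Measure E)]

theorem CV.smul_le {V : E → ℝ≥0∞} (h : CV V) (x : E) {t : ℝ} (ht : 0 ≤ t) (ht1 : t ≤ 1) :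
    V (t • x) ≤ ENNReal.ofReal t * V x := by
  have h1 := h.conv x 0 t.toNNReal (1 - t).toNNReal (by
    rw [← Real.toNNReal_add ht (by linarith), add_sub_cancel, Real.toNNReal_one])
  rw [h.zero, smul_zero, add_zero, mul_zero, add_zero, NNReal.smul_def,
    Real.coe_toNNReal t ht] at h1
  exact h1

theorem CV.ray {V : E → ℝ≥0∞} (h : CV V) (x : E) {t : ℝ} (ht : 0 ≤ t) (ht1 : t ≤ 1) :
    V (t • x) ≤ V x := by
  refine (h.smul_le x ht ht1).trans ?_
  have h2 : ENNReal.ofReal t ≤ 1 := by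
    rw [← ENNReal.ofReal_one]
    exact ENNReal.ofReal_le_ofReal ht1
  calc ENNReal.ofReal t * V x ≤ 1 * V x := by gcongr
    _ = V x := one_mul _

theorem CV.convex {V : E → ℝ≥0∞} (h : CV V) (u : ℝ≥0∞) : Convex ℝ {x | V x ≤ u} := by
  intro x hx y hy a b ha hb hab
  have h1 := h.conv x y a.toNNReal b.toNNReal (by
    rw [← Real.toNNReal_add ha hb, hab, Real.toNNReal_one])
  rw [NNReal.smul_def, NNReal.smul_def, Real.coe_toNNReal a ha, Real.coe_toNNReal b hb] at h1
  have h3 : (a.toNNReal : ℝ≥0∞) + (b.toNNReal : ℝ≥0∞) = 1 := by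
    rw [← ENNReal.coe_add, ← Real.toNNReal_add ha hb, hab, Real.toNNReal_one, ENNReal.coe_one]
  show V (a • x + b • y) ≤ u
  have hx' : V x ≤ u := hx
  have hy' : V y ≤ u := hy
  calc V (a • x + b • y)
      ≤ (a.toNNReal : ℝ≥0∞) * V x + (b.toNNReal : ℝ≥0∞) * V y := h1
    _ ≤ (a.toNNReal : ℝ≥0∞) * u + (b.toNNReal : ℝ≥0∞) * u := by gcongr
    _ = u := by rw [← add_mul, h3, one_mul]

theorem CV.measSet {V : E → ℝ≥0∞} (h : CV V) (u : ℝ≥0∞) : MeasurableSet {x | V x ≤ u} :=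
  h.meas measurableSet_Iic

theorem CV.vol {V : E → ℝ≥0∞} (h : CV V) (u : ℝ≥0∞) {t : ℝ} (ht : 1 ≤ t) :
    volume {x | V x ≤ ENNReal.ofReal t * u} ≤
      ENNReal.ofReal (t ^ Module.finrank ℝ E) * volume {x | V x ≤ u} := by
  have ht0 : 0 < t := by linarith
  have hsub : {x | V x ≤ ENNReal.ofReal t * u} ⊆ t • {x | V x ≤ u} := by
    intro x hx
    rw [mem_smul_set_iff_inv_smul_mem₀ ht0.ne']
    have hx' : V x ≤ ENNReal.ofReal t * u := hx
    show V (t⁻¹ • x) ≤ u
    have h1 := h.smul_le x (t := t⁻¹) (by positivity) (inv_le_one_of_one_le₀ ht)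
    calc V (t⁻¹ • x) ≤ ENNReal.ofReal t⁻¹ * V x := h1
      _ ≤ ENNReal.ofReal t⁻¹ * (ENNReal.ofReal t * u) := by gcongr
      _ = u := by
          rw [← mul_assoc, ← ENNReal.ofReal_mul (by positivity), inv_mul_cancel₀ ht0.ne',
            ENNReal.ofReal_one, one_mul]
  refine (measure_mono hsub).trans ?_
  rw [Measure.addHaar_smul, abs_of_nonneg (by positivity)]

theorem CV.mul {V : E → ℝ≥0∞} (h : CV V) (c : ℝ≥0∞) : CV fun x => c * V x := by
  refine ⟨h.meas.const_mul c, fun x => by rw [h.even], by rw [h.zero, mul_zero], ?_⟩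
  intro x y a b hab
  calc c * V (a • x + b • y) ≤ c * (a * V x + b * V y) := by
        gcongr
        exact h.conv x y a b hab
    _ = a * (c * V x) + b * (c * V y) := by ring

theorem CV.pi {m : ℕ} {n : Fin m → ℕ} {V : ∀ j, (Fin (n j) → ℝ) → ℝ≥0∞}
    (h : ∀ j, CV (V j)) : CV fun x : (∀ j, Fin (n j) → ℝ) => ∑ j, V j (x j) := by
  refine ⟨?_, ?_, ?_, ?_⟩
  · exact Finset.measurable_sum _ fun j _ => (h j).meas.comp (measurable_pi_apply j)
  · intro x
    exact Finset.sum_congr rfl fun j _ => (h j).even (x j)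
  · exact Finset.sum_eq_zero fun j _ => (h j).zero
  · intro x y a b hab
    rw [Finset.mul_sum, Finset.mul_sum, ← Finset.sum_add_distrib]
    exact Finset.sum_le_sum fun j _ => (h j).conv (x j) (y j) a b hab

end Pool.Agent.MO
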