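import Pool.Agent.MO.Tens

/-!
# MO-PolyD: product kernels depend polynomially on the parameter

`∏ j, (P j (y j) + z * Q j (y j)) = ∑_{s ⊆ univ} z^|s| (∏_{j ∈ s} Q j (y j)) (∏_{j ∉ s} P j (y j))` (`Finset.prod_add`), and
`(∏_{j ∈ s} Q j) (∏_{j ∉ s} P j) = ∏ j, (if j ∈ s then Q j else P j) (y j)` is integrable (`tens_int`). So
`∫ op (..) f g = ∑_s z^|s| ∫ op (T_s) f g` (linearity; `op T f * g` is integrable: `op T f` continuous bounded, `g` test
function), a polynomial in `z`.
-/

set_option autoImplicit false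

open MeasureTheory Set
open scoped ENNReal NNReal

namespace Pool.Agent.MO

private theorem pd_mul {E : Type} [NormedAddCommGroup E] [NormedSpace ℝ E]
    [FiniteDimensional ℝ E] [MeasureSpace E] [BorelSpace E]
    [Measure.IsAddHaarMeasure (volume : Measure E)]
    {G : E → ℂ} (hG : Integrable G) {f : E → ℂ} (hf : TF f) (x : E) :
    Integrable fun y => G y * f (x + y) := by
  obtain ⟨C, hC⟩ := hf.bdd
  have hc : Continuous fun y => f (x + y) := hf.1.comp (by fun_prop)
  refine (hG.norm.const_mul C).mono' (hG.aestronglyMeasurable.mul hc.aestronglyMeasurable)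
    (Filter.Eventually.of_forall fun y => ?_)
  rw [norm_mul, mul_comm]
  exact mul_le_mul_of_nonneg_right (hC _) (norm_nonneg _)

private theorem pd_pair {E : Type} [NormedAddCommGroup E] [NormedSpace ℝ E]
    [FiniteDimensional ℝ E] [MeasureSpace E] [BorelSpace E]
    [Measure.IsAddHaarMeasure (volume : Measure E)]
    {G : E → ℂ} (hG : Integrable G) {f g : E → ℂ} (hf : TF f) (hg : TF g) :
    Integrable fun x => op G f x * g x := by
  obtain ⟨C, hC⟩ := op_bdd hG hf
  refine (hg.int.norm.const_mul C).mono'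
    ((op_cont hG hf).aestronglyMeasurable.mul hg.1.aestronglyMeasurable)
    (Filter.Eventually.of_forall fun x => ?_)
  rw [norm_mul]
  exact mul_le_mul_of_nonneg_right (hC _) (norm_nonneg _)

private theorem pd_expand {m : ℕ} (a b : Fin m → ℂ) (z : ℂ) :
    ∏ j, (a j + z * b j) =
      ∑ t ∈ (Finset.univ : Finset (Fin m)).powerset,
        z ^ t.card * ∏ j, (if j ∈ t then b j else a j) := by
  have h1 : ∏ j, (a j + z * b j) = ∏ j, (z * b j + a j) :=
    Finset.prod_congr rfl fun j _ => add_comm _ _
  rw [h1, Finset.prod_add]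
  refine Finset.sum_congr rfl fun t _ => ?_
  rw [Finset.prod_mul_distrib, Finset.prod_const, Finset.prod_ite, Finset.filter_mem_eq_inter,
    Finset.univ_inter, Finset.filter_notMem_eq_sdiff, mul_assoc]

private theorem pd_op {E : Type} [NormedAddCommGroup E] [NormedSpace ℝ E]
    [FiniteDimensional ℝ E] [MeasureSpace E] [BorelSpace E]
    [Measure.IsAddHaarMeasure (volume : Measure E)] {ι : Type} (S : Finset ι) (c : ι → ℂ)
    (T : ι → E → ℂ) (hT : ∀ i, Integrable (T i)) {f : E → ℂ} (hf : TF f) (x : E) :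
    op (fun y => ∑ i ∈ S, c i * T i y) f x = ∑ i ∈ S, c i * op (T i) f x := by
  unfold op
  have h1 : ∀ y, (∑ i ∈ S, c i * T i y) * f (x + y) = ∑ i ∈ S, c i * (T i y * f (x + y)) := by
    intro y
    rw [Finset.sum_mul]
    exact Finset.sum_congr rfl fun i _ => mul_assoc _ _ _
  simp only [h1]
  rw [integral_finsetSum _ fun i _ => (pd_mul (hT i) hf x).const_mul (c i)]
  exact Finset.sum_congr rfl fun i _ => integral_const_mul _ _

theorem poly_diff {m : ℕ} {n : Fin m → ℕ} {P Q : ∀ j, (Fin (n j) → ℝ) → ℂ}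
    (hP : ∀ j, Integrable (P j)) (hQ : ∀ j, Integrable (Q j))
    {f g : (∀ j, Fin (n j) → ℝ) → ℂ} (hf : TF f) (hg : TF g) :
    Differentiable ℂ fun z : ℂ => ∫ x, op (fun y => ∏ j, (P j (y j) + z * Q j (y j))) f x * g x := by
  have hT : ∀ t : Finset (Fin m), Integrable fun y : (∀ j, Fin (n j) → ℝ) =>
      ∏ j, (if j ∈ t then Q j (y j) else P j (y j)) := by
    intro t
    have h1 := tens_int (n := n) (G := fun j => if j ∈ t then Q j else P j) (by
      intro j
      by_cases h : j ∈ t
      · simpa [h] using hQ j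
      · simpa [h] using hP j)
    refine h1.congr (Filter.Eventually.of_forall fun y => ?_)
    refine Finset.prod_congr rfl fun j _ => ?_
    by_cases h : j ∈ t
    · simp [h]
    · simp [h]
  have h2 : ∀ z : ℂ, ∫ x, op (fun y => ∏ j, (P j (y j) + z * Q j (y j))) f x * g x =
      ∑ t ∈ (Finset.univ : Finset (Fin m)).powerset, z ^ t.card *
        ∫ x, op (fun y : (∀ j, Fin (n j) → ℝ) =>
          ∏ j, (if j ∈ t then Q j (y j) else P j (y j))) f x * g x := by
    intro z
    have h3 : (fun y : (∀ j, Fin (n j) → ℝ) => ∏ j, (P j (y j) + z * Q j (y j))) =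
        fun y => ∑ t ∈ (Finset.univ : Finset (Fin m)).powerset, z ^ t.card *
          ∏ j, (if j ∈ t then Q j (y j) else P j (y j)) := by
      funext y
      exact pd_expand (fun j => P j (y j)) (fun j => Q j (y j)) z
    rw [h3]
    have h4 : ∀ x, op (fun y : (∀ j, Fin (n j) → ℝ) =>
        ∑ t ∈ (Finset.univ : Finset (Fin m)).powerset, z ^ t.card *
          ∏ j, (if j ∈ t then Q j (y j) else P j (y j))) f x * g x =
        ∑ t ∈ (Finset.univ : Finset (Fin m)).powerset, z ^ t.card *
          (op (fun y : (∀ j, Fin (n j) → ℝ) =>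
            ∏ j, (if j ∈ t then Q j (y j) else P j (y j))) f x * g x) := by
      intro x
      rw [pd_op _ (fun t : Finset (Fin m) => z ^ t.card)
        (fun t y => ∏ j, (if j ∈ t then Q j (y j) else P j (y j))) hT hf x, Finset.sum_mul]
      exact Finset.sum_congr rfl fun i _ => mul_assoc _ _ _
    simp only [h4]
    rw [integral_finsetSum _ fun t _ => (pd_pair (hT t) hf hg).const_mul (z ^ t.card)]
    exact Finset.sum_congr rfl fun t _ => integral_const_mul _ _
  rw [show (fun z : ℂ => ∫ x, op (fun y => ∏ j, (P j (y j) + z * Q j (y j))) f x * g x) = _ from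
    funext h2]
  exact Differentiable.fun_sum fun t _ => (differentiable_pow _).mul_const _

end Pool.Agent.MO
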