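import Pool.Agent.MO.Dual

/-!
# MO-Schw: Schwarz lemma for analytic families of contractions

`dual` with `c = 2 ε / r` for the kernel `G ε - G 0`: for test functions `f, g` let `F z = ∫ op (G z) f x g x dx` and
`A = ‖f‖_p ‖g‖_q` (as in `hold`), so `‖F z‖ ≤ A` for `‖z‖ ≤ r` and `F` is holomorphic on the ball. For every `η > 0`,
`F` maps `ball 0 r` to `ball (F 0) (2 A + η)`, so (`Complex.dist_le_div_mul_dist_of_mapsTo_ball`) `‖F ε - F 0‖ ≤
(2 A + η)/r * ε`; `η → 0`. `op (G ε - G 0) f = op (G ε) f - op (G 0) f` (`op_add` with a sign), linearity of the integral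
(`op G f * g` is integrable: bounded continuous times compactly supported continuous).
-/

set_option autoImplicit false

open MeasureTheory Set
open scoped ENNReal NNReal

namespace Pool.Agent.MO

variable {E : Type} [NormedAddCommGroup E] [NormedSpace ℝ E] [FiniteDimensional ℝ E]
  [MeasureSpace E] [BorelSpace E] [Measure.IsAddHaarMeasure (volume : Measure E)]

theorem schw {p r : ℝ} (hp : 1 < p) (hr : 0 < r) {G : ℂ → E → ℂ}
    (hint : ∀ z, ‖z‖ ≤ r → Integrable (G z)) (hc : ∀ z, ‖z‖ ≤ r → NB p 1 (G z))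
    (hd : ∀ f g : E → ℂ, TF f → TF g →
      DifferentiableOn ℂ (fun z => ∫ x, op (G z) f x * g x) (Metric.ball 0 r))
    {ε : ℝ} (hε : 0 ≤ ε) (hεr : ε < r) :
    NB p (2 * ε / r) fun y => G ε y - G 0 y := by
  have hεn : ‖(ε : ℂ)‖ = ε := by
    rw [Complex.norm_real, Real.norm_of_nonneg hε]
  have hGe : Integrable (G (ε : ℂ)) := hint _ (by rw [hεn]; exact hεr.le)
  have hG0 : Integrable (G 0) := hint _ (by rw [norm_zero]; exact hr.le)
  have hG : Integrable fun y => G (ε : ℂ) y - G 0 y := hGe.sub hG0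
  refine dual hp hG (by positivity) ?_
  intro f g hf hg
  set A : ℝ := (∫ x, ‖f x‖ ^ p) ^ (1 / p) * (∫ x, ‖g x‖ ^ (p / (p - 1))) ^ (1 - 1 / p) with hA
  have hA0 : 0 ≤ A := by
    rw [hA]
    exact mul_nonneg
      (Real.rpow_nonneg (integral_nonneg fun x => Real.rpow_nonneg (norm_nonneg _) _) _)
      (Real.rpow_nonneg (integral_nonneg fun x => Real.rpow_nonneg (norm_nonneg _) _) _)
  have hFA : ∀ z : ℂ, ‖z‖ ≤ r → ‖∫ x, op (G z) f x * g x‖ ≤ A := fun z hz =>
    hold hp (hint z hz) (hc z hz) hf hg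
  have hmi : ∀ z : ℂ, ‖z‖ ≤ r → Integrable fun x => op (G z) f x * g x := fun z hz =>
    ((op_cont (hint z hz) hf).mul hg.1).integrable_of_hasCompactSupport hg.2.mul_left
  have hop : ∀ x, op (fun y => G (ε : ℂ) y - G 0 y) f x = op (G (ε : ℂ)) f x - op (G 0) f x := by
    intro x
    have h1 := op_add hGe hG0.neg hf x
    have h2 : op (fun y => - G 0 y) f x = - op (G 0) f x := by
      unfold op
      rw [← integral_neg]
      exact integral_congr_ae (Filter.Eventually.of_forall fun y => by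
        show - G 0 y * f (x + y) = -(G 0 y * f (x + y))
        ring)
    have h3 : op (fun y => G (ε : ℂ) y - G 0 y) f x = op (fun y => G (ε : ℂ) y + - G 0 y) f x := by
      unfold op
      exact integral_congr_ae (Filter.Eventually.of_forall fun y => by
        show (G (ε : ℂ) y - G 0 y) * f (x + y) = (G (ε : ℂ) y + - G 0 y) * f (x + y)
        ring)
    have h4 : op (fun y => G (ε : ℂ) y + - G 0 y) f x
        = op (G (ε : ℂ)) f x + op (fun y => - G 0 y) f x := h1
    rw [h3, h4, h2]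
    ring
  have hsub : (∫ x, op (fun y => G (ε : ℂ) y - G 0 y) f x * g x)
      = (∫ x, op (G (ε : ℂ)) f x * g x) - ∫ x, op (G 0) f x * g x := by
    rw [← integral_sub (hmi _ (by rw [hεn]; exact hεr.le)) (hmi 0 (by rw [norm_zero]; exact hr.le))]
    exact integral_congr_ae (Filter.Eventually.of_forall fun x => by
      show op (fun y => G (ε : ℂ) y - G 0 y) f x * g x
        = op (G (ε : ℂ)) f x * g x - op (G 0) f x * g x
      rw [hop x]
      ring)
  rw [hsub]
  have hm : MapsTo (fun z : ℂ => ∫ x, op (G z) f x * g x) (Metric.ball 0 r)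
      (Metric.closedBall ((fun z : ℂ => ∫ x, op (G z) f x * g x) 0) (2 * A)) := by
    intro z hz
    have hz' : ‖z‖ ≤ r := by
      have := Metric.mem_ball.1 hz
      rw [dist_zero_right] at this
      exact this.le
    rw [Metric.mem_closedBall, dist_eq_norm]
    calc ‖(∫ x, op (G z) f x * g x) - ∫ x, op (G 0) f x * g x‖
        ≤ ‖∫ x, op (G z) f x * g x‖ + ‖∫ x, op (G 0) f x * g x‖ := norm_sub_le _ _
      _ ≤ A + A := add_le_add (hFA z hz') (hFA 0 (by rw [norm_zero]; exact hr.le))
      _ = 2 * A := by ring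
  have hz : (ε : ℂ) ∈ Metric.ball (0 : ℂ) r := by
    rw [Metric.mem_ball, dist_zero_right, hεn]
    exact hεr
  have h5 := Complex.dist_le_div_mul_dist_of_mapsTo_ball (hd f g hf hg) hm hz
  rw [dist_eq_norm, dist_zero_right, hεn] at h5
  refine (h5 : ‖(∫ x, op (G (ε : ℂ)) f x * g x) - ∫ x, op (G 0) f x * g x‖
    ≤ 2 * A / r * ε).trans (le_of_eq ?_)
  ring

end Pool.Agent.MO
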