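import Pool.Agent.MO.Fac
import Pool.Agent.MO.Schw
import Pool.Agent.MO.PolyD

/-!
# MO-ProdL: the Lipschitz estimate for products

`r` from `fac k`. For `|τ| ≤ r`, `0 < ε < r`: `P j = gk (V j) τ`, `Q j = (dk (1+ε) (gk (V j) τ) - gk (V j) τ)/ε`, so
`P j + z Q j = fk (V j) τ ε z`, contractions for `‖z‖ ≤ r` (`fac`), integrable (`gk_int`, `dk_int`); `tens`, `poly_diff`,
`schw` (`G z = ∏ j, (P j + z Q j)`): `NB p (2ε/r)` for `∏ dk (1+ε) (gk (V j) τ) (y j) - ∏ gk (V j) τ (y j)`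
(at `z = ε`, `P j + ε Q j = dk (1+ε) (gk (V j) τ)`). Finally `∏ gk (V j) τ (y j) = ec θ (Ψ y)/ZC Ψ τ` (`ec_sum`,
`zc_pi`: Fubini `∫ ∏ = ∏ ∫`, `MeasureTheory.integral_fintype_prod_eq_prod`-type lemma), the product of the dilates is the dilate of
the product (`finrank` of the product space is the sum of the dimensions), and multiplying the kernel by the constant
`ZC Ψ τ` multiplies the norm by `‖ZC Ψ τ‖` (`nb_smul`). `nb_mono`: the bound may be enlarged.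
-/

set_option autoImplicit false

open MeasureTheory Set
open scoped ENNReal NNReal

namespace Pool.Agent.MO

theorem nb_smul {E : Type} [NormedAddCommGroup E] [NormedSpace ℝ E] [MeasureSpace E] {p c : ℝ}
    (hp : 0 ≤ p) (hc : 0 ≤ c) {G : E → ℂ} (h : NB p c G) (κ : ℂ) :
    NB p (c * ‖κ‖) fun y => κ * G y := by
  intro f hf
  have e : ∀ x, ‖op (fun y => κ * G y) f x‖ₑ ^ p = ‖κ‖ₑ ^ p * ‖op G f x‖ₑ ^ p := by
    intro x
    have e1 : op (fun y => κ * G y) f x = κ * op G f x := by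
      unfold op
      rw [← integral_const_mul]
      congr 1
      funext y
      ring
    rw [e1, enorm_mul, ENNReal.mul_rpow_of_nonneg _ _ hp]
  simp_rw [e]
  rw [lintegral_const_mul' _ _ (ENNReal.rpow_ne_top_of_nonneg hp enorm_ne_top)]
  have e2 : ENNReal.ofReal (c * ‖κ‖) = ENNReal.ofReal c * ‖κ‖ₑ := by
    rw [ENNReal.ofReal_mul hc, ofReal_norm]
  rw [e2, ENNReal.mul_rpow_of_nonneg _ _ hp, mul_comm (ENNReal.ofReal c ^ p), mul_assoc]
  exact mul_le_mul_right (h f hf) _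

theorem nb_mono {E : Type} [NormedAddCommGroup E] [NormedSpace ℝ E] [MeasureSpace E] {p c c' : ℝ}
    (hp : 0 ≤ p) (hc : c ≤ c') {G : E → ℂ} (h : NB p c G) : NB p c' G := by
  intro f hf
  refine (h f hf).trans (mul_le_mul_left ?_ _)
  exact ENNReal.rpow_le_rpow (ENNReal.ofReal_le_ofReal hc) hp

theorem zc_pi {m : ℕ} {n : Fin m → ℕ} (V : ∀ j, (Fin (n j) → ℝ) → ℝ≥0∞) (τ : ℝ) :
    ZC (fun y : (∀ j, Fin (n j) → ℝ) => ∑ j, V j (y j)) τ = ∏ j, ZC (V j) τ := by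
  unfold ZC
  simp_rw [ec_sum]
  exact integral_fintype_prod_volume_eq_prod
    (fun j (x : Fin (n j) → ℝ) => ec (1 + τ * Complex.I) (V j x))

theorem prod_lip (k : ℕ) {p : ℝ} (hp : 1 < p) (hp2 : p ≤ 2) :
    ∃ r : ℝ, 0 < r ∧ r ≤ 1 ∧ ∀ (m : ℕ) (n : Fin m → ℕ) (V : ∀ j, (Fin (n j) → ℝ) → ℝ≥0∞),
      (∀ j, GV k (V j)) → ∀ τ ε : ℝ, |τ| ≤ r → 0 < ε → ε < r →
        NB p (2 * ε / r * ‖ZC (fun y : (∀ j, Fin (n j) → ℝ) => ∑ j, V j (y j)) τ‖)
          (fun y => dk (1 + ε) (fun x : (∀ j, Fin (n j) → ℝ) =>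
              ec (1 + τ * Complex.I) (∑ j, V j (x j))) y -
            ec (1 + τ * Complex.I) (∑ j, V j (y j))) := by
  obtain ⟨r, hr0, hr1, hrM, hfac⟩ := fac k hp hp2
  refine ⟨r, hr0, hr1, ?_⟩
  intro m n V hV τ ε hτ hε hεr
  have hε1 : ε ≤ 1 := hεr.le.trans hr1
  have hεC : (ε : ℂ) ≠ 0 := by exact_mod_cast hε.ne'
  have ht : 0 < 1 + ε := by linarith
  have hτM : |τ| ≤ 1 / (2 * MK k) := hτ.trans hrM
  have hP : ∀ j, Integrable (gk (V j) τ) := fun j => gk_int (hV j) τ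
  have hQ : ∀ j, Integrable fun x => (dk (1 + ε) (gk (V j) τ) x - gk (V j) τ x) / (ε : ℂ) :=
    fun j => ((dk_int (hP j) ht).sub (hP j)).div_const _
  have hPQ : ∀ (z : ℂ) (j : Fin m), Integrable fun x => gk (V j) τ x +
      z * ((dk (1 + ε) (gk (V j) τ) x - gk (V j) τ x) / (ε : ℂ)) :=
    fun z j => (hP j).add ((hQ j).const_mul z)
  have h1 := schw (E := (∀ j, Fin (n j) → ℝ)) hp hr0
    (G := fun z y => ∏ j, (gk (V j) τ (y j) +
      z * ((dk (1 + ε) (gk (V j) τ) (y j) - gk (V j) τ (y j)) / (ε : ℂ))))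
    (fun z _ => tens_int (G := fun j x => gk (V j) τ x +
      z * ((dk (1 + ε) (gk (V j) τ) x - gk (V j) τ x) / (ε : ℂ))) (hPQ z))
    (fun z hz => tens hp.le m n (fun j x => gk (V j) τ x +
      z * ((dk (1 + ε) (gk (V j) τ) x - gk (V j) τ x) / (ε : ℂ))) (hPQ z)
      (fun j => hfac (Fin (n j) → ℝ) (V j) (hV j) τ hτ ε hε hε1 z hz))
    (fun f g hf hg => (poly_diff hP hQ hf hg).differentiableOn) hε.le hεr
  have h2 := nb_smul (zero_le_one.trans hp.le) (by positivity) h1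
    (ZC (fun y : (∀ j, Fin (n j) → ℝ) => ∑ j, V j (y j)) τ)
  convert h2 using 2 with y
  have hZ : ∀ j x, ZC (V j) τ * gk (V j) τ x = ec (1 + τ * Complex.I) (V j x) := by
    intro j x
    unfold gk
    rw [mul_div_cancel₀]
    exact ZC_ne (hV j) hτM
  rw [zc_pi, mul_sub, ← Finset.prod_mul_distrib, ← Finset.prod_mul_distrib]
  congr 1
  · have e1 : ∀ j, ZC (V j) τ * (gk (V j) τ (y j) +
        (ε : ℂ) * ((dk (1 + ε) (gk (V j) τ) (y j) - gk (V j) τ (y j)) / (ε : ℂ))) =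
        ((((1 + ε) ^ Module.finrank ℝ (Fin (n j) → ℝ))⁻¹ : ℝ) : ℂ) *
          ec (1 + τ * Complex.I) (V j ((1 + ε)⁻¹ • y j)) := by
      intro j
      rw [mul_div_cancel₀ _ hεC, add_sub_cancel, dk, ← hZ]
      ring
    rw [Finset.prod_congr rfl fun j _ => e1 j, Finset.prod_mul_distrib, ← ec_sum, dk]
    congr 1
    rw [Module.finrank_pi_fintype, ← Finset.prod_pow_eq_pow_sum, ← Finset.prod_inv_distrib,
      Complex.ofReal_prod]
  · rw [ec_sum]
    refine Finset.prod_congr rfl fun j _ => ?_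
    rw [zero_mul, add_zero, hZ]

end Pool.Agent.MO
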