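import Pool.Agent.MO.En3
import Pool.Agent.MO.ProdL

/-!
# MO-EnP: energies of product potentials

`Ψ y = ∑ j, V j (y j)`. `er Ψ = ∏ er (V j)` (`er_sum`), so `∫ er Ψ = ∏ ∫ er (V j)` (`integral_fintype_prod`-type
lemma), integrable (`tens_int` for real/complex functions), positive. `pi_zc`: `zc_pi`, `norm_prod`, `en3` for each factor,
`∏ exp = exp ∑`. `pi_var`: almost everywhere with respect to `er Ψ dy` all `V j (y j)` are finite and
`Ψ.toReal - ∑ mn (V j) = ∑ ((V j).toReal - mn (V j))` (`ENNReal.toReal_sum`); expand the square: the diagonal terms give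
`vr (V j) ∏ Z`, the mixed terms vanish because `∫ ((V j).toReal - mn (V j)) er (V j) = 0` (product integrals). Or use the
product of the probability measures `er (V j) / Z_j` and `ProbabilityTheory.variance_sum_pi`-type lemmas.
-/

set_option autoImplicit false

open MeasureTheory Set
open scoped ENNReal NNReal

namespace Pool.Agent.MO

theorem pi_int {k m : ℕ} {n : Fin m → ℕ} {V : ∀ j, (Fin (n j) → ℝ) → ℝ≥0∞}
    (h : ∀ j, GV k (V j)) :
    Integrable (fun y : (∀ j, Fin (n j) → ℝ) => er (∑ j, V j (y j))) ∧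
      0 < ∫ y : (∀ j, Fin (n j) → ℝ), er (∑ j, V j (y j)) := by
  simp_rw [er_sum]
  refine ⟨Integrable.fintype_prod_dep (fun j => (h j).int), ?_⟩
  have e := integral_fintype_prod_volume_eq_prod (fun j (x : Fin (n j) → ℝ) => er (V j x))
  rw [e]
  exact Finset.prod_pos fun j _ => (h j).pos

/-- the centred energy of one factor -/
private noncomputable def ca {E : Type} [NormedAddCommGroup E] [NormedSpace ℝ E] [MeasureSpace E]
    (V : E → ℝ≥0∞) (x : E) : ℝ := (V x).toReal - mn V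

section OneFactor

variable {E : Type} [NormedAddCommGroup E] [NormedSpace ℝ E] [FiniteDimensional ℝ E]
  [MeasureSpace E] [BorelSpace E] [Measure.IsAddHaarMeasure (volume : Measure E)]

private theorem ca_int1 {k : ℕ} {V : E → ℝ≥0∞} (h : GV k V) :
    Integrable (fun x => ca V x * er (V x)) := by
  have h1 := (h.mom 1).1
  simp only [pow_one] at h1
  refine (h1.sub (h.int.const_mul (mn V))).congr (Filter.Eventually.of_forall fun x => ?_)
  simp only [ca, Pi.sub_apply]
  ring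

private theorem ca_int2 {k : ℕ} {V : E → ℝ≥0∞} (h : GV k V) :
    Integrable (fun x => ca V x * ca V x * er (V x)) := by
  have h1 := (h.mom 1).1
  simp only [pow_one] at h1
  have h2 := (h.mom 2).1
  refine ((h2.sub (h1.const_mul (2 * mn V))).add (h.int.const_mul (mn V ^ 2))).congr
    (Filter.Eventually.of_forall fun x => ?_)
  simp only [ca, Pi.sub_apply, Pi.add_apply]
  ring

private theorem ca_zero {k : ℕ} {V : E → ℝ≥0∞} (h : GV k V) :
    ∫ x, ca V x * er (V x) = 0 := by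
  have h1 := (h.mom 1).1
  simp only [pow_one] at h1
  have e : ∀ x, ca V x * er (V x) = (V x).toReal * er (V x) - mn V * er (V x) := by
    intro x
    simp only [ca]
    ring
  simp_rw [e]
  rw [integral_sub h1 (h.int.const_mul _), integral_const_mul, mn,
    div_mul_cancel₀ _ h.pos.ne', sub_self]

private theorem ca_sq {k : ℕ} {V : E → ℝ≥0∞} (h : GV k V) :
    ∫ x, ca V x * ca V x * er (V x) = vr V * ∫ x, er (V x) := by
  have e : ∀ x, ca V x * ca V x * er (V x) = ((V x).toReal - mn V) ^ 2 * er (V x) := by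
    intro x
    simp only [ca]
    ring
  simp_rw [e]
  rw [vr, div_mul_cancel₀ _ h.pos.ne']

end OneFactor

private theorem pt {m : ℕ} {n : Fin m → ℕ} {V : ∀ j, (Fin (n j) → ℝ) → ℝ≥0∞}
    (y : ∀ j, Fin (n j) → ℝ) :
    ((∑ j, V j (y j)).toReal - ∑ j, mn (V j)) ^ 2 * er (∑ j, V j (y j)) =
      ∑ j, ∑ l, ca (V j) (y j) * ca (V l) (y l) * ∏ i, er (V i (y i)) := by
  have e0 : er (∑ j, V j (y j)) = ∏ i, er (V i (y i)) := er_sum _ _
  by_cases hf : ∀ j, V j (y j) ≠ ∞
  · rw [e0, ENNReal.toReal_sum (fun j _ => hf j), ← Finset.sum_sub_distrib]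
    have e1 : ∑ j, ∑ l, ca (V j) (y j) * ca (V l) (y l) * ∏ i, er (V i (y i)) =
        ((∑ j, ca (V j) (y j)) * ∑ l, ca (V l) (y l)) * ∏ i, er (V i (y i)) := by
      rw [Finset.sum_mul_sum, Finset.sum_mul]
      refine Finset.sum_congr rfl fun j _ => ?_
      rw [Finset.sum_mul]
    rw [e1, sq]
    rfl
  · push Not at hf
    obtain ⟨j0, hj0⟩ := hf
    have e2 : ∏ i, er (V i (y i)) = 0 := by
      refine Finset.prod_eq_zero (Finset.mem_univ j0) ?_
      rw [hj0, er_top]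
    rw [e0, e2]
    simp

private noncomputable def gg {m : ℕ} {n : Fin m → ℕ} (V : ∀ j, (Fin (n j) → ℝ) → ℝ≥0∞)
    (j l i : Fin m) (x : Fin (n i) → ℝ) : ℝ :=
  (if i = j then ca (V i) x else 1) * (if i = l then ca (V i) x else 1) * er (V i x)

private theorem gg_prod {m : ℕ} {n : Fin m → ℕ} (V : ∀ j, (Fin (n j) → ℝ) → ℝ≥0∞)
    (j l : Fin m) (y : ∀ j, Fin (n j) → ℝ) :
    ca (V j) (y j) * ca (V l) (y l) * ∏ i, er (V i (y i)) = ∏ i, gg V j l i (y i) := by
  simp only [gg]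
  rw [Finset.prod_mul_distrib, Finset.prod_mul_distrib, Finset.prod_ite_eq', Finset.prod_ite_eq']
  simp

private theorem gg_int {k m : ℕ} {n : Fin m → ℕ} {V : ∀ j, (Fin (n j) → ℝ) → ℝ≥0∞}
    (h : ∀ j, GV k (V j)) (j l i : Fin m) : Integrable (gg V j l i) := by
  by_cases h1 : i = j
  · by_cases h2 : i = l
    · refine (ca_int2 (h i)).congr (Filter.Eventually.of_forall fun x => ?_)
      simp only [gg, if_pos h1, if_pos h2]
    · refine (ca_int1 (h i)).congr (Filter.Eventually.of_forall fun x => ?_)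
      simp only [gg, if_pos h1, if_neg h2, mul_one]
  · by_cases h2 : i = l
    · refine (ca_int1 (h i)).congr (Filter.Eventually.of_forall fun x => ?_)
      simp only [gg, if_neg h1, if_pos h2, one_mul]
    · refine (h i).int.congr (Filter.Eventually.of_forall fun x => ?_)
      simp only [gg, if_neg h1, if_neg h2, one_mul]

private theorem gg_ne {k m : ℕ} {n : Fin m → ℕ} {V : ∀ j, (Fin (n j) → ℝ) → ℝ≥0∞}
    (h : ∀ j, GV k (V j)) {j l : Fin m} (hjl : l ≠ j) :
    ∏ i, ∫ x, gg V j l i x = 0 := by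
  refine Finset.prod_eq_zero (Finset.mem_univ j) ?_
  rw [← ca_zero (h j)]
  refine integral_congr_ae (Filter.Eventually.of_forall fun x => ?_)
  simp only [gg, if_neg hjl.symm, if_true, mul_one]

private theorem gg_eq {k m : ℕ} {n : Fin m → ℕ} {V : ∀ j, (Fin (n j) → ℝ) → ℝ≥0∞}
    (h : ∀ j, GV k (V j)) (j : Fin m) :
    ∏ i, ∫ x, gg V j j i x = vr (V j) * ∏ i, ∫ x, er (V i x) := by
  have e : ∀ i, ∫ x, gg V j j i x = (if i = j then vr (V i) else 1) * ∫ x, er (V i x) := by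
    intro i
    by_cases h1 : i = j
    · rw [if_pos h1, ← ca_sq (h i)]
      refine integral_congr_ae (Filter.Eventually.of_forall fun x => ?_)
      simp only [gg, if_pos h1]
    · rw [if_neg h1, one_mul]
      refine integral_congr_ae (Filter.Eventually.of_forall fun x => ?_)
      simp only [gg, if_neg h1, one_mul]
  simp_rw [e]
  rw [Finset.prod_mul_distrib, Finset.prod_ite_eq']
  simp

theorem pi_var {k m : ℕ} {n : Fin m → ℕ} {V : ∀ j, (Fin (n j) → ℝ) → ℝ≥0∞}
    (h : ∀ j, GV k (V j)) :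
    Integrable (fun y : (∀ j, Fin (n j) → ℝ) =>
        ((∑ j, V j (y j)).toReal - ∑ j, mn (V j)) ^ 2 * er (∑ j, V j (y j))) ∧
      ∫ y : (∀ j, Fin (n j) → ℝ), ((∑ j, V j (y j)).toReal - ∑ j, mn (V j)) ^ 2 *
          er (∑ j, V j (y j)) =
        (∑ j, vr (V j)) * ∫ y : (∀ j, Fin (n j) → ℝ), er (∑ j, V j (y j)) := by
  simp_rw [pt, gg_prod]
  have hi : ∀ j l, Integrable (fun y : (∀ j, Fin (n j) → ℝ) => ∏ i, gg V j l i (y i)) :=
    fun j l => Integrable.fintype_prod_dep (fun i => gg_int h j l i)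
  have hi2 : ∀ j, Integrable (fun y : (∀ j, Fin (n j) → ℝ) => ∑ l, ∏ i, gg V j l i (y i)) :=
    fun j => integrable_finsetSum _ fun l _ => hi j l
  refine ⟨integrable_finsetSum _ fun j _ => hi2 j, ?_⟩
  have hv : ∀ j l, ∫ y : (∀ j, Fin (n j) → ℝ), ∏ i, gg V j l i (y i) =
      ∏ i, ∫ x, gg V j l i x :=
    fun j l => integral_fintype_prod_volume_eq_prod (fun i (x : Fin (n i) → ℝ) => gg V j l i x)
  have hz : ∫ y : (∀ j, Fin (n j) → ℝ), er (∑ j, V j (y j)) = ∏ i, ∫ x, er (V i x) := by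
    simp_rw [er_sum]
    exact integral_fintype_prod_volume_eq_prod (fun i (x : Fin (n i) → ℝ) => er (V i x))
  rw [integral_finsetSum _ fun j _ => hi2 j, hz, Finset.sum_mul]
  refine Finset.sum_congr rfl fun j _ => ?_
  rw [integral_finsetSum _ fun l _ => hi j l]
  simp_rw [hv]
  rw [Finset.sum_eq_single j (fun l _ hl => gg_ne h hl) (fun hj => absurd (Finset.mem_univ j) hj)]
  exact gg_eq h j

theorem pi_zc (k : ℕ) : ∃ r : ℝ, 0 < r ∧ ∀ (m : ℕ) (n : Fin m → ℕ)
      (V : ∀ j, (Fin (n j) → ℝ) → ℝ≥0∞), (∀ j, GV k (V j)) → ∀ τ : ℝ, |τ| ≤ r →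
      ‖ZC (fun y : (∀ j, Fin (n j) → ℝ) => ∑ j, V j (y j)) τ‖ ≤
        (∫ y : (∀ j, Fin (n j) → ℝ), er (∑ j, V j (y j))) *
          Real.exp (-(τ ^ 2 * (∑ j, vr (V j)) / 4)) := by
  obtain ⟨r, hr, H⟩ := en3 k
  refine ⟨r, hr, ?_⟩
  intro m n V h τ hτ
  have hz : ∫ y : (∀ j, Fin (n j) → ℝ), er (∑ j, V j (y j)) = ∏ i, ∫ x, er (V i x) := by
    simp_rw [er_sum]
    exact integral_fintype_prod_volume_eq_prod (fun i (x : Fin (n i) → ℝ) => er (V i x))
  have he : Real.exp (-(τ ^ 2 * (∑ j, vr (V j)) / 4)) =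
      ∏ j, Real.exp (-(τ ^ 2 * vr (V j) / 4)) := by
    rw [← Real.exp_sum, Finset.sum_neg_distrib, ← Finset.sum_div, ← Finset.mul_sum]
  rw [zc_pi, norm_prod, hz, he, ← Finset.prod_mul_distrib]
  refine Finset.prod_le_prod (fun j _ => norm_nonneg _) fun j _ => ?_
  exact H (Fin (n j) → ℝ) (V j) (h j) τ hτ

end Pool.Agent.MO
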