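import Pool.Agent.MO.VolLC

/-!
# MO-Lam: choice of the inverse temperature

`n = max 1 (finrank ℝ E)`, `h = 1/n`, `v u = (volume {Φ ≤ ofReal u}).toReal`: nondecreasing, finite
(`{Φ ≤ u} ` has volume `≤ max(1,u)^n v 1`, `CV.vol`), `v(tu) ≤ t^n v(u)` for `t ≥ 1`, and
`v(u) v(u + 2h) ≤ v(u+h)^2` (`vol_lc`). `R = v(1+h)/v(1) ∈ [1, (1+1/n)^n] ⊆ [1, e]` (`Real.add_one_le_exp`-type).
Claim: `v(1 + i h) ≤ v(1) R^i` for all integers `i ≥ -n`. For `i ≥ 0` by induction (`v(1+(i+1)h)/v(1+ih)` is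
nonincreasing in `i ≥ 0`, first value `R`). For `i = -j`, `1 ≤ j ≤ n`: the ratios `v(1-(l-1)h)/v(1-lh)` are
`≥ R` as long as `v(1 - lh) > 0` (log-concavity), so `v(1-jh) R^j ≤ v(1)` (trivial if `v(1-jh) = 0`).
With `l0 = n log R ≥ 0`: for `u ≥ 0` choose the integer `i ≥ -n` with `1 + (i-1)h < u ≤ 1 + ih` (for `u = 0`: `i = -n`), so
`v(u) ≤ v(1+ih) ≤ v(1) exp(l0 i h) ≤ v(1) exp(l0 (u - 1) + l0 h) ≤ v(1) exp(1 + l0(u-1))` (`l0 h = log R ≤ 1`).
`l = l0 + 1`: `l0(u-1) = l(u-1) - (u-1) ≤ l(u-1) + 1`.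
-/

set_option autoImplicit false

open MeasureTheory Set
open scoped ENNReal NNReal

namespace Pool.Agent.MO

/-- discrete part: a nondecreasing log-concave sequence -/
private theorem lam_seq {a : ℕ → ℝ} {n : ℕ} (ha0 : ∀ i, 0 ≤ a i) (hmono : Monotone a)
    (hlc : ∀ i, a i * a (i + 2) ≤ a (i + 1) ^ 2) (han : 0 < a n) {ρ : ℝ}
    (hρ : a (n + 1) = Real.exp ρ * a n) (i : ℕ) :
    a i ≤ Real.exp (ρ * ((i : ℝ) - n)) * a n := by
  have hup : ∀ m, a (n + m + 1) ≤ Real.exp ρ * a (n + m) := by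
    intro m
    induction m with
    | zero => exact hρ.le
    | succ m ih =>
      have hp : 0 < a (n + m) := lt_of_lt_of_le han (hmono (Nat.le_add_right n m))
      have hp1 : 0 < a (n + m + 1) := lt_of_lt_of_le hp (hmono (Nat.le_succ _))
      have h1 := hlc (n + m)
      have h2 : a (n + m) * a (n + m + 2) ≤ a (n + m) * (Real.exp ρ * a (n + m + 1)) := by
        calc a (n + m) * a (n + m + 2) ≤ a (n + m + 1) ^ 2 := h1
          _ = a (n + m + 1) * a (n + m + 1) := by ring
          _ ≤ (Real.exp ρ * a (n + m)) * a (n + m + 1) := mul_le_mul_of_nonneg_right ih hp1.le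
          _ = a (n + m) * (Real.exp ρ * a (n + m + 1)) := by ring
      exact le_of_mul_le_mul_left h2 hp
  have hdown : ∀ j, ∀ m, m + j = n → Real.exp ρ * a m ≤ a (m + 1) := by
    intro j
    induction j with
    | zero =>
      intro m hm
      rw [add_zero] at hm
      subst hm
      exact hρ.ge
    | succ j ih =>
      intro m hm
      have h1 := ih (m + 1) (by omega)
      have h2 := hlc m
      rcases (ha0 (m + 1)).eq_or_lt with h3 | h3
      · have h4 : a m = 0 := le_antisymm (h3 ▸ hmono (Nat.le_succ m)) (ha0 m)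
        rw [h4, mul_zero]
        exact ha0 _
      · have h5 : (Real.exp ρ * a m) * a (m + 1) ≤ a (m + 1) * a (m + 1) := by
          calc (Real.exp ρ * a m) * a (m + 1) = a m * (Real.exp ρ * a (m + 1)) := by ring
            _ ≤ a m * a (m + 1 + 1) := mul_le_mul_of_nonneg_left h1 (ha0 m)
            _ ≤ a (m + 1) ^ 2 := h2
            _ = a (m + 1) * a (m + 1) := by ring
        exact le_of_mul_le_mul_right h5 h3
  rcases le_total n i with h | h
  · obtain ⟨m, rfl⟩ := Nat.exists_eq_add_of_le h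
    have h1 : ∀ m : ℕ, a (n + m) ≤ Real.exp (ρ * m) * a n := by
      intro m
      induction m with
      | zero => simp
      | succ m ih =>
        calc a (n + (m + 1)) ≤ Real.exp ρ * a (n + m) := hup m
          _ ≤ Real.exp ρ * (Real.exp (ρ * m) * a n) :=
            mul_le_mul_of_nonneg_left ih (Real.exp_pos _).le
          _ = Real.exp (ρ * ((m + 1 : ℕ) : ℝ)) * a n := by
            rw [← mul_assoc, ← Real.exp_add]
            congr 2
            push_cast
            ring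
    have h2 := h1 m
    have h3 : (((n + m : ℕ) : ℝ) - n) = m := by push_cast; ring
    rw [h3]
    exact h2
  · have h1 : ∀ j : ℕ, ∀ m, m + j = n → a m ≤ Real.exp (ρ * ((m : ℝ) - n)) * a n := by
      intro j
      induction j with
      | zero =>
        intro m hm
        rw [add_zero] at hm
        subst hm
        simp
      | succ j ih =>
        intro m hm
        have h2 := ih (m + 1) (by omega)
        have h3 := hdown (j + 1) m hm
        have h4 : Real.exp ρ * a m ≤ Real.exp ρ * (Real.exp (ρ * ((m : ℝ) - n)) * a n) := by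
          calc Real.exp ρ * a m ≤ a (m + 1) := h3
            _ ≤ Real.exp (ρ * (((m + 1 : ℕ) : ℝ) - n)) * a n := h2
            _ = Real.exp ρ * (Real.exp (ρ * ((m : ℝ) - n)) * a n) := by
              rw [← mul_assoc, ← Real.exp_add]
              congr 2
              push_cast
              ring
        exact le_of_mul_le_mul_left h4 (Real.exp_pos _)
    exact h1 (n - i) i (by omega)

/-- the real variable statement -/
private theorem lam_real {v : ℝ → ℝ} {n : ℕ} (hn : 1 ≤ n) (hv0 : ∀ u, 0 ≤ v u) (hmono : Monotone v)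
    (hlc : ∀ a b : ℝ, 0 ≤ a → 0 ≤ b → v a * v b ≤ v ((a + b) / 2) ^ 2) (hv1 : 0 < v 1)
    (hg : v (1 + 1 / n) ≤ (1 + 1 / (n : ℝ)) ^ n * v 1) :
    ∃ l : ℝ, 1 ≤ l ∧ ∀ u : ℝ, 0 ≤ u → v u ≤ Real.exp (2 + l * (u - 1)) * v 1 := by
  have hn0 : (0 : ℝ) < n := by exact_mod_cast hn
  set a : ℕ → ℝ := fun i => v ((i : ℝ) / n) with ha
  have han : a n = v 1 := by
    show v ((n : ℝ) / n) = v 1
    rw [div_self hn0.ne']
  have han1 : a (n + 1) = v (1 + 1 / n) := by
    show v (((n + 1 : ℕ) : ℝ) / n) = v (1 + 1 / n)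
    congr 1
    push_cast
    field_simp
  have hamono : Monotone a := by
    intro i j hij
    apply hmono
    have : (i : ℝ) ≤ j := by exact_mod_cast hij
    exact div_le_div_of_nonneg_right this hn0.le
  have halc : ∀ i, a i * a (i + 2) ≤ a (i + 1) ^ 2 := by
    intro i
    have h1 := hlc ((i : ℝ) / n) (((i + 2 : ℕ) : ℝ) / n) (by positivity) (by positivity)
    have h2 : ((i : ℝ) / n + ((i + 2 : ℕ) : ℝ) / n) / 2 = ((i + 1 : ℕ) : ℝ) / n := by
      push_cast
      ring
    rw [h2] at h1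
    exact h1
  set R : ℝ := a (n + 1) / a n with hR
  have hanpos : 0 < a n := by rw [han]; exact hv1
  have hR1 : 1 ≤ R := by
    rw [hR, le_div_iff₀ hanpos, one_mul]
    exact hamono (Nat.le_succ n)
  have hRe : R ≤ Real.exp 1 := by
    rw [hR, div_le_iff₀ hanpos, han, han1]
    refine hg.trans (mul_le_mul_of_nonneg_right ?_ hv1.le)
    calc (1 + 1 / (n : ℝ)) ^ n ≤ (Real.exp (1 / n)) ^ n := by
          apply pow_le_pow_left₀ (by positivity)
          rw [add_comm]
          exact Real.add_one_le_exp _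
      _ = Real.exp 1 := by
          rw [← Real.exp_nat_mul]
          congr 1
          field_simp
  set ρ : ℝ := Real.log R with hρ
  have hR0 : 0 < R := lt_of_lt_of_le one_pos hR1
  have hρ0 : 0 ≤ ρ := Real.log_nonneg hR1
  have hρ1 : ρ ≤ 1 := by
    rw [hρ, Real.log_le_iff_le_exp hR0]
    exact hRe
  have hexp : a (n + 1) = Real.exp ρ * a n := by
    rw [hρ, Real.exp_log hR0, hR, div_mul_cancel₀ _ hanpos.ne']
  refine ⟨n * ρ + 1, ?_, fun u hu => ?_⟩
  · have : 0 ≤ (n : ℝ) * ρ := mul_nonneg hn0.le hρ0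
    linarith
  · set i : ℕ := ⌈(n : ℝ) * u⌉₊ with hi
    have hi1 : (n : ℝ) * u ≤ i := Nat.le_ceil _
    have hi2 : (i : ℝ) < n * u + 1 := Nat.ceil_lt_add_one (by positivity)
    have h1 : v u ≤ a i := by
      apply hmono
      rw [le_div_iff₀ hn0, mul_comm]
      exact hi1
    have h2 := lam_seq (a := a) (n := n) (fun i => hv0 _) hamono halc hanpos hexp i
    rw [han] at h2
    refine (h1.trans h2).trans (mul_le_mul_of_nonneg_right (Real.exp_le_exp.2 ?_) hv1.le)
    have h3 : ρ * ((i : ℝ) - n) ≤ ρ * (n * u + 1 - n) :=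
      mul_le_mul_of_nonneg_left (by linarith) hρ0
    nlinarith

variable {E : Type} [NormedAddCommGroup E] [NormedSpace ℝ E] [FiniteDimensional ℝ E]
  [MeasureSpace E] [BorelSpace E] [Measure.IsAddHaarMeasure (volume : Measure E)]

theorem lam {Φ : E → ℝ≥0∞} (h : CV Φ) (h0 : 0 < volume {x | Φ x ≤ 1})
    (h1 : volume {x | Φ x ≤ 1} ≠ ∞) :
    ∃ l : ℝ, 1 ≤ l ∧ ∀ u : ℝ, 0 ≤ u → volume {x | Φ x ≤ ENNReal.ofReal u} ≤
      ENNReal.ofReal (Real.exp (2 + l * (u - 1))) * volume {x | Φ x ≤ 1} := by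
  have hge : ∀ t : ℝ, 1 ≤ t → volume {x | Φ x ≤ ENNReal.ofReal t} ≤
      ENNReal.ofReal (t ^ Module.finrank ℝ E) * volume {x | Φ x ≤ 1} := by
    intro t ht
    have h2 := h.vol 1 ht
    rwa [mul_one] at h2
  have hmonoE : ∀ a b : ℝ, a ≤ b → volume {x | Φ x ≤ ENNReal.ofReal a} ≤
      volume {x | Φ x ≤ ENNReal.ofReal b} := by
    intro a b hab
    exact measure_mono fun x hx => le_trans hx (ENNReal.ofReal_le_ofReal hab)
  have hfin : ∀ u : ℝ, volume {x | Φ x ≤ ENNReal.ofReal u} ≠ ∞ := by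
    intro u
    refine ne_top_of_le_ne_top (ENNReal.mul_ne_top ENNReal.ofReal_ne_top h1)
      ((hmonoE u (max u 1) (le_max_left _ _)).trans (hge (max u 1) (le_max_right _ _)))
  set v : ℝ → ℝ := fun u => (volume {x | Φ x ≤ ENNReal.ofReal u}).toReal with hv
  have hv1 : v 1 = (volume {x | Φ x ≤ 1}).toReal := by
    simp only [hv, ENNReal.ofReal_one]
  set n : ℕ := max 1 (Module.finrank ℝ E) with hn
  have hn1 : 1 ≤ n := le_max_left _ _
  obtain ⟨l, hl, hmain⟩ := lam_real (v := v) (n := n) hn1 (fun u => ENNReal.toReal_nonneg)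
    (fun a b hab => ENNReal.toReal_mono (hfin b) (hmonoE a b hab)) (by
      intro a b ha hb
      have h2 := vol_lc h (hfin a) (hfin b)
      have h3 : (ENNReal.ofReal a + ENNReal.ofReal b) / 2 = ENNReal.ofReal ((a + b) / 2) := by
        rw [ENNReal.ofReal_div_of_pos two_pos, ENNReal.ofReal_add ha hb]
        norm_num
      rw [h3] at h2
      have h4 := ENNReal.toReal_mono (ENNReal.pow_ne_top (hfin _)) h2
      rw [ENNReal.toReal_mul, ENNReal.toReal_pow] at h4
      exact h4) (by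
      rw [hv1]
      exact ENNReal.toReal_pos h0.ne' h1) (by
      have ht : (1 : ℝ) ≤ 1 + 1 / (n : ℝ) := by
        have : (0 : ℝ) ≤ 1 / (n : ℝ) := by positivity
        linarith
      have h2 := hge _ ht
      have h3 := ENNReal.toReal_mono (ENNReal.mul_ne_top ENNReal.ofReal_ne_top h1) h2
      rw [ENNReal.toReal_mul, ENNReal.toReal_ofReal (by positivity), ← hv1] at h3
      refine h3.trans (mul_le_mul_of_nonneg_right ?_ ENNReal.toReal_nonneg)
      exact pow_le_pow_right₀ ht (le_max_right _ _))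
  refine ⟨l, hl, fun u hu => ?_⟩
  have h2 := hmain u hu
  calc volume {x | Φ x ≤ ENNReal.ofReal u} = ENNReal.ofReal (v u) :=
        (ENNReal.ofReal_toReal (hfin u)).symm
    _ ≤ ENNReal.ofReal (Real.exp (2 + l * (u - 1)) * v 1) := ENNReal.ofReal_le_ofReal h2
    _ = ENNReal.ofReal (Real.exp (2 + l * (u - 1))) * volume {x | Φ x ≤ 1} := by
        rw [ENNReal.ofReal_mul (Real.exp_pos _).le, hv1, ENNReal.ofReal_toReal h1]

end Pool.Agent.MO
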