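import Pool.Agent.MO.ProdL
import Pool.Agent.MO.EnP
import Pool.Agent.MO.Lam

/-!
# MO-CfgO: separable bodies

The separable body `{∑ j, φ j (x j) ≤ 1}` is a level set of the potential `∑ j, l * φ j (x j)`, where `l` is the
inverse temperature of `lam`; the fields of `Cfg` are the product estimates `prod_lip`, `pi_int`, `pi_var`, `pi_zc`.
-/

set_option autoImplicit false

open MeasureTheory Set
open scoped ENNReal NNReal

namespace Pool.Agent.MO

private theorem cfgO_vr {E : Type} [NormedAddCommGroup E] [MeasureSpace E]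
    (V : E → ℝ≥0∞) : 0 ≤ vr V := by
  unfold vr
  refine div_nonneg (integral_nonneg fun x => ?_) (integral_nonneg fun x => er_nonneg _)
  exact mul_nonneg (sq_nonneg _) (er_nonneg _)

private theorem cfgO_gv {k : ℕ} {m : ℕ} {n : Fin m → ℕ} (hn : ∀ j, n j ≤ k)
    {φ : ∀ j, (Fin (n j) → ℝ) → ℝ≥0∞} (h : ∀ j, CV (φ j))
    (hK : IsCompact {x : (∀ j, Fin (n j) → ℝ) | ∑ j, φ j (x j) ≤ 1})
    (h0 : 0 < volume {x : (∀ j, Fin (n j) → ℝ) | ∑ j, φ j (x j) ≤ 1})
    {l : ℝ} (hl : 1 ≤ l) (j : Fin m) : GV k fun x => ENNReal.ofReal l * φ j x := by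
  classical
  have hl1 : (1 : ℝ≥0∞) ≤ ENNReal.ofReal l := by
    rw [← ENNReal.ofReal_one]
    exact ENNReal.ofReal_le_ofReal hl
  have hfin : volume {x | φ j x ≤ 1} ≠ ∞ := by
    have h1 : {x | φ j x ≤ 1} ⊆ (fun y : (∀ j, Fin (n j) → ℝ) => y j) ''
        {x : (∀ j, Fin (n j) → ℝ) | ∑ j, φ j (x j) ≤ 1} := by
      intro x hx
      refine ⟨(Pi.single j x : ∀ j, Fin (n j) → ℝ), ?_, Pi.single_eq_same _ _⟩
      show ∑ i, φ i ((Pi.single j x : ∀ j, Fin (n j) → ℝ) i) ≤ 1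
      rw [Finset.sum_eq_single j]
      · rw [Pi.single_eq_same]
        exact hx
      · intro i _ hij
        rw [Pi.single_eq_of_ne hij, (h i).zero]
      · intro hj
        exact absurd (Finset.mem_univ j) hj
    have h2 : IsCompact ((fun y : (∀ j, Fin (n j) → ℝ) => y j) ''
        {x : (∀ j, Fin (n j) → ℝ) | ∑ j, φ j (x j) ≤ 1}) := hK.image (continuous_apply j)
    exact ne_top_of_le_ne_top h2.measure_lt_top.ne (measure_mono h1)
  have hpos : volume {x | φ j x ≤ 1} ≠ 0 := by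
    intro hz
    have h1 : volume ((Function.eval j : (∀ j, Fin (n j) → ℝ) → _) ⁻¹' {x | φ j x ≤ 1}) = 0 := by
      rw [volume_pi]
      exact Measure.pi_eval_preimage_null _ hz
    refine h0.ne' (measure_mono_null (fun x hx => ?_) h1)
    exact (Finset.single_le_sum (f := fun j => φ j (x j)) (fun i _ => zero_le)
      (Finset.mem_univ j)).trans hx
  refine gv_of_vol ((h j).mul _) ?_ ?_ ?_
  · rw [Module.finrank_fin_fun]
    exact hn j
  · rw [pos_iff_ne_zero]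
    intro hz
    refine hpos ?_
    have h1 := ((h j).mul (ENNReal.ofReal l)).vol 1 hl
    rw [hz, mul_zero] at h1
    refine measure_mono_null (fun x hx => ?_) (le_antisymm h1 zero_le)
    exact mul_le_mul_right (show φ j x ≤ 1 from hx) _
  · refine ne_top_of_le_ne_top hfin (measure_mono fun x hx => ?_)
    have hx' : ENNReal.ofReal l * φ j x ≤ 1 := hx
    refine le_trans ?_ hx'
    calc φ j x = 1 * φ j x := (one_mul _).symm
      _ ≤ ENNReal.ofReal l * φ j x := mul_le_mul_left hl1 _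

theorem cfg_pi (k : ℕ) {p : ℝ} (hp : 1 < p) (hp2 : p ≤ 2) :
    ∃ r L : ℝ, 0 < r ∧ 0 < L ∧ ∀ (m : ℕ) (n : Fin m → ℕ), (∀ j, n j ≤ k) →
      ∀ φ : ∀ j, (Fin (n j) → ℝ) → ℝ≥0∞, (∀ j, CV (φ j)) →
      IsCompact {x : (∀ j, Fin (n j) → ℝ) | ∑ j, φ j (x j) ≤ 1} →
      0 < volume {x : (∀ j, Fin (n j) → ℝ) | ∑ j, φ j (x j) ≤ 1} →
      ∃ (S lam : ℝ) (Ψ : (∀ j, Fin (n j) → ℝ) → ℝ≥0∞),
        Cfg p r L (Real.exp 2) S lam Ψ ∧
        {x | Ψ x ≤ ENNReal.ofReal lam} = {x | ∑ j, φ j (x j) ≤ 1} := by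
  obtain ⟨r1, hr1, hr11, hlip⟩ := prod_lip k hp hp2
  obtain ⟨r2, hr2, hzc⟩ := pi_zc k
  refine ⟨min r1 r2, 2 / r1, lt_min hr1 hr2, by positivity, ?_⟩
  intro m n hn φ hφ hK h0
  have hΦ : CV fun x : (∀ j, Fin (n j) → ℝ) => ∑ j, φ j (x j) := CV.pi hφ
  have hfin : volume {x : (∀ j, Fin (n j) → ℝ) | ∑ j, φ j (x j) ≤ 1} ≠ ∞ :=
    hK.measure_lt_top.ne
  obtain ⟨l, hl1, hl⟩ := lam hΦ h0 hfin
  have hl0 : 0 < l := by linarith
  have hgv := cfgO_gv hn hφ hK h0 hl1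
  have hV : CV fun x : (∀ j, Fin (n j) → ℝ) => ∑ j, ENNReal.ofReal l * φ j (x j) :=
    CV.pi fun j => (hφ j).mul (ENNReal.ofReal l)
  have hmul : ∀ x : (∀ j, Fin (n j) → ℝ), ∑ j, ENNReal.ofReal l * φ j (x j) =
      ENNReal.ofReal l * ∑ j, φ j (x j) := fun x => (Finset.mul_sum _ _ _).symm
  have hinv : ENNReal.ofReal l⁻¹ * ENNReal.ofReal l = 1 := by
    rw [← ENNReal.ofReal_mul (by positivity), inv_mul_cancel₀ hl0.ne', ENNReal.ofReal_one]
  have hset : {x : (∀ j, Fin (n j) → ℝ) | ∑ j, ENNReal.ofReal l * φ j (x j) ≤ ENNReal.ofReal l} =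
      {x | ∑ j, φ j (x j) ≤ 1} := by
    ext x
    rw [mem_ofPred_eq, mem_ofPred_eq, hmul]
    constructor
    · intro hx
      have h1 := mul_le_mul_right hx (ENNReal.ofReal l⁻¹)
      rwa [← mul_assoc, hinv, one_mul] at h1
    · intro hx
      calc ENNReal.ofReal l * ∑ j, φ j (x j) ≤ ENNReal.ofReal l * 1 := mul_le_mul_right hx _
        _ = ENNReal.ofReal l := mul_one _
  refine ⟨∑ j, vr (fun x => ENNReal.ofReal l * φ j x), l,
    fun x => ∑ j, ENNReal.ofReal l * φ j (x j), ?_, hset⟩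
  refine ⟨hV.meas, (pi_int hgv).1, (pi_int hgv).2, Finset.sum_nonneg fun j _ => cfgO_vr _,
    hl0.le, by rw [hset]; exact h0, by rw [hset]; exact hfin,
    ⟨_, (pi_var hgv).1, (pi_var hgv).2.le⟩, ?_, ?_⟩
  · intro u hu
    have h1 : {x : (∀ j, Fin (n j) → ℝ) | ∑ j, ENNReal.ofReal l * φ j (x j) ≤ ENNReal.ofReal u} ⊆
        {x | ∑ j, φ j (x j) ≤ ENNReal.ofReal (u / l)} := by
      intro x hx
      rw [mem_ofPred_eq, hmul] at hx
      have h2 := mul_le_mul_right hx (ENNReal.ofReal l⁻¹)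
      rw [← mul_assoc, hinv, one_mul, ← ENNReal.ofReal_mul (by positivity), mul_comm l⁻¹,
        ← div_eq_mul_inv] at h2
      exact h2
    refine (measure_mono h1).trans ((hl (u / l) (by positivity)).trans ?_)
    rw [hset]
    have h3 : Real.exp (2 + l * (u / l - 1)) = Real.exp 2 * Real.exp (u - l) := by
      rw [← Real.exp_add]
      congr 1
      field_simp
    rw [h3]
  · intro τ ε hτ hε hεr
    have h1 := hlip m n _ hgv τ ε (hτ.trans (min_le_left _ _)) hε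
      (hεr.trans_le (min_le_left _ _))
    have h2 := hzc m n _ hgv τ (hτ.trans (min_le_right _ _))
    refine nb_mono (by linarith) ?_ h1
    have h3 : 2 * ε / r1 = 2 / r1 * ε := by ring
    rw [h3]
    exact mul_le_mul_of_nonneg_left h2 (by positivity)

end Pool.Agent.MO
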