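import Pool.Agent.MO.Defs

/-!
# Project MO: definitions, part 2

`kap r`: the Fourier transform of `fej r` (supported in `[-r, r]`).
`md r lam Ψ`: the (unnormalised) density of the measure dominating the level set `{Ψ ≤ lam}`.
`LocT`: local boundedness tested on continuous functions with compact support.
-/

set_option autoImplicit false

open MeasureTheory Set
open scoped ENNReal NNReal

namespace Pool.Agent.MO

noncomputable def kap (r τ : ℝ) : ℂ :=
  ((1 / r * (1 - |τ| / r) : ℝ) : ℂ) * (1 + Complex.exp (-(Real.pi * τ / r : ℝ) * Complex.I))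

noncomputable def md {E : Type} (r lam : ℝ) (Ψ : E → ℝ≥0∞) (x : E) : ℝ :=
  fej r ((Ψ x).toReal - lam) * (Real.exp lam * er (Ψ x))

/-- Local (one octave) boundedness of the maximal operator of `μ`, tested on continuous
nonnegative functions with compact support. -/
def LocT {E : Type} [NormedAddCommGroup E] [NormedSpace ℝ E] [MeasureSpace E] (p : ℝ) (D : ℝ≥0∞)
    (μ : Measure E) : Prop :=
  ∀ (k : ℝ) (S : Finset ℝ), (∀ t ∈ S, Real.exp k ≤ t ∧ t ≤ Real.exp (k + 1)) →
    ∀ f : E → ℝ, Continuous f → HasCompactSupport f → (∀ x, 0 ≤ f x) →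
      ∫⁻ x, MX.mx μ S (fun y => ENNReal.ofReal (f y)) x ^ p ≤
        D ^ p * ∫⁻ x, ENNReal.ofReal (f x) ^ p

end Pool.Agent.MO
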