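import Pool.Agent.MO.Scal
import Pool.Agent.MO.Defs2
import Pool.Agent.CB.LocB
import Pool.Agent.MX.Cover

/-!
# MO-Chain: the local maximal function by chaining

Direct dyadic chaining. `U t x = ∫ m y f(x + t y) dy` is jointly continuous (dominated convergence); for
`F r = U (e^(k+r)) x`, `r ∈ [0,1]`: `|F r| ≤ |F 0| + ∑_l max_{i < 2^l} |F((i+1)2^(-l)) - F(i 2^(-l))|`, and in `L^p(dx)`
the maximum is at most `(∑_i ‖.‖_p^p)^(1/p) ≤ 2^(l/p) D0 2^(-l) ‖f‖_p` by `scal`, `D0 = 2C + 4/r`; the series converges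
since `p > 1` (Minkowski). The measure is `μ = volume.withDensity (ofReal ∘ m)`;
`∫⁻ ofReal (f (x + t y)) dμ = ofReal (U t x)`.
-/

set_option autoImplicit false

open MeasureTheory Set
open scoped ENNReal NNReal

namespace Pool.Agent.MO

private theorem chain_dyadic (F : ℝ → ℝ) (M : ℕ → ℝ≥0∞)
    (hM : ∀ l i : ℕ, i < 2 ^ l →
      ‖F (((i : ℝ) + 1) / 2 ^ l) - F ((i : ℝ) / 2 ^ l)‖ₑ ≤ M l) (L : ℕ) :
    ∀ n : ℕ, n ≤ 2 ^ L →
      ‖F ((n : ℝ) / 2 ^ L)‖ₑ ≤ ‖F 0‖ₑ + ∑ l ∈ Finset.range (L + 1), M l := by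
  induction L with
  | zero =>
    intro n hn
    have hn1 : n = 0 ∨ n = 1 := by
      have : n ≤ 1 := by simpa using hn
      omega
    rcases hn1 with rfl | rfl
    · simp
    · have h1 := hM 0 0 (by norm_num)
      have h2 : F (((1 : ℕ) : ℝ) / 2 ^ 0) =
          F 0 + (F ((((0 : ℕ) : ℝ) + 1) / 2 ^ 0) - F (((0 : ℕ) : ℝ) / 2 ^ 0)) := by
        norm_num
      rw [h2]
      refine (enorm_add_le _ _).trans ?_
      rw [Finset.sum_range_one]
      exact add_le_add le_rfl h1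
  | succ L ih =>
    intro n hn
    rw [Finset.sum_range_succ, ← add_assoc]
    rcases Nat.even_or_odd' n with ⟨m, rfl | rfl⟩
    · have h1 : ((2 * m : ℕ) : ℝ) / 2 ^ (L + 1) = (m : ℝ) / 2 ^ L := by
        push_cast
        rw [pow_succ]
        field_simp
      rw [h1]
      have hm : m ≤ 2 ^ L := by
        rw [pow_succ] at hn
        omega
      exact (ih m hm).trans le_self_add
    · have hm : m ≤ 2 ^ L := by
        rw [pow_succ] at hn
        omega
      have h3 := hM (L + 1) (2 * m) (by omega)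
      have h1 : ((2 * m : ℕ) : ℝ) / 2 ^ (L + 1) = (m : ℝ) / 2 ^ L := by
        push_cast
        rw [pow_succ]
        field_simp
      have h2 : F (((2 * m + 1 : ℕ) : ℝ) / 2 ^ (L + 1)) = F ((m : ℝ) / 2 ^ L) +
          (F ((((2 * m : ℕ) : ℝ) + 1) / 2 ^ (L + 1)) - F (((2 * m : ℕ) : ℝ) / 2 ^ (L + 1))) := by
        rw [h1]
        push_cast
        ring
      rw [h2]
      exact (enorm_add_le _ _).trans (add_le_add (ih m hm) h3)

private theorem chain_sup {F : ℝ → ℝ} (hF : Continuous F) (M : ℕ → ℝ≥0∞)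
    (hM : ∀ l i : ℕ, i < 2 ^ l →
      ‖F (((i : ℝ) + 1) / 2 ^ l) - F ((i : ℝ) / 2 ^ l)‖ₑ ≤ M l) {r : ℝ} (hr0 : 0 ≤ r)
    (hr1 : r ≤ 1) : ‖F r‖ₑ ≤ ‖F 0‖ₑ + ∑' l, M l := by
  have h1 : Filter.Tendsto (fun L : ℕ => ((⌊r * (2 : ℝ) ^ L⌋₊ : ℕ) : ℝ) / 2 ^ L)
      Filter.atTop (nhds r) :=
    (tendsto_nat_floor_mul_div_atTop hr0).comp
      (tendsto_pow_atTop_atTop_of_one_lt (by norm_num : (1 : ℝ) < 2))
  have h2 : Filter.Tendsto (fun L : ℕ => ‖F (((⌊r * (2 : ℝ) ^ L⌋₊ : ℕ) : ℝ) / 2 ^ L)‖ₑ)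
      Filter.atTop (nhds ‖F r‖ₑ) := (hF.enorm.tendsto r).comp h1
  refine le_of_tendsto' h2 fun L => ?_
  have h3 : ⌊r * (2 : ℝ) ^ L⌋₊ ≤ 2 ^ L := by
    have h4 : r * (2 : ℝ) ^ L ≤ ((2 ^ L : ℕ) : ℝ) := by
      push_cast
      have h5 : (0 : ℝ) < 2 ^ L := by positivity
      nlinarith
    exact (Nat.floor_le_floor h4).trans (by rw [Nat.floor_natCast])
  exact (chain_dyadic F M hM L _ h3).trans (add_le_add le_rfl (ENNReal.sum_le_tsum _))

private theorem mink {X : Type} [MeasurableSpace X] (ν : Measure X) {p : ℝ} (hp : 1 ≤ p)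
    (g : ℕ → X → ℝ≥0∞) (hg : ∀ l, Measurable (g l)) :
    (∫⁻ x, (∑' l, g l x) ^ p ∂ν) ^ (1 / p) ≤ ∑' l, (∫⁻ x, g l x ^ p ∂ν) ^ (1 / p) := by
  have hp0 : 0 < p := by linarith
  have hm : ∀ L : ℕ, Measurable fun x => ∑ l ∈ Finset.range L, g l x := fun L =>
    Finset.measurable_sum _ fun l _ => hg l
  have fin : ∀ L : ℕ, (∫⁻ x, (∑ l ∈ Finset.range L, g l x) ^ p ∂ν) ^ (1 / p) ≤
      ∑ l ∈ Finset.range L, (∫⁻ x, g l x ^ p ∂ν) ^ (1 / p) := by
    intro L
    induction L with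
    | zero =>
      have h1 : 0 < 1 / p := by positivity
      simp [hp0, ENNReal.zero_rpow_of_pos hp0]
    | succ L ih =>
      have h1 := ENNReal.lintegral_Lp_add_le (μ := ν) (f := fun x => ∑ l ∈ Finset.range L, g l x)
        (g := g L) (hm L).aemeasurable (hg L).aemeasurable hp
      have h2 : ((fun x => ∑ l ∈ Finset.range L, g l x) + g L) =
          fun x => ∑ l ∈ Finset.range (L + 1), g l x := by
        funext x
        rw [Finset.sum_range_succ]
        rfl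
      rw [h2] at h1
      refine h1.trans ?_
      rw [Finset.sum_range_succ]
      gcongr
  have hsup : ∫⁻ x, (∑' l, g l x) ^ p ∂ν =
      ⨆ L : ℕ, ∫⁻ x, (∑ l ∈ Finset.range L, g l x) ^ p ∂ν := by
    rw [← lintegral_iSup]
    · refine lintegral_congr fun x => ?_
      rw [ENNReal.tsum_eq_iSup_nat]
      exact (ENNReal.orderIsoRpow p hp0).map_iSup _
    · exact fun L => (hm L).pow_const p
    · intro L L' hLL x
      refine ENNReal.rpow_le_rpow ?_ hp0.le
      exact Finset.sum_le_sum_of_subset (Finset.range_mono hLL)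
  rw [hsup]
  have h3 := (ENNReal.orderIsoRpow (1 / p) (by positivity)).map_iSup
    (fun L : ℕ => ∫⁻ x, (∑ l ∈ Finset.range L, g l x) ^ p ∂ν)
  have h4 : (⨆ L : ℕ, ∫⁻ x, (∑ l ∈ Finset.range L, g l x) ^ p ∂ν) ^ (1 / p) =
      ⨆ L : ℕ, (∫⁻ x, (∑ l ∈ Finset.range L, g l x) ^ p ∂ν) ^ (1 / p) := h3
  rw [h4]
  exact iSup_le fun L => (fin L).trans (ENNReal.sum_le_tsum _)

private theorem rp_cancel {p : ℝ} (hp : 0 < p) (u : ℝ≥0∞) : (u ^ (1 / p)) ^ p = u := by
  rw [← ENNReal.rpow_mul, one_div_mul_cancel hp.ne', ENNReal.rpow_one]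

private theorem rp_cancel' {p : ℝ} (hp : 0 < p) (u : ℝ≥0∞) : (u ^ p) ^ (1 / p) = u := by
  rw [← ENNReal.rpow_mul, mul_one_div_cancel hp.ne', ENNReal.rpow_one]

section U

variable {E : Type} [NormedAddCommGroup E] [NormedSpace ℝ E] [FiniteDimensional ℝ E]
  [MeasureSpace E] [BorelSpace E] [Measure.IsAddHaarMeasure (volume : Measure E)]

private noncomputable def uu (m f : E → ℝ) (t : ℝ) (x : E) : ℝ := ∫ y, m y * f (x + t • y)

omit [FiniteDimensional ℝ E] [BorelSpace E] [Measure.IsAddHaarMeasure (volume : Measure E)] in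
private theorem uu_nonneg {m f : E → ℝ} (hm0 : ∀ x, 0 ≤ m x) (hf0 : ∀ x, 0 ≤ f x) (t : ℝ)
    (x : E) : 0 ≤ uu m f t x := integral_nonneg fun y => mul_nonneg (hm0 y) (hf0 _)

omit [FiniteDimensional ℝ E] [Measure.IsAddHaarMeasure (volume : Measure E)] in
private theorem uu_cont {m f : E → ℝ} (hmi : Integrable m) (hfc : Continuous f)
    (hfs : HasCompactSupport f) : Continuous fun z : ℝ × E => uu m f z.1 z.2 := by
  obtain ⟨C, hC⟩ := hfs.exists_bound_of_continuous hfc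
  unfold uu
  refine continuous_of_dominated (bound := fun y => ‖m y‖ * C) ?_ ?_ ?_ ?_
  · intro z
    have h1 : Continuous fun y : E => f (z.2 + z.1 • y) := hfc.comp (by fun_prop)
    exact hmi.aestronglyMeasurable.mul h1.aestronglyMeasurable
  · intro z
    refine Filter.Eventually.of_forall fun y => ?_
    rw [norm_mul]
    exact mul_le_mul_of_nonneg_left (hC _) (norm_nonneg _)
  · exact hmi.norm.mul_const C
  · refine Filter.Eventually.of_forall fun y => ?_
    have h1 : Continuous fun z : ℝ × E => f (z.2 + z.1 • y) := hfc.comp (by fun_prop)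
    exact continuous_const.mul h1

omit [FiniteDimensional ℝ E] [Measure.IsAddHaarMeasure (volume : Measure E)] in
private theorem uu_int {m f : E → ℝ} (hmi : Integrable m) (hfc : Continuous f)
    (hfs : HasCompactSupport f) (t : ℝ) (x : E) : Integrable fun y => m y * f (x + t • y) := by
  obtain ⟨C, hC⟩ := hfs.exists_bound_of_continuous hfc
  have h1 : Continuous fun y : E => f (x + t • y) := hfc.comp (by fun_prop)
  refine (hmi.norm.mul_const C).mono' (hmi.aestronglyMeasurable.mul h1.aestronglyMeasurable)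
    (Filter.Eventually.of_forall fun y => ?_)
  rw [norm_mul]
  exact mul_le_mul_of_nonneg_left (hC _) (norm_nonneg _)

omit [FiniteDimensional ℝ E] [Measure.IsAddHaarMeasure (volume : Measure E)] in
private theorem uu_lint {m f : E → ℝ} (hm : Measurable m) (hm0 : ∀ x, 0 ≤ m x)
    (hmi : Integrable m) (hfc : Continuous f) (hfs : HasCompactSupport f) (hf0 : ∀ x, 0 ≤ f x)
    (t : ℝ) (x : E) :
    ∫⁻ y, ENNReal.ofReal (f (x + t • y)) ∂(volume.withDensity fun x => ENNReal.ofReal (m x)) =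
      ENNReal.ofReal (uu m f t x) := by
  have h1 : Continuous fun y : E => f (x + t • y) := hfc.comp (by fun_prop)
  rw [lintegral_withDensity_eq_lintegral_mul _ hm.ennreal_ofReal
    h1.measurable.ennreal_ofReal]
  unfold uu
  rw [ofReal_integral_eq_lintegral_ofReal (uu_int hmi hfc hfs t x)
    (Filter.Eventually.of_forall fun y => mul_nonneg (hm0 y) (hf0 _))]
  refine lintegral_congr fun y => ?_
  rw [Pi.mul_apply, ENNReal.ofReal_mul (hm0 y)]

private theorem uu_lp {p : ℝ} (hp : 1 ≤ p) {m f : E → ℝ} (hm : Measurable m)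
    (hm0 : ∀ x, 0 ≤ m x) (hmi : Integrable m) (hm1 : ∫ x, m x = 1) (hfc : Continuous f)
    (hfs : HasCompactSupport f) (hf0 : ∀ x, 0 ≤ f x) (t : ℝ) :
    ∫⁻ x, ‖uu m f t x‖ₑ ^ p ≤ ∫⁻ x, ENNReal.ofReal (f x) ^ p := by
  have hν : (volume.withDensity fun x => ENNReal.ofReal (m x)) (Set.univ : Set E) = 1 := by
    rw [withDensity_apply _ MeasurableSet.univ, Measure.restrict_univ,
      ← ofReal_integral_eq_lintegral_ofReal hmi (Filter.Eventually.of_forall hm0), hm1,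
      ENNReal.ofReal_one]
  have hfin : IsFiniteMeasure (volume.withDensity fun x : E => ENNReal.ofReal (m x)) :=
    ⟨by rw [hν]; exact ENNReal.one_lt_top⟩
  have h1 : ∀ x, ‖uu m f t x‖ₑ ^ p ≤ ∫⁻ y, ENNReal.ofReal (f (x + t • y)) ^ p
      ∂(volume.withDensity fun x => ENNReal.ofReal (m x)) := by
    intro x
    have h2 : Continuous fun y : E => f (x + t • y) := hfc.comp (by fun_prop)
    rw [Real.enorm_of_nonneg (uu_nonneg hm0 hf0 t x), ← uu_lint hm hm0 hmi hfc hfs hf0 t x]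
    have h3 := Pool.Agent.MX.lintegral_rpow_le
      (volume.withDensity fun x : E => ENNReal.ofReal (m x)) hp
      (g := fun y => ENNReal.ofReal (f (x + t • y))) h2.measurable.ennreal_ofReal.aemeasurable
    rwa [hν, ENNReal.one_rpow, one_mul] at h3
  have hm2 : Measurable fun z : E × E => ENNReal.ofReal (f (z.1 + t • z.2)) ^ p := by
    have h2 : Continuous fun z : E × E => f (z.1 + t • z.2) := hfc.comp (by fun_prop)
    exact h2.measurable.ennreal_ofReal.pow_const p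
  calc ∫⁻ x, ‖uu m f t x‖ₑ ^ p ≤ ∫⁻ x, ∫⁻ y, ENNReal.ofReal (f (x + t • y)) ^ p
      ∂(volume.withDensity fun x => ENNReal.ofReal (m x)) := lintegral_mono h1
    _ = ∫⁻ y, ∫⁻ x, ENNReal.ofReal (f (x + t • y)) ^ p
      ∂(volume : Measure E) ∂(volume.withDensity fun x => ENNReal.ofReal (m x)) :=
        lintegral_lintegral_swap hm2.aemeasurable
    _ = ∫⁻ y, (∫⁻ x, ENNReal.ofReal (f x) ^ p)
        ∂(volume.withDensity fun x : E => ENNReal.ofReal (m x)) := by
        refine lintegral_congr fun y => ?_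
        exact lintegral_add_right_eq_self (fun x => ENNReal.ofReal (f x) ^ p) (t • y)
    _ = _ := by
        rw [lintegral_const, hν, mul_one]

end U

private theorem real_id {p D0 : ℝ} (l : ℕ) :
    ((2 : ℝ) ^ l) ^ (1 / p) * (D0 / 2 ^ l) = D0 * ((2 : ℝ) ^ (1 / p) / 2) ^ l := by
  have h1 : ((2 : ℝ) ^ l) ^ (1 / p) = ((2 : ℝ) ^ (1 / p)) ^ l := by
    rw [← Real.rpow_natCast, ← Real.rpow_natCast, ← Real.rpow_mul (by norm_num),
      ← Real.rpow_mul (by norm_num), mul_comm]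
  rw [h1, div_pow]
  ring

theorem chain (p r C : ℝ) (hp : 1 < p) (hr : 0 < r) (hC : 0 ≤ C) :
    ∃ D : ℝ≥0, ∀ (E : Type) [NormedAddCommGroup E] [NormedSpace ℝ E]
      [FiniteDimensional ℝ E] [MeasureSpace E] [BorelSpace E]
      [Measure.IsAddHaarMeasure (volume : Measure E)] (m : E → ℝ), Measurable m → (∀ x, 0 ≤ m x) → Integrable m →
      ∫ x, m x = 1 →
      (∀ ε : ℝ, 0 < ε → ε < r →
        NB p (C * ε) fun y => dk (1 + ε) (fun x => (m x : ℂ)) y - (m y : ℂ)) →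
      LocT p (D : ℝ≥0∞) (volume.withDensity fun x => ENNReal.ofReal (m x)) := by
  have hp0 : 0 < p := by linarith
  obtain ⟨D0, hD0⟩ : ∃ D0 : ℝ, D0 = 2 * C + 4 / r := ⟨_, rfl⟩
  have hD0n : 0 ≤ D0 := by
    rw [hD0]
    positivity
  obtain ⟨q, hq⟩ : ∃ q : ℝ, q = (2 : ℝ) ^ (1 / p) / 2 := ⟨_, rfl⟩
  have hq0 : 0 < q := by
    rw [hq]
    positivity
  have hq1 : q < 1 := by
    have h1 : (2 : ℝ) ^ (1 / p) < 2 ^ (1 : ℝ) :=
      Real.rpow_lt_rpow_of_exponent_lt (by norm_num) (by rw [div_lt_one hp0]; exact hp)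
    rw [Real.rpow_one] at h1
    rw [hq, div_lt_one (by norm_num)]
    exact h1
  refine ⟨1 + Real.toNNReal (D0 * (1 - q)⁻¹), ?_⟩
  intro E _ _ _ _ _ _ m hm hm0 hmi hm1 hNB k S hS f hfc hfs hf0
  obtain ⟨I, hI⟩ : ∃ I : ℝ≥0∞, I = ∫⁻ x, ENNReal.ofReal (f x) ^ p := ⟨_, rfl⟩
  rw [← hI]
  have hU : Continuous fun z : ℝ × E => uu m f z.1 z.2 := uu_cont hmi hfc hfs
  have hUx : ∀ s : ℝ, Continuous fun x : E => uu m f (Real.exp s) x := fun s =>
    hU.comp (f := fun x : E => (Real.exp s, x)) (by fun_prop)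
  have hce : ∀ a : ℝ, ‖(a : ℂ)‖ₑ = ‖a‖ₑ := fun a => by
    rw [← ofReal_norm, ← ofReal_norm, Complex.norm_real]
  -- the increments
  have hinc : ∀ (s u : ℝ), 0 ≤ u → u ≤ 1 →
      ∫⁻ x, ‖uu m f (Real.exp (s + u)) x - uu m f (Real.exp s) x‖ₑ ^ p ≤
        ENNReal.ofReal (D0 * u) ^ p * I := by
    intro s u hu0 hu1
    have hTF : TF fun x => (f x : ℂ) := by
      refine ⟨Complex.continuous_ofReal.comp hfc, ?_⟩
      exact hfs.comp_left Complex.ofReal_zero
    have h1 := scal hp hr hC hm hm0 hmi hm1 hNB hTF s hu0 hu1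
    have hcast : ∀ (t : ℝ) (x : E), ∫ y, (m y : ℂ) * (f (x + t • y) : ℂ) =
        ((uu m f t x : ℝ) : ℂ) := by
      intro t x
      unfold uu
      rw [← integral_complex_ofReal]
      refine integral_congr_ae (Filter.Eventually.of_forall fun y => ?_)
      push_cast
      rfl
    simp only [hcast] at h1
    rw [← hD0] at h1
    have h2 : ∫⁻ x, ‖((f x : ℝ) : ℂ)‖ₑ ^ p = I := by
      rw [hI]
      refine lintegral_congr fun x => ?_
      rw [← Real.enorm_of_nonneg (hf0 x), hce]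
    rw [h2] at h1
    refine le_of_eq_of_le (lintegral_congr fun x => ?_) h1
    rw [← Complex.ofReal_sub, hce]
  let A : E → ℝ≥0∞ := fun x => ‖uu m f (Real.exp k) x‖ₑ
  let Ml : ℕ → E → ℝ≥0∞ := fun l x =>
    (∑ i ∈ Finset.range (2 ^ l), ‖uu m f (Real.exp (k + ((i : ℝ) + 1) / 2 ^ l)) x -
      uu m f (Real.exp (k + (i : ℝ) / 2 ^ l)) x‖ₑ ^ p) ^ (1 / p)
  have hA : Measurable A := (hUx k).measurable.enorm
  have hterm : ∀ l i : ℕ, Measurable fun x =>
      ‖uu m f (Real.exp (k + ((i : ℝ) + 1) / 2 ^ l)) x -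
      uu m f (Real.exp (k + (i : ℝ) / 2 ^ l)) x‖ₑ ^ p := fun l i =>
    ((hUx _).measurable.sub (hUx _).measurable).enorm.pow_const p
  have hMl : ∀ l, Measurable (Ml l) := fun l =>
    (Finset.measurable_sum _ fun i _ => hterm l i).pow_const (1 / p)
  have hAi : (∫⁻ x, A x ^ p) ^ (1 / p) ≤ I ^ (1 / p) := by
    refine ENNReal.rpow_le_rpow ?_ (by positivity)
    rw [hI]
    exact uu_lp hp.le hm hm0 hmi hm1 hfc hfs hf0 (Real.exp k)
  have hMli : ∀ l : ℕ, (∫⁻ x, Ml l x ^ p) ^ (1 / p) ≤ ENNReal.ofReal (D0 * q ^ l) * I ^ (1 / p) := by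
    intro l
    have h1 : ∫⁻ x, Ml l x ^ p ≤ ENNReal.ofReal (2 ^ l) * (ENNReal.ofReal (D0 / 2 ^ l) ^ p * I) := by
      simp only [Ml, rp_cancel hp0]
      rw [lintegral_finsetSum _ fun i _ => hterm l i]
      calc ∑ i ∈ Finset.range (2 ^ l), ∫⁻ x, ‖uu m f (Real.exp (k + ((i : ℝ) + 1) / 2 ^ l)) x -
            uu m f (Real.exp (k + (i : ℝ) / 2 ^ l)) x‖ₑ ^ p ≤
            ∑ i ∈ Finset.range (2 ^ l), ENNReal.ofReal (D0 / 2 ^ l) ^ p * I := by
            refine Finset.sum_le_sum fun i _ => ?_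
            have h2 := hinc (k + (i : ℝ) / 2 ^ l) (1 / 2 ^ l) (by positivity)
              (by
                rw [div_le_one (by positivity)]
                exact one_le_pow₀ (by norm_num))
            have h3 : k + (i : ℝ) / 2 ^ l + 1 / 2 ^ l = k + ((i : ℝ) + 1) / 2 ^ l := by ring
            rw [h3, mul_one_div] at h2
            exact h2
        _ = _ := by
            rw [Finset.sum_const, Finset.card_range, nsmul_eq_mul]
            congr 1
            rw [ENNReal.ofReal_pow (by norm_num)]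
            norm_num
    calc (∫⁻ x, Ml l x ^ p) ^ (1 / p) ≤
          (ENNReal.ofReal (2 ^ l) * (ENNReal.ofReal (D0 / 2 ^ l) ^ p * I)) ^ (1 / p) :=
          ENNReal.rpow_le_rpow h1 (by positivity)
      _ = ENNReal.ofReal (D0 * q ^ l) * I ^ (1 / p) := by
          rw [ENNReal.mul_rpow_of_nonneg _ _ (by positivity),
            ENNReal.mul_rpow_of_nonneg _ _ (by positivity), rp_cancel' hp0,
            ENNReal.ofReal_rpow_of_nonneg (by positivity) (by positivity), ← mul_assoc,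
            ← ENNReal.ofReal_mul (by positivity), real_id, hq]
  -- pointwise bound
  have hpt : ∀ x, MX.mx (volume.withDensity fun x => ENNReal.ofReal (m x)) S
      (fun y => ENNReal.ofReal (f y)) x ≤ A x + ∑' l : ℕ, Ml l x := by
    intro x
    unfold MX.mx
    refine iSup₂_le fun t ht => ?_
    obtain ⟨t0, t1⟩ := hS t ht
    have htpos : 0 < t := lt_of_lt_of_le (Real.exp_pos _) t0
    have hs0 : 0 ≤ Real.log t - k := by
      have := (Real.le_log_iff_exp_le htpos).2 t0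
      linarith
    have hs1 : Real.log t - k ≤ 1 := by
      have := (Real.log_le_iff_le_exp htpos).2 t1
      linarith
    have hFc : Continuous fun s : ℝ => uu m f (Real.exp (k + s)) x :=
      hU.comp (f := fun s : ℝ => (Real.exp (k + s), x)) (by fun_prop)
    have h1 := chain_sup hFc (fun l => Ml l x) (fun l i hi => by
      have h2 : ‖uu m f (Real.exp (k + ((i : ℝ) + 1) / 2 ^ l)) x -
          uu m f (Real.exp (k + (i : ℝ) / 2 ^ l)) x‖ₑ ^ p ≤
          ∑ i ∈ Finset.range (2 ^ l), ‖uu m f (Real.exp (k + ((i : ℝ) + 1) / 2 ^ l)) x -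
          uu m f (Real.exp (k + (i : ℝ) / 2 ^ l)) x‖ₑ ^ p :=
        Finset.single_le_sum (f := fun i : ℕ =>
          ‖uu m f (Real.exp (k + ((i : ℝ) + 1) / 2 ^ l)) x -
          uu m f (Real.exp (k + (i : ℝ) / 2 ^ l)) x‖ₑ ^ p) (fun _ _ => zero_le)
          (Finset.mem_range.2 hi)
      have h3 := ENNReal.rpow_le_rpow h2 (z := 1 / p) (by positivity)
      rw [rp_cancel' hp0] at h3
      exact h3) hs0 hs1
    have h2 : Real.exp (k + (Real.log t - k)) = t := by
      rw [show k + (Real.log t - k) = Real.log t by ring, Real.exp_log htpos]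
    simp only [h2, add_zero] at h1
    rw [uu_lint hm hm0 hmi hfc hfs hf0 t x, ← Real.enorm_of_nonneg (uu_nonneg hm0 hf0 t x)]
    exact h1
  have hTm : Measurable fun x => ∑' l : ℕ, Ml l x := Measurable.tsum fun l => hMl l
  have hT : (∫⁻ x, (∑' l : ℕ, Ml l x) ^ p) ^ (1 / p) ≤
      ENNReal.ofReal (D0 * (1 - q)⁻¹) * I ^ (1 / p) := by
    refine (mink volume hp.le _ hMl).trans ?_
    calc ∑' l : ℕ, (∫⁻ x, Ml l x ^ p) ^ (1 / p)
      _ ≤ ∑' l : ℕ, ENNReal.ofReal (D0 * q ^ l) * I ^ (1 / p) := ENNReal.tsum_le_tsum hMli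
      _ = (∑' l : ℕ, ENNReal.ofReal (D0 * q ^ l)) * I ^ (1 / p) := ENNReal.tsum_mul_right
      _ = _ := by
          rw [← ENNReal.ofReal_tsum_of_nonneg (fun l => by positivity)
            ((summable_geometric_of_lt_one hq0.le hq1).mul_left D0), tsum_mul_left,
            tsum_geometric_of_lt_one hq0.le hq1]
  have hG : (∫⁻ x, (A x + ∑' l : ℕ, Ml l x) ^ p) ^ (1 / p) ≤
      I ^ (1 / p) + ENNReal.ofReal (D0 * (1 - q)⁻¹) * I ^ (1 / p) := by
    have h1 := ENNReal.lintegral_Lp_add_le (μ := (volume : Measure E)) (f := A)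
      (g := fun x => ∑' l : ℕ, Ml l x) hA.aemeasurable hTm.aemeasurable hp.le
    exact h1.trans (add_le_add hAi hT)
  have hD : I ^ (1 / p) + ENNReal.ofReal (D0 * (1 - q)⁻¹) * I ^ (1 / p) =
      ((1 + Real.toNNReal (D0 * (1 - q)⁻¹) : ℝ≥0) : ℝ≥0∞) * I ^ (1 / p) := by
    push_cast
    unfold ENNReal.ofReal
    ring
  rw [hD] at hG
  calc ∫⁻ x, MX.mx (volume.withDensity fun x => ENNReal.ofReal (m x)) S
        (fun y => ENNReal.ofReal (f y)) x ^ p ≤ ∫⁻ x, (A x + ∑' l : ℕ, Ml l x) ^ p :=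
        lintegral_mono fun x => ENNReal.rpow_le_rpow (hpt x) hp0.le
    _ = ((∫⁻ x, (A x + ∑' l : ℕ, Ml l x) ^ p) ^ (1 / p)) ^ p := (rp_cancel hp0 _).symm
    _ ≤ _ := ENNReal.rpow_le_rpow hG hp0.le
    _ = _ := by
        rw [ENNReal.mul_rpow_of_nonneg _ _ hp0.le, rp_cancel hp0]

end Pool.Agent.MO
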