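import Pool.Agent.MO.CVa

/-!
# MO-Cheb: lower bound for the volume of the level set

`Z = ∫ er Ψ > 0`, `b = (volume {Ψ ≤ lam}).toReal`, `v u = (volume {Ψ ≤ ofReal u}).toReal ≤ C1 e^{u-lam} b` (`Cfg.vol`), `M` from
`Cfg.var`, `M' = M + 1`, `σ = √(1+S)`.
(1) `∫_0^∞ e^{-u} v(u) du = Z` and (2) `∫_0^∞ (u - M')^2 e^{-u} v(u) du ≤ (S+1) Z`: Tonelli,
`v(u) = ∫ 1_{Ψ x ≤ u} dx`, for `Ψ x = ψ < ∞`: `∫_ψ^∞ e^{-u} du = e^{-ψ}` and
`∫_ψ^∞ (u - M')^2 e^{-u} du = e^{-ψ} ((ψ - M)^2 + 1)` (`∫_0^∞ (a + w - 1)^2 e^{-w} dw = a^2 + 1`).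
(3) Chebyshev: the part `|u - M'| ≥ 2σ` contributes at most `(S+1)Z/(4σ^2) = Z/4` to (1), so
`3Z/4 ≤ ∫_{|u - M'| < 2σ, u ≥ 0} e^{-u} v(u) du ≤ 4σ C1 e^{-lam} b`.
-/

set_option autoImplicit false

open MeasureTheory Set
open scoped ENNReal NNReal

namespace Pool.Agent.MO

private theorem cheb_set {ψ : ℝ} (h0 : 0 ≤ ψ) (g : ℝ → ℝ≥0∞) :
    ∫⁻ u in Ioi (0 : ℝ), (if ψ ≤ u then g u else 0) = ∫⁻ u in Ioi ψ, g u := by
  have h1 : ∫⁻ u in Ioi (0 : ℝ), (if ψ ≤ u then g u else 0) =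
      ∫⁻ u in Ioi (0 : ℝ), (Ici ψ).indicator g u := by
    refine lintegral_congr fun u => ?_
    by_cases hu : ψ ≤ u
    · rw [if_pos hu, indicator_of_mem (mem_Ici.2 hu)]
    · rw [if_neg hu, indicator_of_notMem (fun h => hu (mem_Ici.1 h))]
  rw [h1, lintegral_indicator measurableSet_Ici, Measure.restrict_restrict measurableSet_Ici]
  have h2 : (Ici ψ ∩ Ioi 0 : Set ℝ) =ᵐ[volume] (Ioi ψ ∩ Ioi 0 : Set ℝ) :=
    Ioi_ae_eq_Ici.symm.inter (ae_eq_refl _)
  rw [setLIntegral_congr h2, inter_eq_left.2 (Ioi_subset_Ioi h0)]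

private theorem cheb_I1 (ψ : ℝ) :
    ∫⁻ u in Ioi ψ, ENNReal.ofReal (Real.exp (-u)) = ENNReal.ofReal (Real.exp (-ψ)) := by
  have hd : ∀ x ∈ Ici ψ, HasDerivAt (fun u : ℝ => -Real.exp (-u)) (Real.exp (-x)) x := by
    intro x _
    have h1 : HasDerivAt (fun u : ℝ => Real.exp (-u)) (Real.exp (-x) * (-1)) x :=
      (hasDerivAt_neg x).exp
    have h2 := h1.neg
    have h3 : -(Real.exp (-x) * (-1)) = Real.exp (-x) := by ring
    rwa [h3] at h2
  have hp : ∀ x ∈ Ioi ψ, 0 ≤ Real.exp (-x) := fun x _ => (Real.exp_pos _).le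
  have hl : Filter.Tendsto (fun u : ℝ => -Real.exp (-u)) Filter.atTop (nhds 0) := by
    have h := (Real.tendsto_pow_mul_exp_neg_atTop_nhds_zero 0).neg
    simpa using h
  have hi := integrableOn_Ioi_deriv_of_nonneg' hd hp hl
  have he := integral_Ioi_of_hasDerivAt_of_nonneg' hd hp hl
  rw [← ofReal_integral_eq_lintegral_ofReal hi
    ((ae_restrict_iff' measurableSet_Ioi).2 (Filter.Eventually.of_forall fun x hx => hp x hx)), he]
  congr 1
  ring

private theorem cheb_I2 (M ψ : ℝ) :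
    ∫⁻ u in Ioi ψ, ENNReal.ofReal ((u - (M + 1)) ^ 2 * Real.exp (-u)) =
      ENNReal.ofReal (((ψ - M) ^ 2 + 1) * Real.exp (-ψ)) := by
  have hd : ∀ x ∈ Ici ψ, HasDerivAt (fun u : ℝ => -(((u - M) ^ 2 + 1) * Real.exp (-u)))
      ((x - (M + 1)) ^ 2 * Real.exp (-x)) x := by
    intro x _
    have h1 : HasDerivAt (fun u : ℝ => Real.exp (-u)) (Real.exp (-x) * (-1)) x :=
      (hasDerivAt_neg x).exp
    have h2 : HasDerivAt (fun u : ℝ => (u - M) ^ 2 + 1) (2 * (x - M)) x := by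
      have h3 := (((hasDerivAt_id x).sub_const M).pow 2).add_const 1
      simpa using h3
    have h4 := (h2.mul h1).neg
    have h5 : -(2 * (x - M) * Real.exp (-x) + ((x - M) ^ 2 + 1) * (Real.exp (-x) * (-1))) =
        (x - (M + 1)) ^ 2 * Real.exp (-x) := by ring
    rw [h5] at h4
    exact h4
  have hp : ∀ x ∈ Ioi ψ, 0 ≤ (x - (M + 1)) ^ 2 * Real.exp (-x) :=
    fun x _ => mul_nonneg (sq_nonneg _) (Real.exp_pos _).le
  have hl : Filter.Tendsto (fun u : ℝ => -(((u - M) ^ 2 + 1) * Real.exp (-u))) Filter.atTop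
      (nhds 0) := by
    have h0 := Real.tendsto_pow_mul_exp_neg_atTop_nhds_zero 0
    have h1 := Real.tendsto_pow_mul_exp_neg_atTop_nhds_zero 1
    have h2 := Real.tendsto_pow_mul_exp_neg_atTop_nhds_zero 2
    have h := ((h2.add (h1.const_mul (-2 * M))).add (h0.const_mul (M ^ 2 + 1))).neg
    have e : (fun u : ℝ => -(((u - M) ^ 2 + 1) * Real.exp (-u))) = fun u : ℝ =>
        -(u ^ 2 * Real.exp (-u) + -2 * M * (u ^ 1 * Real.exp (-u)) +
          (M ^ 2 + 1) * (u ^ 0 * Real.exp (-u))) := by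
      funext u
      ring
    rw [e]
    simpa using h
  have hi := integrableOn_Ioi_deriv_of_nonneg' hd hp hl
  have he := integral_Ioi_of_hasDerivAt_of_nonneg' hd hp hl
  rw [← ofReal_integral_eq_lintegral_ofReal hi
    ((ae_restrict_iff' measurableSet_Ioi).2 (Filter.Eventually.of_forall fun x hx => hp x hx)), he]
  congr 1
  ring

variable {E : Type} [NormedAddCommGroup E] [NormedSpace ℝ E] [FiniteDimensional ℝ E]
  [MeasureSpace E] [BorelSpace E] [Measure.IsAddHaarMeasure (volume : Measure E)]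

private theorem cheb_swap {Ψ : E → ℝ≥0∞} (hm : Measurable Ψ) {g : ℝ → ℝ≥0∞}
    (hg : Measurable g) :
    ∫⁻ u in Ioi (0 : ℝ), g u * volume {x | Ψ x ≤ ENNReal.ofReal u} =
      ∫⁻ x, ∫⁻ u in Ioi (0 : ℝ), (if Ψ x ≤ ENNReal.ofReal u then g u else 0) := by
  rw [lintegral_lintegral_swap]
  · refine lintegral_congr fun u => ?_
    have h1 : ∫⁻ x : E, (if Ψ x ≤ ENNReal.ofReal u then g u else 0) =
        ∫⁻ x : E, {x | Ψ x ≤ ENNReal.ofReal u}.indicator (fun _ => g u) x := by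
      refine lintegral_congr fun x => ?_
      by_cases hx : Ψ x ≤ ENNReal.ofReal u
      · rw [if_pos hx, indicator_of_mem (show x ∈ {x | Ψ x ≤ ENNReal.ofReal u} from hx)]
      · rw [if_neg hx, indicator_of_notMem (show x ∉ {x | Ψ x ≤ ENNReal.ofReal u} from hx)]
    have hms : MeasurableSet {x | Ψ x ≤ ENNReal.ofReal u} := hm measurableSet_Iic
    rw [h1, lintegral_indicator_const hms]
  · have hs : MeasurableSet {q : E × ℝ | Ψ q.1 ≤ ENNReal.ofReal q.2} :=
      measurableSet_le (hm.comp measurable_fst) (ENNReal.measurable_ofReal.comp measurable_snd)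
    have h2 : Measurable (Function.uncurry fun (x : E) (u : ℝ) =>
        if Ψ x ≤ ENNReal.ofReal u then g u else 0) :=
      Measurable.ite hs (hg.comp measurable_snd) measurable_const
    exact h2.aemeasurable

private theorem cheb_val {Ψ : E → ℝ≥0∞} (hm : Measurable Ψ) {g : ℝ → ℝ≥0∞}
    (hg : Measurable g) {G : E → ℝ≥0∞} (hG0 : ∀ x, Ψ x = ∞ → G x = 0)
    (hG : ∀ x, Ψ x ≠ ∞ → ∫⁻ u in Ioi (Ψ x).toReal, g u = G x) :
    ∫⁻ u in Ioi (0 : ℝ), g u * volume {x | Ψ x ≤ ENNReal.ofReal u} = ∫⁻ x, G x := by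
  rw [cheb_swap hm hg]
  refine lintegral_congr fun x => ?_
  by_cases hx : Ψ x = ∞
  · rw [hG0 x hx]
    have h1 : ∀ u : ℝ, (if Ψ x ≤ ENNReal.ofReal u then g u else 0) = 0 := by
      intro u
      rw [if_neg]
      rw [hx, top_le_iff]
      exact ENNReal.ofReal_ne_top
    simp only [h1, lintegral_zero]
  · rw [← hG x hx, ← cheb_set ENNReal.toReal_nonneg g]
    refine setLIntegral_congr_fun measurableSet_Ioi fun u hu => ?_
    have h2 : Ψ x ≤ ENNReal.ofReal u ↔ (Ψ x).toReal ≤ u :=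
      ENNReal.le_ofReal_iff_toReal_le hx (le_of_lt hu)
    simp only [h2]

theorem cheb {p r L C1 S lam : ℝ} {Ψ : E → ℝ≥0∞} (h : Cfg p r L C1 S lam Ψ) (hC1 : 0 ≤ C1) :
    ∫ x, er (Ψ x) ≤ 16 / 3 * C1 * Real.sqrt (1 + S) * Real.exp (-lam) *
      (volume {x | Ψ x ≤ ENNReal.ofReal lam}).toReal := by
  obtain ⟨M, hMi, hM⟩ := h.var
  have hS := h.S0
  set Z := ∫ x, er (Ψ x) with hZ
  have hZ0 : 0 < Z := h.pos
  have herf : ∀ x, Ψ x ≠ ∞ → er (Ψ x) = Real.exp (-(Ψ x).toReal) := by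
    intro x hx
    unfold er
    rw [if_neg hx]
  -- (1)
  have h1 : ∫⁻ u in Ioi (0 : ℝ), ENNReal.ofReal (Real.exp (-u)) *
      volume {x | Ψ x ≤ ENNReal.ofReal u} = ENNReal.ofReal Z := by
    have hgm : Measurable fun u : ℝ => ENNReal.ofReal (Real.exp (-u)) := by fun_prop
    rw [cheb_val (G := fun x => ENNReal.ofReal (er (Ψ x))) h.meas hgm
      (fun x hx => by simp only [hx, er_top, ENNReal.ofReal_zero])
      (fun x hx => by rw [cheb_I1, herf x hx]),
      ← ofReal_integral_eq_lintegral_ofReal h.int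
        (Filter.Eventually.of_forall fun x => er_nonneg _)]
  -- (2)
  have h2 : ∫⁻ u in Ioi (0 : ℝ), ENNReal.ofReal ((u - (M + 1)) ^ 2 * Real.exp (-u)) *
      volume {x | Ψ x ≤ ENNReal.ofReal u} ≤ ENNReal.ofReal ((S + 1) * Z) := by
    have hgm : Measurable fun u : ℝ =>
        ENNReal.ofReal ((u - (M + 1)) ^ 2 * Real.exp (-u)) := by
      fun_prop
    have hint : Integrable fun x => ((Ψ x).toReal - M) ^ 2 * er (Ψ x) + er (Ψ x) :=
      hMi.add h.int
    rw [cheb_val (G := fun x => ENNReal.ofReal (((Ψ x).toReal - M) ^ 2 * er (Ψ x) + er (Ψ x)))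
      h.meas hgm
      (fun x hx => by simp only [hx, er_top, mul_zero, add_zero, ENNReal.ofReal_zero])
      (fun x hx => by
        rw [cheb_I2, herf x hx]
        congr 1
        ring),
      ← ofReal_integral_eq_lintegral_ofReal hint (Filter.Eventually.of_forall fun x =>
        add_nonneg (mul_nonneg (sq_nonneg _) (er_nonneg _)) (er_nonneg _)),
      integral_add hMi h.int]
    refine ENNReal.ofReal_le_ofReal ?_
    linarith
  -- (3)
  set σ := Real.sqrt (1 + S) with hσ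
  have hσ2 : σ ^ 2 = 1 + S := Real.sq_sqrt (by linarith)
  have hσ0 : 0 < σ := Real.sqrt_pos.2 (by linarith)
  set A : Set ℝ := Ioo (M + 1 - 2 * σ) (M + 1 + 2 * σ) with hA
  set b := volume {x | Ψ x ≤ ENNReal.ofReal lam} with hb
  have hbr : b = ENNReal.ofReal b.toReal := (ENNReal.ofReal_toReal h.bfin).symm
  have h3 := lintegral_inter_add_sdiff (μ := (volume : Measure ℝ)) (B := A)
    (fun u : ℝ => ENNReal.ofReal (Real.exp (-u)) * volume {x | Ψ x ≤ ENNReal.ofReal u})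
    (Ioi (0 : ℝ)) measurableSet_Ioo
  rw [h1] at h3
  have h4 : ∫⁻ u in Ioi (0 : ℝ) ∩ A, ENNReal.ofReal (Real.exp (-u)) *
      volume {x | Ψ x ≤ ENNReal.ofReal u} ≤
      ENNReal.ofReal (C1 * Real.exp (-lam) * b.toReal * (4 * σ)) := by
    have h5 : ∀ u ∈ Ioi (0 : ℝ) ∩ A, ENNReal.ofReal (Real.exp (-u)) *
        volume {x | Ψ x ≤ ENNReal.ofReal u} ≤
        ENNReal.ofReal (C1 * Real.exp (-lam) * b.toReal) := by
      intro u hu
      have h6 := h.vol u (le_of_lt hu.1)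
      calc ENNReal.ofReal (Real.exp (-u)) * volume {x | Ψ x ≤ ENNReal.ofReal u}
          ≤ ENNReal.ofReal (Real.exp (-u)) *
            (ENNReal.ofReal (C1 * Real.exp (u - lam)) * ENNReal.ofReal b.toReal) := by
            rw [← hbr]
            gcongr
        _ = ENNReal.ofReal (C1 * Real.exp (-lam) * b.toReal) := by
            rw [← ENNReal.ofReal_mul (by positivity), ← ENNReal.ofReal_mul (by positivity)]
            congr 1
            have h7 : Real.exp (-lam) = Real.exp (-u) * Real.exp (u - lam) := by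
              rw [← Real.exp_add]
              congr 1
              ring
            rw [h7]
            ring
    refine (setLIntegral_mono' (measurableSet_Ioi.inter measurableSet_Ioo) h5).trans ?_
    rw [setLIntegral_const]
    have h8 : volume (Ioi (0 : ℝ) ∩ A) ≤ ENNReal.ofReal (4 * σ) := by
      refine (measure_mono inter_subset_right).trans (le_of_eq ?_)
      rw [hA, Real.volume_Ioo]
      congr 1
      ring
    refine (mul_le_mul_right h8 _).trans (le_of_eq ?_)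
    rw [← ENNReal.ofReal_mul (by positivity)]
  have h9 : ∫⁻ u in Ioi (0 : ℝ) \ A, ENNReal.ofReal (Real.exp (-u)) *
      volume {x | Ψ x ≤ ENNReal.ofReal u} ≤ ENNReal.ofReal (Z / 4) := by
    have h10 : ∀ u ∈ Ioi (0 : ℝ) \ A, ENNReal.ofReal (Real.exp (-u)) *
        volume {x | Ψ x ≤ ENNReal.ofReal u} ≤ ENNReal.ofReal (1 / (4 * σ ^ 2)) *
        (ENNReal.ofReal ((u - (M + 1)) ^ 2 * Real.exp (-u)) *
        volume {x | Ψ x ≤ ENNReal.ofReal u}) := by
      intro u hu
      rw [← mul_assoc, ← ENNReal.ofReal_mul (by positivity)]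
      refine mul_le_mul_left (ENNReal.ofReal_le_ofReal ?_) _
      have h11 : 4 * σ ^ 2 ≤ (u - (M + 1)) ^ 2 := by
        by_contra hcon
        push Not at hcon
        apply hu.2
        have h12 : |u - (M + 1)| < 2 * σ := by
          apply abs_lt_of_sq_lt_sq _ (by positivity)
          nlinarith
        rw [abs_lt] at h12
        exact ⟨by linarith [h12.1], by linarith [h12.2]⟩
      have h13 : 1 ≤ 1 / (4 * σ ^ 2) * (u - (M + 1)) ^ 2 := by
        rw [one_div, inv_mul_eq_div, one_le_div (by positivity)]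
        exact h11
      have h14 := mul_le_mul_of_nonneg_right h13 (Real.exp_pos (-u)).le
      linarith
    refine (setLIntegral_mono' (measurableSet_Ioi.diff measurableSet_Ioo) h10).trans ?_
    rw [lintegral_const_mul' _ _ ENNReal.ofReal_ne_top]
    refine (mul_le_mul_right ((lintegral_mono_set sdiff_subset).trans h2) _).trans (le_of_eq ?_)
    rw [← ENNReal.ofReal_mul (by positivity)]
    congr 1
    rw [hσ2]
    have h15 : 1 + S ≠ 0 := by linarith
    field_simp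
    ring
  have h16 : ENNReal.ofReal Z ≤ ENNReal.ofReal (C1 * Real.exp (-lam) * b.toReal * (4 * σ) +
      Z / 4) := by
    rw [← h3, ENNReal.ofReal_add (by positivity) (by positivity)]
    exact add_le_add h4 h9
  have h17 := (ENNReal.ofReal_le_ofReal_iff (by positivity)).1 h16
  nlinarith

end Pool.Agent.MO
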