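import Pool.Agent.MO.Sc4

/-!
# MO-Sc5: averages of differences

Pointwise `‖w - a0‖ ≤ 2 A^r √d + 2 d^(1/p)` with `A = ‖a0‖^(p/2)`, `r = 2/p - 1`, and Jensen's
inequality for the concave functions `√t` and `t^(1/p)`.
-/

set_option autoImplicit false

open MeasureTheory Set
open scoped ENNReal NNReal

namespace Pool.Agent.MO

variable {E : Type} [NormedAddCommGroup E] [NormedSpace ℝ E] [FiniteDimensional ℝ E]
  [MeasureSpace E] [BorelSpace E] [Measure.IsAddHaarMeasure (volume : Measure E)]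

omit [NormedSpace ℝ E] [FiniteDimensional ℝ E]
  [Measure.IsAddHaarMeasure (volume : Measure E)] in
private theorem sc5_jensen {s : E → ℝ} (hs : Wt s) {d : E → ℝ} (hd : Continuous d)
    (hd0 : ∀ y, 0 ≤ d y) {C : ℝ} (hC : ∀ y, d y ≤ C) {θ : ℝ} (hθ : 0 < θ) (hθ1 : θ ≤ 1) :
    Integrable (fun y => s y * d y ^ θ) ∧
      ∫ y, s y * d y ^ θ ≤ (∫ y, s y * d y) ^ θ := by
  have hi1 : Integrable (fun y => s y * d y) :=
    hs.int.mul_bdd (c := C) hd.aestronglyMeasurable (ae_of_all _ fun y => by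
      rw [Real.norm_of_nonneg (hd0 y)]
      exact hC y)
  have hi2 : Integrable (fun y => s y * d y ^ θ) :=
    hs.int.mul_bdd (c := C ^ θ) (hd.rpow_const fun y => Or.inr hθ.le).aestronglyMeasurable
      (ae_of_all _ fun y => by
        rw [Real.norm_of_nonneg (Real.rpow_nonneg (hd0 y) _)]
        exact Real.rpow_le_rpow (hd0 y) (hC y) hθ.le)
  refine ⟨hi2, ?_⟩
  have hη : 0 ≤ ∫ y, s y * d y := integral_nonneg fun y => mul_nonneg (hs.nonneg y) (hd0 y)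
  have key : ∀ c : ℝ, 0 < c → ∫ y, s y * d y ^ θ ≤
      θ * c ^ (θ - 1) * (∫ y, s y * d y) + (1 - θ) * c ^ θ := by
    intro c hc
    have h3 : c * c ^ (θ - 1) = c ^ θ := by
      have h5 := Real.rpow_add hc 1 (θ - 1)
      rw [Real.rpow_one] at h5
      rw [← h5]
      congr 1
      ring
    have hp : ∀ y, d y ^ θ ≤ θ * c ^ (θ - 1) * d y + (1 - θ) * c ^ θ := by
      intro y
      have h1 := Real.geom_mean_le_arith_mean2_weighted hθ.le (sub_nonneg.2 hθ1) (hd0 y) hc.le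
        (by ring : θ + (1 - θ) = 1)
      have h2 : c ^ (1 - θ) * c ^ (θ - 1) = 1 := by
        rw [← Real.rpow_add hc]
        have h5 : 1 - θ + (θ - 1) = 0 := by ring
        rw [h5, Real.rpow_zero]
      have h4 : 0 ≤ c ^ (θ - 1) := Real.rpow_nonneg hc.le _
      calc d y ^ θ = (d y ^ θ * c ^ (1 - θ)) * c ^ (θ - 1) := by rw [mul_assoc, h2, mul_one]
        _ ≤ (θ * d y + (1 - θ) * c) * c ^ (θ - 1) := mul_le_mul_of_nonneg_right h1 h4
        _ = θ * c ^ (θ - 1) * d y + (1 - θ) * c ^ θ := by rw [← h3]; ring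
    calc ∫ y, s y * d y ^ θ
        ≤ ∫ y, (θ * c ^ (θ - 1) * (s y * d y) + (1 - θ) * c ^ θ * s y) := by
          refine integral_mono hi2 ((hi1.const_mul _).add (hs.int.const_mul _)) fun y => ?_
          calc s y * d y ^ θ ≤ s y * (θ * c ^ (θ - 1) * d y + (1 - θ) * c ^ θ) :=
                mul_le_mul_of_nonneg_left (hp y) (hs.nonneg y)
            _ = _ := by ring
      _ = θ * c ^ (θ - 1) * (∫ y, s y * d y) + (1 - θ) * c ^ θ * ∫ y, s y := by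
          rw [integral_add (hi1.const_mul _) (hs.int.const_mul _), integral_const_mul,
            integral_const_mul]
      _ ≤ _ := by
          have h5 : 0 ≤ (1 - θ) * c ^ θ :=
            mul_nonneg (sub_nonneg.2 hθ1) (Real.rpow_nonneg hc.le _)
          have h6 := mul_le_mul_of_nonneg_left hs.mass h5
          linarith
  rcases hη.eq_or_lt with h0 | h0
  · rw [← h0, Real.zero_rpow hθ.ne']
    refine le_of_forall_pos_le_add fun ε hε => ?_
    have h1 := key (ε ^ (1 / θ)) (Real.rpow_pos_of_pos hε _)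
    have h2 : (ε ^ (1 / θ)) ^ θ = ε := by
      rw [← Real.rpow_mul hε.le, one_div, inv_mul_cancel₀ hθ.ne', Real.rpow_one]
    rw [← h0, mul_zero, zero_add, h2] at h1
    nlinarith
  · have h1 := key _ h0
    have h3 : (∫ y, s y * d y) ^ (θ - 1) * (∫ y, s y * d y) = (∫ y, s y * d y) ^ θ := by
      have h5 := Real.rpow_add h0 (θ - 1) 1
      rw [Real.rpow_one] at h5
      rw [← h5]
      congr 1
      ring
    rw [mul_assoc, h3] at h1
    linarith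

private theorem sc5_pow {p x : ℝ} (hp : 1 < p) (hp2 : p ≤ 2) (hx : 0 ≤ x) :
    (x ^ (1 / 2 : ℝ)) ^ (2 / p - 1) * x ^ (1 / 2 : ℝ) = x ^ (1 / p) := by
  have hp0 : (0 : ℝ) < p := by linarith
  have hr0 : 0 ≤ 2 / p - 1 := by
    rw [sub_nonneg, le_div_iff₀ hp0]
    linarith
  rw [← Real.rpow_mul hx, ← Real.rpow_add_of_nonneg hx (by positivity) (by norm_num)]
  congr 1
  field_simp
  ring

private theorem sc5_point {p : ℝ} (hp : 1 < p) (hp2 : p ≤ 2) (z a0 : ℂ) :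
    ‖z - a0‖ ≤ 2 * (‖a0‖ ^ (p / 2)) ^ (2 / p - 1) * dd p z a0 ^ (1 / 2 : ℝ) +
      2 * dd p z a0 ^ (1 / p) := by
  have hp0 : (0 : ℝ) < p := by linarith
  have hr0 : 0 ≤ 2 / p - 1 := by
    rw [sub_nonneg, le_div_iff₀ hp0]
    linarith
  have hr1 : 2 / p - 1 ≤ 1 := by
    have : 2 / p ≤ 2 := by
      rw [div_le_iff₀ hp0]
      linarith
    linarith
  have hd0 : 0 ≤ dd p z a0 := dd_nonneg _ _ _
  have h1 := sub_le_dd hp hp2 z a0
  rw [Real.sqrt_eq_rpow] at h1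
  have hM : 0 ≤ max ‖z‖ ‖a0‖ := le_max_of_le_right (norm_nonneg _)
  have e1 : (max ‖z‖ ‖a0‖) ^ (1 - p / 2) = ((max ‖z‖ ‖a0‖) ^ (p / 2)) ^ (2 / p - 1) := by
    rw [← Real.rpow_mul hM]
    congr 1
    field_simp
  have hsq : dd p z a0 ^ (1 / 2 : ℝ) = ‖ph p z - ph p a0‖ := by
    rw [← Real.sqrt_eq_rpow]
    unfold dd
    exact Real.sqrt_sq (norm_nonneg _)
  have e2 : (max ‖z‖ ‖a0‖) ^ (p / 2) ≤ ‖a0‖ ^ (p / 2) + dd p z a0 ^ (1 / 2 : ℝ) := by
    rcases le_total ‖z‖ ‖a0‖ with h | h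
    · rw [max_eq_right h]
      linarith [Real.rpow_nonneg hd0 (1 / 2 : ℝ)]
    · rw [max_eq_left h, ← ph_norm hp0, ← ph_norm hp0, hsq]
      have e5 : ph p z = ph p a0 + (ph p z - ph p a0) := by ring
      calc ‖ph p z‖ = ‖ph p a0 + (ph p z - ph p a0)‖ := by rw [← e5]
        _ ≤ _ := norm_add_le _ _
  have e3 : (max ‖z‖ ‖a0‖) ^ (1 - p / 2) ≤
      (‖a0‖ ^ (p / 2)) ^ (2 / p - 1) + (dd p z a0 ^ (1 / 2 : ℝ)) ^ (2 / p - 1) := by
    rw [e1]
    exact (Real.rpow_le_rpow (Real.rpow_nonneg hM _) e2 hr0).trans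
      (Real.rpow_add_le_add_rpow (Real.rpow_nonneg (norm_nonneg _) _)
        (Real.rpow_nonneg hd0 _) hr0 hr1)
  have e4 := sc5_pow hp hp2 hd0
  have e6 : 0 ≤ dd p z a0 ^ (1 / 2 : ℝ) := Real.rpow_nonneg hd0 _
  calc ‖z - a0‖ ≤ 2 * (max ‖z‖ ‖a0‖) ^ (1 - p / 2) * dd p z a0 ^ (1 / 2 : ℝ) := h1
    _ ≤ 2 * ((‖a0‖ ^ (p / 2)) ^ (2 / p - 1) + (dd p z a0 ^ (1 / 2 : ℝ)) ^ (2 / p - 1)) *
        dd p z a0 ^ (1 / 2 : ℝ) := by gcongr
    _ = 2 * (‖a0‖ ^ (p / 2)) ^ (2 / p - 1) * dd p z a0 ^ (1 / 2 : ℝ) +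
        2 * ((dd p z a0 ^ (1 / 2 : ℝ)) ^ (2 / p - 1) * dd p z a0 ^ (1 / 2 : ℝ)) := by ring
    _ = _ := by rw [e4]

private theorem sc5_final {p η H a : ℝ} (hp : 1 < p) (hp2 : p ≤ 2) (hη0 : 0 ≤ η) (hH0 : 0 ≤ H)
    (ha0 : 0 ≤ a) (hHle : H ≤ 2 * (a ^ (p / 2)) ^ (2 / p - 1) * η ^ (1 / 2 : ℝ) +
      2 * η ^ (1 / p)) : qq p H a ≤ 16 * η := by
  have hp0 : (0 : ℝ) < p := by linarith
  have hr0 : 0 ≤ 2 / p - 1 := by
    rw [sub_nonneg, le_div_iff₀ hp0]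
    linarith
  obtain ⟨A, hAdef⟩ : ∃ A, A = a ^ (p / 2) := ⟨_, rfl⟩
  rw [← hAdef] at hHle
  have hA : 0 ≤ A := hAdef ▸ Real.rpow_nonneg ha0 _
  have hx0 : 0 ≤ η ^ (1 / 2 : ℝ) := Real.rpow_nonneg hη0 _
  have hxx : η ^ (1 / 2 : ℝ) * η ^ (1 / 2 : ℝ) = η := by
    rw [← Real.sqrt_eq_rpow]
    exact Real.mul_self_sqrt hη0
  have hxp := sc5_pow hp hp2 hη0
  rcases le_or_gt (η ^ (1 / 2 : ℝ)) A with hxA | hxA
  · have h1 : (η ^ (1 / 2 : ℝ)) ^ (2 / p - 1) ≤ A ^ (2 / p - 1) :=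
      Real.rpow_le_rpow hx0 hxA hr0
    have h2 : H ≤ 4 * A ^ (2 / p - 1) * η ^ (1 / 2 : ℝ) := by
      rw [← hxp] at hHle
      have h3 := mul_le_mul_of_nonneg_right h1 hx0
      linarith
    rcases hA.eq_or_lt with hA0 | hA0
    · rw [← hA0] at hxA
      have h3 : η ^ (1 / 2 : ℝ) = 0 := le_antisymm hxA hx0
      rw [h3, mul_zero] at h2
      have h4 : H = 0 := le_antisymm h2 hH0
      rw [h4]
      unfold qq
      rw [zero_pow two_ne_zero, zero_mul]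
      linarith
    · have ha : 0 < a := by
        rcases ha0.eq_or_lt with h3 | h3
        · exfalso
          rw [hAdef, ← h3, Real.zero_rpow (by positivity)] at hA0
          exact lt_irrefl _ hA0
        · exact h3
      refine (qq_le_sq hp hp2 hH0 ha).trans ?_
      have h3 : (A ^ (2 / p - 1)) ^ 2 * a ^ (p - 2) = 1 := by
        rw [hAdef, ← Real.rpow_mul ha.le, ← Real.rpow_natCast, ← Real.rpow_mul ha.le,
          ← Real.rpow_add ha]
        have h4 : p / 2 * (2 / p - 1) * ((2 : ℕ) : ℝ) + (p - 2) = 0 := by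
          push_cast
          field_simp
          ring
        rw [h4, Real.rpow_zero]
      have h5 : H ^ 2 ≤ (4 * A ^ (2 / p - 1) * η ^ (1 / 2 : ℝ)) ^ 2 :=
        pow_le_pow_left₀ hH0 h2 2
      calc H ^ 2 * a ^ (p - 2)
          ≤ (4 * A ^ (2 / p - 1) * η ^ (1 / 2 : ℝ)) ^ 2 * a ^ (p - 2) :=
            mul_le_mul_of_nonneg_right h5 (Real.rpow_nonneg ha.le _)
        _ = 16 * (η ^ (1 / 2 : ℝ) * η ^ (1 / 2 : ℝ)) *
            ((A ^ (2 / p - 1)) ^ 2 * a ^ (p - 2)) := by ring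
        _ = 16 * η := by rw [hxx, h3, mul_one]
  · have h1 : A ^ (2 / p - 1) ≤ (η ^ (1 / 2 : ℝ)) ^ (2 / p - 1) :=
      Real.rpow_le_rpow hA hxA.le hr0
    have h2 : H ≤ 4 * η ^ (1 / p) := by
      have h3 := mul_le_mul_of_nonneg_right h1 hx0
      rw [hxp] at h3
      linarith
    refine (qq_le_pow hp hp2 hH0 ha0).trans ?_
    have h3 : (η ^ (1 / p)) ^ p = η := by
      rw [← Real.rpow_mul hη0, one_div, inv_mul_cancel₀ hp0.ne', Real.rpow_one]
    have h4 : (4 : ℝ) ^ p ≤ 16 := by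
      calc (4 : ℝ) ^ p ≤ (4 : ℝ) ^ (2 : ℝ) :=
            Real.rpow_le_rpow_of_exponent_le (by norm_num) hp2
        _ = 16 := by norm_num
    calc H ^ p ≤ (4 * η ^ (1 / p)) ^ p := Real.rpow_le_rpow hH0 h2 hp0.le
      _ = 4 ^ p * η := by
          rw [Real.mul_rpow (by norm_num) (Real.rpow_nonneg hη0 _), h3]
      _ ≤ 16 * η := mul_le_mul_of_nonneg_right h4 hη0

theorem qq_mean {p : ℝ} (hp : 1 < p) (hp2 : p ≤ 2) {s : E → ℝ} (hs : Wt s) {w : E → ℂ}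
    (hw : Continuous w) (hb : ∃ C, ∀ y, ‖w y‖ ≤ C) (a0 : ℂ) :
    qq p (∫ y, s y * ‖w y - a0‖) ‖a0‖ ≤ 16 * ∫ y, s y * dd p (w y) a0 := by
  obtain ⟨C, hC⟩ := hb
  have hp0 : (0 : ℝ) < p := by linarith
  have hd0 : ∀ y, 0 ≤ dd p (w y) a0 := fun y => dd_nonneg _ _ _
  have hph := ph_cont hp0
  have hdc : Continuous fun y => dd p (w y) a0 := by
    unfold dd
    fun_prop
  have hdC : ∀ y, dd p (w y) a0 ≤ 2 * (C ^ p + ‖a0‖ ^ p) := fun y =>
    (dd_bound hp0 _ _).trans (by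
      have := Real.rpow_le_rpow (norm_nonneg (w y)) (hC y) hp0.le
      linarith)
  have hwi : Integrable fun y => s y * ‖w y - a0‖ :=
    hs.int.mul_bdd (c := C + ‖a0‖) (hw.sub continuous_const).norm.aestronglyMeasurable
      (ae_of_all _ fun y => by
        rw [norm_norm]
        exact (norm_sub_le _ _).trans (by linarith [hC y]))
  obtain ⟨j1, j2⟩ := sc5_jensen hs hdc hd0 hdC (θ := 1 / 2) (by norm_num) (by norm_num)
  obtain ⟨k1, k2⟩ := sc5_jensen hs hdc hd0 hdC (θ := 1 / p) (by positivity)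
    (by rw [div_le_one hp0]; linarith)
  refine sc5_final hp hp2 (integral_nonneg fun y => mul_nonneg (hs.nonneg y) (hd0 y))
    (integral_nonneg fun y => mul_nonneg (hs.nonneg y) (norm_nonneg _)) (norm_nonneg _) ?_
  calc ∫ y, s y * ‖w y - a0‖
      ≤ ∫ y, (2 * (‖a0‖ ^ (p / 2)) ^ (2 / p - 1) * (s y * dd p (w y) a0 ^ (1 / 2 : ℝ)) +
        2 * (s y * dd p (w y) a0 ^ (1 / p))) := by
        refine integral_mono hwi ((j1.const_mul _).add (k1.const_mul _)) fun y => ?_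
        calc s y * ‖w y - a0‖ ≤ s y * (2 * (‖a0‖ ^ (p / 2)) ^ (2 / p - 1) *
              dd p (w y) a0 ^ (1 / 2 : ℝ) + 2 * dd p (w y) a0 ^ (1 / p)) :=
              mul_le_mul_of_nonneg_left (sc5_point hp hp2 (w y) a0) (hs.nonneg y)
          _ = _ := by ring
    _ = 2 * (‖a0‖ ^ (p / 2)) ^ (2 / p - 1) * (∫ y, s y * dd p (w y) a0 ^ (1 / 2 : ℝ)) +
        2 * ∫ y, s y * dd p (w y) a0 ^ (1 / p) := by
        rw [integral_add (j1.const_mul _) (k1.const_mul _), integral_const_mul,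
          integral_const_mul]
    _ ≤ _ := by
        have h1 : 0 ≤ 2 * (‖a0‖ ^ (p / 2)) ^ (2 / p - 1) := by positivity
        have h2 := mul_le_mul_of_nonneg_left j2 h1
        linarith

end Pool.Agent.MO
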