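import Pool.Agent.MO.Zero
import Pool.Agent.MO.Sc5

/-!
# MO-Second: the second-order term

`U = op a f`, `G = op D f`, `H x = ∫ s y ‖f(x+y) - f x‖ dy`; `‖G x‖ ≤ δ H x` (`∫ D = 0`). Pointwise:
`Br p (U + G) U ≤ 64 p qq ‖G‖ ‖U‖ ≤ 64 p δ^p qq H ‖U‖ ≤ 64 p δ^p (4 qq H ‖f x‖ + 4 dd (U x) (f x)) ≤
64 p δ^p (64 ∫ s y dd(f(x+y))(f x) dy + 4 dd (U x) (f x))` (`Br_qq`, `qq_scale`, `qq_base`, `qq_mean` with
`w y = f(x+y)`, `a0 = f x`). Integrate: `fub_dd`, `dd_U` (`4 * 16 p/(p-1) = 64 p/(p-1)`). Integrability of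
`Br p (U+G) U`: continuous, `0 ≤ Br ≤ 32(‖U+G‖^p + ‖U‖^p)`, `U + G = op (a + D) f`.
-/

set_option autoImplicit false

open MeasureTheory Set
open scoped ENNReal NNReal

namespace Pool.Agent.MO

variable {E : Type} [NormedAddCommGroup E] [NormedSpace ℝ E] [FiniteDimensional ℝ E]
  [MeasureSpace E] [BorelSpace E] [Measure.IsAddHaarMeasure (volume : Measure E)]

private theorem pert_int_a {K δ : ℝ} {a s : E → ℝ} {D : E → ℂ} (h : Pert K δ a s D) :
    Integrable fun y => (a y : ℂ) := h.da.int.ofReal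

private theorem pert_int_D {K δ : ℝ} {a s : E → ℝ} {D : E → ℂ} (h : Pert K δ a s D) :
    Integrable D :=
  Integrable.mono' (h.ws.int.const_mul δ) h.meas.aestronglyMeasurable (ae_of_all _ h.le)

theorem second_int {p : ℝ} (hp : 1 < p) (hp2 : p ≤ 2) {K δ : ℝ} {a s : E → ℝ}
    {D : E → ℂ} (h : Pert K δ a s D) {f : E → ℂ} (hf : TF f) :
    Integrable fun x => Br p (op (fun y => (a y : ℂ)) f x + op D f x)
      (op (fun y => (a y : ℂ)) f x) := by
  have ha := pert_int_a h
  have hD := pert_int_D h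
  have h1 : Integrable fun x => ‖op (fun y => (a y : ℂ)) f x‖ ^ p := op_int_pow ha hf hp.le
  have h2 : Integrable fun x => ‖op (fun y => (a y : ℂ)) f x + op D f x‖ ^ p := by
    have h3 := op_int_pow (ha.add hD) hf (p := p) hp.le
    refine h3.congr (ae_of_all _ fun x => ?_)
    have h4 := op_add ha hD hf x
    simp only
    rw [← h4]
    rfl
  have hc : Continuous fun x => Br p (op (fun y => (a y : ℂ)) f x + op D f x)
      (op (fun y => (a y : ℂ)) f x) :=
    (Br_cont hp).comp (((op_cont ha hf).add (op_cont hD hf)).prodMk (op_cont ha hf))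
  refine Integrable.mono' ((h2.add h1).const_mul 32) hc.aestronglyMeasurable
    (ae_of_all _ fun x => ?_)
  rw [Real.norm_of_nonneg (Br_nonneg hp _ _)]
  exact Br_bound hp hp2 _ _

private theorem op_D_le {K δ : ℝ} {a s : E → ℝ} {D : E → ℂ} (h : Pert K δ a s D) {f : E → ℂ}
    (hf : TF f) (x : E) : ‖op D f x‖ ≤ δ * ∫ y, s y * ‖f (x + y) - f x‖ := by
  have hD := pert_int_D h
  obtain ⟨C, hC⟩ := hf.bdd
  have hfc : Continuous fun y => f (x + y) := hf.1.comp (continuous_const.add continuous_id)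
  have h1 : Integrable fun y => D y * f (x + y) := by
    refine Integrable.mono' (hD.norm.mul_const C) (hD.aestronglyMeasurable.mul
      hfc.aestronglyMeasurable) (ae_of_all _ fun y => ?_)
    rw [norm_mul]
    exact mul_le_mul_of_nonneg_left (hC _) (norm_nonneg _)
  have h2 : Integrable fun y => D y * f x := hD.mul_const _
  have h3 : op D f x = ∫ y, D y * (f (x + y) - f x) := by
    have h4 : ∫ y, D y * (f (x + y) - f x) = (∫ y, D y * f (x + y)) - ∫ y, D y * f x := by
      rw [← integral_sub h1 h2]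
      exact integral_congr_ae (ae_of_all _ fun y => by simp only; ring)
    rw [h4, integral_mul_const, h.zero, zero_mul, sub_zero]
    rfl
  have h5 : Integrable fun y => s y * ‖f (x + y) - f x‖ := by
    refine Integrable.mono' (h.ws.int.mul_const (C + C)) (h.ws.meas.aestronglyMeasurable.mul
      ((hfc.sub continuous_const).norm.aestronglyMeasurable)) (ae_of_all _ fun y => ?_)
    rw [Real.norm_of_nonneg (mul_nonneg (h.ws.nonneg y) (norm_nonneg _))]
    exact mul_le_mul_of_nonneg_left ((norm_sub_le _ _).trans (add_le_add (hC _) (hC _)))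
      (h.ws.nonneg y)
  rw [h3, ← integral_const_mul]
  refine norm_integral_le_of_norm_le (h5.const_mul δ) (ae_of_all _ fun y => ?_)
  rw [norm_mul, ← mul_assoc]
  exact mul_le_mul_of_nonneg_right (h.le y) (norm_nonneg _)

theorem second_order {p : ℝ} (hp : 1 < p) (hp2 : p ≤ 2) {K δ : ℝ} (hδ : 0 ≤ δ) (hδ1 : δ ≤ 1)
    {a s : E → ℝ} {D : E → ℂ} (h : Pert K δ a s D) {f : E → ℂ} (hf : TF f) :
    ∫ x, Br p (op (fun y => (a y : ℂ)) f x + op D f x) (op (fun y => (a y : ℂ)) f x) ≤
      64 * p * δ ^ p * (64 * (∫ y, rho p f y ^ 2 * s y) +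
        64 * p / (p - 1) * ∫ y, rho p f y ^ 2 * a y) := by
  have hp0 : 0 < p := by linarith
  have hδp : 0 ≤ δ ^ p := Real.rpow_nonneg hδ p
  obtain ⟨C, hC⟩ := hf.bdd
  have hpt : ∀ x, Br p (op (fun y => (a y : ℂ)) f x + op D f x) (op (fun y => (a y : ℂ)) f x) ≤
      64 * p * δ ^ p * (64 * (∫ y, s y * dd p (f (x + y)) (f x)) +
        4 * dd p (op (fun y => (a y : ℂ)) f x) (f x)) := by
    intro x
    set U := op (fun y => (a y : ℂ)) f x with hU
    set G := op D f x with hG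
    set H := ∫ y, s y * ‖f (x + y) - f x‖ with hH
    have hH0 : 0 ≤ H := integral_nonneg fun y => mul_nonneg (h.ws.nonneg y) (norm_nonneg _)
    have h1 := Br_qq hp hp2 U G
    have h2 := qq_scale hp hp2 hδ hδ1 (norm_nonneg G) (op_D_le h hf x) hH0 (norm_nonneg U)
    have h3 := qq_base hp hp2 hH0 U (f x)
    have h4 := qq_mean hp hp2 h.ws (w := fun y => f (x + y))
      (hf.1.comp (continuous_const.add continuous_id)) ⟨C, fun y => hC _⟩ (f x)
    have h5 : qq p H ‖U‖ ≤ 64 * (∫ y, s y * dd p (f (x + y)) (f x)) + 4 * dd p U (f x) := by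
      have h4' : qq p H ‖f x‖ ≤ 16 * ∫ y, s y * dd p (f (x + y)) (f x) := h4
      linarith
    have h6 : δ ^ p * qq p H ‖U‖ ≤
        δ ^ p * (64 * (∫ y, s y * dd p (f (x + y)) (f x)) + 4 * dd p U (f x)) :=
      mul_le_mul_of_nonneg_left h5 hδp
    calc Br p (U + G) U ≤ 64 * p * qq p ‖G‖ ‖U‖ := h1
      _ ≤ 64 * p * (δ ^ p * (64 * (∫ y, s y * dd p (f (x + y)) (f x)) + 4 * dd p U (f x))) :=
        mul_le_mul_of_nonneg_left (h2.trans h6) (by positivity)
      _ = _ := by ring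
  have hA := int_dd hp h.ws hf
  have hB := dd_U_int hp h.da hf
  have hI : Integrable fun x => 64 * p * δ ^ p * (64 * (∫ y, s y * dd p (f (x + y)) (f x)) +
        4 * dd p (op (fun y => (a y : ℂ)) f x) (f x)) :=
    ((hA.const_mul 64).add (hB.const_mul 4)).const_mul _
  have h7 := integral_mono (second_int hp hp2 h hf) hI hpt
  refine h7.trans ?_
  rw [integral_const_mul, integral_add (hA.const_mul 64) (hB.const_mul 4), integral_const_mul,
    integral_const_mul, fub_dd hp h.ws hf]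
  refine mul_le_mul_of_nonneg_left ?_ (by positivity)
  have h8 := dd_U hp hp2 h.da hf
  have h9 : 64 * p / (p - 1) * ∫ y, rho p f y ^ 2 * a y =
      4 * (16 * p / (p - 1) * ∫ y, rho p f y ^ 2 * a y) := by ring
  rw [h9]
  linarith

end Pool.Agent.MO
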