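import Pool.Agent.MO.First
import Pool.Agent.MO.Second

/-!
# MO-Contr: the contraction lemma

`δ = min 1 ((p-1) / (8 (1+K) c))` with `c = 4p + 32p(1 + 16p/(p-1)) + 64p(64 + 64p/(p-1))` (`> 0`).
`nb_of_int`: `op (a + D) f = U + G` (`op_add`); `‖U+G‖^p = ‖U‖^p + p Re(G conj(Jp U)) + Br p (U+G) U` (`norm_add_rpow`);
integrate: `∫ ‖U+G‖^p ≤ ∫ ‖f‖^p - (p-1)/8 Dq + p ‖∫ G conj(Jp U)‖ + ∫ Br` (`zero_order`, `first_order`, `second_order`), with
`∫ ρ^2 s ≤ K Dq`, `∫ ρ^2 a ≤ K Dq` (`h.cas`, `h.caa`, `adm_rho`), `δ^p ≤ δ` (`Real.rpow_le_rpow_of_exponent_ge`), so the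
error is at most `δ K c Dq ≤ (p-1)/8 Dq` (`0 ≤ Dq`).
-/

set_option autoImplicit false

open MeasureTheory Set
open scoped ENNReal NNReal

namespace Pool.Agent.MO

variable {E : Type} [NormedAddCommGroup E] [NormedSpace ℝ E] [FiniteDimensional ℝ E]
  [MeasureSpace E] [BorelSpace E] [Measure.IsAddHaarMeasure (volume : Measure E)]

theorem Dq_nonneg {a ρ : E → ℝ} (ha : Wt a) : 0 ≤ Dq a ρ := by
  unfold Dq
  exact integral_nonneg fun y => integral_nonneg fun z =>
    mul_nonneg (mul_nonneg (ha.nonneg y) (ha.nonneg z)) (sq_nonneg _)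

theorem Pert.int {K δ : ℝ} {a s : E → ℝ} {D : E → ℂ} (h : Pert K δ a s D) : Integrable D := by
  refine (h.ws.int.const_mul δ).mono' h.meas.aestronglyMeasurable ?_
  exact Filter.Eventually.of_forall h.le

/-- integrability of the first-order term -/
private theorem first_int {p : ℝ} (hp : 1 < p) {K δ : ℝ} {a s : E → ℝ} {D : E → ℂ}
    (h : Pert K δ a s D) {f : E → ℂ} (hf : TF f) :
    Integrable fun x => op D f x * (starRingEnd ℂ) (Jp p (op (fun y => (a y : ℂ)) f x)) := by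
  have hA : Integrable fun y => (a y : ℂ) := h.da.int.ofReal
  have hG : Integrable (op D f) := op_int h.int hf
  have hU : Continuous (op (fun y => (a y : ℂ)) f) := op_cont hA hf
  obtain ⟨C, hC⟩ := op_bdd hA hf
  have hJ : Continuous fun x => (starRingEnd ℂ) (Jp p (op (fun y => (a y : ℂ)) f x)) :=
    Complex.continuous_conj.comp ((Jp_cont hp).comp hU)
  refine (hG.norm.const_mul (C ^ (p - 1))).mono'
    (hG.aestronglyMeasurable.mul hJ.aestronglyMeasurable) ?_
  refine Filter.Eventually.of_forall fun x => ?_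
  rw [norm_mul, RCLike.norm_conj, Jp_norm hp, mul_comm]
  exact mul_le_mul_of_nonneg_right
    (Real.rpow_le_rpow (norm_nonneg _) (hC x) (by linarith)) (norm_nonneg _)

/-- the expansion of the integral of `‖U + G‖ ^ p` -/
private theorem expand {p : ℝ} (hp : 1 < p) (hp2 : p ≤ 2) {K δ : ℝ} {a s : E → ℝ} {D : E → ℂ}
    (h : Pert K δ a s D) {f : E → ℂ} (hf : TF f) :
    ∫ x, ‖op (fun y => (a y : ℂ) + D y) f x‖ ^ p ≤
      (∫ x, ‖op (fun y => (a y : ℂ)) f x‖ ^ p) +
      p * ‖∫ x, op D f x * (starRingEnd ℂ) (Jp p (op (fun y => (a y : ℂ)) f x))‖ +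
      ∫ x, Br p (op (fun y => (a y : ℂ)) f x + op D f x) (op (fun y => (a y : ℂ)) f x) := by
  have hA : Integrable fun y => (a y : ℂ) := h.da.int.ofReal
  have h1 : ∀ x, ‖op (fun y => (a y : ℂ) + D y) f x‖ ^ p =
      ‖op (fun y => (a y : ℂ)) f x‖ ^ p +
      p * (op D f x * (starRingEnd ℂ) (Jp p (op (fun y => (a y : ℂ)) f x))).re +
      Br p (op (fun y => (a y : ℂ)) f x + op D f x) (op (fun y => (a y : ℂ)) f x) := by
    intro x
    rw [op_add hA h.int hf x, norm_add_rpow]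
  have i1 : Integrable fun x => ‖op (fun y => (a y : ℂ)) f x‖ ^ p := op_int_pow hA hf hp.le
  have i2 := first_int hp h hf
  have i3 : Integrable fun x =>
      (op D f x * (starRingEnd ℂ) (Jp p (op (fun y => (a y : ℂ)) f x))).re := i2.re
  have i4 := second_int hp hp2 h hf
  have i12 : Integrable fun x => ‖op (fun y => (a y : ℂ)) f x‖ ^ p +
      p * (op D f x * (starRingEnd ℂ) (Jp p (op (fun y => (a y : ℂ)) f x))).re :=
    i1.add (i3.const_mul p)
  simp_rw [h1]
  rw [integral_add i12 i4, integral_add i1 (i3.const_mul p), integral_const_mul]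
  have h2 : ∫ x, (op D f x * (starRingEnd ℂ) (Jp p (op (fun y => (a y : ℂ)) f x))).re ≤
      ‖∫ x, op D f x * (starRingEnd ℂ) (Jp p (op (fun y => (a y : ℂ)) f x))‖ := by
    have h3 : ∫ x, (op D f x * (starRingEnd ℂ) (Jp p (op (fun y => (a y : ℂ)) f x))).re =
        (∫ x, op D f x * (starRingEnd ℂ) (Jp p (op (fun y => (a y : ℂ)) f x))).re :=
      integral_re i2
    rw [h3]
    exact Complex.re_le_norm _
  have h4 := mul_le_mul_of_nonneg_left h2 (by linarith : 0 ≤ p)
  linarith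

end Pool.Agent.MO

namespace Pool.Agent.MO

theorem contr (p K : ℝ) (hp : 1 < p) (hp2 : p ≤ 2) (hK : 0 ≤ K) :
    ∃ δ : ℝ, 0 < δ ∧ δ ≤ 1 ∧ ∀ (E : Type) [NormedAddCommGroup E] [NormedSpace ℝ E]
      [FiniteDimensional ℝ E] [MeasureSpace E] [BorelSpace E]
      [Measure.IsAddHaarMeasure (volume : Measure E)] (a s : E → ℝ) (D : E → ℂ),
      Pert K δ a s D → NB p 1 (fun y => (a y : ℂ) + D y) := by
  have hp0 : 0 < p := by linarith
  have hp1 : 0 < p - 1 := by linarith
  have hP : 0 < 16 * p / (p - 1) := by positivity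
  have hQ : 0 < 64 * p / (p - 1) := by positivity
  set P := 16 * p / (p - 1) with hPd
  set Q := 64 * p / (p - 1) with hQd
  set c := 4 * p + 32 * p * (1 + P) + 64 * p * (64 + Q) with hc
  have hc0 : 0 < c := by positivity
  refine ⟨min 1 ((p - 1) / (8 * (1 + K) * c)), lt_min one_pos (by positivity), min_le_left _ _, ?_⟩
  set δ := min 1 ((p - 1) / (8 * (1 + K) * c)) with hδd
  have hδ0 : 0 < δ := lt_min one_pos (by positivity)
  have hδ1 : δ ≤ 1 := min_le_left _ _
  have hδc : δ * K * c ≤ (p - 1) / 8 := by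
    have h1 : δ ≤ (p - 1) / (8 * (1 + K) * c) := min_le_right _ _
    rw [le_div_iff₀ (by positivity)] at h1
    have h2 : 0 ≤ δ * c := by positivity
    nlinarith
  intro E _ _ _ _ _ _ a s D h
  have hA : Integrable fun y => (a y : ℂ) := h.da.int.ofReal
  refine nb_of_int (hA.add h.int) hp.le ?_
  intro f hf
  have hadm := adm_rho hp hf
  have hDq : 0 ≤ Dq a (rho p f) := Dq_nonneg h.da.toWt
  have hs := h.cas _ hadm
  have ha := h.caa _ hadm
  have e0 := expand hp hp2 h hf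
  have e1 := zero_order hp hp2 h.da hf
  have e2 := first_order hp hp2 hδ0.le h hf
  have e3 := second_order hp hp2 hδ0.le hδ1 h hf
  rw [← hPd] at e2
  rw [← hQd] at e3
  set Dd := Dq a (rho p f)
  set Rs := ∫ y, rho p f y ^ 2 * s y
  set Ra := ∫ y, rho p f y ^ 2 * a y
  have hδp : δ ^ p ≤ δ := by
    have := Real.rpow_le_rpow_of_exponent_ge hδ0 hδ1 hp.le
    rwa [Real.rpow_one] at this
  have hKD : 0 ≤ K * Dd := mul_nonneg hK hDq
  have e4 : 4 * δ * Rs + 32 * δ * (Rs + P * Ra) ≤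
      4 * δ * (K * Dd) + 32 * δ * (K * Dd + P * (K * Dd)) := by
    have h1 : P * Ra ≤ P * (K * Dd) := mul_le_mul_of_nonneg_left ha hP.le
    have h2 : 4 * δ * Rs ≤ 4 * δ * (K * Dd) := mul_le_mul_of_nonneg_left hs (by positivity)
    have h3 : 32 * δ * (Rs + P * Ra) ≤ 32 * δ * (K * Dd + P * (K * Dd)) :=
      mul_le_mul_of_nonneg_left (by linarith) (by positivity)
    linarith
  have e5 : 64 * p * δ ^ p * (64 * Rs + Q * Ra) ≤
      64 * p * δ * (64 * (K * Dd) + Q * (K * Dd)) := by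
    have h1 : Q * Ra ≤ Q * (K * Dd) := mul_le_mul_of_nonneg_left ha hQ.le
    have h2 : 64 * p * δ ^ p * (64 * Rs + Q * Ra) ≤
        64 * p * δ ^ p * (64 * (K * Dd) + Q * (K * Dd)) := by
      apply mul_le_mul_of_nonneg_left (by linarith)
      have := Real.rpow_nonneg hδ0.le p
      positivity
    have h3 : 64 * p * δ ^ p * (64 * (K * Dd) + Q * (K * Dd)) ≤
        64 * p * δ * (64 * (K * Dd) + Q * (K * Dd)) := by
      apply mul_le_mul_of_nonneg_right
      · exact mul_le_mul_of_nonneg_left hδp (by positivity)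
      · have := mul_nonneg hQ.le hKD
        linarith
    linarith
  have e6 : p * (4 * δ * (K * Dd) + 32 * δ * (K * Dd + P * (K * Dd))) +
      64 * p * δ * (64 * (K * Dd) + Q * (K * Dd)) = δ * K * c * Dd := by
    rw [hc]
    ring
  have e7 : δ * K * c * Dd ≤ (p - 1) / 8 * Dd := mul_le_mul_of_nonneg_right hδc hDq
  have e8 := mul_le_mul_of_nonneg_left (e2.trans e4) hp0.le
  have e9 := e3.trans e5
  have e10 : ∫ x, ‖op (fun y => (a y : ℂ) + D y) f x‖ ^ p ≤ ∫ x, ‖f x‖ ^ p := by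
    linarith
  exact e10

end Pool.Agent.MO
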