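import Mathlib
import Pool.Agent.MX.Defs

/-!
# Project MO (MP_84a211_an): definitions

Dimension-free maximal inequalities for all exponents `p > 1` for bodies
`{x : ∑ j, φ j (x j) ≤ 1}` (blocks `x j` of bounded dimension, `φ j` even, convex).

* `op G f x = ∫ G y f (x + y) dy`: averaging with the complex kernel `G`.
* `TF f`: test functions (continuous, compact support).
* `NB p c G`: the operator `op G` has norm at most `c` on `L^p`, tested on test functions.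
* `ph p a = ‖a‖^(p/2-1) a`, `Jp p a = ‖a‖^(p-2) a`, `dd p a b = ‖ph p a - ph p b‖^2`,
  `Br p a b` the Bregman divergence of `‖.‖^p`.
* `qq p h u = h^2 max(u,h)^(p-2)`.
* `Adm ρ`: continuous, nonnegative, bounded, even, subadditive.
* `Dq a ρ = ∫∫ a(y) a(y') ρ(y-y')^2`.
* `Wt s`: even nonnegative integrable weights of total mass at most one.
* `Cmp K a s`: `∫ ρ^2 s ≤ K Dq a ρ` for all `Adm ρ`.
* `CV V`: even measurable convex functions with values in `[0,∞]`, `V 0 = 0`.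
* `er v = exp(-v)`, `ec θ v = exp(-θ v)` for `v ∈ [0,∞]` (with value `0` at `∞`).
* `dk t G`: the dilate of the kernel `G` by `t`.
-/

set_option autoImplicit false

open MeasureTheory Set
open scoped ENNReal NNReal

namespace Pool.Agent.MO

section General

variable {E : Type} [NormedAddCommGroup E] [NormedSpace ℝ E] [MeasureSpace E]

/-- Test functions. -/
def TF (f : E → ℂ) : Prop := Continuous f ∧ HasCompactSupport f

/-- The averaging operator with kernel `G`. -/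
noncomputable def op (G : E → ℂ) (f : E → ℂ) (x : E) : ℂ := ∫ y, G y * f (x + y)

/-- The operator `op G` has norm at most `c` on `L^p` (tested on test functions). -/
def NB (p c : ℝ) (G : E → ℂ) : Prop :=
  ∀ f : E → ℂ, TF f → ∫⁻ x, ‖op G f x‖ₑ ^ p ≤ ENNReal.ofReal c ^ p * ∫⁻ x, ‖f x‖ₑ ^ p

/-- The dilate of a kernel. -/
noncomputable def dk (t : ℝ) (G : E → ℂ) (x : E) : ℂ :=
  ((t ^ Module.finrank ℝ E)⁻¹ : ℝ) * G (t⁻¹ • x)

/-- Admissible functions. -/
structure Adm (ρ : E → ℝ) : Prop where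
  cont : Continuous ρ
  nonneg : ∀ y, 0 ≤ ρ y
  bdd : ∃ C, ∀ y, ρ y ≤ C
  even : ∀ y, ρ (-y) = ρ y
  sub : ∀ y z, ρ (y + z) ≤ ρ y + ρ z

/-- The energy of `ρ` with respect to the density `a`. -/
noncomputable def Dq (a : E → ℝ) (ρ : E → ℝ) : ℝ := ∫ y, ∫ z, a y * a z * ρ (y - z) ^ 2

/-- Even nonnegative weights of mass at most one. -/
structure Wt (s : E → ℝ) : Prop where
  meas : Measurable s
  nonneg : ∀ y, 0 ≤ s y
  even : ∀ y, s (-y) = s y
  int : Integrable s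
  mass : ∫ y, s y ≤ 1

/-- Even probability densities. -/
structure Dn (a : E → ℝ) : Prop extends Wt a where
  one : ∫ y, a y = 1

/-- Comparison of the weight `s` with the density `a`. -/
def Cmp (K : ℝ) (a s : E → ℝ) : Prop :=
  ∀ ρ : E → ℝ, Adm ρ → ∫ y, ρ y ^ 2 * s y ≤ K * Dq a ρ

/-- Even measurable convex functions with values in `[0,∞]`. -/
structure CV (V : E → ℝ≥0∞) : Prop where
  meas : Measurable V
  even : ∀ x, V (-x) = V x
  zero : V 0 = 0
  conv : ∀ (x y : E) (a b : ℝ≥0), a + b = 1 → V (a • x + b • y) ≤ a * V x + b * V y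

end General

section Pertu

variable {E : Type} [NormedAddCommGroup E] [NormedSpace ℝ E] [MeasureSpace E]

/-- The hypotheses of the contraction lemma. -/
structure Pert (K δ : ℝ) (a s : E → ℝ) (D : E → ℂ) : Prop where
  da : Dn a
  ws : Wt s
  meas : Measurable D
  even : ∀ y, D (-y) = D y
  zero : ∫ y, D y = 0
  le : ∀ y, ‖D y‖ ≤ δ * s y
  caa : Cmp K a a
  cas : Cmp K a s

end Pertu

/-! ### Scalar functions -/

noncomputable def ph (p : ℝ) (a : ℂ) : ℂ := ((‖a‖ ^ (p / 2 - 1) : ℝ) : ℂ) * a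

noncomputable def Jp (p : ℝ) (a : ℂ) : ℂ := ((‖a‖ ^ (p - 2) : ℝ) : ℂ) * a

noncomputable def dd (p : ℝ) (a b : ℂ) : ℝ := ‖ph p a - ph p b‖ ^ 2

noncomputable def Br (p : ℝ) (a b : ℂ) : ℝ :=
  ‖a‖ ^ p - ‖b‖ ^ p - p * ((a - b) * (starRingEnd ℂ) (Jp p b)).re

noncomputable def qq (p h u : ℝ) : ℝ := h ^ 2 * (max u h) ^ (p - 2)

/-- `exp (-v)` for `v ∈ [0,∞]`. -/
noncomputable def er (v : ℝ≥0∞) : ℝ := if v = ∞ then 0 else Real.exp (-v.toReal)

/-- `exp (-θ v)` for `v ∈ [0,∞]` (zero at `∞`). -/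
noncomputable def ec (θ : ℂ) (v : ℝ≥0∞) : ℂ :=
  if v = ∞ then 0 else Complex.exp (-θ * (v.toReal : ℂ))

/-- The function `ρ` of the contraction lemma: `ρ(y)^2 = ∫ dd p (f (x+y)) (f x) dx`. -/
noncomputable def rho {E : Type} [NormedAddCommGroup E] [MeasureSpace E] (p : ℝ) (f : E → ℂ)
    (y : E) : ℝ := Real.sqrt (∫ x, dd p (f (x + y)) (f x))

/-! ### Gibbs measures -/

section Gibbs

variable {E : Type} [NormedAddCommGroup E] [NormedSpace ℝ E] [MeasureSpace E]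

/-- Good potentials on a space of dimension at most `k`. -/
structure GV (k : ℕ) (V : E → ℝ≥0∞) : Prop where
  cv : CV V
  dim : Module.finrank ℝ E ≤ k
  int : Integrable fun x => er (V x)
  pos : 0 < ∫ x, er (V x)

/-- The Gibbs density. -/
noncomputable def gb (V : E → ℝ≥0∞) (x : E) : ℝ := er (V x) / ∫ y, er (V y)

/-- The bound for `V` under the Gibbs measure. -/
noncomputable def MK (k : ℕ) : ℝ := 2 * 2 ^ k

/-- The complex partition function. -/
noncomputable def ZC (V : E → ℝ≥0∞) (τ : ℝ) : ℂ := ∫ x, ec (1 + τ * Complex.I) (V x)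

/-- The complex Gibbs density. -/
noncomputable def gk (V : E → ℝ≥0∞) (τ : ℝ) (x : E) : ℂ := ec (1 + τ * Complex.I) (V x) / ZC V τ

/-- The kernel of the one-factor family. -/
noncomputable def fk (V : E → ℝ≥0∞) (τ ε : ℝ) (z : ℂ) (x : E) : ℂ :=
  gk V τ x + z * ((dk (1 + ε) (gk V τ) x - gk V τ x) / ε)

/-- The dominating weight. -/
noncomputable def s0 (k : ℕ) (V : E → ℝ≥0∞) (ε : ℝ) (x : E) : ℝ :=
  (2 * ((V x).toReal + MK k) * er (V x) + 4 / ε * (er (V ((1 + ε)⁻¹ • x)) - er (V x)) +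
    2 * k * er (V x)) / ∫ y, er (V y)

/-- Mean of the energy. -/
noncomputable def mn (V : E → ℝ≥0∞) : ℝ := (∫ x, (V x).toReal * er (V x)) / ∫ y, er (V y)

/-- Variance of the energy. -/
noncomputable def vr (V : E → ℝ≥0∞) : ℝ :=
  (∫ x, ((V x).toReal - mn V) ^ 2 * er (V x)) / ∫ y, er (V y)

/-- The situation for the passage from Gibbs measures to level sets. -/
structure Cfg (p r L C1 S lam : ℝ) (Ψ : E → ℝ≥0∞) : Prop where
  meas : Measurable Ψ
  int : Integrable fun x => er (Ψ x)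
  pos : 0 < ∫ x, er (Ψ x)
  S0 : 0 ≤ S
  lam0 : 0 ≤ lam
  bpos : 0 < volume {x | Ψ x ≤ ENNReal.ofReal lam}
  bfin : volume {x | Ψ x ≤ ENNReal.ofReal lam} ≠ ∞
  var : ∃ M : ℝ, Integrable (fun x => ((Ψ x).toReal - M) ^ 2 * er (Ψ x)) ∧
    ∫ x, ((Ψ x).toReal - M) ^ 2 * er (Ψ x) ≤ S * ∫ x, er (Ψ x)
  vol : ∀ u : ℝ, 0 ≤ u → volume {x | Ψ x ≤ ENNReal.ofReal u} ≤
    ENNReal.ofReal (C1 * Real.exp (u - lam)) * volume {x | Ψ x ≤ ENNReal.ofReal lam}
  lip : ∀ τ ε : ℝ, |τ| ≤ r → 0 < ε → ε < r →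
    NB p (L * ε * ((∫ x, er (Ψ x)) * Real.exp (-(τ ^ 2 * S / 4))))
      (fun y => dk (1 + ε) (fun x => ec (1 + τ * Complex.I) (Ψ x)) y -
        ec (1 + τ * Complex.I) (Ψ y))

/-- Local (one octave) boundedness of the maximal operator of `μ`. -/
def LocE (p : ℝ) (D : ℝ≥0∞) (μ : Measure E) : Prop :=
  ∀ (k : ℝ) (S : Finset ℝ), (∀ t ∈ S, Real.exp k ≤ t ∧ t ≤ Real.exp (k + 1)) →
    ∀ f : E → ℝ≥0∞, Measurable f →
      ∫⁻ x, MX.mx μ S f x ^ p ≤ D ^ p * ∫⁻ x, f x ^ p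

end Gibbs

/-- The smooth cut-off: `F(s) + F(s + π / r)` with `F(s) = (sin (r s / 2) / (r s / 2))^2`. -/
noncomputable def fej (r s : ℝ) : ℝ :=
  Real.sinc (r * s / 2) ^ 2 + Real.sinc (r * (s + Real.pi / r) / 2) ^ 2

end Pool.Agent.MO
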