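import Pool.Agent.MO.Fej
import Pool.Agent.MO.CVa

/-!
# MO-Dom: the measure dominating the level set

`b = (volume {Ψ ≤ lam}).toReal > 0`. On `{Ψ ≤ lam}`, with `s = Ψ.toReal - lam ≤ 0`: `md = fej r s e^{-s} ≥ c`
(`fej_exp_low`; `er Ψ = e^{-Ψ.toReal}`). Integrable: `fej` is bounded and continuous, `er Ψ` integrable. Lower bound for the
integral: integrate over the level set. Upper bound: decompose `{Ψ < ∞}` into `{lam + i - 1 < Ψ ≤ lam + i}`, `i ∈ ℤ`
(and if `lam + i < 0` it is empty): there `er Ψ ≤ e^{-(lam + i - 1)}`, `fej r s ≤ C_r/(1+s^2)` with `s ∈ (i-1, i]`, and the volume is at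
most `C1 e^{i} b` (`Cfg.vol`, `u = lam + i ≥ 0`), so the piece contributes at most
`(C_r sup_{(i-1,i]} 1/(1+s^2)) e^{lam} e^{-(lam+i-1)} C1 e^{i} b = C_r C1 e b sup 1/(1+s^2)`; sum over `i ∈ ℤ`: finite
constant (`sup_{(i-1,i]} 1/(1+s^2) ≤ 4/(1+i^2)`). (Work with `lintegral` and a countable sum, or bound `md` pointwise.)
-/

set_option autoImplicit false

open MeasureTheory Set
open scoped ENNReal NNReal

namespace Pool.Agent.MO

private theorem md_fin {E : Type} {r lam : ℝ} {Ψ : E → ℝ≥0∞} {x : E} (h : Ψ x ≠ ∞) :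
    md r lam Ψ x = fej r ((Ψ x).toReal - lam) * Real.exp (-((Ψ x).toReal - lam)) := by
  rw [md, er, if_neg h, ← Real.exp_add]
  congr 2
  ring

private theorem md_top {E : Type} {r lam : ℝ} {Ψ : E → ℝ≥0∞} {x : E} (h : Ψ x = ∞) :
    md r lam Ψ x = 0 := by
  rw [md, er, if_pos h]
  simp

private theorem md_nonneg {E : Type} (r lam : ℝ) (Ψ : E → ℝ≥0∞) (x : E) :
    0 ≤ md r lam Ψ x := by
  unfold md
  exact mul_nonneg (fej_nonneg _ _) (mul_nonneg (Real.exp_pos _).le (er_nonneg _))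

theorem dom_low {r : ℝ} (hr : 0 < r) : ∃ c : ℝ, 0 < c ∧ ∀ (E : Type) (Ψ : E → ℝ≥0∞) (lam : ℝ),
    0 ≤ lam → ∀ x, Ψ x ≤ ENNReal.ofReal lam → c ≤ md r lam Ψ x := by
  obtain ⟨c, hc, h⟩ := fej_exp_low hr
  refine ⟨c, hc, ?_⟩
  intro E Ψ lam hlam x hx
  have h1 : Ψ x ≠ ∞ := ne_top_of_le_ne_top ENNReal.ofReal_ne_top hx
  rw [md_fin h1]
  refine h _ ?_
  have h2 : (Ψ x).toReal ≤ lam := ENNReal.toReal_le_of_le_ofReal hlam hx
  linarith

private theorem sum_int : Summable fun i : ℤ => (1 + (i : ℝ) ^ 2)⁻¹ := by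
  have h1 : Summable fun i : ℤ => ((i : ℝ) ^ 2)⁻¹ := by
    have := (Real.summable_one_div_int_pow (p := 2)).2 (by norm_num)
    simpa [one_div] using this
  refine Summable.of_norm_bounded_eventually (g := fun i : ℤ => ((i : ℝ) ^ 2)⁻¹) h1 ?_
  have h2 : ∀ᶠ i : ℤ in Filter.cofinite, i ≠ 0 := by
    rw [Filter.eventually_cofinite]
    refine (Set.finite_singleton (0 : ℤ)).subset ?_
    intro i hi
    simpa using hi
  filter_upwards [h2] with i hi
  have h3 : (0 : ℝ) < (i : ℝ) ^ 2 := by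
    have : (i : ℝ) ≠ 0 := by exact_mod_cast hi
    positivity
  rw [Real.norm_eq_abs, abs_of_pos (by positivity)]
  exact inv_anti₀ h3 (by linarith)

private theorem md_meas {E : Type} [MeasurableSpace E] (r lam : ℝ) {Ψ : E → ℝ≥0∞}
    (hΨ : Measurable Ψ) : Measurable (md r lam Ψ) := by
  unfold md
  exact ((fej_cont r).measurable.comp (hΨ.ennreal_toReal.sub_const lam)).mul
    ((er_meas.comp hΨ).const_mul _)

/-- The pieces. -/
private def pc {E : Type} (lam : ℝ) (Ψ : E → ℝ≥0∞) (i : ℤ) : Set E :=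
  {x | 0 ≤ lam + i ∧ Ψ x ≤ ENNReal.ofReal (lam + i)}

private theorem md_le {E : Type} {r C lam : ℝ} (hC : 0 < C)
    (hup : ∀ s : ℝ, fej r s ≤ C / (1 + s ^ 2)) (Ψ : E → ℝ≥0∞) (x : E) :
    ENNReal.ofReal (md r lam Ψ x) ≤ ∑' i : ℤ, (pc lam Ψ i).indicator
      (fun _ => ENNReal.ofReal (C * 4 * (1 + (i : ℝ) ^ 2)⁻¹ * Real.exp (1 - i))) x := by
  by_cases hx : Ψ x = ∞
  · rw [md_top hx]
    simp
  · set s : ℝ := (Ψ x).toReal - lam with hs
    have h1 : s ≤ (⌈s⌉ : ℤ) := Int.le_ceil s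
    have h2 : ((⌈s⌉ : ℤ) : ℝ) < s + 1 := Int.ceil_lt_add_one s
    have h3 : 0 ≤ lam + (⌈s⌉ : ℤ) := by
      have := ENNReal.toReal_nonneg (a := Ψ x)
      linarith
    have h4 : x ∈ pc lam Ψ ⌈s⌉ := by
      refine ⟨h3, ?_⟩
      rw [← ENNReal.ofReal_toReal hx]
      apply ENNReal.ofReal_le_ofReal
      linarith
    refine le_trans ?_ (ENNReal.le_tsum ⌈s⌉)
    rw [Set.indicator_of_mem h4, md_fin hx]
    apply ENNReal.ofReal_le_ofReal
    refine mul_le_mul ?_ (Real.exp_le_exp.2 (by linarith)) (Real.exp_pos _).le (by positivity)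
    refine (hup s).trans ?_
    rw [div_eq_mul_inv, mul_assoc]
    refine mul_le_mul_of_nonneg_left ?_ hC.le
    have h5 : (0 : ℝ) < 1 + s ^ 2 := by positivity
    have h6 : (0 : ℝ) < 1 + ((⌈s⌉ : ℤ) : ℝ) ^ 2 := by positivity
    rw [← div_eq_mul_inv, inv_eq_one_div, div_le_div_iff₀ h5 h6]
    have h7 : |((⌈s⌉ : ℤ) : ℝ)| ≤ |s| + 1 := by
      have h8 : ((⌈s⌉ : ℤ) : ℝ) = s + (((⌈s⌉ : ℤ) : ℝ) - s) := by ring
      rw [h8]
      refine (abs_add_le _ _).trans ?_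
      have h9 : |((⌈s⌉ : ℤ) : ℝ) - s| ≤ 1 := by
        rw [abs_le]
        constructor <;> linarith
      linarith
    have h10 : ((⌈s⌉ : ℤ) : ℝ) ^ 2 ≤ (|s| + 1) ^ 2 := by
      rw [← sq_abs ((⌈s⌉ : ℤ) : ℝ)]
      exact pow_le_pow_left₀ (abs_nonneg _) h7 2
    have h11 : |s| ^ 2 = s ^ 2 := sq_abs s
    nlinarith [sq_nonneg (|s| - 1)]

theorem dom (r C1 : ℝ) (hr : 0 < r) (hC1 : 0 ≤ C1) :
    ∃ C : ℝ, 0 < C ∧ ∀ (E : Type) [NormedAddCommGroup E] [NormedSpace ℝ E]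
      [FiniteDimensional ℝ E] [MeasureSpace E] [BorelSpace E]
      [Measure.IsAddHaarMeasure (volume : Measure E)] (Ψ : E → ℝ≥0∞) (p L S lam : ℝ), Cfg p r L C1 S lam Ψ →
      Integrable (md r lam Ψ) ∧
        ∫ x, md r lam Ψ x ≤ C * (volume {x | Ψ x ≤ ENNReal.ofReal lam}).toReal := by
  obtain ⟨C, hC, hup⟩ := fej_up hr
  set T : ℝ := ∑' i : ℤ, C * 4 * C1 * Real.exp 1 * (1 + (i : ℝ) ^ 2)⁻¹ with hT
  have hsum : Summable fun i : ℤ => C * 4 * C1 * Real.exp 1 * (1 + (i : ℝ) ^ 2)⁻¹ :=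
    sum_int.mul_left _
  have hT0 : 0 ≤ T := tsum_nonneg fun i => by positivity
  refine ⟨T + 1, by linarith, ?_⟩
  intro E _ _ _ _ _ _ Ψ p L S lam h
  set B : ℝ≥0∞ := volume {x | Ψ x ≤ ENNReal.ofReal lam} with hB
  have hm : Measurable (md r lam Ψ) := md_meas r lam h.meas
  have hpm : ∀ i : ℤ, MeasurableSet (pc lam Ψ i) := by
    intro i
    by_cases hi : 0 ≤ lam + i
    · have : pc lam Ψ i = {x | Ψ x ≤ ENNReal.ofReal (lam + i)} := by
        ext x
        simp [pc, hi]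
      rw [this]
      exact measurableSet_le h.meas measurable_const
    · have : pc lam Ψ i = ∅ := by
        ext x
        simp [pc, hi]
      rw [this]
      exact MeasurableSet.empty
  have hvol : ∀ i : ℤ, ENNReal.ofReal (C * 4 * (1 + (i : ℝ) ^ 2)⁻¹ * Real.exp (1 - i)) *
      volume (pc lam Ψ i) ≤ ENNReal.ofReal (C * 4 * C1 * Real.exp 1 * (1 + (i : ℝ) ^ 2)⁻¹) * B := by
    intro i
    by_cases hi : 0 ≤ lam + i
    · have h1 : volume (pc lam Ψ i) ≤ ENNReal.ofReal (C1 * Real.exp i) * B := by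
        refine (measure_mono ?_).trans ((h.vol (lam + i) hi).trans (le_of_eq ?_))
        · intro x hx
          exact hx.2
        · rw [add_sub_cancel_left]
      refine (mul_le_mul_right h1 _).trans (le_of_eq ?_)
      rw [← mul_assoc, ← ENNReal.ofReal_mul (by positivity)]
      congr 2
      have h2 : Real.exp (1 - i) * Real.exp i = Real.exp 1 := by
        rw [← Real.exp_add]
        congr 1
        ring
      calc C * 4 * (1 + (i : ℝ) ^ 2)⁻¹ * Real.exp (1 - i) * (C1 * Real.exp i)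
          = C * 4 * C1 * (Real.exp (1 - i) * Real.exp i) * (1 + (i : ℝ) ^ 2)⁻¹ := by ring
        _ = _ := by rw [h2]
    · have : pc lam Ψ i = ∅ := by
        ext x
        simp [pc, hi]
      rw [this]
      simp
  have key : ∫⁻ x, ENNReal.ofReal (md r lam Ψ x) ≤ ENNReal.ofReal T * B := by
    calc ∫⁻ x, ENNReal.ofReal (md r lam Ψ x)
        ≤ ∫⁻ x, ∑' i : ℤ, (pc lam Ψ i).indicator
            (fun _ => ENNReal.ofReal (C * 4 * (1 + (i : ℝ) ^ 2)⁻¹ * Real.exp (1 - i))) x :=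
          lintegral_mono fun x => md_le hC hup Ψ x
      _ = ∑' i : ℤ, ∫⁻ x, (pc lam Ψ i).indicator
            (fun _ => ENNReal.ofReal (C * 4 * (1 + (i : ℝ) ^ 2)⁻¹ * Real.exp (1 - i))) x :=
          lintegral_tsum fun i => (measurable_const.indicator (hpm i)).aemeasurable
      _ = ∑' i : ℤ, ENNReal.ofReal (C * 4 * (1 + (i : ℝ) ^ 2)⁻¹ * Real.exp (1 - i)) *
            volume (pc lam Ψ i) := by
          refine tsum_congr fun i => ?_
          rw [lintegral_indicator (hpm i), setLIntegral_const]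
      _ ≤ ∑' i : ℤ, ENNReal.ofReal (C * 4 * C1 * Real.exp 1 * (1 + (i : ℝ) ^ 2)⁻¹) * B :=
          ENNReal.tsum_le_tsum hvol
      _ = ENNReal.ofReal T * B := by
          rw [ENNReal.tsum_mul_right, hT, ENNReal.ofReal_tsum_of_nonneg (fun i => by positivity) hsum]
  have hBf : B ≠ ∞ := h.bfin
  have hfin : ∫⁻ x, ENNReal.ofReal (md r lam Ψ x) ≠ ∞ :=
    ne_top_of_le_ne_top (ENNReal.mul_ne_top ENNReal.ofReal_ne_top hBf) key
  have hint : Integrable (md r lam Ψ) := by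
    refine ⟨hm.aestronglyMeasurable, ?_⟩
    rw [hasFiniteIntegral_iff_ofReal (Filter.Eventually.of_forall (md_nonneg r lam Ψ))]
    exact lt_top_iff_ne_top.2 hfin
  refine ⟨hint, ?_⟩
  rw [integral_eq_lintegral_of_nonneg_ae (Filter.Eventually.of_forall (md_nonneg r lam Ψ))
    hm.aestronglyMeasurable]
  refine (ENNReal.toReal_mono (ENNReal.mul_ne_top ENNReal.ofReal_ne_top hBf) key).trans ?_
  rw [ENNReal.toReal_mul, ENNReal.toReal_ofReal hT0]
  refine mul_le_mul_of_nonneg_right (by linarith) ENNReal.toReal_nonneg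

end Pool.Agent.MO
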