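import Pool.Agent.MO.Defs

/-!
# MO-Sc1: the maps `ph`, `Jp`

`‖‖a‖^s a‖ = ‖a‖^(s+1)` for `s > -1` (treat `a = 0` separately). `mul_Jp`: `a * conj a = ‖a‖^2`,
`‖a‖^(p-2) * ‖a‖^2 = ‖a‖^p` for `a ≠ 0`.

`hs_lip`: by symmetry `‖b‖ ≤ ‖a‖`, `M = ‖a‖` (if `a = 0` then `b = 0`, trivial; if `b = 0`: the left side is
`‖a‖^s ‖a‖`). For `b ≠ 0`: the difference is `‖a‖^s (a - b) + (‖a‖^s - ‖b‖^s) b`. If `s ≤ 0`:
`‖b‖ (‖b‖^s - ‖a‖^s) = ‖b‖^(1+s) - ‖b‖ ‖a‖^s ≤ ‖a‖^(1+s) - ‖b‖ ‖a‖^s = ‖a‖^s (‖a‖ - ‖b‖) ≤ ‖a‖^s ‖a - b‖`.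
If `s ≥ 0`: with `t = ‖b‖/‖a‖ ∈ (0,1]`: `‖b‖ (‖a‖^s - ‖b‖^s) = ‖b‖ ‖a‖^s (1 - t^s) ≤ ‖a‖^s ‖b‖ (1 - t) ≤
‖a‖^s (‖a‖ - ‖b‖)` (`t ≤ t^s` as `s ≤ 1`).
Continuity: at `a ≠ 0` clear; at `0` the norm `‖a‖^(s+1)` tends to `0` (`s + 1 > 0`). One private lemma for the map
`a ↦ ‖a‖^s a`, `s > -1`, gives both.
-/

set_option autoImplicit false

open MeasureTheory Set
open scoped ENNReal NNReal

namespace Pool.Agent.MO

theorem ph_zero (p : ℝ) : ph p 0 = 0 := by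
  simp [ph]

theorem Jp_zero (p : ℝ) : Jp p 0 = 0 := by
  simp [Jp]

private theorem sc1_norm {s : ℝ} (hs : -1 < s) (a : ℂ) :
    ‖((‖a‖ ^ s : ℝ) : ℂ) * a‖ = ‖a‖ ^ (s + 1) := by
  by_cases ha : a = 0
  · subst ha
    rw [mul_zero, norm_zero, Real.zero_rpow (by linarith)]
  · have h1 : 0 < ‖a‖ := norm_pos_iff.2 ha
    rw [norm_mul, Complex.norm_real, Real.norm_of_nonneg (Real.rpow_nonneg h1.le _),
      Real.rpow_add_one h1.ne']

private theorem sc1_cont {s : ℝ} (hs : -1 < s) :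
    Continuous fun a : ℂ => ((‖a‖ ^ s : ℝ) : ℂ) * a := by
  rw [continuous_iff_continuousAt]
  intro a
  by_cases ha : a = 0
  · subst ha
    have h0 : Filter.Tendsto (fun a : ℂ => ((‖a‖ ^ s : ℝ) : ℂ) * a) (nhds 0) (nhds 0) := by
      rw [tendsto_zero_iff_norm_tendsto_zero]
      have h1 : (fun a : ℂ => ‖((‖a‖ ^ s : ℝ) : ℂ) * a‖) = fun a : ℂ => ‖a‖ ^ (s + 1) :=
        funext fun a => sc1_norm hs a
      rw [h1]
      have h2 : Continuous fun a : ℂ => ‖a‖ ^ (s + 1) :=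
        continuous_norm.rpow_const fun _ => Or.inr (by linarith)
      have h3 := h2.tendsto 0
      rwa [norm_zero, Real.zero_rpow (by linarith)] at h3
    have h4 : (fun a : ℂ => ((‖a‖ ^ s : ℝ) : ℂ) * a) 0 = 0 := mul_zero _
    unfold ContinuousAt
    rw [h4]
    exact h0
  · have h1 : ContinuousAt (fun a : ℂ => ‖a‖ ^ s) a :=
      continuous_norm.continuousAt.rpow_const (Or.inl (norm_ne_zero_iff.2 ha))
    exact (Complex.continuous_ofReal.continuousAt.comp h1).mul continuousAt_id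

theorem ph_norm {p : ℝ} (hp : 0 < p) (a : ℂ) : ‖ph p a‖ = ‖a‖ ^ (p / 2) := by
  unfold ph
  rw [sc1_norm (by linarith)]
  congr 1
  ring

theorem Jp_norm {p : ℝ} (hp : 1 < p) (a : ℂ) : ‖Jp p a‖ = ‖a‖ ^ (p - 1) := by
  unfold Jp
  rw [sc1_norm (by linarith)]
  congr 1
  ring

theorem mul_Jp {p : ℝ} (hp : 1 < p) (a : ℂ) :
    a * (starRingEnd ℂ) (Jp p a) = ((‖a‖ ^ p : ℝ) : ℂ) := by
  by_cases ha : a = 0
  · subst ha
    rw [zero_mul, norm_zero, Real.zero_rpow (by linarith), Complex.ofReal_zero]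
  · have h1 : 0 < ‖a‖ := norm_pos_iff.2 ha
    unfold Jp
    rw [map_mul, Complex.conj_ofReal, mul_left_comm, Complex.mul_conj, Complex.normSq_eq_norm_sq,
      ← Complex.ofReal_mul]
    congr 1
    have h2 : ‖a‖ ^ p = ‖a‖ ^ (p - 2) * ‖a‖ ^ (2 : ℝ) := by
      rw [← Real.rpow_add h1]
      congr 1
      ring
    rw [h2, Real.rpow_two]

private theorem sc1_real {s x y : ℝ} (hs : -1 < s) (hs1 : s ≤ 1) (hy : 0 < y) (hyx : y ≤ x) :
    |x ^ s - y ^ s| * y ≤ x ^ s * (x - y) := by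
  have hx : 0 < x := hy.trans_le hyx
  have hxs : 0 ≤ x ^ s := Real.rpow_nonneg hx.le s
  rcases le_total s 0 with h0 | h0
  · have h1 : x ^ s ≤ y ^ s := Real.rpow_le_rpow_of_nonpos hy hyx h0
    rw [abs_of_nonpos (by linarith)]
    have h2 : y ^ (s + 1) ≤ x ^ (s + 1) := Real.rpow_le_rpow hy.le hyx (by linarith)
    rw [Real.rpow_add_one hy.ne', Real.rpow_add_one hx.ne'] at h2
    nlinarith
  · have h1 : y ^ s ≤ x ^ s := Real.rpow_le_rpow hy.le hyx h0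
    rw [abs_of_nonneg (by linarith)]
    have h2 : x ^ s * y ≤ x * y ^ s := by
      have h3 : y ^ (1 - s) ≤ x ^ (1 - s) := Real.rpow_le_rpow hy.le hyx (by linarith)
      have h4 : y = y ^ s * y ^ (1 - s) := by
        rw [← Real.rpow_add hy, add_sub_cancel, Real.rpow_one]
      have h5 : x = x ^ s * x ^ (1 - s) := by
        rw [← Real.rpow_add hx, add_sub_cancel, Real.rpow_one]
      have hys : 0 ≤ y ^ s := Real.rpow_nonneg hy.le s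
      calc x ^ s * y = x ^ s * (y ^ s * y ^ (1 - s)) := by rw [← h4]
        _ ≤ x ^ s * (y ^ s * x ^ (1 - s)) :=
          mul_le_mul_of_nonneg_left (mul_le_mul_of_nonneg_left h3 hys) hxs
        _ = (x ^ s * x ^ (1 - s)) * y ^ s := by ring
        _ = x * y ^ s := by rw [← h5]
    have h6 : x * ((x ^ s - y ^ s) * y) ≤ x * (x ^ s * (x - y)) := by
      have h7 : 0 ≤ y * (x * y ^ s - x ^ s * y) := mul_nonneg hy.le (by linarith)
      have h8 : 0 ≤ x ^ s * (x - y) * (x - y) := mul_nonneg (mul_nonneg hxs (by linarith))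
        (by linarith)
      nlinarith
    exact le_of_mul_le_mul_left h6 hx

private theorem sc1_lip {s : ℝ} (hs : -1 < s) (hs1 : s ≤ 1) (a b : ℂ) (hba : ‖b‖ ≤ ‖a‖) :
    ‖((‖a‖ ^ s : ℝ) : ℂ) * a - ((‖b‖ ^ s : ℝ) : ℂ) * b‖ ≤ 2 * ‖a‖ ^ s * ‖a - b‖ := by
  by_cases hb : b = 0
  · subst hb
    rw [mul_zero, sub_zero, sub_zero, norm_mul, Complex.norm_real,
      Real.norm_of_nonneg (Real.rpow_nonneg (norm_nonneg a) _)]
    have h1 : 0 ≤ ‖a‖ ^ s * ‖a‖ := mul_nonneg (Real.rpow_nonneg (norm_nonneg a) _) (norm_nonneg a)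
    linarith
  · have hy : 0 < ‖b‖ := norm_pos_iff.2 hb
    have h1 := sc1_real hs hs1 hy hba
    have h2 : ((‖a‖ ^ s : ℝ) : ℂ) * a - ((‖b‖ ^ s : ℝ) : ℂ) * b =
        ((‖a‖ ^ s : ℝ) : ℂ) * (a - b) + ((‖a‖ ^ s - ‖b‖ ^ s : ℝ) : ℂ) * b := by
      push_cast
      ring
    have h3 : 0 ≤ ‖a‖ ^ s := Real.rpow_nonneg (norm_nonneg a) _
    have h4 : ‖a‖ - ‖b‖ ≤ ‖a - b‖ := norm_sub_norm_le a b
    rw [h2]
    refine (norm_add_le _ _).trans ?_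
    rw [norm_mul, norm_mul, Complex.norm_real, Complex.norm_real, Real.norm_of_nonneg h3,
      Real.norm_eq_abs]
    have h5 : ‖a‖ ^ s * (‖a‖ - ‖b‖) ≤ ‖a‖ ^ s * ‖a - b‖ := mul_le_mul_of_nonneg_left h4 h3
    linarith

theorem hs_lip {s : ℝ} (hs : -1 < s) (hs1 : s ≤ 1) (a b : ℂ) :
    ‖((‖a‖ ^ s : ℝ) : ℂ) * a - ((‖b‖ ^ s : ℝ) : ℂ) * b‖ ≤ 2 * (max ‖a‖ ‖b‖) ^ s * ‖a - b‖ := by
  rcases le_total ‖b‖ ‖a‖ with h | h
  · rw [max_eq_left h]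
    exact sc1_lip hs hs1 a b h
  · rw [max_eq_right h, norm_sub_rev, norm_sub_rev a b]
    exact sc1_lip hs hs1 b a h

theorem ph_cont {p : ℝ} (hp : 0 < p) : Continuous (ph p) :=
  sc1_cont (by linarith)

theorem Jp_cont {p : ℝ} (hp : 1 < p) : Continuous (Jp p) :=
  sc1_cont (by linarith)

end Pool.Agent.MO
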