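import Pool.Agent.MO.Opb
import Pool.Agent.MO.Sc1

/-!
# MO-Dual: norm of an operator by duality

`q = p/(p-1)`. `hold`: Hölder (`ENNReal.lintegral_mul_le_Lp_mul_Lq` or `integral_mul_norm_le_Lp_mul_Lq`) for
`∫ u g`. `dual`: let `u = op G f` (continuous, bounded, `‖u‖^p` integrable), `c ≥ 0`. For `R > 0` let
`χ_R : E → [0,1]` be continuous with compact support, `χ_R = 1` on the ball of radius `R` (e.g.
`max 0 (min 1 (R + 1 - ‖x‖))`), `g = χ_R conj(Jp p u)`: a test function. `∫ u g = ∫ χ_R ‖u‖^p` (`mul_Jp`) and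
`‖g‖^q = χ_R^q ‖u‖^p ≤ χ_R ‖u‖^p` (`Jp_norm`, `(p-1) q = p`, `q ≥ 1`). So with `A = ∫ χ_R ‖u‖^p`:
`A ≤ c F A^(1/q)`, `F = (∫ ‖f‖^p)^(1/p)`, hence `A ≤ (c F)^p`; `R → ∞` (monotone or dominated convergence) gives
`∫ ‖u‖^p ≤ c^p ∫ ‖f‖^p`; convert to `lintegral` (`lint_pow`).
-/

set_option autoImplicit false

open MeasureTheory Set
open scoped ENNReal NNReal

namespace Pool.Agent.MO

variable {E : Type} [NormedAddCommGroup E] [NormedSpace ℝ E] [FiniteDimensional ℝ E]
  [MeasureSpace E] [BorelSpace E] [Measure.IsAddHaarMeasure (volume : Measure E)]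

private theorem du_memLp {u : E → ℂ} (hu : Continuous u) {p : ℝ} (hp : 0 < p)
    (h : Integrable fun x => ‖u x‖ ^ p) : MemLp u (ENNReal.ofReal p) volume := by
  have h1 : ENNReal.ofReal p ≠ 0 := by
    simpa using hp
  rw [← integrable_norm_rpow_iff hu.aestronglyMeasurable h1 ENNReal.ofReal_ne_top,
    ENNReal.toReal_ofReal hp.le]
  exact h

private theorem du_int_le {p : ℝ} (hp : 1 < p) {G : E → ℂ} (hG : Integrable G) (h : NB p 1 G)
    {f : E → ℂ} (hf : TF f) : ∫ x, ‖op G f x‖ ^ p ≤ ∫ x, ‖f x‖ ^ p := by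
  have h1 := h f hf
  rw [lint_pow (by linarith) (op_int_pow hG hf hp.le), lint_pow (by linarith)
    (hf.int_pow hp.le), ENNReal.ofReal_one, ENNReal.one_rpow, one_mul] at h1
  exact (ENNReal.ofReal_le_ofReal_iff (integral_nonneg fun x => by positivity)).1 h1

theorem hold {p : ℝ} (hp : 1 < p) {G : E → ℂ} (hG : Integrable G) (h : NB p 1 G) {f g : E → ℂ}
    (hf : TF f) (hg : TF g) :
    ‖∫ x, op G f x * g x‖ ≤
      (∫ x, ‖f x‖ ^ p) ^ (1 / p) * (∫ x, ‖g x‖ ^ (p / (p - 1))) ^ (1 - 1 / p) := by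
  have hp0 : 0 < p := by linarith
  have hp1 : 0 < p - 1 := by linarith
  have hq1 : 1 < p / (p - 1) := by
    rw [lt_div_iff₀ hp1]
    linarith
  have hpq : p.HolderConjugate (p / (p - 1)) := by
    rw [Real.holderConjugate_iff]
    refine ⟨hp, ?_⟩
    field_simp
    ring
  have e1 : 1 / (p / (p - 1)) = 1 - 1 / p := by
    field_simp
  have h1 := integral_mul_norm_le_Lp_mul_Lq hpq
    (du_memLp (op_cont hG hf) hp0 (op_int_pow hG hf hp.le))
    (du_memLp hg.1 (by linarith) (hg.int_pow hq1.le))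
  rw [e1] at h1
  calc ‖∫ x, op G f x * g x‖ ≤ ∫ x, ‖op G f x * g x‖ := norm_integral_le_integral_norm _
    _ = ∫ x, ‖op G f x‖ * ‖g x‖ := by simp only [norm_mul]
    _ ≤ _ := h1
    _ ≤ _ := by
      apply mul_le_mul_of_nonneg_right
      · apply Real.rpow_le_rpow (integral_nonneg fun x => by positivity) (du_int_le hp hG h hf)
        positivity
      · exact Real.rpow_nonneg (integral_nonneg fun x => by positivity) _

/-- cut-off -/
private noncomputable def duc (R : ℝ) (x : E) : ℝ := max 0 (min 1 (R + 1 - ‖x‖))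

omit [NormedSpace ℝ E] [FiniteDimensional ℝ E] [MeasureSpace E] [BorelSpace E]
  [Measure.IsAddHaarMeasure (volume : Measure E)] in
private theorem duc_cont (R : ℝ) : Continuous (duc (E := E) R) := by
  unfold duc
  fun_prop

omit [NormedSpace ℝ E] [FiniteDimensional ℝ E] [MeasureSpace E] [BorelSpace E]
  [Measure.IsAddHaarMeasure (volume : Measure E)] in
private theorem duc_nonneg (R : ℝ) (x : E) : 0 ≤ duc R x := le_max_left _ _

omit [NormedSpace ℝ E] [FiniteDimensional ℝ E] [MeasureSpace E] [BorelSpace E]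
  [Measure.IsAddHaarMeasure (volume : Measure E)] in
private theorem duc_le (R : ℝ) (x : E) : duc R x ≤ 1 :=
  max_le zero_le_one (min_le_left _ _)

omit [NormedSpace ℝ E] [FiniteDimensional ℝ E] [MeasureSpace E] [BorelSpace E]
  [Measure.IsAddHaarMeasure (volume : Measure E)] in
private theorem duc_zero {R : ℝ} {x : E} (h : R + 1 < ‖x‖) : duc R x = 0 := by
  unfold duc
  apply max_eq_left
  exact (min_le_right _ _).trans (by linarith)

omit [NormedSpace ℝ E] [FiniteDimensional ℝ E] [MeasureSpace E] [BorelSpace E]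
  [Measure.IsAddHaarMeasure (volume : Measure E)] in
private theorem duc_one {R : ℝ} {x : E} (h : ‖x‖ ≤ R) : duc R x = 1 := by
  unfold duc
  rw [min_eq_left (by linarith), max_eq_right zero_le_one]

private theorem du_step {p : ℝ} (hp : 1 < p) {G : E → ℂ} (hG : Integrable G) {c : ℝ} (hc : 0 ≤ c)
    (h : ∀ f g : E → ℂ, TF f → TF g → ‖∫ x, op G f x * g x‖ ≤
      c * ((∫ x, ‖f x‖ ^ p) ^ (1 / p) * (∫ x, ‖g x‖ ^ (p / (p - 1))) ^ (1 - 1 / p)))
    {f : E → ℂ} (hf : TF f) (R : ℝ) :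
    ∫ x, duc R x * ‖op G f x‖ ^ p ≤ c ^ p * ∫ x, ‖f x‖ ^ p := by
  have hp0 : 0 < p := by linarith
  have hp1 : 0 < p - 1 := by linarith
  have hq1 : 1 < p / (p - 1) := by
    rw [lt_div_iff₀ hp1]
    linarith
  set u : E → ℂ := op G f with hu
  have huc : Continuous u := op_cont hG hf
  have hui : Integrable fun x => ‖u x‖ ^ p := op_int_pow hG hf hp.le
  set g : E → ℂ := fun x => ((duc R x : ℝ) : ℂ) * (starRingEnd ℂ) (Jp p (u x)) with hgdef
  have hg : TF g := by
    constructor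
    · exact (Complex.continuous_ofReal.comp (duc_cont R)).mul
        (Complex.continuous_conj.comp ((Jp_cont hp).comp huc))
    · have := FiniteDimensional.proper_real E
      apply HasCompactSupport.intro (isCompact_closedBall (0 : E) (R + 1))
      intro x hx
      have h1 : R + 1 < ‖x‖ := by
        simpa using hx
      simp only [hgdef]
      rw [duc_zero h1]
      simp
  have hint : Integrable fun x => duc R x * ‖u x‖ ^ p := by
    refine hui.mono' ?_ ?_
    · exact ((duc_cont R).mul (huc.norm.rpow_const fun x => Or.inr hp0.le)).aestronglyMeasurable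
    · refine Filter.Eventually.of_forall fun x => ?_
      have h1 : 0 ≤ ‖u x‖ ^ p := by positivity
      have h2 := duc_nonneg R x
      rw [Real.norm_of_nonneg (mul_nonneg h2 h1)]
      exact mul_le_of_le_one_left h1 (duc_le R x)
  have hug : ∀ x, u x * g x = ((duc R x * ‖u x‖ ^ p : ℝ) : ℂ) := by
    intro x
    have h1 := mul_Jp hp (u x)
    simp only [hgdef]
    rw [Complex.ofReal_mul, ← h1]
    ring
  set A := ∫ x, duc R x * ‖u x‖ ^ p with hA
  have hA0 : 0 ≤ A := integral_nonneg fun x => mul_nonneg (duc_nonneg R x) (by positivity)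
  have h1 : ‖∫ x, u x * g x‖ = A := by
    simp only [hug]
    rw [integral_complex_ofReal, Complex.norm_real, Real.norm_of_nonneg hA0]
  have h2 : ∫ x, ‖g x‖ ^ (p / (p - 1)) ≤ A := by
    apply integral_mono (hg.int_pow hq1.le) hint
    intro x
    show ‖g x‖ ^ (p / (p - 1)) ≤ duc R x * ‖u x‖ ^ p
    have h3 : ‖g x‖ = duc R x * ‖u x‖ ^ (p - 1) := by
      simp only [hgdef]
      rw [norm_mul, Complex.norm_real, Real.norm_of_nonneg (duc_nonneg R x), RCLike.norm_conj,
        Jp_norm hp]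
    rw [h3, Real.mul_rpow (duc_nonneg R x) (by positivity), ← Real.rpow_mul (norm_nonneg _),
      mul_div_cancel₀ _ hp1.ne']
    apply mul_le_mul_of_nonneg_right _ (by positivity)
    have h4 := Real.rpow_le_rpow_of_exponent_ge' (duc_nonneg R x) (duc_le R x) zero_le_one hq1.le
    rwa [Real.rpow_one] at h4
  have h3 := h f g hf hg
  rw [← hu, h1] at h3
  set B := ∫ x, ‖f x‖ ^ p with hB
  have hB0 : 0 ≤ B := integral_nonneg fun x => by positivity
  have hp1' : 0 ≤ 1 - 1 / p := by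
    rw [sub_nonneg, div_le_one hp0]
    exact hp.le
  have hI0 : 0 ≤ ∫ x, ‖g x‖ ^ (p / (p - 1)) := integral_nonneg fun x => by positivity
  have h4 : A ≤ c * B ^ (1 / p) * A ^ (1 - 1 / p) := by
    refine h3.trans ?_
    rw [mul_assoc]
    apply mul_le_mul_of_nonneg_left _ hc
    apply mul_le_mul_of_nonneg_left _ (Real.rpow_nonneg hB0 _)
    exact Real.rpow_le_rpow hI0 h2 hp1'
  rcases hA0.eq_or_lt with h5 | h5
  · rw [← h5]
    positivity
  · have h6 : A ^ (1 / p) ≤ c * B ^ (1 / p) := by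
      have h7 : A = A ^ (1 / p) * A ^ (1 - 1 / p) := by
        rw [← Real.rpow_add h5]
        norm_num
      have h8 : 0 < A ^ (1 - 1 / p) := Real.rpow_pos_of_pos h5 _
      have h9 : A ^ (1 / p) * A ^ (1 - 1 / p) ≤ c * B ^ (1 / p) * A ^ (1 - 1 / p) := by
        rw [← h7]
        exact h4
      exact le_of_mul_le_mul_right h9 h8
    have h7 : (A ^ (1 / p)) ^ p ≤ (c * B ^ (1 / p)) ^ p :=
      Real.rpow_le_rpow (by positivity) h6 hp0.le
    rw [Real.mul_rpow hc (by positivity), ← Real.rpow_mul hA0, ← Real.rpow_mul hB0,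
      one_div_mul_cancel hp0.ne', Real.rpow_one, Real.rpow_one] at h7
    exact h7

private theorem du_int {p : ℝ} (hp : 1 < p) {G : E → ℂ} (hG : Integrable G) {c : ℝ} (hc : 0 ≤ c)
    (h : ∀ f g : E → ℂ, TF f → TF g → ‖∫ x, op G f x * g x‖ ≤
      c * ((∫ x, ‖f x‖ ^ p) ^ (1 / p) * (∫ x, ‖g x‖ ^ (p / (p - 1))) ^ (1 - 1 / p)))
    {f : E → ℂ} (hf : TF f) : ∫ x, ‖op G f x‖ ^ p ≤ c ^ p * ∫ x, ‖f x‖ ^ p := by
  have hp0 : 0 < p := by linarith
  have huc : Continuous (op G f) := op_cont hG hf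
  have hui : Integrable fun x => ‖op G f x‖ ^ p := op_int_pow hG hf hp.le
  have hlim : Filter.Tendsto (fun n : ℕ => ∫ x, duc (n : ℝ) x * ‖op G f x‖ ^ p) Filter.atTop
      (nhds (∫ x, ‖op G f x‖ ^ p)) := by
    refine tendsto_integral_of_dominated_convergence (fun x => ‖op G f x‖ ^ p) ?_ hui ?_ ?_
    · intro n
      exact ((duc_cont (n : ℝ)).mul
        (huc.norm.rpow_const fun x => Or.inr hp0.le)).aestronglyMeasurable
    · intro n
      refine Filter.Eventually.of_forall fun x => ?_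
      have h1 : 0 ≤ ‖op G f x‖ ^ p := by positivity
      have h2 := duc_nonneg (n : ℝ) x
      rw [Real.norm_of_nonneg (mul_nonneg h2 h1)]
      exact mul_le_of_le_one_left h1 (duc_le (n : ℝ) x)
    · refine Filter.Eventually.of_forall fun x => ?_
      apply tendsto_const_nhds.congr'
      obtain ⟨N, hN⟩ := exists_nat_ge ‖x‖
      filter_upwards [Filter.eventually_ge_atTop N] with n hn
      rw [duc_one (hN.trans (by exact_mod_cast hn)), one_mul]
  exact le_of_tendsto' hlim fun n => du_step hp hG hc h hf n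

theorem dual {p : ℝ} (hp : 1 < p) {G : E → ℂ} (hG : Integrable G) {c : ℝ} (hc : 0 ≤ c)
    (h : ∀ f g : E → ℂ, TF f → TF g → ‖∫ x, op G f x * g x‖ ≤
      c * ((∫ x, ‖f x‖ ^ p) ^ (1 / p) * (∫ x, ‖g x‖ ^ (p / (p - 1))) ^ (1 - 1 / p))) :
    NB p c G := by
  intro f hf
  have hp0 : 0 < p := by linarith
  rw [lint_pow hp0.le (op_int_pow hG hf hp.le), lint_pow hp0.le (hf.int_pow hp.le),
    ENNReal.ofReal_rpow_of_nonneg hc hp0.le, ← ENNReal.ofReal_mul (by positivity)]
  exact ENNReal.ofReal_le_ofReal (du_int hp hG hc h hf)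

end Pool.Agent.MO
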