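import Pool.Agent.MO.CVb
import Pool.Agent.CB.GenIso

/-!
# MO-VolLC: volumes of level sets are log-concave

Without loss of generality `u ≤ v` (`mul_comm`, `add_comm`). `K = {V ≤ v}` is measurable and convex (`CV.convex`), finite
volume. If `volume K = 0` the left side is `0`. Else `CB.lc_unif_gen` for `K`, `A = {V ≤ u}`, `B = K`, `C = {V ≤ (u+v)/2}`:
for `a ∈ A`, `b ∈ B`: `V ((1/2)(a+b)) ≤ (V a + V b)/2 ≤ (u+v)/2` (`conv` with weights `1/2`). `MX.unif K A = volume (A ∩ K)/volume K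
= volume A / volume K` (`A ⊆ K`), `MX.unif K B = 1`, `MX.unif K C ≤ volume C / volume K`; multiply by `(volume K)^2`.
-/

set_option autoImplicit false

open MeasureTheory Set
open scoped ENNReal NNReal

namespace Pool.Agent.MO

variable {E : Type} [NormedAddCommGroup E] [NormedSpace ℝ E] [FiniteDimensional ℝ E]
  [MeasureSpace E] [BorelSpace E] [Measure.IsAddHaarMeasure (volume : Measure E)]

private theorem vol_lc_aux {V : E → ℝ≥0∞} (h : CV V) {u v : ℝ≥0∞} (huv : u ≤ v)
    (hv : volume {x | V x ≤ v} ≠ ∞) :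
    volume {x | V x ≤ u} * volume {x | V x ≤ v} ≤ volume {x | V x ≤ (u + v) / 2} ^ 2 := by
  by_cases hk0 : volume {x | V x ≤ v} = 0
  · rw [hk0, mul_zero]
    exact zero_le
  have hK := h.measSet v
  have hA := h.measSet u
  have hC := h.measSet ((u + v) / 2)
  have hlc := CB.lc_unif_gen hK (h.convex v) {x | V x ≤ u} {x | V x ≤ v} {x | V x ≤ (u + v) / 2}
    hA hK hC (by
      intro a ha b hb
      have ha' : V a ≤ u := ha
      have hb' : V b ≤ v := hb
      have h1 := h.conv a b (1 / 2) (1 / 2) (by norm_num)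
      have e1 : (1 / 2 : ℝ≥0) • a + (1 / 2 : ℝ≥0) • b = (1 / 2 : ℝ) • (a + b) := by
        rw [smul_add, NNReal.smul_def, NNReal.smul_def]
        norm_num
      rw [e1] at h1
      have e2 : ((1 / 2 : ℝ≥0) : ℝ≥0∞) = 2⁻¹ := by
        rw [one_div, ENNReal.coe_inv (by norm_num)]
        norm_num
      rw [e2] at h1
      show V ((1 / 2 : ℝ) • (a + b)) ≤ (u + v) / 2
      calc V ((1 / 2 : ℝ) • (a + b)) ≤ 2⁻¹ * V a + 2⁻¹ * V b := h1
        _ ≤ 2⁻¹ * u + 2⁻¹ * v := by gcongr
        _ = (u + v) / 2 := by rw [← mul_add, mul_comm, ENNReal.div_eq_inv_mul, mul_comm])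
  have hAK : ({x | V x ≤ u} : Set E) ∩ {x | V x ≤ v} = {x | V x ≤ u} := by
    apply inter_eq_left.2
    intro x hx
    exact le_trans hx huv
  have eA : MX.unif {x | V x ≤ v} {x | V x ≤ u} =
      (volume {x | V x ≤ v})⁻¹ * volume {x | V x ≤ u} := by
    unfold MX.unif
    rw [Measure.smul_apply, smul_eq_mul, Measure.restrict_apply hA, hAK]
  have eK : MX.unif {x | V x ≤ v} {x | V x ≤ v} = 1 := by
    unfold MX.unif
    rw [Measure.smul_apply, smul_eq_mul, Measure.restrict_apply hK, inter_self,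
      ENNReal.inv_mul_cancel hk0 hv]
  have eC : MX.unif {x | V x ≤ v} {x | V x ≤ (u + v) / 2} ≤
      (volume {x | V x ≤ v})⁻¹ * volume {x | V x ≤ (u + v) / 2} := by
    unfold MX.unif
    rw [Measure.smul_apply, smul_eq_mul, Measure.restrict_apply hC]
    gcongr
    exact inter_subset_left
  rw [eA, eK, mul_one] at hlc
  set k := volume {x | V x ≤ v} with hk
  set a := volume {x | V x ≤ u} with ha
  set c := volume {x | V x ≤ (u + v) / 2} with hc
  have hkk : k * k⁻¹ = 1 := ENNReal.mul_inv_cancel hk0 hv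
  calc a * k = k * (k * k⁻¹) * a := by rw [hkk, mul_one, mul_comm]
    _ = k ^ 2 * (k⁻¹ * a) := by ring
    _ ≤ k ^ 2 * (k⁻¹ * c) ^ 2 := by
        gcongr
        exact hlc.trans (by gcongr)
    _ = (k * k⁻¹) ^ 2 * c ^ 2 := by ring
    _ = c ^ 2 := by rw [hkk, one_pow, one_mul]

theorem vol_lc {V : E → ℝ≥0∞} (h : CV V) {u v : ℝ≥0∞} (hu : volume {x | V x ≤ u} ≠ ∞)
    (hv : volume {x | V x ≤ v} ≠ ∞) :
    volume {x | V x ≤ u} * volume {x | V x ≤ v} ≤ volume {x | V x ≤ (u + v) / 2} ^ 2 := by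
  rcases le_total u v with huv | huv
  · exact vol_lc_aux h huv hv
  · rw [mul_comm, add_comm u v]
    exact vol_lc_aux h huv hu

end Pool.Agent.MO
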