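import Pool.Agent.MO.Mom
import Pool.Agent.MO.VolLC

/-!
# MO-En1: fourth moment of the energy

`v u = (volume {V ≤ ofReal u}).toReal` (finite: `GV.vol_fin`), `n = finrank ≤ k`. Put `v_i = v(i/2)`, `i ∈ ℕ`. `v_1 > 0`
(`Z_le_vol` and `CV.vol`). Log-concavity (`vol_lc`): `v_i v_{i+2} ≤ v_{i+1}^2`, so `v_{i+1}/v_i ≤ v_2/v_1` for `i ≥ 1`, and
`v_i ≤ i^n v_1` (`CV.vol`), so `v_{i+1} - v_i ≤ v_i (v_2/v_1 - 1) ≤ i^k (v_2 - v_1)` for `i ≥ 1`. Hence
`∫_{V > 1} V^4 er V ≤ ∑_{i ≥ 2} ((i+1)/2)^4 e^{-i/2} (v_{i+1} - v_i) ≤ c_k (v_2 - v_1)` with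
`c_k = ∑ ((i+1)/2)^4 e^{-i/2} i^k` (summable), while `∫ V^2 er V ≥ ∫_{1/2 < V ≤ 1} ≥ (1/4) e^{-1} (v_2 - v_1)` and
`∫_{V ≤ 1} V^4 er V ≤ ∫ V^2 er V`. So `C = 1 + 4 e c_k`. (Where `V = ∞`, `er V = 0`. The sum over shells: countable
decomposition of `{1 < V < ∞}` into `{i/2 < V ≤ (i+1)/2}`, `lintegral_iUnion` or a pointwise bound by a sum of
indicators.)
-/

set_option autoImplicit false

open MeasureTheory Set
open scoped ENNReal NNReal

namespace Pool.Agent.MO

private noncomputable def enc (k j : ℕ) : ℝ :=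
  (((j : ℝ) + 3) / 2) ^ 4 * Real.exp (-(((j : ℝ) + 2) / 2)) * ((j : ℝ) + 2) ^ k

private theorem enc_nonneg (k j : ℕ) : 0 ≤ enc k j := by
  unfold enc
  positivity

private theorem enc_summable (k : ℕ) : Summable (enc k) := by
  have h1 : Summable fun n : ℕ => (n : ℝ) ^ (4 + k) * Real.exp (-(1 / 2) * (n : ℝ)) :=
    Real.summable_pow_mul_exp_neg_nat_mul (4 + k) (by norm_num)
  have h2 := ((summable_nat_add_iff 3).2 h1).mul_left (Real.exp (1 / 2))
  refine Summable.of_nonneg_of_le (enc_nonneg k) (fun j => ?_) h2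
  unfold enc
  push_cast
  have hj : (0 : ℝ) ≤ (j : ℝ) := Nat.cast_nonneg j
  have e : Real.exp (-(((j : ℝ) + 2) / 2)) =
      Real.exp (1 / 2) * Real.exp (-(1 / 2) * ((j : ℝ) + 3)) := by
    rw [← Real.exp_add]; congr 1; ring
  have h3 : (((j : ℝ) + 3) / 2) ^ 4 ≤ ((j : ℝ) + 3) ^ 4 :=
    pow_le_pow_left₀ (by positivity) (by linarith) 4
  have h4 : ((j : ℝ) + 2) ^ k ≤ ((j : ℝ) + 3) ^ k :=
    pow_le_pow_left₀ (by positivity) (by linarith) k
  have h5 := mul_le_mul h3 h4 (by positivity) (by positivity)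
  rw [e, pow_add]
  have h6 : 0 ≤ Real.exp (1 / 2) * Real.exp (-(1 / 2) * ((j : ℝ) + 3)) := by positivity
  have h7 := mul_le_mul_of_nonneg_right h5 h6
  calc _ = (((j : ℝ) + 3) / 2) ^ 4 * ((j : ℝ) + 2) ^ k *
        (Real.exp (1 / 2) * Real.exp (-(1 / 2) * ((j : ℝ) + 3))) := by ring
    _ ≤ _ := h7
    _ = _ := by ring

private theorem en_real {k n : ℕ} (hn : n ≤ k) (v : ℕ → ℝ) (h1 : 0 < v 1) (hm : Monotone v)
    (hlc : ∀ i, v i * v (i + 2) ≤ v (i + 1) ^ 2)
    (hp : ∀ i : ℕ, 1 ≤ i → v i ≤ (i : ℝ) ^ n * v 1) (j : ℕ) :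
    v (j + 3) - v (j + 2) ≤ ((j : ℝ) + 2) ^ k * (v 2 - v 1) := by
  have hpos : ∀ i, 1 ≤ i → 0 < v i := fun i hi => h1.trans_le (hm hi)
  have hr : ∀ i, 1 ≤ i → v (i + 1) * v 1 ≤ v i * v 2 := by
    intro i hi
    induction i, hi using Nat.le_induction with
    | base => exact le_of_eq (mul_comm _ _)
    | succ i hi ih =>
      refine le_of_mul_le_mul_right ?_ (hpos i hi)
      have h2 := mul_le_mul_of_nonneg_right (hlc i) h1.le
      have h3 := mul_le_mul_of_nonneg_left ih (hpos (i + 1) (by omega)).le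
      calc v (i + 1 + 1) * v 1 * v i = v i * v (i + 2) * v 1 := by ring
        _ ≤ v (i + 1) ^ 2 * v 1 := h2
        _ = v (i + 1) * (v (i + 1) * v 1) := by ring
        _ ≤ v (i + 1) * (v i * v 2) := h3
        _ = v (i + 1) * v 2 * v i := by ring
  have h2 := hr (j + 2) (by omega)
  have h3 := hp (j + 2) (by omega)
  have h4 : 0 ≤ v 2 - v 1 := sub_nonneg.2 (hm (by norm_num))
  have h5 : (v (j + 3) - v (j + 2)) * v 1 ≤ ((((j + 2 : ℕ) : ℝ)) ^ n * (v 2 - v 1)) * v 1 := by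
    have h6 := mul_le_mul_of_nonneg_right h3 h4
    have h7 : (v (j + 3) - v (j + 2)) * v 1 ≤ v (j + 2) * (v 2 - v 1) := by
      have h8 : v (j + 2 + 1) = v (j + 3) := rfl
      rw [h8] at h2
      linarith
    refine h7.trans (h6.trans (le_of_eq (by ring)))
  have h6 := le_of_mul_le_mul_right h5 h1
  refine h6.trans (mul_le_mul_of_nonneg_right ?_ h4)
  push_cast
  exact pow_le_pow_right₀ (by have := Nat.cast_nonneg (α := ℝ) j; linarith) hn

theorem en1 (k : ℕ) : ∃ C : ℝ, 0 < C ∧ ∀ (E : Type) [NormedAddCommGroup E] [NormedSpace ℝ E]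
      [FiniteDimensional ℝ E] [MeasureSpace E] [BorelSpace E]
      [Measure.IsAddHaarMeasure (volume : Measure E)] (V : E → ℝ≥0∞), GV k V →
      ∫ x, (V x).toReal ^ 4 * er (V x) ≤ C * ∫ x, (V x).toReal ^ 2 * er (V x) := by
  obtain ⟨C0, hC0, hZ⟩ := Z_le_vol k
  have hc0 : 0 ≤ ∑' j, enc k j := tsum_nonneg (enc_nonneg k)
  refine ⟨1 + 4 * Real.exp 1 * ∑' j, enc k j, by positivity, ?_⟩
  intro E _ _ _ _ _ _ V h
  let A : ℕ → Set E := fun i => {x | V x ≤ ENNReal.ofReal ((i : ℝ) / 2)}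
  have hAfin : ∀ i, volume (A i) ≠ ∞ := fun i => h.vol_fin _ ENNReal.ofReal_ne_top
  have hAm : ∀ i, MeasurableSet (A i) := fun i => h.cv.measSet _
  have hAmono : Monotone A := by
    intro i j hij x hx
    have h1 : (i : ℝ) ≤ j := by exact_mod_cast hij
    exact le_trans hx (ENNReal.ofReal_le_ofReal (by linarith))
  let v : ℕ → ℝ := fun i => (volume (A i)).toReal
  have hvA : ∀ i, volume (A i) = ENNReal.ofReal (v i) := fun i =>
    (ENNReal.ofReal_toReal (hAfin i)).symm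
  have hv0 : ∀ i, 0 ≤ v i := fun i => ENNReal.toReal_nonneg
  have hvm : Monotone v := fun i j hij =>
    ENNReal.toReal_mono (hAfin j) (measure_mono (hAmono hij))
  have hp : ∀ i : ℕ, 1 ≤ i → v i ≤ (i : ℝ) ^ (Module.finrank ℝ E) * v 1 := by
    intro i hi
    have h1 := h.cv.vol (ENNReal.ofReal (((1 : ℕ) : ℝ) / 2)) (t := (i : ℝ))
      (by exact_mod_cast hi)
    have h2 : ENNReal.ofReal (i : ℝ) * ENNReal.ofReal (((1 : ℕ) : ℝ) / 2) =
        ENNReal.ofReal ((i : ℝ) / 2) := by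
      rw [← ENNReal.ofReal_mul (Nat.cast_nonneg i)]
      congr 1
      push_cast
      ring
    rw [h2] at h1
    have h3 := ENNReal.toReal_mono (ENNReal.mul_ne_top ENNReal.ofReal_ne_top (hAfin 1)) h1
    rw [ENNReal.toReal_mul, ENNReal.toReal_ofReal (by positivity)] at h3
    exact h3
  have hv2 : 0 < v 2 := by
    have h1 := hZ E V h
    have h2 : v 2 = (volume {x | V x ≤ 1}).toReal := by
      have h3 : A 2 = {x | V x ≤ 1} := by
        show {x | V x ≤ ENNReal.ofReal (((2 : ℕ) : ℝ) / 2)} = {x | V x ≤ 1}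
        have h4 : (((2 : ℕ) : ℝ) / 2) = 1 := by norm_num
        rw [h4, ENNReal.ofReal_one]
      show (volume (A 2)).toReal = _
      rw [h3]
    rw [← h2] at h1
    have h3 := lt_of_lt_of_le h.pos h1
    by_contra h4
    push Not at h4
    have h5 := mul_nonpos_of_nonneg_of_nonpos hC0.le h4
    linarith
  have hv1 : 0 < v 1 := by
    have h1 := hp 2 (by norm_num)
    by_contra h4
    push Not at h4
    have h5 : v 1 = 0 := le_antisymm h4 (hv0 1)
    rw [h5, mul_zero] at h1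
    linarith
  have hlc : ∀ i, v i * v (i + 2) ≤ v (i + 1) ^ 2 := by
    intro i
    have h1 := vol_lc h.cv (hAfin i) (hAfin (i + 2))
    have h2 : (ENNReal.ofReal ((i : ℝ) / 2) + ENNReal.ofReal (((i + 2 : ℕ) : ℝ) / 2)) / 2 =
        ENNReal.ofReal (((i + 1 : ℕ) : ℝ) / 2) := by
      rw [← ENNReal.ofReal_add (by positivity) (by positivity)]
      have h3 : (2 : ℝ≥0∞) = ENNReal.ofReal 2 := by norm_num
      rw [h3, ← ENNReal.ofReal_div_of_pos (by norm_num)]
      congr 1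
      push_cast
      ring
    rw [h2] at h1
    have h3 := ENNReal.toReal_mono (ENNReal.pow_ne_top (hAfin (i + 1))) h1
    rw [ENNReal.toReal_mul, ENNReal.toReal_pow] at h3
    exact h3
  have hsh : ∀ i, volume (A (i + 1) \ A i) = ENNReal.ofReal (v (i + 1) - v i) := by
    intro i
    rw [measure_sdiff (hAmono (Nat.le_succ i)) (hAm i).nullMeasurableSet (hAfin i),
      ENNReal.ofReal_sub _ (hv0 i), hvA, hvA]
  have hfin : ∀ {x : E}, V x ≠ ∞ → er (V x) = Real.exp (-(V x).toReal) := by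
    intro x hx
    simp [er, hx]
  -- the upper bound
  have hpt : ∀ x, ENNReal.ofReal ((V x).toReal ^ 4 * er (V x)) ≤
      ENNReal.ofReal ((V x).toReal ^ 2 * er (V x)) +
        ∑' j : ℕ, ENNReal.ofReal ((((j : ℝ) + 3) / 2) ^ 4 * Real.exp (-(((j : ℝ) + 2) / 2))) *
          (A (j + 2 + 1) \ A (j + 2)).indicator (fun _ => (1 : ℝ≥0∞)) x := by
    intro x
    by_cases hx : V x = ∞
    · rw [hx, er_top, mul_zero, ENNReal.ofReal_zero]
      exact bot_le
    rw [hfin hx]
    have hVx : V x = ENNReal.ofReal (V x).toReal := (ENNReal.ofReal_toReal hx).symm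
    have hw0 : 0 ≤ (V x).toReal := ENNReal.toReal_nonneg
    set w := (V x).toReal with hw
    by_cases hw1 : w ≤ 1
    · refine le_add_right (ENNReal.ofReal_le_ofReal ?_)
      refine mul_le_mul_of_nonneg_right ?_ (Real.exp_pos _).le
      exact pow_le_pow_of_le_one hw0 hw1 (by norm_num)
    · push Not at hw1
      have h2 : 2 < ⌈2 * w⌉₊ := Nat.lt_ceil.2 (by push_cast; linarith)
      obtain ⟨j, hj⟩ : ∃ j, ⌈2 * w⌉₊ = j + 3 := ⟨⌈2 * w⌉₊ - 3, by omega⟩
      have h3 : 2 * w ≤ (j : ℝ) + 3 := by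
        have := Nat.le_ceil (2 * w)
        rw [hj] at this
        push_cast at this
        exact this
      have h4 : (j : ℝ) + 2 < 2 * w := by
        have : j + 2 < ⌈2 * w⌉₊ := by omega
        have h5 := Nat.lt_ceil.1 this
        push_cast at h5
        exact h5
      refine le_trans ?_ (le_trans (ENNReal.le_tsum j) le_add_self)
      have hmem : x ∈ A (j + 2 + 1) \ A (j + 2) := by
        constructor
        · show V x ≤ ENNReal.ofReal (((j + 2 + 1 : ℕ) : ℝ) / 2)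
          rw [hVx]
          refine ENNReal.ofReal_le_ofReal ?_
          push_cast
          linarith
        · show ¬ V x ≤ ENNReal.ofReal (((j + 2 : ℕ) : ℝ) / 2)
          rw [hVx, ENNReal.ofReal_le_ofReal_iff (by positivity)]
          push_cast
          linarith
      rw [indicator_of_mem hmem, mul_one]
      refine ENNReal.ofReal_le_ofReal ?_
      refine mul_le_mul (pow_le_pow_left₀ hw0 (by linarith) 4) ?_ (Real.exp_pos _).le
        (by positivity)
      exact Real.exp_le_exp.2 (by linarith)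
  have hm2 : Measurable fun x => ENNReal.ofReal ((V x).toReal ^ 2 * er (V x)) :=
    ((h.cv.meas.ennreal_toReal.pow_const 2).mul (er_meas.comp h.cv.meas)).ennreal_ofReal
  have hup : ∫⁻ x, ENNReal.ofReal ((V x).toReal ^ 4 * er (V x)) ≤
      (∫⁻ x, ENNReal.ofReal ((V x).toReal ^ 2 * er (V x))) +
        ENNReal.ofReal ((∑' j, enc k j) * (v 2 - v 1)) := by
    refine (lintegral_mono hpt).trans ?_
    rw [lintegral_add_left hm2]
    refine add_le_add le_rfl ?_
    have hms : ∀ j : ℕ, MeasurableSet (A (j + 2 + 1) \ A (j + 2)) := fun j =>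
      (hAm _).diff (hAm _)
    rw [lintegral_tsum fun j =>
      ((measurable_const.indicator (hms j)).const_mul _).aemeasurable]
    have hv21 : 0 ≤ v 2 - v 1 := sub_nonneg.2 (hvm (by norm_num))
    rw [← tsum_mul_right, ENNReal.ofReal_tsum_of_nonneg
      (fun j => mul_nonneg (enc_nonneg k j) hv21) ((enc_summable k).mul_right _)]
    refine ENNReal.tsum_le_tsum fun j => ?_
    rw [lintegral_const_mul _ (measurable_const.indicator (hms j)),
      lintegral_indicator (hms j), setLIntegral_const, one_mul, hsh,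
      ← ENNReal.ofReal_mul (by positivity)]
    refine ENNReal.ofReal_le_ofReal ?_
    have h9 : (0 : ℝ) ≤ (((j : ℝ) + 3) / 2) ^ 4 * Real.exp (-(((j : ℝ) + 2) / 2)) := by positivity
    have h8 := mul_le_mul_of_nonneg_left (en_real h.dim v hv1 hvm hlc hp j) h9
    refine h8.trans (le_of_eq ?_)
    unfold enc
    ring
  -- the lower bound
  have hlow : ENNReal.ofReal (Real.exp (-1) / 4 * (v 2 - v 1)) ≤
      ∫⁻ x, ENNReal.ofReal ((V x).toReal ^ 2 * er (V x)) := by
    have hms : MeasurableSet (A (1 + 1) \ A 1) := (hAm _).diff (hAm _)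
    have h1 : ∫⁻ x, ENNReal.ofReal (Real.exp (-1) / 4) *
        (A (1 + 1) \ A 1).indicator (fun _ => (1 : ℝ≥0∞)) x =
        ENNReal.ofReal (Real.exp (-1) / 4 * (v 2 - v 1)) := by
      rw [lintegral_const_mul _ (measurable_const.indicator hms),
        lintegral_indicator hms, setLIntegral_const, one_mul, hsh,
        ← ENNReal.ofReal_mul (by positivity)]
    rw [← h1]
    refine lintegral_mono fun x => ?_
    by_cases hx : x ∈ A (1 + 1) \ A 1
    · rw [indicator_of_mem hx, mul_one]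
      refine ENNReal.ofReal_le_ofReal ?_
      have h2 : V x ≤ ENNReal.ofReal (((1 + 1 : ℕ) : ℝ) / 2) := hx.1
      have h3 : ¬ V x ≤ ENNReal.ofReal (((1 : ℕ) : ℝ) / 2) := hx.2
      have hx2 : V x ≠ ∞ := ne_top_of_le_ne_top ENNReal.ofReal_ne_top h2
      rw [hfin hx2]
      have hVx : V x = ENNReal.ofReal (V x).toReal := (ENNReal.ofReal_toReal hx2).symm
      have hw0 : 0 ≤ (V x).toReal := ENNReal.toReal_nonneg
      rw [hVx, ENNReal.ofReal_le_ofReal_iff (by positivity)] at h2 h3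
      push_cast at h2 h3
      push Not at h3
      have h4 : (1 / 2 : ℝ) ^ 2 ≤ (V x).toReal ^ 2 :=
        pow_le_pow_left₀ (by norm_num) h3.le 2
      have h5 : Real.exp (-1) ≤ Real.exp (-(V x).toReal) := Real.exp_le_exp.2 (by linarith)
      calc Real.exp (-1) / 4 = (1 / 2 : ℝ) ^ 2 * Real.exp (-1) := by ring
        _ ≤ (V x).toReal ^ 2 * Real.exp (-(V x).toReal) :=
          mul_le_mul h4 h5 (Real.exp_pos _).le (by positivity)
    · rw [indicator_of_notMem hx, mul_zero]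
      exact bot_le
  have i4 := (h.mom 4).1
  have i2 := (h.mom 2).1
  have n4 : ∀ x, 0 ≤ (V x).toReal ^ 4 * er (V x) := fun x =>
    mul_nonneg (pow_nonneg ENNReal.toReal_nonneg _) (er_nonneg _)
  have n2 : ∀ x, 0 ≤ (V x).toReal ^ 2 * er (V x) := fun x =>
    mul_nonneg (pow_nonneg ENNReal.toReal_nonneg _) (er_nonneg _)
  have e4 := ofReal_integral_eq_lintegral_ofReal i4 (Filter.Eventually.of_forall n4)
  have e2 := ofReal_integral_eq_lintegral_ofReal i2 (Filter.Eventually.of_forall n2)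
  have I2 : 0 ≤ ∫ x, (V x).toReal ^ 2 * er (V x) := integral_nonneg n2
  have hv21 : 0 ≤ v 2 - v 1 := sub_nonneg.2 (hvm (by norm_num))
  rw [← e4, ← e2, ← ENNReal.ofReal_add I2 (mul_nonneg hc0 hv21),
    ENNReal.ofReal_le_ofReal_iff (add_nonneg I2 (mul_nonneg hc0 hv21))] at hup
  rw [← e2, ENNReal.ofReal_le_ofReal_iff I2] at hlow
  have h1 : v 2 - v 1 ≤ 4 * Real.exp 1 * ∫ x, (V x).toReal ^ 2 * er (V x) := by
    have h2 := mul_le_mul_of_nonneg_left hlow (by positivity : (0 : ℝ) ≤ 4 * Real.exp 1)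
    have h3 : 4 * Real.exp 1 * (Real.exp (-1) / 4 * (v 2 - v 1)) =
        (Real.exp 1 * Real.exp (-1)) * (v 2 - v 1) := by ring
    rw [h3, ← Real.exp_add, add_neg_cancel, Real.exp_zero, one_mul] at h2
    exact h2
  have h2 := mul_le_mul_of_nonneg_left h1 hc0
  linarith

end Pool.Agent.MO
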