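import Pool.Agent.MO.Mom

/-!
# MO-En2: second moment and variance of the energy

`X` with density `er V / Z`, `ζ = V(X)`, `m = mn V ∈ [0, MK k]` (`GV.mn_nonneg`, `GV.mn_le`). If `m = 0` then
`∫ V^2 er V = ∫ (V - m)^2 er V`. Let `m > 0`. Markov: `P(ζ ≤ 2m) ≥ 1/2`. `∫_{V ≤ 2m} er V ≤ volume {V ≤ 2m} ≤
4^n volume {V ≤ m/2}` (`CV.vol`, `t = 4`) and `∫_{V ≤ m/2} er V ≥ e^{-m/2} volume {V ≤ m/2}`, so
`P(ζ ≤ m/2) ≥ e^{-m/2} 4^{-n} / 2 ≥ c := e^{-MK k/2} 4^{-k} / 2`. Hence `∫ (V-m)^2 er V ≥ (m/2)^2 c Z`, i.e.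
`m^2 Z ≤ (4/c) ∫ (V-m)^2 er V`, and `∫ V^2 er V ≤ 2 ∫ (V-m)^2 er V + 2 m^2 Z ≤ (2 + 8/c) ∫ (V-m)^2 er V`.
-/

set_option autoImplicit false

open MeasureTheory Set
open scoped ENNReal NNReal

namespace Pool.Agent.MO

section

variable {E : Type} [NormedAddCommGroup E] [NormedSpace ℝ E] [FiniteDimensional ℝ E]
  [MeasureSpace E] [BorelSpace E] [Measure.IsAddHaarMeasure (volume : Measure E)]

private theorem en2_exp {k : ℕ} {V : E → ℝ≥0∞} (h : GV k V) (m : ℝ) :
    Integrable (fun x => ((V x).toReal - m) ^ 2 * er (V x)) ∧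
    ∫ x, ((V x).toReal - m) ^ 2 * er (V x) = (∫ x, (V x).toReal ^ 2 * er (V x)) -
      2 * m * (∫ x, (V x).toReal * er (V x)) + m ^ 2 * ∫ x, er (V x) := by
  have h2 := (h.mom 2).1
  have h1 := (h.mom 1).1
  simp only [pow_one] at h1
  have h0 := h.int
  have e : ∀ x, ((V x).toReal - m) ^ 2 * er (V x) = (V x).toReal ^ 2 * er (V x) -
      2 * m * ((V x).toReal * er (V x)) + m ^ 2 * er (V x) := fun x => by ring
  have i1 : Integrable fun x => (V x).toReal ^ 2 * er (V x) -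
      2 * m * ((V x).toReal * er (V x)) := h2.sub (h1.const_mul _)
  constructor
  · simp only [e]
    exact i1.add (h0.const_mul _)
  · simp only [e]
    rw [integral_add i1 (h0.const_mul _), integral_sub h2 (h1.const_mul _), integral_const_mul,
      integral_const_mul]

private theorem en2_half {k : ℕ} {V : E → ℝ≥0∞} (h : GV k V) (hm : 0 < mn V) :
    (∫ x, er (V x)) / 2 ≤ ∫ x in {x | V x ≤ ENNReal.ofReal (2 * mn V)}, er (V x) := by
  set m := mn V with hmd
  set A := {x | V x ≤ ENNReal.ofReal (2 * m)} with hA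
  have hAm : MeasurableSet A := h.cv.measSet _
  have h1 := (h.mom 1).1
  simp only [pow_one] at h1
  have e1 : ∫ x, (V x).toReal * er (V x) = m * ∫ x, er (V x) := by
    rw [hmd, mn, div_mul_cancel₀ _ h.pos.ne']
  have e2 : ∫ x in Aᶜ, 2 * m * er (V x) ≤ ∫ x in Aᶜ, (V x).toReal * er (V x) := by
    refine setIntegral_mono_on (h.int.const_mul _).integrableOn h1.integrableOn hAm.compl ?_
    intro x hx
    have hx' : ENNReal.ofReal (2 * m) < V x := not_le.1 hx
    by_cases hxt : V x = ∞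
    · rw [hxt, er_top, mul_zero, mul_zero]
    · refine mul_le_mul_of_nonneg_right ?_ (er_nonneg _)
      have := (ENNReal.ofReal_le_iff_le_toReal hxt).1 hx'.le
      exact this
  have e3 : ∫ x in Aᶜ, (V x).toReal * er (V x) ≤ ∫ x, (V x).toReal * er (V x) :=
    setIntegral_le_integral h1 (Filter.Eventually.of_forall fun x =>
      mul_nonneg ENNReal.toReal_nonneg (er_nonneg _))
  rw [integral_const_mul] at e2
  have e4 : (∫ x in A, er (V x)) + ∫ x in Aᶜ, er (V x) = ∫ x, er (V x) :=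
    integral_add_compl hAm h.int
  have e5 : 2 * m * ∫ x in Aᶜ, er (V x) ≤ m * ∫ x, er (V x) := by
    rw [← e1]; exact e2.trans e3
  have e6 : ∫ x in Aᶜ, er (V x) ≤ (∫ x, er (V x)) / 2 := by
    have : m * (2 * ∫ x in Aᶜ, er (V x)) ≤ m * ∫ x, er (V x) := by linarith
    have := le_of_mul_le_mul_left this hm
    linarith
  linarith

private theorem en2_vol {k : ℕ} {V : E → ℝ≥0∞} (h : GV k V) :
    ∫ x in {x | V x ≤ ENNReal.ofReal (2 * mn V)}, er (V x) ≤
      4 ^ k * (volume {x | V x ≤ ENNReal.ofReal (mn V / 2)}).toReal := by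
  set m := mn V with hmd
  set A := {x | V x ≤ ENNReal.ofReal (2 * m)} with hA
  have hAm : MeasurableSet A := h.cv.measSet _
  have hAf : volume A ≠ ∞ := h.vol_fin _ ENNReal.ofReal_ne_top
  have hBf : volume {x | V x ≤ ENNReal.ofReal (m / 2)} ≠ ∞ := h.vol_fin _ ENNReal.ofReal_ne_top
  have e1 : ∫ x in A, er (V x) ≤ ∫ _ in A, (1 : ℝ) :=
    setIntegral_mono_on h.int.integrableOn (integrableOn_const hAf) hAm
      (fun x _ => er_le_one _)
  have e2 : ∫ _ in A, (1 : ℝ) = (volume A).toReal := by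
    simp [Measure.real]
  have e3 := h.cv.vol (ENNReal.ofReal (m / 2)) (t := 4) (by norm_num)
  have e4 : ENNReal.ofReal 4 * ENNReal.ofReal (m / 2) = ENNReal.ofReal (2 * m) := by
    rw [← ENNReal.ofReal_mul (by norm_num)]; congr 1; ring
  rw [e4] at e3
  have e5 : (volume A).toReal ≤
      (4 : ℝ) ^ Module.finrank ℝ E * (volume {x | V x ≤ ENNReal.ofReal (m / 2)}).toReal := by
    have := ENNReal.toReal_mono (ENNReal.mul_ne_top ENNReal.ofReal_ne_top hBf) e3
    rw [ENNReal.toReal_mul, ENNReal.toReal_ofReal (by positivity)] at this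
    exact this
  have e6 : (4 : ℝ) ^ Module.finrank ℝ E ≤ 4 ^ k := pow_le_pow_right₀ (by norm_num) h.dim
  have e7 : (0 : ℝ) ≤ (volume {x | V x ≤ ENNReal.ofReal (m / 2)}).toReal := ENNReal.toReal_nonneg
  have e8 := mul_le_mul_of_nonneg_right e6 e7
  linarith

private theorem en2_low {k : ℕ} {V : E → ℝ≥0∞} (h : GV k V) (hm : 0 < mn V) :
    (mn V / 2) ^ 2 * Real.exp (-(mn V / 2)) *
      (volume {x | V x ≤ ENNReal.ofReal (mn V / 2)}).toReal ≤
      ∫ x, ((V x).toReal - mn V) ^ 2 * er (V x) := by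
  set m := mn V with hmd
  set B := {x | V x ≤ ENNReal.ofReal (m / 2)} with hB
  have hBm : MeasurableSet B := h.cv.measSet _
  have hBf : volume B ≠ ∞ := h.vol_fin _ ENNReal.ofReal_ne_top
  have hi := (en2_exp h m).1
  have e1 : ∫ _ in B, (m / 2) ^ 2 * Real.exp (-(m / 2)) ≤
      ∫ x in B, ((V x).toReal - m) ^ 2 * er (V x) := by
    refine setIntegral_mono_on (integrableOn_const hBf) hi.integrableOn hBm ?_
    intro x hx
    have hx' : V x ≤ ENNReal.ofReal (m / 2) := hx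
    have hxt : V x ≠ ∞ := ne_top_of_le_ne_top ENNReal.ofReal_ne_top hx'
    have hv : (V x).toReal ≤ m / 2 := by
      have := ENNReal.toReal_mono ENNReal.ofReal_ne_top hx'
      rwa [ENNReal.toReal_ofReal (by positivity)] at this
    have h1 : (m / 2) ^ 2 ≤ ((V x).toReal - m) ^ 2 := by nlinarith
    have h2 : Real.exp (-(m / 2)) ≤ er (V x) := by
      rw [er, if_neg hxt]
      exact Real.exp_le_exp.2 (by linarith)
    exact mul_le_mul h1 h2 (Real.exp_pos _).le (sq_nonneg _)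
  have e2 : ∫ x in B, ((V x).toReal - m) ^ 2 * er (V x) ≤
      ∫ x, ((V x).toReal - m) ^ 2 * er (V x) :=
    setIntegral_le_integral hi (Filter.Eventually.of_forall fun x =>
      mul_nonneg (sq_nonneg _) (er_nonneg _))
  have e3 : ∫ _ in B, (m / 2) ^ 2 * Real.exp (-(m / 2)) =
      (m / 2) ^ 2 * Real.exp (-(m / 2)) * (volume B).toReal := by
    rw [setIntegral_const, smul_eq_mul, Measure.real, mul_comm]
  linarith

end

theorem en2 (k : ℕ) : ∃ C : ℝ, 0 < C ∧ ∀ (E : Type) [NormedAddCommGroup E] [NormedSpace ℝ E]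
      [FiniteDimensional ℝ E] [MeasureSpace E] [BorelSpace E]
      [Measure.IsAddHaarMeasure (volume : Measure E)] (V : E → ℝ≥0∞), GV k V →
      ∫ x, (V x).toReal ^ 2 * er (V x) ≤ C * ∫ x, ((V x).toReal - mn V) ^ 2 * er (V x) := by
  refine ⟨1 + 8 * 4 ^ k * Real.exp (MK k / 2), by positivity, ?_⟩
  intro E _ _ _ _ _ _ V h
  set m := mn V with hmd
  have hm0 : 0 ≤ m := h.mn_nonneg
  have e1 : ∫ x, (V x).toReal * er (V x) = m * ∫ x, er (V x) := by
    rw [hmd, mn, div_mul_cancel₀ _ h.pos.ne']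
  have e2 := (en2_exp h m).2
  rw [e1] at e2
  set S := ∫ x, ((V x).toReal - m) ^ 2 * er (V x) with hS
  set I2 := ∫ x, (V x).toReal ^ 2 * er (V x) with hI2
  set Z := ∫ x, er (V x) with hZ
  have hS0 : 0 ≤ S := integral_nonneg fun x => mul_nonneg (sq_nonneg _) (er_nonneg _)
  have e3 : I2 = S + m ^ 2 * Z := by rw [e2]; ring
  have e4 : m ^ 2 * Z ≤ 8 * 4 ^ k * Real.exp (MK k / 2) * S := by
    rcases hm0.eq_or_lt with hm | hm
    · rw [← hm]
      have : 0 ≤ 8 * 4 ^ k * Real.exp (MK k / 2) * S := by positivity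
      simpa using this
    · have h1 := en2_half h hm
      have h2 := en2_vol h
      have h3 := en2_low h hm
      have h4 : m ≤ MK k := h.mn_le
      rw [← hmd, ← hZ] at h1
      rw [← hmd] at h2 h3
      rw [← hS] at h3
      set vB := (volume {x | V x ≤ ENNReal.ofReal (m / 2)}).toReal with hvB
      have h5 : Z ≤ 2 * 4 ^ k * vB := by linarith
      have h6 : Real.exp (MK k / 2) * Real.exp (-(m / 2)) ≥ 1 := by
        rw [← Real.exp_add]
        exact Real.one_le_exp (by linarith)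
      have hv0 : 0 ≤ vB := ENNReal.toReal_nonneg
      have h7 : m ^ 2 * Z ≤ m ^ 2 * (2 * 4 ^ k * vB) :=
        mul_le_mul_of_nonneg_left h5 (sq_nonneg _)
      have h8 : m ^ 2 * (2 * 4 ^ k * vB) * 1 ≤
          m ^ 2 * (2 * 4 ^ k * vB) * (Real.exp (MK k / 2) * Real.exp (-(m / 2))) :=
        mul_le_mul_of_nonneg_left h6 (by positivity)
      have h9 : 8 * 4 ^ k * Real.exp (MK k / 2) *
          ((m / 2) ^ 2 * Real.exp (-(m / 2)) * vB) ≤ 8 * 4 ^ k * Real.exp (MK k / 2) * S :=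
        mul_le_mul_of_nonneg_left h3 (by positivity)
      calc m ^ 2 * Z ≤ m ^ 2 * (2 * 4 ^ k * vB) := h7
        _ ≤ m ^ 2 * (2 * 4 ^ k * vB) * (Real.exp (MK k / 2) * Real.exp (-(m / 2))) := by
            linarith
        _ = 8 * 4 ^ k * Real.exp (MK k / 2) * ((m / 2) ^ 2 * Real.exp (-(m / 2)) * vB) := by
            ring
        _ ≤ _ := h9
  rw [e3]
  linarith

end Pool.Agent.MO
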