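import Pool.Agent.MO.Beta

/-!
# MO-Ker: the kernels of the one-factor family

`θ = 1 + iτ`, `Z = ∫ er V > 0`, `‖ec θ v‖ = er v`, so everything is integrable. `ZC_near`:
`‖ZC V τ - Z‖ ≤ ∫ ‖ec θ V - er V‖ ≤ |τ| ∫ V er V ≤ |τ| MK k Z ≤ Z/2` (`ec_sub`, `GV.mn_le`).
`fk_bound` (`t = 1 + ε`, `n = finrank`): `fk - gb = (gk - gb) + z (dk t gk - gk)/ε`.
`gk - gb = (ec Z - er ZC)/(ZC Z)`, norm at most `(‖ec - er‖ Z + er ‖Z - ZC‖)/(Z^2/2) ≤ 2 |τ| (V + MK k) er / Z`.
`dk t gk x - gk x = (t^(-n) (ec V(t⁻¹x) - ec V x) + (t^(-n) - 1) ec V x)/ZC`, norm at most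
`(2/Z)((1+|τ|)(er V(t⁻¹x) - er V x) + (1 - t^(-n)) er V x)` (`ec_diff` with `CV.ray`), `1 - t^(-n) ≤ n ε ≤ k ε`
(`one_add_mul_le_pow`-type), `1 + |τ| ≤ 2` (`r ≤ 1/(2 MK k) ≤ 1/4`). Sum: at most `r * s0 k V ε x`.
`fk_even`: `CV.even`. `fk_sub_int`: `∫ gk = 1`, `∫ dk t gk = 1` (substitution), `∫ gb = 1`.
-/

set_option autoImplicit false

open MeasureTheory Set
open scoped ENNReal NNReal

namespace Pool.Agent.MO

variable {E : Type} [NormedAddCommGroup E] [NormedSpace ℝ E] [FiniteDimensional ℝ E]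
  [MeasureSpace E] [BorelSpace E] [Measure.IsAddHaarMeasure (volume : Measure E)]

private theorem ec_integrable {k : ℕ} {V : E → ℝ≥0∞} (h : GV k V) (τ : ℝ) :
    Integrable (fun x => ec (1 + τ * Complex.I) (V x)) := by
  refine h.int.mono' ?_ ?_
  · exact ((ec_meas _).comp h.cv.meas).aestronglyMeasurable
  · exact Filter.Eventually.of_forall fun x => (ec_norm τ (V x)).le

private theorem er_integrable_c {k : ℕ} {V : E → ℝ≥0∞} (h : GV k V) :
    Integrable (fun x => (er (V x) : ℂ)) := h.int.ofReal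

private theorem mom_one {k : ℕ} {V : E → ℝ≥0∞} (h : GV k V) :
    Integrable (fun x => (V x).toReal * er (V x)) ∧
      ∫ x, (V x).toReal * er (V x) ≤ MK k * ∫ x, er (V x) := by
  have h1 := h.mom 1
  simp only [pow_one] at h1
  refine ⟨h1.1, h1.2.trans (le_of_eq ?_)⟩
  simp [MK]

private theorem ZC_sub {k : ℕ} {V : E → ℝ≥0∞} (h : GV k V) (τ : ℝ) :
    ‖ZC V τ - ((∫ x, er (V x) : ℝ) : ℂ)‖ ≤ |τ| * (MK k * ∫ x, er (V x)) := by
  have hI := ec_integrable h τ
  have hR := er_integrable_c h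
  have e1 : ((∫ x, er (V x) : ℝ) : ℂ) = ∫ x, (er (V x) : ℂ) := integral_ofReal.symm
  have e2 : ZC V τ - ((∫ x, er (V x) : ℝ) : ℂ) =
      ∫ x, (ec (1 + τ * Complex.I) (V x) - (er (V x) : ℂ)) := by
    rw [e1, ZC, integral_sub hI hR]
  rw [e2]
  have hm := mom_one h
  calc ‖∫ x, (ec (1 + τ * Complex.I) (V x) - (er (V x) : ℂ))‖
      ≤ ∫ x, ‖ec (1 + τ * Complex.I) (V x) - (er (V x) : ℂ)‖ := norm_integral_le_integral_norm _
    _ ≤ ∫ x, |τ| * ((V x).toReal * er (V x)) := by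
        refine integral_mono (hI.sub hR).norm (hm.1.const_mul _) ?_
        intro x
        exact ec_sub τ (V x)
    _ = |τ| * ∫ x, (V x).toReal * er (V x) := integral_const_mul _ _
    _ ≤ |τ| * (MK k * ∫ x, er (V x)) := mul_le_mul_of_nonneg_left hm.2 (abs_nonneg _)

private theorem MK_ge (k : ℕ) : 2 ≤ MK k := by
  unfold MK
  have : (1 : ℝ) ≤ 2 ^ k := one_le_pow₀ (by norm_num)
  linarith

theorem ZC_near {k : ℕ} {V : E → ℝ≥0∞} (h : GV k V) {τ : ℝ} (hτ : |τ| ≤ 1 / (2 * MK k)) :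
    (∫ x, er (V x)) / 2 ≤ ‖ZC V τ‖ := by
  have h1 := ZC_sub h τ
  have hM := MK_ge k
  have hZ := h.pos
  set Z := ∫ x, er (V x) with hZdef
  have h2 : |τ| * (MK k * Z) ≤ Z / 2 := by
    calc |τ| * (MK k * Z) ≤ 1 / (2 * MK k) * (MK k * Z) := by
          refine mul_le_mul_of_nonneg_right hτ ?_
          positivity
      _ = Z / 2 := by
          field_simp
  have h3 : ‖((Z : ℝ) : ℂ)‖ ≤ ‖ZC V τ‖ + ‖ZC V τ - (Z : ℂ)‖ := by
    have : ((Z : ℝ) : ℂ) = ZC V τ - (ZC V τ - (Z : ℂ)) := by ring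
    calc ‖((Z : ℝ) : ℂ)‖ = ‖ZC V τ - (ZC V τ - (Z : ℂ))‖ := by rw [← this]
      _ ≤ _ := norm_sub_le _ _
  rw [Complex.norm_real, Real.norm_of_nonneg hZ.le] at h3
  linarith

theorem ZC_ne {k : ℕ} {V : E → ℝ≥0∞} (h : GV k V) {τ : ℝ} (hτ : |τ| ≤ 1 / (2 * MK k)) :
    ZC V τ ≠ 0 := by
  intro h0
  have h1 := ZC_near h hτ
  rw [h0, norm_zero] at h1
  linarith [h.pos]

theorem gk_int {k : ℕ} {V : E → ℝ≥0∞} (h : GV k V) (τ : ℝ) : Integrable (gk V τ) := by
  have h1 : Integrable (fun x => ec (1 + τ * Complex.I) (V x) / ZC V τ) :=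
    (ec_integrable h τ).div_const _
  exact h1

theorem dk_int {G : E → ℂ} (hG : Integrable G) {t : ℝ} (ht : 0 < t) : Integrable (dk t G) := by
  have h1 : Integrable (fun x => G (t⁻¹ • x)) := hG.comp_smul (inv_ne_zero ht.ne')
  have h2 : Integrable (fun x => (((t ^ Module.finrank ℝ E)⁻¹ : ℝ) : ℂ) * G (t⁻¹ • x)) :=
    h1.const_mul _
  exact h2

theorem dk_integral (G : E → ℂ) {t : ℝ} (ht : 0 < t) : ∫ x, dk t G x = ∫ x, G x := by
  have h1 : ∫ x, G (t⁻¹ • x) = (t ^ Module.finrank ℝ E) • ∫ x, G x :=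
    Measure.integral_comp_inv_smul_of_nonneg _ G ht.le
  have h2 : ∫ x, dk t G x = (((t ^ Module.finrank ℝ E)⁻¹ : ℝ) : ℂ) * ∫ x, G (t⁻¹ • x) := by
    simp only [dk]
    rw [integral_const_mul]
  have h3 : (t ^ Module.finrank ℝ E : ℝ) ≠ 0 := (pow_pos ht _).ne'
  rw [h2, h1, Complex.real_smul, ← mul_assoc, ← Complex.ofReal_mul, inv_mul_cancel₀ h3,
    Complex.ofReal_one, one_mul]

private theorem gk_meas {k : ℕ} {V : E → ℝ≥0∞} (h : GV k V) (τ : ℝ) : Measurable (gk V τ) := by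
  have : Measurable (fun x => ec (1 + τ * Complex.I) (V x) / ZC V τ) :=
    ((ec_meas _).comp h.cv.meas).div_const _
  exact this

private theorem dk_meas {G : E → ℂ} (hG : Measurable G) (t : ℝ) : Measurable (dk t G) := by
  have : Measurable (fun x => (((t ^ Module.finrank ℝ E)⁻¹ : ℝ) : ℂ) * G (t⁻¹ • x)) :=
    (hG.comp (measurable_const_smul (t⁻¹))).const_mul _
  exact this

theorem fk_meas {k : ℕ} {V : E → ℝ≥0∞} (h : GV k V) (τ ε : ℝ) (z : ℂ) :
    Measurable (fk V τ ε z) := by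
  have h1 := gk_meas h τ
  have h2 := dk_meas h1 (1 + ε)
  have : Measurable (fun x => gk V τ x + z * ((dk (1 + ε) (gk V τ) x - gk V τ x) / ε)) :=
    h1.add (((h2.sub h1).div_const _).const_mul _)
  exact this

private theorem gk_even {k : ℕ} {V : E → ℝ≥0∞} (h : GV k V) (τ : ℝ) (x : E) :
    gk V τ (-x) = gk V τ x := by
  simp only [gk, h.cv.even]

theorem fk_even {k : ℕ} {V : E → ℝ≥0∞} (h : GV k V) (τ ε : ℝ) (z : ℂ) (x : E) :
    fk V τ ε z (-x) = fk V τ ε z x := by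
  simp only [fk, dk, smul_neg, gk_even h]

private theorem gk_integral {k : ℕ} {V : E → ℝ≥0∞} (h : GV k V) {τ : ℝ}
    (hτ : |τ| ≤ 1 / (2 * MK k)) : ∫ x, gk V τ x = 1 := by
  have h0 := ZC_ne h hτ
  simp only [gk]
  rw [integral_div]
  exact div_self h0

private theorem gb_int {k : ℕ} {V : E → ℝ≥0∞} (h : GV k V) :
    Integrable (fun x => ((gb V x : ℝ) : ℂ)) := by
  have h1 : Integrable (fun x => gb V x) := by
    have : Integrable (fun x => er (V x) / ∫ y, er (V y)) := h.int.div_const _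
    exact this
  exact h1.ofReal

private theorem gb_integral {k : ℕ} {V : E → ℝ≥0∞} (h : GV k V) :
    ∫ x, ((gb V x : ℝ) : ℂ) = 1 := by
  have h0 := h.pos.ne'
  have h1 : ∫ x, gb V x = 1 := by
    simp only [gb]
    rw [integral_div]
    exact div_self h0
  have h2 : ∫ x, ((gb V x : ℝ) : ℂ) = ((∫ x, gb V x : ℝ) : ℂ) := integral_ofReal
  rw [h2, h1, Complex.ofReal_one]

theorem fk_sub_int {k : ℕ} {V : E → ℝ≥0∞} (h : GV k V) {τ ε : ℝ}
    (hτ : |τ| ≤ 1 / (2 * MK k)) (hε : 0 < ε) (z : ℂ) :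
    ∫ x, (fk V τ ε z x - (gb V x : ℂ)) = 0 := by
  have hg := gk_int h τ
  have hd : Integrable (dk (1 + ε) (gk V τ)) := dk_int hg (by linarith)
  have hb := gb_int h
  have e1 : ∫ x, z * ((dk (1 + ε) (gk V τ) x - gk V τ x) / (ε : ℂ)) = 0 := by
    rw [integral_const_mul, integral_div, integral_sub hd hg,
      dk_integral _ (by linarith : (0 : ℝ) < 1 + ε), sub_self, zero_div, mul_zero]
  have hi : Integrable (fun x => z * ((dk (1 + ε) (gk V τ) x - gk V τ x) / (ε : ℂ))) :=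
    ((hd.sub hg).div_const _).const_mul _
  have hf : Integrable (fun x => gk V τ x + z * ((dk (1 + ε) (gk V τ) x - gk V τ x) / (ε : ℂ))) :=
    hg.add hi
  have e2 : ∫ x, (fk V τ ε z x - (gb V x : ℂ)) =
      (∫ x, (gk V τ x + z * ((dk (1 + ε) (gk V τ) x - gk V τ x) / (ε : ℂ)))) -
        ∫ x, ((gb V x : ℝ) : ℂ) := by
    rw [← integral_sub hf hb]
    rfl
  rw [e2, integral_add hg hi, e1, gk_integral h hτ, gb_integral h]
  ring

private theorem inv_pow_ge {ε : ℝ} (hε : 0 < ε) (hε1 : ε ≤ 1) (n : ℕ) :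
    1 - n * ε ≤ ((1 + ε) ^ n)⁻¹ := by
  have h1 : (1 : ℝ) + n * (-ε) ≤ (1 + -ε) ^ n := one_add_mul_le_pow (by linarith) n
  have h2 : (1 + -ε) ≤ (1 + ε)⁻¹ := by
    rw [← one_div, le_div_iff₀ (by linarith)]
    nlinarith [mul_pos hε hε]
  have h3 : (1 + -ε) ^ n ≤ ((1 + ε)⁻¹) ^ n := pow_le_pow_left₀ (by linarith) h2 n
  rw [inv_pow] at h3
  linarith

theorem fk_bound {k : ℕ} {V : E → ℝ≥0∞} (h : GV k V) {r τ ε : ℝ}
    (hr : r ≤ 1 / (2 * MK k)) (hτ : |τ| ≤ r) (hε : 0 < ε) (hε1 : ε ≤ 1) {z : ℂ}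
    (hz : ‖z‖ ≤ r) (x : E) : ‖fk V τ ε z x - (gb V x : ℂ)‖ ≤ r * s0 k V ε x := by
  have hZ := h.pos
  have hM := MK_ge k
  have hτ' : |τ| ≤ 1 / (2 * MK k) := hτ.trans hr
  have hC := ZC_near h hτ'
  have hC0 := ZC_ne h hτ'
  have hS := ZC_sub h τ
  have hr0 : 0 ≤ r := (abs_nonneg _).trans hτ
  have hr4 : r ≤ 1 / 4 := by
    refine hr.trans ?_
    exact one_div_le_one_div_of_le (by norm_num) (by linarith)
  set Z := ∫ x, er (V x) with hZdef
  set C := ZC V τ with hCdef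
  have hu : V ((1 + ε)⁻¹ • x) ≤ V x :=
    h.cv.ray x (inv_nonneg.2 (by linarith)) (inv_le_one_of_one_le₀ (by linarith))
  set u := V ((1 + ε)⁻¹ • x) with hudef
  set v := V x with hvdef
  set θ : ℂ := 1 + τ * Complex.I with hθ
  have hd := ec_diff τ hu
  have hs := ec_sub τ v
  have hn := ec_norm τ v
  rw [← hθ] at hd hs hn
  have her0 := er_nonneg v
  have hCn : 0 < ‖C‖ := norm_pos_iff.2 hC0
  have hv0 : 0 ≤ v.toReal := ENNReal.toReal_nonneg
  -- first part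
  have hA : ‖ec θ v / C - ((er v / Z : ℝ) : ℂ)‖ ≤ r * (2 * (v.toReal + MK k) * er v / Z) := by
    have e : ec θ v / C - ((er v / Z : ℝ) : ℂ) =
        ((ec θ v - er v) * Z - er v * (C - Z)) / (C * Z) := by
      have hZ' : (Z : ℂ) ≠ 0 := by exact_mod_cast hZ.ne'
      push_cast
      field_simp
      ring
    rw [e, norm_div, norm_mul, Complex.norm_real, Real.norm_of_nonneg hZ.le]
    have hnum : ‖(ec θ v - er v) * Z - er v * (C - Z)‖ ≤
        r * ((v.toReal + MK k) * er v * Z) := by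
      calc ‖(ec θ v - er v) * Z - er v * (C - Z)‖
          ≤ ‖(ec θ v - er v) * Z‖ + ‖(er v : ℂ) * (C - Z)‖ := norm_sub_le _ _
        _ = ‖ec θ v - er v‖ * Z + er v * ‖C - Z‖ := by
            rw [norm_mul, norm_mul, Complex.norm_real, Complex.norm_real,
              Real.norm_of_nonneg hZ.le, Real.norm_of_nonneg her0]
        _ ≤ (|τ| * (v.toReal * er v)) * Z + er v * (|τ| * (MK k * Z)) := by
            gcongr
        _ = |τ| * ((v.toReal + MK k) * er v * Z) := by ring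
        _ ≤ r * ((v.toReal + MK k) * er v * Z) := by
            refine mul_le_mul_of_nonneg_right hτ ?_
            have : 0 ≤ v.toReal + MK k := by linarith
            positivity
    rw [div_le_iff₀ (by positivity)]
    calc _ ≤ r * ((v.toReal + MK k) * er v * Z) := hnum
      _ = r * (2 * (v.toReal + MK k) * er v / Z) * (Z / 2 * Z) := by
          field_simp
      _ ≤ r * (2 * (v.toReal + MK k) * er v / Z) * (‖C‖ * Z) := by
          have : 0 ≤ v.toReal + MK k := by linarith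
          gcongr
  -- second part
  have hB : ‖dk (1 + ε) (gk V τ) x - gk V τ x‖ ≤
      (4 * (er u - er v) + 2 * (k * ε) * er v) / Z := by
    set q : ℝ := ((1 + ε) ^ Module.finrank ℝ E)⁻¹ with hq
    have hq0 : 0 ≤ q := by positivity
    have hq1 : q ≤ 1 := inv_le_one_of_one_le₀ (one_le_pow₀ (by linarith))
    have hq2 : 1 - q ≤ k * ε := by
      have h1 := inv_pow_ge hε hε1 (Module.finrank ℝ E)
      have h2 : (Module.finrank ℝ E : ℝ) ≤ k := by exact_mod_cast h.dim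
      have h3 : (Module.finrank ℝ E : ℝ) * ε ≤ k * ε := mul_le_mul_of_nonneg_right h2 hε.le
      rw [← hq] at h1
      linarith
    have e : dk (1 + ε) (gk V τ) x - gk V τ x =
        ((q : ℂ) * (ec θ u - ec θ v) - ((1 - q : ℝ) : ℂ) * ec θ v) / C := by
      simp only [dk, gk, ← hudef, ← hvdef, ← hCdef, ← hθ, ← hq]
      push_cast
      field_simp
      ring
    have hdd : 0 ≤ er u - er v := sub_nonneg.2 (er_anti hu)
    have hnum : ‖(q : ℂ) * (ec θ u - ec θ v) - ((1 - q : ℝ) : ℂ) * ec θ v‖ ≤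
        2 * (er u - er v) + (k * ε) * er v := by
      calc ‖(q : ℂ) * (ec θ u - ec θ v) - ((1 - q : ℝ) : ℂ) * ec θ v‖
          ≤ ‖(q : ℂ) * (ec θ u - ec θ v)‖ + ‖((1 - q : ℝ) : ℂ) * ec θ v‖ := norm_sub_le _ _
        _ = q * ‖ec θ u - ec θ v‖ + (1 - q) * er v := by
            rw [norm_mul, norm_mul, Complex.norm_real, Complex.norm_real,
              Real.norm_of_nonneg hq0, Real.norm_of_nonneg (by linarith), hn]
        _ ≤ 1 * ((1 + |τ|) * (er u - er v)) + (k * ε) * er v := by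
            gcongr
        _ ≤ 2 * (er u - er v) + (k * ε) * er v := by
            have : (1 + |τ|) ≤ 2 := by linarith
            have := mul_le_mul_of_nonneg_right this hdd
            linarith
    rw [e, norm_div, div_le_iff₀ hCn]
    calc _ ≤ 2 * (er u - er v) + (k * ε) * er v := hnum
      _ = (4 * (er u - er v) + 2 * (k * ε) * er v) / Z * (Z / 2) := by
          field_simp
          ring
      _ ≤ (4 * (er u - er v) + 2 * (k * ε) * er v) / Z * ‖C‖ := by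
          gcongr
  have hs0 : r * s0 k V ε x = r * (2 * (v.toReal + MK k) * er v / Z) +
      r * ((4 * (er u - er v) + 2 * (k * ε) * er v) / Z / ε) := by
    simp only [s0, ← hudef, ← hvdef, ← hZdef]
    field_simp
    ring
  have e : fk V τ ε z x - (gb V x : ℂ) = (ec θ v / C - ((er v / Z : ℝ) : ℂ)) +
      z * ((dk (1 + ε) (gk V τ) x - gk V τ x) / ε) := by
    simp only [fk, gb, ← hvdef, ← hZdef]
    have : gk V τ x = ec θ v / C := rfl
    rw [this]
    ring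
  rw [e, hs0]
  refine (norm_add_le _ _).trans (add_le_add hA ?_)
  rw [norm_mul, norm_div, Complex.norm_real, Real.norm_of_nonneg hε.le]
  gcongr

end Pool.Agent.MO
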