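import Pool.Agent.MO.En1
import Pool.Agent.MO.En2
import Pool.Agent.MO.Ker

/-!
# MO-En3: decay of the complex partition function

`Z = ∫ er V`. `‖ZC V τ‖^2 = ∫∫ Re(ec θ (V x) conj(ec θ (V y))) = ∫∫ cos(τ(V x - V y)) er (V x) er (V y)`.
`cos t ≤ 1 - t^2/2 + t^4/2` for all real `t` (`|t| ≤ 1`: `Real.cos_bound`; `|t| > 1`: the right side is `≥ 1`).
`∫∫ (V x - V y)^2 er er = 2 Z^2 vr V`, `(V x - V y)^4 ≤ 8 (V x^4 + V y^4)`, so
`∫∫ (V x - V y)^4 er er ≤ 16 Z ∫ V^4 er ≤ 16 Z C1 C2 (Z vr V)` (`en1`, `en2`). So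
`‖ZC‖^2 ≤ Z^2 (1 - τ^2 vr + 8 C1 C2 τ^4 vr) ≤ Z^2 (1 - τ^2 vr/2) ≤ Z^2 exp(-τ^2 vr/2)` if `8 C1 C2 τ^2 ≤ 1/2`; square root.
-/

set_option autoImplicit false

open MeasureTheory Set
open scoped ENNReal NNReal

namespace Pool.Agent.MO

variable {E : Type} [NormedAddCommGroup E] [NormedSpace ℝ E] [FiniteDimensional ℝ E]
  [MeasureSpace E] [BorelSpace E] [Measure.IsAddHaarMeasure (volume : Measure E)]

theorem vr_nonneg {V : E → ℝ≥0∞} (h : 0 < ∫ x, er (V x)) : 0 ≤ vr V := by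
  unfold vr
  exact div_nonneg (integral_nonneg fun x => mul_nonneg (sq_nonneg _) (er_nonneg _)) h.le

private theorem exp_bd (u : ℝ) :
    ‖Complex.exp (Complex.I * (u : ℂ)) - (1 + Complex.I * u - (u : ℂ) ^ 2 / 2)‖ ≤ 4 * |u| ^ 3 := by
  have hn : ‖Complex.I * (u : ℂ)‖ = |u| := by
    rw [norm_mul, Complex.norm_I, one_mul, Complex.norm_real, Real.norm_eq_abs]
  have hu0 := abs_nonneg u
  rcases le_or_gt |u| 1 with hu | hu
  · have h1 := Complex.exp_bound (x := Complex.I * (u : ℂ)) (by rw [hn]; exact hu)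
      (n := 3) (by norm_num)
    have h2 : ∑ m ∈ Finset.range 3, (Complex.I * (u : ℂ)) ^ m / (m.factorial : ℂ) =
        1 + Complex.I * u - (u : ℂ) ^ 2 / 2 := by
      rw [Finset.sum_range_succ, Finset.sum_range_succ, Finset.sum_range_one]
      simp only [pow_zero, pow_one, Nat.factorial]
      rw [mul_pow, Complex.I_sq]
      push_cast
      ring
    rw [h2, hn] at h1
    refine h1.trans ?_
    have h3 : ((Nat.succ 3 : ℕ) : ℝ) * (((Nat.factorial 3 : ℕ) : ℝ) * ((3 : ℕ) : ℝ))⁻¹ ≤ 4 := by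
      norm_num [Nat.factorial]
    calc |u| ^ 3 * (((Nat.succ 3 : ℕ) : ℝ) * (((Nat.factorial 3 : ℕ) : ℝ) * ((3 : ℕ) : ℝ))⁻¹) ≤
        |u| ^ 3 * 4 := mul_le_mul_of_nonneg_left h3 (by positivity)
      _ = 4 * |u| ^ 3 := mul_comm _ _
  · have h1 : ‖Complex.exp (Complex.I * (u : ℂ))‖ = 1 := by
      rw [mul_comm]
      exact Complex.norm_exp_ofReal_mul_I u
    have h2 : ‖(1 + Complex.I * u - (u : ℂ) ^ 2 / 2)‖ ≤ 1 + |u| + |u| ^ 2 / 2 := by
      refine (norm_sub_le _ _).trans ?_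
      have h3 : ‖(1 + Complex.I * (u : ℂ))‖ ≤ 1 + |u| := by
        refine (norm_add_le _ _).trans ?_
        rw [norm_one, hn]
      have h4 : ‖(u : ℂ) ^ 2 / 2‖ = |u| ^ 2 / 2 := by
        rw [norm_div, norm_pow, Complex.norm_real, Real.norm_eq_abs]
        norm_num
      linarith
    refine (norm_sub_le _ _).trans ?_
    have h5 : |u| ≤ |u| ^ 3 := by nlinarith [mul_pos (by linarith : 0 < |u|) (by linarith : 0 < |u| - 1)]
    have h6 : |u| ^ 2 ≤ |u| ^ 3 := by nlinarith [sq_nonneg |u|]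
    linarith

private theorem ec_eq (τ m : ℝ) (v : ℝ≥0∞) :
    Complex.exp (Complex.I * ((τ * m : ℝ) : ℂ)) * ec (1 + τ * Complex.I) v =
      (er v : ℂ) * Complex.exp (Complex.I * ((-(τ * (v.toReal - m)) : ℝ) : ℂ)) := by
  unfold ec er
  split_ifs with h
  · simp
  · rw [Complex.ofReal_exp, ← Complex.exp_add, ← Complex.exp_add]
    congr 1
    push_cast
    ring

private theorem cube_le (τ t : ℝ) : |τ * t| ^ 3 ≤ |τ| ^ 3 * ((t ^ 2 + t ^ 4) / 2) := by
  rw [abs_mul, mul_pow]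
  apply mul_le_mul_of_nonneg_left _ (by positivity)
  have h1 : |t| ^ 2 = t ^ 2 := sq_abs t
  have h2 : |t| ^ 4 = t ^ 4 := by
    have : |t| ^ 4 = (|t| ^ 2) ^ 2 := by ring
    rw [this, h1]; ring
  have h3 : 0 ≤ |t| ^ 2 * (|t| - 1) ^ 2 := by positivity
  nlinarith

/-- central moments -/
private theorem central {k : ℕ} {V : E → ℝ≥0∞} (h : GV k V) :
    Integrable (fun x => ((V x).toReal - mn V) * er (V x)) ∧
    Integrable (fun x => ((V x).toReal - mn V) ^ 2 * er (V x)) ∧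
    Integrable (fun x => ((V x).toReal - mn V) ^ 4 * er (V x)) ∧
    ∫ x, ((V x).toReal - mn V) * er (V x) = 0 ∧
    ∫ x, ((V x).toReal - mn V) ^ 2 * er (V x) =
      (∫ x, (V x).toReal ^ 2 * er (V x)) - mn V ^ 2 * ∫ x, er (V x) ∧
    ∫ x, ((V x).toReal - mn V) ^ 4 * er (V x) ≤
      8 * (∫ x, (V x).toReal ^ 4 * er (V x)) + 8 * mn V ^ 4 * ∫ x, er (V x) := by
  have i0 := h.int
  have i1 := (h.mom 1).1
  have i2 := (h.mom 2).1
  have i3 := (h.mom 3).1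
  have i4 := (h.mom 4).1
  simp only [pow_one] at i1
  have hZ := h.pos
  set m := mn V with hm
  have hmZ : ∫ x, (V x).toReal * er (V x) = m * ∫ x, er (V x) := by
    rw [hm, mn, div_mul_cancel₀ _ hZ.ne']
  have e1 : (fun x => ((V x).toReal - m) * er (V x)) =
      fun x => (V x).toReal * er (V x) - m * er (V x) := by
    funext x; ring
  have e2 : (fun x => ((V x).toReal - m) ^ 2 * er (V x)) =
      fun x => ((V x).toReal ^ 2 * er (V x) - 2 * m * ((V x).toReal * er (V x))) +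
        m ^ 2 * er (V x) := by
    funext x; ring
  have e4 : (fun x => ((V x).toReal - m) ^ 4 * er (V x)) =
      fun x => (((V x).toReal ^ 4 * er (V x) - 4 * m * ((V x).toReal ^ 3 * er (V x))) +
        6 * m ^ 2 * ((V x).toReal ^ 2 * er (V x))) + (m ^ 4 * er (V x) -
        4 * m ^ 3 * ((V x).toReal * er (V x))) := by
    funext x; ring
  have j1 : Integrable (fun x => ((V x).toReal - m) * er (V x)) := by
    rw [e1]
    exact i1.sub (i0.const_mul m)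
  have j2 : Integrable (fun x => ((V x).toReal - m) ^ 2 * er (V x)) := by
    rw [e2]
    exact (i2.sub (i1.const_mul (2 * m))).add (i0.const_mul (m ^ 2))
  have j4 : Integrable (fun x => ((V x).toReal - m) ^ 4 * er (V x)) := by
    rw [e4]
    exact ((i4.sub (i3.const_mul (4 * m))).add (i2.const_mul (6 * m ^ 2))).add
      ((i0.const_mul (m ^ 4)).sub (i1.const_mul (4 * m ^ 3)))
  refine ⟨j1, j2, j4, ?_, ?_, ?_⟩
  · rw [e1, integral_sub i1 (i0.const_mul m), integral_const_mul, hmZ, sub_self]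
  · have i21 : Integrable (fun x => (V x).toReal ^ 2 * er (V x) -
        2 * m * ((V x).toReal * er (V x))) := i2.sub (i1.const_mul (2 * m))
    rw [e2, integral_add i21 (i0.const_mul (m ^ 2)), integral_sub i2 (i1.const_mul (2 * m)),
      integral_const_mul, integral_const_mul, hmZ]
    ring
  · have e5 : 8 * (∫ x, (V x).toReal ^ 4 * er (V x)) + 8 * m ^ 4 * ∫ x, er (V x) =
        ∫ x, (8 * ((V x).toReal ^ 4 * er (V x)) + 8 * m ^ 4 * er (V x)) := by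
      rw [integral_add (i4.const_mul 8) (i0.const_mul (8 * m ^ 4)), integral_const_mul,
        integral_const_mul]
    rw [e5]
    apply integral_mono j4 ((i4.const_mul 8).add (i0.const_mul (8 * m ^ 4)))
    intro x
    have h1 : ((V x).toReal - m) ^ 4 ≤ 8 * (V x).toReal ^ 4 + 8 * m ^ 4 := by
      have h2 : ((V x).toReal - m) ^ 2 ≤ 2 * ((V x).toReal ^ 2 + m ^ 2) := by
        nlinarith [sq_nonneg ((V x).toReal + m)]
      have h3 : (((V x).toReal - m) ^ 2) ^ 2 ≤ (2 * ((V x).toReal ^ 2 + m ^ 2)) ^ 2 :=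
        pow_le_pow_left₀ (sq_nonneg _) h2 2
      nlinarith [sq_nonneg ((V x).toReal ^ 2 - m ^ 2)]
    have h2 := mul_le_mul_of_nonneg_right h1 (er_nonneg (V x))
    calc ((V x).toReal - m) ^ 4 * er (V x) ≤ (8 * (V x).toReal ^ 4 + 8 * m ^ 4) * er (V x) := h2
      _ = 8 * ((V x).toReal ^ 4 * er (V x)) + 8 * m ^ 4 * er (V x) := by ring

private theorem ZC_le {k : ℕ} {V : E → ℝ≥0∞} (h : GV k V) (τ : ℝ) :
    ‖ZC V τ‖ ≤ |(∫ x, er (V x)) - τ ^ 2 / 2 * ∫ x, ((V x).toReal - mn V) ^ 2 * er (V x)| +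
      2 * |τ| ^ 3 * ((∫ x, ((V x).toReal - mn V) ^ 2 * er (V x)) +
        ∫ x, ((V x).toReal - mn V) ^ 4 * er (V x)) := by
  obtain ⟨j1, j2, j4, c1, -, -⟩ := central h
  have i0 := h.int
  set m := mn V with hm
  have hE : Integrable (fun x => ec (1 + τ * Complex.I) (V x)) := by
    refine h.int.mono' ((ec_meas _).comp h.cv.meas).aestronglyMeasurable ?_
    exact Filter.Eventually.of_forall fun x => (ec_norm τ (V x)).le
  have hn : ‖ZC V τ‖ = ‖∫ x, (er (V x) : ℂ) *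
      Complex.exp (Complex.I * ((-(τ * ((V x).toReal - m)) : ℝ) : ℂ))‖ := by
    have h1 : ∫ x, (er (V x) : ℂ) *
        Complex.exp (Complex.I * ((-(τ * ((V x).toReal - m)) : ℝ) : ℂ)) =
        Complex.exp (Complex.I * ((τ * m : ℝ) : ℂ)) * ZC V τ := by
      rw [ZC, ← integral_const_mul]
      exact integral_congr_ae (Filter.Eventually.of_forall fun x => (ec_eq τ m (V x)).symm)
    rw [h1, norm_mul, mul_comm Complex.I, Complex.norm_exp_ofReal_mul_I, one_mul]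
  have hF : Integrable (fun x => (er (V x) : ℂ) *
      Complex.exp (Complex.I * ((-(τ * ((V x).toReal - m)) : ℝ) : ℂ))) := by
    have h1 := hE.const_mul (Complex.exp (Complex.I * ((τ * m : ℝ) : ℂ)))
    exact h1.congr (Filter.Eventually.of_forall fun x => ec_eq τ m (V x))
  -- the quadratic expansion
  have hG : ∀ x, (er (V x) : ℂ) * (1 + Complex.I * ((-(τ * ((V x).toReal - m)) : ℝ) : ℂ) -
      ((-(τ * ((V x).toReal - m)) : ℝ) : ℂ) ^ 2 / 2) =
      (((er (V x) : ℝ) : ℂ) - Complex.I * τ * ((((V x).toReal - m) * er (V x) : ℝ) : ℂ)) -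
        ((τ ^ 2 / 2 * (((V x).toReal - m) ^ 2 * er (V x)) : ℝ) : ℂ) := by
    intro x
    push_cast
    ring
  have k0 : Integrable (fun x => ((er (V x) : ℝ) : ℂ)) := i0.ofReal
  have k1 : Integrable (fun x => Complex.I * τ * ((((V x).toReal - m) * er (V x) : ℝ) : ℂ)) :=
    (j1.ofReal (𝕜 := ℂ)).const_mul (Complex.I * τ)
  have k2 : Integrable (fun x => ((τ ^ 2 / 2 * (((V x).toReal - m) ^ 2 * er (V x)) : ℝ) : ℂ)) :=
    (j2.const_mul (τ ^ 2 / 2)).ofReal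
  have k01 : Integrable (fun x => ((er (V x) : ℝ) : ℂ) -
      Complex.I * τ * ((((V x).toReal - m) * er (V x) : ℝ) : ℂ)) := k0.sub k1
  have hGi : Integrable (fun x => (er (V x) : ℂ) * (1 + Complex.I *
      ((-(τ * ((V x).toReal - m)) : ℝ) : ℂ) -
      ((-(τ * ((V x).toReal - m)) : ℝ) : ℂ) ^ 2 / 2)) := by
    simp_rw [hG]
    exact k01.sub k2
  have hGint : ∫ x, (er (V x) : ℂ) * (1 + Complex.I * ((-(τ * ((V x).toReal - m)) : ℝ) : ℂ) -
      ((-(τ * ((V x).toReal - m)) : ℝ) : ℂ) ^ 2 / 2) =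
      (((∫ x, er (V x)) - τ ^ 2 / 2 * ∫ x, ((V x).toReal - m) ^ 2 * er (V x) : ℝ) : ℂ) := by
    have r0 : ∫ x, ((er (V x) : ℝ) : ℂ) = ((∫ x, er (V x) : ℝ) : ℂ) := integral_ofReal
    have r1 : ∫ x, ((((V x).toReal - m) * er (V x) : ℝ) : ℂ) =
        ((∫ x, ((V x).toReal - m) * er (V x) : ℝ) : ℂ) := integral_ofReal
    have r2 : ∫ x, ((τ ^ 2 / 2 * (((V x).toReal - m) ^ 2 * er (V x)) : ℝ) : ℂ) =
        ((∫ x, τ ^ 2 / 2 * (((V x).toReal - m) ^ 2 * er (V x)) : ℝ) : ℂ) := integral_ofReal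
    simp_rw [hG]
    rw [integral_sub k01 k2, integral_sub k0 k1, integral_const_mul, r0, r1, r2, c1,
      integral_const_mul]
    push_cast
    ring
  have hdiff : ‖(∫ x, (er (V x) : ℂ) *
      Complex.exp (Complex.I * ((-(τ * ((V x).toReal - m)) : ℝ) : ℂ))) -
      ∫ x, (er (V x) : ℂ) * (1 + Complex.I * ((-(τ * ((V x).toReal - m)) : ℝ) : ℂ) -
      ((-(τ * ((V x).toReal - m)) : ℝ) : ℂ) ^ 2 / 2)‖ ≤
      2 * |τ| ^ 3 * ((∫ x, ((V x).toReal - m) ^ 2 * er (V x)) +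
        ∫ x, ((V x).toReal - m) ^ 4 * er (V x)) := by
    rw [← integral_sub hF hGi]
    refine (norm_integral_le_integral_norm _).trans ?_
    rw [← integral_add j2 j4, ← integral_const_mul]
    apply integral_mono (hF.sub hGi).norm ((j2.add j4).const_mul (2 * |τ| ^ 3))
    intro x
    have h1 := exp_bd (-(τ * ((V x).toReal - m)))
    have h2 := cube_le τ ((V x).toReal - m)
    rw [abs_neg] at h1
    have h3 := er_nonneg (V x)
    simp only [Pi.sub_apply, Pi.add_apply]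
    rw [← mul_sub, norm_mul, Complex.norm_real, Real.norm_of_nonneg h3]
    have h4 := mul_le_mul_of_nonneg_left (h1.trans (mul_le_mul_of_nonneg_left h2 (by norm_num : (0 : ℝ) ≤ 4))) h3
    refine h4.trans (le_of_eq ?_)
    ring
  rw [hn]
  have hfin := norm_le_norm_add_norm_sub' (∫ x, (er (V x) : ℂ) *
      Complex.exp (Complex.I * ((-(τ * ((V x).toReal - m)) : ℝ) : ℂ)))
      (∫ x, (er (V x) : ℂ) * (1 + Complex.I * ((-(τ * ((V x).toReal - m)) : ℝ) : ℂ) -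
      ((-(τ * ((V x).toReal - m)) : ℝ) : ℂ) ^ 2 / 2))
  refine hfin.trans (add_le_add ?_ hdiff)
  rw [hGint, Complex.norm_real, Real.norm_eq_abs]

end Pool.Agent.MO

namespace Pool.Agent.MO

theorem en3 (k : ℕ) : ∃ r : ℝ, 0 < r ∧ ∀ (E : Type) [NormedAddCommGroup E] [NormedSpace ℝ E]
      [FiniteDimensional ℝ E] [MeasureSpace E] [BorelSpace E]
      [Measure.IsAddHaarMeasure (volume : Measure E)] (V : E → ℝ≥0∞), GV k V →
      ∀ τ : ℝ, |τ| ≤ r → ‖ZC V τ‖ ≤ (∫ x, er (V x)) * Real.exp (-(τ ^ 2 * vr V / 4)) := by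
  obtain ⟨C1, hC1, hE1⟩ := en1 k
  obtain ⟨C2, hC2, hE2⟩ := en2 k
  set C3 := 8 * (C1 * C2 + MK k ^ 2 * C2) with hC3d
  have hC3 : 0 < C3 := by positivity
  have h2k : (1 : ℝ) ≤ 2 ^ k := one_le_pow₀ (by norm_num)
  refine ⟨min (1 / (8 * (1 + C3))) (1 / (2 * 2 ^ k)), lt_min (by positivity) (by positivity), ?_⟩
  intro E _ _ _ _ _ _ V h τ hτ
  have hτ1 : |τ| ≤ 1 / (8 * (1 + C3)) := hτ.trans (min_le_left _ _)
  have hτ2 : |τ| ≤ 1 / (2 * 2 ^ k) := hτ.trans (min_le_right _ _)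
  have hZ := h.pos
  have h0 := ZC_le h τ
  obtain ⟨-, -, -, -, c2, c4⟩ := central h
  have hm0 := h.mn_nonneg
  have hm1 := h.mn_le
  have h1 := hE1 E V h
  have h2 := hE2 E V h
  have h3 := (h.mom 2).2
  have hvr : ∫ x, ((V x).toReal - mn V) ^ 2 * er (V x) = vr V * ∫ x, er (V x) := by
    rw [vr, div_mul_cancel₀ _ hZ.ne']
  have hvr0 := vr_nonneg hZ
  set Z := ∫ x, er (V x) with hZd
  set m := mn V with hmd
  set M2 := ∫ x, (V x).toReal ^ 2 * er (V x) with hM2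
  set M4 := ∫ x, (V x).toReal ^ 4 * er (V x) with hM4
  set c2' := ∫ x, ((V x).toReal - m) ^ 2 * er (V x) with hc2'
  set c4' := ∫ x, ((V x).toReal - m) ^ 4 * er (V x) with hc4'
  set v := vr V with hv
  have hW : 0 ≤ v * Z := mul_nonneg hvr0 hZ.le
  -- the fourth central moment
  have hmZ : m ^ 2 * Z ≤ M2 := by
    rw [hvr] at c2
    linarith
  have hc4 : c4' ≤ C3 * (v * Z) := by
    have a1 : M2 ≤ C2 * (v * Z) := by rw [← hvr]; exact h2
    have a2 : M4 ≤ C1 * (C2 * (v * Z)) := h1.trans (mul_le_mul_of_nonneg_left a1 hC1.le)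
    have a3 : m ^ 4 * Z ≤ MK k ^ 2 * (C2 * (v * Z)) := by
      calc m ^ 4 * Z = m ^ 2 * (m ^ 2 * Z) := by ring
        _ ≤ MK k ^ 2 * (C2 * (v * Z)) :=
            mul_le_mul (pow_le_pow_left₀ hm0 hm1 2) (hmZ.trans a1)
              (mul_nonneg (sq_nonneg _) hZ.le) (sq_nonneg _)
    rw [hC3d]
    nlinarith
  have hv8 : v ≤ 8 * 2 ^ k := by
    have a1 : v * Z ≤ M2 := by
      rw [hvr] at c2
      have : 0 ≤ m ^ 2 * Z := mul_nonneg (sq_nonneg _) hZ.le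
      linarith
    have a2 : M2 ≤ 8 * 2 ^ k * Z := by
      refine h3.trans (le_of_eq ?_)
      norm_num [Nat.factorial]
    exact le_of_mul_le_mul_right (a1.trans a2) hZ
  have hτsq : |τ| ^ 2 = τ ^ 2 := sq_abs τ
  have hτ0 := abs_nonneg τ
  have hb1 : τ ^ 2 * v ≤ 2 := by
    have a1 : |τ| ^ 2 ≤ (1 / (2 * 2 ^ k)) ^ 2 := pow_le_pow_left₀ hτ0 hτ2 2
    rw [hτsq] at a1
    have a2 : τ ^ 2 * v ≤ (1 / (2 * 2 ^ k)) ^ 2 * (8 * 2 ^ k) :=
      mul_le_mul a1 hv8 hvr0 (by positivity)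
    have a3 : (1 / (2 * (2 : ℝ) ^ k)) ^ 2 * (8 * 2 ^ k) = 2 / 2 ^ k := by
      field_simp
      norm_num
    rw [a3] at a2
    refine a2.trans ?_
    rw [div_le_iff₀ (by positivity)]
    linarith
  have hb2 : |Z - τ ^ 2 / 2 * c2'| = Z - τ ^ 2 / 2 * (v * Z) := by
    rw [hvr, abs_of_nonneg]
    nlinarith
  have hb3 : 2 * |τ| ^ 3 * (c2' + c4') ≤ τ ^ 2 / 4 * (v * Z) := by
    have a1 : c2' + c4' ≤ (1 + C3) * (v * Z) := by
      rw [hvr]
      linarith
    have a2 : 2 * |τ| ^ 3 * (c2' + c4') ≤ 2 * |τ| ^ 3 * ((1 + C3) * (v * Z)) :=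
      mul_le_mul_of_nonneg_left a1 (by positivity)
    have a3 : |τ| * (8 * (1 + C3)) ≤ 1 := by
      rwa [le_div_iff₀ (by positivity)] at hτ1
    have a4 : 2 * |τ| ^ 3 * ((1 + C3) * (v * Z)) =
        τ ^ 2 / 4 * (v * Z) * (|τ| * (8 * (1 + C3))) := by
      rw [← hτsq]; ring
    rw [a4] at a2
    refine a2.trans ?_
    have a5 : 0 ≤ τ ^ 2 / 4 * (v * Z) := mul_nonneg (by positivity) hW
    calc τ ^ 2 / 4 * (v * Z) * (|τ| * (8 * (1 + C3))) ≤ τ ^ 2 / 4 * (v * Z) * 1 :=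
          mul_le_mul_of_nonneg_left a3 a5
      _ = _ := mul_one _
  rw [hb2] at h0
  have hb4 : ‖ZC V τ‖ ≤ Z * (1 - τ ^ 2 * v / 4) := by
    refine (h0.trans (add_le_add le_rfl hb3)).trans (le_of_eq ?_)
    ring
  refine hb4.trans (mul_le_mul_of_nonneg_left ?_ hZ.le)
  have := Real.add_one_le_exp (-(τ ^ 2 * v / 4))
  linarith

end Pool.Agent.MO
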