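import Pool.Agent.MO.Defs2
import Pool.Agent.CB.Ext
import Pool.Agent.CB.GenIso

/-!
# MO-ExtE: from continuous to measurable functions

Transfer to `V n`: there is `T : E ≃L[ℝ] CB.V n`, `n = finrank ℝ E`. `μ' = μ.map T` is a probability measure. For `g : V n → ℝ`
continuous with compact support, `f = g ∘ T`, `MX.mx μ' S (ofReal ∘ g) (T x) = MX.mx μ S (ofReal ∘ f) x`
(`lintegral_map`), and `volume.map T = c • volume` on `V n` with `0 < c < ∞` (`Measure.isAddHaarMeasure_map`,
`Measure.isAddHaarMeasure_eq_smul` / uniqueness of the Haar measure), so the hypothesis of `CB.ext_cc` holds for `μ'`; its conclusion for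
`f ∘ T.symm` gives the claim. (Or repeat the proof of `CB.ext_cc` on `E`.)
-/

set_option autoImplicit false

open MeasureTheory Set
open scoped ENNReal NNReal

namespace Pool.Agent.MO

variable {E : Type} [NormedAddCommGroup E] [NormedSpace ℝ E] [FiniteDimensional ℝ E]
  [MeasureSpace E] [BorelSpace E] [Measure.IsAddHaarMeasure (volume : Measure E)]

theorem ext_E {p : ℝ} (hp : 1 ≤ p) {D : ℝ≥0} {μ : Measure E} [IsProbabilityMeasure μ]
    (h : LocT p (D : ℝ≥0∞) μ) : LocE p (D : ℝ≥0∞) μ := by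
  obtain ⟨n, ⟨T⟩⟩ : ∃ n : ℕ, Nonempty (E ≃L[ℝ] CB.V n) := by
    refine ⟨Module.finrank ℝ E, ⟨ContinuousLinearEquiv.ofFinrankEq ?_⟩⟩
    simp
  set e : E ≃ᵐ CB.V n := T.toHomeomorph.toMeasurableEquiv with he
  have heT : ∀ x, e x = T x := fun x => rfl
  have hhaar : Measure.IsAddHaarMeasure ((volume : Measure E).map T) :=
    T.isAddHaarMeasure_map volume
  obtain ⟨c, hc0, hct, hc⟩ : ∃ c : ℝ≥0∞, c ≠ 0 ∧ c ≠ ∞ ∧
      (volume : Measure E).map T = c • (volume : Measure (CB.V n)) := by
    refine ⟨(Measure.addHaarScalarFactor ((volume : Measure E).map T)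
      (volume : Measure (CB.V n)) : ℝ≥0∞), ?_, ENNReal.coe_ne_top, ?_⟩
    · exact ENNReal.coe_ne_zero.mpr (Measure.addHaarScalarFactor_pos_of_isAddHaarMeasure _ _).ne'
    · exact Measure.isAddLeftInvariant_eq_smul _ _
  have hint : ∀ F : CB.V n → ℝ≥0∞, ∫⁻ x : E, F (T x) = c * ∫⁻ y, F y := by
    intro F
    have h1 : ∫⁻ y, F y ∂((volume : Measure E).map e) = ∫⁻ x : E, F (e x) :=
      lintegral_map_equiv F e
    have h2 : (volume : Measure E).map e = c • (volume : Measure (CB.V n)) := hc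
    rw [h2, lintegral_smul_measure, smul_eq_mul] at h1
    exact h1.symm
  have hprob : IsProbabilityMeasure (μ.map e) :=
    Measure.isProbabilityMeasure_map e.measurable.aemeasurable
  have hmx : ∀ (S : Finset ℝ) (F : CB.V n → ℝ≥0∞) (x : E),
      MX.mx (μ.map e) S F (T x) = MX.mx μ S (fun y => F (T y)) x := by
    intro S F x
    unfold MX.mx
    refine iSup_congr fun t => iSup_congr fun _ => ?_
    rw [lintegral_map_equiv]
    refine lintegral_congr fun y => ?_
    simp only [heT, map_add, map_smul]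
  intro k S hS f hf
  have hp0 : 0 ≤ p := zero_le_one.trans hp
  have key := CB.ext_cc (μ := μ.map e) hp (C := D) S (fun g hg1 hg2 hg3 => by
    have h1 := h k S hS (fun x => g (T x)) (hg1.comp T.continuous)
      (hg2.comp_homeomorph T.toHomeomorph) (fun x => hg3 _)
    have h2 : ∫⁻ x, MX.mx μ S (fun y => ENNReal.ofReal (g (T y))) x ^ p =
        c * ∫⁻ y, MX.mx (μ.map e) S (fun y => ENNReal.ofReal (g y)) y ^ p := by
      rw [← hint (fun y => MX.mx (μ.map e) S (fun y => ENNReal.ofReal (g y)) y ^ p)]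
      refine lintegral_congr fun x => ?_
      rw [hmx]
    have h3 : ∫⁻ x : E, ENNReal.ofReal (g (T x)) ^ p =
        c * ∫⁻ y, ENNReal.ofReal (g y) ^ p :=
      hint (fun y => ENNReal.ofReal (g y) ^ p)
    rw [h2, h3, mul_left_comm] at h1
    exact (ENNReal.mul_le_mul_iff_right hc0 hct).1 h1)
    (f := fun y => f (T.symm y)) (hf.comp T.symm.continuous.measurable)
  have h4 : ∫⁻ x, MX.mx μ S f x ^ p =
      c * ∫⁻ y, MX.mx (μ.map e) S (fun y => f (T.symm y)) y ^ p := by
    rw [← hint (fun y => MX.mx (μ.map e) S (fun y => f (T.symm y)) y ^ p)]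
    refine lintegral_congr fun x => ?_
    rw [hmx]
    simp
  have h5 : ∫⁻ x, f x ^ p = c * ∫⁻ y, f (T.symm y) ^ p := by
    rw [← hint (fun y => f (T.symm y) ^ p)]
    simp
  rw [h4, h5, mul_left_comm]
  gcongr

end Pool.Agent.MO
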