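import Pool.Agent.MO.Base
import Pool.Agent.MO.Beta

/-!
# MO-Scmp: the weights are comparable

`a = gb V`, `Z = ∫ er V`, `D = Dq a ρ ≥ 0`, `R` from `base`. `S = 4 MK k + 4 * 2^k + 2 k + 1`.
`Dn a`: measurable, nonnegative, even (`CV.even`), integrable, integral one.
`Cmp K a a`: `∫ ρ^2 a ≤ R D ∫ (1+V)^2 er V / Z ≤ R D (1 + 2*... )` by `base` and `GV.mom` (`i = 0,1,2`;
where `V x = ∞` the density vanishes).
`Wt (s0/S)`: measurable, nonnegative (`dil_sub_nonneg`), even, integrable, mass: `2(mn V + MK k) + 4 * 2^k + 2k ≤ S`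
(`GV.mn_le`, `dil_sub_int`).
`Cmp K a (s0/S)`: the three terms of `s0`: first and third by `base`, `GV.mom` up to `i = 3`; second: with
`x' = (1+ε)⁻¹ x`, `V x' < ∞`: `ρ x ≤ ρ x' + ρ (ε x')` and `V(ε x') ≤ V x'`, so `ρ(x)^2 ≤ 4 R (1+V x')^2 D` (if
`V x' = ∞` the weight vanishes), then `beta_int`. `K` = an explicit constant depending on `k` (and `R`).
-/

set_option autoImplicit false

open MeasureTheory Set
open scoped ENNReal NNReal

namespace Pool.Agent.MO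

section Aux

set_option linter.unusedSectionVars false

variable {E : Type} [NormedAddCommGroup E] [NormedSpace ℝ E] [FiniteDimensional ℝ E]
  [MeasureSpace E] [BorelSpace E] [Measure.IsAddHaarMeasure (volume : Measure E)]

private theorem scmp_mom {k : ℕ} {V : E → ℝ≥0∞} (h : GV k V) {c0 c1 : ℝ} (h0 : 0 ≤ c0)
    (h1 : 0 ≤ c1) :
    Integrable (fun x => (1 + (V x).toReal) ^ 2 * (c1 * (V x).toReal + c0) * er (V x)) ∧
      ∫ x, (1 + (V x).toReal) ^ 2 * (c1 * (V x).toReal + c0) * er (V x) ≤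
        2 ^ k * (13 * c0 + 66 * c1) * ∫ x, er (V x) := by
  obtain ⟨i0, b0⟩ := h.mom 0
  obtain ⟨i1, b1⟩ := h.mom 1
  obtain ⟨i2, b2⟩ := h.mom 2
  obtain ⟨i3, b3⟩ := h.mom 3
  have e : (fun x => (1 + (V x).toReal) ^ 2 * (c1 * (V x).toReal + c0) * er (V x)) =
      fun x => c0 * ((V x).toReal ^ 0 * er (V x)) + (c1 + 2 * c0) * ((V x).toReal ^ 1 * er (V x)) +
        (2 * c1 + c0) * ((V x).toReal ^ 2 * er (V x)) + c1 * ((V x).toReal ^ 3 * er (V x)) := by
    funext x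
    ring
  have j0 := i0.const_mul c0
  have j1 := i1.const_mul (c1 + 2 * c0)
  have j2 := i2.const_mul (2 * c1 + c0)
  have j3 := i3.const_mul c1
  have j01 : Integrable (fun x => c0 * ((V x).toReal ^ 0 * er (V x)) +
      (c1 + 2 * c0) * ((V x).toReal ^ 1 * er (V x))) := j0.add j1
  have j02 : Integrable (fun x => c0 * ((V x).toReal ^ 0 * er (V x)) +
      (c1 + 2 * c0) * ((V x).toReal ^ 1 * er (V x)) +
      (2 * c1 + c0) * ((V x).toReal ^ 2 * er (V x))) := j01.add j2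
  rw [e]
  refine ⟨j02.add j3, ?_⟩
  rw [integral_add j02 j3, integral_add j01 j2, integral_add j0 j1,
    integral_const_mul, integral_const_mul, integral_const_mul, integral_const_mul]
  have k0 := mul_le_mul_of_nonneg_left b0 h0
  have k1 := mul_le_mul_of_nonneg_left b1 (by positivity : 0 ≤ c1 + 2 * c0)
  have k2 := mul_le_mul_of_nonneg_left b2 (by positivity : 0 ≤ 2 * c1 + c0)
  have k3 := mul_le_mul_of_nonneg_left b3 h1
  have f0 : ((Nat.factorial 0 : ℕ) : ℝ) = 1 := by norm_num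
  have f1 : ((Nat.factorial 1 : ℕ) : ℝ) = 1 := by norm_num
  have f2 : ((Nat.factorial 2 : ℕ) : ℝ) = 2 := by norm_num [Nat.factorial]
  have f3 : ((Nat.factorial 3 : ℕ) : ℝ) = 6 := by norm_num [Nat.factorial]
  rw [f0] at k0
  rw [f1] at k1
  rw [f2] at k2
  rw [f3] at k3
  refine (add_le_add (add_le_add (add_le_add k0 k1) k2) k3).trans (le_of_eq ?_)
  ring

private theorem scmp_dq {k : ℕ} {V : E → ℝ≥0∞} (h : GV k V) (ρ : E → ℝ) :
    0 ≤ Dq (gb V) ρ := by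
  have ha : ∀ y, 0 ≤ gb V y := fun y => div_nonneg (er_nonneg _) h.pos.le
  exact integral_nonneg fun y => integral_nonneg fun z =>
    mul_nonneg (mul_nonneg (ha y) (ha z)) (sq_nonneg _)

private theorem scmp_dn {k : ℕ} {V : E → ℝ≥0∞} (h : GV k V) : Dn (gb V) := by
  have h1 : ∫ y, gb V y = 1 := by
    show ∫ y, er (V y) / ∫ y, er (V y) = 1
    rw [integral_div, div_self h.pos.ne']
  exact ⟨⟨(er_meas.comp h.cv.meas).div_const _, fun y => div_nonneg (er_nonneg _) h.pos.le,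
    fun y => by show er (V (-y)) / _ = er (V y) / _; rw [h.cv.even], h.int.div_const _, h1.le⟩, h1⟩

private theorem scmp_pt {k : ℕ} {V : E → ℝ≥0∞} (_h : GV k V) {ρ : E → ℝ} {R D : ℝ}
    (hR : ∀ x, V x ≠ ∞ → ρ x ^ 2 ≤ R * (1 + (V x).toReal) ^ 2 * D) {c0 c1 : ℝ} (h0 : 0 ≤ c0)
    (h1 : 0 ≤ c1) (x : E) : ρ x ^ 2 * ((c1 * (V x).toReal + c0) * er (V x)) ≤
      R * D * ((1 + (V x).toReal) ^ 2 * (c1 * (V x).toReal + c0) * er (V x)) := by
  by_cases hx : V x = ∞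
  · rw [hx, er_top]
    simp
  · have h2 : 0 ≤ (c1 * (V x).toReal + c0) * er (V x) :=
      mul_nonneg (add_nonneg (mul_nonneg h1 ENNReal.toReal_nonneg) h0) (er_nonneg _)
    refine (mul_le_mul_of_nonneg_right (hR x hx) h2).trans (le_of_eq ?_)
    ring

private theorem scmp_pt2 {k : ℕ} {V : E → ℝ≥0∞} (h : GV k V) {ρ : E → ℝ} (hρ : Adm ρ) {R D : ℝ}
    (hR0 : 0 ≤ R) (hD : 0 ≤ D)
    (hR : ∀ x, V x ≠ ∞ → ρ x ^ 2 ≤ R * (1 + (V x).toReal) ^ 2 * D) {ε : ℝ} (hε : 0 < ε)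
    (hε1 : ε ≤ 1) (x : E) : ρ x ^ 2 * (er (V ((1 + ε)⁻¹ • x)) - er (V x)) ≤
      4 * R * D * ((1 + (V ((1 + ε)⁻¹ • x)).toReal) ^ 2 *
        (er (V ((1 + ε)⁻¹ • x)) - er (V x))) := by
  have hd := dil_sub_nonneg h.cv hε x
  by_cases hx : V ((1 + ε)⁻¹ • x) = ∞
  · have h1 : V ((1 + ε)⁻¹ • x) ≤ V x :=
      h.cv.ray x (by positivity) (inv_le_one_of_one_le₀ (by linarith))
    have h2 : V x = ∞ := by
      rw [hx] at h1
      exact top_le_iff.1 h1
    rw [hx, h2]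
    simp
  · set x' := (1 + ε)⁻¹ • x with hx'
    have hsum : x = x' + ε • x' := by
      have h3 : x' + ε • x' = (1 + ε) • x' := by rw [add_smul, one_smul]
      rw [h3, hx', smul_smul, mul_inv_cancel₀ (by positivity), one_smul]
    have h4 : V (ε • x') ≤ V x' := h.cv.ray x' hε.le hε1
    have h5 : V (ε • x') ≠ ∞ := fun e => hx (top_le_iff.1 (e ▸ h4))
    have h6 : (V (ε • x')).toReal ≤ (V x').toReal := ENNReal.toReal_mono hx h4
    have h7 := hR x' hx
    have h8 := hR (ε • x') h5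
    have h9 : ρ x ≤ ρ x' + ρ (ε • x') := by
      have := hρ.sub x' (ε • x')
      rwa [← hsum] at this
    have h10 : ρ (ε • x') ^ 2 ≤ R * (1 + (V x').toReal) ^ 2 * D := by
      refine h8.trans ?_
      have h11 : (1 + (V (ε • x')).toReal) ^ 2 ≤ (1 + (V x').toReal) ^ 2 :=
        pow_le_pow_left₀ (by positivity) (by linarith) 2
      exact mul_le_mul_of_nonneg_right (mul_le_mul_of_nonneg_left h11 hR0) hD
    have h12 : ρ x ^ 2 ≤ 4 * R * D * (1 + (V x').toReal) ^ 2 := by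
      have h13 := hρ.nonneg x
      have h14 : ρ x ^ 2 ≤ (ρ x' + ρ (ε • x')) ^ 2 := pow_le_pow_left₀ h13 h9 2
      nlinarith [sq_nonneg (ρ x' - ρ (ε • x'))]
    refine (mul_le_mul_of_nonneg_right h12 hd).trans (le_of_eq ?_)
    ring

private theorem scmp_caa {k : ℕ} {V : E → ℝ≥0∞} (h : GV k V) {R : ℝ} (hR0 : 0 ≤ R)
    (hR : ∀ ρ : E → ℝ, Adm ρ → ∀ x, V x ≠ ∞ →
        ρ x ^ 2 ≤ R * (1 + (V x).toReal) ^ 2 * Dq (gb V) ρ) {K : ℝ}
    (hK : R * (2 ^ k * 13) ≤ K) : Cmp K (gb V) (gb V) := by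
  intro ρ hρ
  have hD := scmp_dq h ρ
  set D := Dq (gb V) ρ with hDd
  obtain ⟨i1, b1⟩ := scmp_mom h (c0 := 1) (c1 := 0) zero_le_one le_rfl
  have hpt := scmp_pt h (hR ρ hρ) (c0 := 1) (c1 := 0) zero_le_one le_rfl
  set Z := ∫ x, er (V x) with hZ
  have hZ0 : 0 < Z := h.pos
  have h1 : ∫ y, ρ y ^ 2 * gb V y ≤
      ∫ y, R * D / Z * ((1 + (V y).toReal) ^ 2 * (0 * (V y).toReal + 1) * er (V y)) := by
    refine integral_mono_of_nonneg (Filter.Eventually.of_forall fun y => ?_)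
      (i1.const_mul _) (Filter.Eventually.of_forall fun y => ?_)
    · exact mul_nonneg (sq_nonneg _) (div_nonneg (er_nonneg _) hZ0.le)
    · show ρ y ^ 2 * (er (V y) / Z) ≤ _
      have h2 := div_le_div_of_nonneg_right (hpt y) hZ0.le
      calc ρ y ^ 2 * (er (V y) / Z) = ρ y ^ 2 * ((0 * (V y).toReal + 1) * er (V y)) / Z := by ring
        _ ≤ _ := h2
        _ = _ := by ring
  rw [integral_const_mul] at h1
  have h3 : 0 ≤ R * D / Z := by positivity
  refine (h1.trans (mul_le_mul_of_nonneg_left b1 h3)).trans ?_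
  have h4 : R * D / Z * (2 ^ k * (13 * 1 + 66 * 0) * Z) = R * (2 ^ k * 13) * D := by
    field_simp
    ring
  rw [h4]
  exact mul_le_mul_of_nonneg_right hK hD

private theorem scmp_MK (k : ℕ) : 0 ≤ MK k := by unfold MK; positivity

private theorem scmp_split {k : ℕ} {V : E → ℝ≥0∞} (ε : ℝ) (x : E) : s0 k V ε x =
    ((2 * (V x).toReal + (2 * MK k + 2 * k)) * er (V x) +
      4 / ε * (er (V ((1 + ε)⁻¹ • x)) - er (V x))) / ∫ y, er (V y) := by
  unfold s0
  congr 1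
  ring

private theorem scmp_nonneg {k : ℕ} {V : E → ℝ≥0∞} (h : GV k V) {ε : ℝ} (hε : 0 < ε) (x : E) :
    0 ≤ s0 k V ε x := by
  rw [scmp_split]
  refine div_nonneg (add_nonneg (mul_nonneg ?_ (er_nonneg _))
    (mul_nonneg (by positivity) (dil_sub_nonneg h.cv hε x))) h.pos.le
  have := scmp_MK k
  have h2 : 0 ≤ (V x).toReal := ENNReal.toReal_nonneg
  positivity

private theorem scmp_wt {k : ℕ} {V : E → ℝ≥0∞} (h : GV k V) {ε : ℝ} (hε : 0 < ε) (hε1 : ε ≤ 1)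
    {S : ℝ} (hS : 4 * MK k + 4 * 2 ^ k + 2 * k ≤ S) (hS1 : 1 ≤ S) :
    Wt (fun x => s0 k V ε x / S) := by
  have hS0 : 0 < S := lt_of_lt_of_le one_pos hS1
  obtain ⟨i0, b0⟩ := h.mom 0
  obtain ⟨i1, b1⟩ := h.mom 1
  obtain ⟨id, bd⟩ := dil_sub_int h hε hε1
  have hmk := scmp_MK k
  set Z := ∫ x, er (V x) with hZ
  have hZ0 : 0 < Z := h.pos
  have e : (fun x => s0 k V ε x) = fun x => (2 * ((V x).toReal ^ 1 * er (V x)) +
      (2 * MK k + 2 * k) * er (V x) +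
      4 / ε * (er (V ((1 + ε)⁻¹ • x)) - er (V x))) / Z := by
    funext x
    rw [scmp_split]
    congr 1
    ring
  have ja : Integrable (fun x => 2 * ((V x).toReal ^ 1 * er (V x)) +
      (2 * MK k + 2 * k) * er (V x)) :=
    (i1.const_mul 2).add (h.int.const_mul (2 * MK k + 2 * k))
  have jb : Integrable (fun x => 2 * ((V x).toReal ^ 1 * er (V x)) +
      (2 * MK k + 2 * k) * er (V x) +
      4 / ε * (er (V ((1 + ε)⁻¹ • x)) - er (V x))) := ja.add (id.const_mul (4 / ε))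
  have hint : Integrable (fun x => s0 k V ε x) := by
    rw [e]
    exact jb.div_const Z
  refine ⟨?_, ?_, ?_, ?_, ?_⟩
  · refine Measurable.div_const ?_ _
    show Measurable (fun x => s0 k V ε x)
    rw [e]
    have m1 : Measurable fun x => er (V x) := er_meas.comp h.cv.meas
    have m2 : Measurable fun x => er (V ((1 + ε)⁻¹ • x)) :=
      m1.comp (measurable_const_smul _)
    have m3 : Measurable fun x => (V x).toReal := h.cv.meas.ennreal_toReal
    exact ((((m3.pow_const 1).mul m1).const_mul 2).add (m1.const_mul _)).add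
      ((m2.sub m1).const_mul _) |>.div_const _
  · intro y
    exact div_nonneg (scmp_nonneg h hε y) hS0.le
  · intro y
    have h1 : s0 k V ε (-y) = s0 k V ε y := by
      unfold s0
      rw [smul_neg, h.cv.even, h.cv.even]
    show s0 k V ε (-y) / S = s0 k V ε y / S
    rw [h1]
  · exact hint.div_const S
  · rw [integral_div, div_le_one hS0]
    have h1 : ∫ x, s0 k V ε x = (2 * ∫ x, (V x).toReal ^ 1 * er (V x)) / Z +
        (2 * MK k + 2 * k) * Z / Z +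
        (4 / ε * ∫ x, (er (V ((1 + ε)⁻¹ • x)) - er (V x))) / Z := by
      have h2 : ∫ x, s0 k V ε x = ∫ x, (2 * ((V x).toReal ^ 1 * er (V x)) +
        (2 * MK k + 2 * k) * er (V x) +
        4 / ε * (er (V ((1 + ε)⁻¹ • x)) - er (V x))) / Z := by rw [e]
      rw [h2, integral_div, integral_add ja (id.const_mul _), integral_add (i1.const_mul 2)
        (h.int.const_mul _), integral_const_mul,
        integral_const_mul, integral_const_mul, add_div, add_div]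
    rw [h1]
    have h3 : (2 * ∫ x, (V x).toReal ^ 1 * er (V x)) / Z ≤ 2 * MK k := by
      rw [div_le_iff₀ hZ0]
      have f1 : ((Nat.factorial 1 : ℕ) : ℝ) = 1 := by norm_num
      rw [f1] at b1
      unfold MK
      linarith
    have h4 : (2 * MK k + 2 * k) * Z / Z = 2 * MK k + 2 * k := by
      rw [mul_div_assoc, div_self hZ0.ne', mul_one]
    have h5 : (4 / ε * ∫ x, (er (V ((1 + ε)⁻¹ • x)) - er (V x))) / Z ≤ 4 * 2 ^ k := by
      rw [div_le_iff₀ hZ0]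
      have h6 := mul_le_mul_of_nonneg_left bd (by positivity : 0 ≤ 4 / ε)
      refine h6.trans (le_of_eq ?_)
      field_simp
    rw [h4]
    linarith

private theorem scmp_cas {k : ℕ} {V : E → ℝ≥0∞} (h : GV k V) {R : ℝ} (hR0 : 0 ≤ R)
    (hR : ∀ ρ : E → ℝ, Adm ρ → ∀ x, V x ≠ ∞ →
        ρ x ^ 2 ≤ R * (1 + (V x).toReal) ^ 2 * Dq (gb V) ρ) {ε : ℝ} (hε : 0 < ε) (hε1 : ε ≤ 1)
    {K S : ℝ} (hS1 : 1 ≤ S)
    (hK : R * (2 ^ k * (13 * (2 * MK k + 2 * k) + 132) + 512 * (2 ^ k * 2 ^ k)) ≤ K) :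
    Cmp K (gb V) (fun x => s0 k V ε x / S) := by
  intro ρ hρ
  have hS0 : 0 < S := lt_of_lt_of_le one_pos hS1
  have hD := scmp_dq h ρ
  set D := Dq (gb V) ρ with hDd
  have hmk := scmp_MK k
  have hc0 : 0 ≤ 2 * MK k + 2 * (k : ℝ) := by positivity
  set c0 := 2 * MK k + 2 * (k : ℝ) with hc
  obtain ⟨i1, b1⟩ := scmp_mom h (c0 := c0) (c1 := 2) hc0 zero_le_two
  have hpt := scmp_pt h (hR ρ hρ) (c0 := c0) (c1 := 2) hc0 zero_le_two
  obtain ⟨i2, b2⟩ := beta_int h hε hε1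
  have hpt2 := scmp_pt2 h hρ hR0 hD (hR ρ hρ) hε hε1
  set Z := ∫ x, er (V x) with hZ
  have hZ0 : 0 < Z := h.pos
  have h1 : ∫ y, ρ y ^ 2 * (s0 k V ε y / S) ≤
      ∫ y, (R * D / Z * ((1 + (V y).toReal) ^ 2 * (2 * (V y).toReal + c0) * er (V y)) +
        16 / ε * (R * D) / Z * ((1 + (V ((1 + ε)⁻¹ • y)).toReal) ^ 2 *
        (er (V ((1 + ε)⁻¹ • y)) - er (V y)))) := by
    refine integral_mono_of_nonneg (Filter.Eventually.of_forall fun y => ?_)
      ((i1.const_mul _).add (i2.const_mul _)) (Filter.Eventually.of_forall fun y => ?_)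
    · exact mul_nonneg (sq_nonneg _) (div_nonneg (scmp_nonneg h hε y) hS0.le)
    · show ρ y ^ 2 * (s0 k V ε y / S) ≤ _
      have h2 : s0 k V ε y / S ≤ s0 k V ε y := div_le_self (scmp_nonneg h hε y) hS1
      have h3 := div_le_div_of_nonneg_right (hpt y) hZ0.le
      have h4 := div_le_div_of_nonneg_right (mul_le_mul_of_nonneg_left (hpt2 y)
        (by positivity : 0 ≤ 4 / ε)) hZ0.le
      calc ρ y ^ 2 * (s0 k V ε y / S) ≤ ρ y ^ 2 * s0 k V ε y :=
            mul_le_mul_of_nonneg_left h2 (sq_nonneg _)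
        _ = ρ y ^ 2 * ((2 * (V y).toReal + c0) * er (V y)) / Z +
            4 / ε * (ρ y ^ 2 * (er (V ((1 + ε)⁻¹ • y)) - er (V y))) / Z := by
          rw [scmp_split]
          ring
        _ ≤ _ := add_le_add h3 h4
        _ = _ := by ring
  rw [integral_add (i1.const_mul _) (i2.const_mul _), integral_const_mul,
    integral_const_mul] at h1
  have h3 : 0 ≤ R * D / Z := by positivity
  have h4 : 0 ≤ 16 / ε * (R * D) / Z := by positivity
  refine (h1.trans (add_le_add (mul_le_mul_of_nonneg_left b1 h3)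
    (mul_le_mul_of_nonneg_left b2 h4))).trans ?_
  have h5 : R * D / Z * (2 ^ k * (13 * c0 + 66 * 2) * Z) +
      16 / ε * (R * D) / Z * (ε * 2 ^ k * (32 * 2 ^ k) * Z) =
      R * (2 ^ k * (13 * c0 + 132) + 512 * (2 ^ k * 2 ^ k)) * D := by
    field_simp
    ring
  rw [h5]
  exact mul_le_mul_of_nonneg_right hK hD

end Aux

theorem s0_cmp (k : ℕ) : ∃ K S : ℝ, 0 ≤ K ∧ 1 ≤ S ∧ ∀ (E : Type) [NormedAddCommGroup E] [NormedSpace ℝ E]
      [FiniteDimensional ℝ E] [MeasureSpace E] [BorelSpace E]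
      [Measure.IsAddHaarMeasure (volume : Measure E)] (V : E → ℝ≥0∞), GV k V →
      Dn (gb V) ∧ Cmp K (gb V) (gb V) ∧ ∀ ε : ℝ, 0 < ε → ε ≤ 1 →
        Wt (fun x => s0 k V ε x / S) ∧ Cmp K (gb V) (fun x => s0 k V ε x / S) := by
  obtain ⟨R, hR1, hR⟩ := base k
  have hR0 : 0 ≤ R := zero_le_one.trans hR1
  have hmk := scmp_MK k
  have hc0 : 0 ≤ 2 * MK k + 2 * (k : ℝ) := by positivity
  refine ⟨R * (2 ^ k * (13 * (2 * MK k + 2 * k) + 132) + 512 * (2 ^ k * 2 ^ k)),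
    4 * MK k + 4 * 2 ^ k + 2 * k + 1, by positivity, ?_, ?_⟩
  · have : 0 ≤ 4 * MK k + 4 * 2 ^ k + 2 * (k : ℝ) := by positivity
    linarith
  · intro E _ _ _ _ _ _ V hV
    have hS1 : 1 ≤ 4 * MK k + 4 * 2 ^ k + 2 * (k : ℝ) + 1 := by
      have : 0 ≤ 4 * MK k + 4 * 2 ^ k + 2 * (k : ℝ) := by positivity
      linarith
    refine ⟨scmp_dn hV, scmp_caa hV hR0 (hR E V hV) ?_, fun ε hε hε1 =>
      ⟨scmp_wt hV hε hε1 (by linarith) hS1, scmp_cas hV hR0 (hR E V hV) hε hε1 hS1 le_rfl⟩⟩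
    refine mul_le_mul_of_nonneg_left ?_ hR0
    have h2 : (0 : ℝ) < 2 ^ k := by positivity
    nlinarith [mul_nonneg h2.le hc0, mul_pos h2 h2]

end Pool.Agent.MO
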