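import Pool.Agent.MO.Contr
import Pool.Agent.MO.Scmp
import Pool.Agent.MO.Ker

/-!
# MO-Fac: the one-factor family consists of contractions

`K`, `S` from `s0_cmp k`, `δ` from `contr p K`, `r = min (δ/S) (min (1/(2 MK k)) 1)`. For `V`, `τ`, `ε`, `z` as in the
statement put `a = gb V`, `s = s0 k V ε / S`, `D = fk V τ ε z - gb V`: `Pert K δ a s D` (`fk_meas`, `fk_even`,
`fk_sub_int`, `fk_bound`: `‖D‖ ≤ r s0 = (r S) s ≤ δ s` since `s ≥ 0`), and `a + D = fk`.
-/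

set_option autoImplicit false

open MeasureTheory Set
open scoped ENNReal NNReal

namespace Pool.Agent.MO

theorem fac (k : ℕ) {p : ℝ} (hp : 1 < p) (hp2 : p ≤ 2) :
    ∃ r : ℝ, 0 < r ∧ r ≤ 1 ∧ r ≤ 1 / (2 * MK k) ∧ ∀ (E : Type) [NormedAddCommGroup E] [NormedSpace ℝ E]
      [FiniteDimensional ℝ E] [MeasureSpace E] [BorelSpace E]
      [Measure.IsAddHaarMeasure (volume : Measure E)] (V : E → ℝ≥0∞), GV k V →
      ∀ τ : ℝ, |τ| ≤ r → ∀ ε : ℝ, 0 < ε → ε ≤ 1 → ∀ z : ℂ, ‖z‖ ≤ r →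
        NB p 1 (fk V τ ε z) := by
  obtain ⟨K, S, hK, hS, hcmp⟩ := s0_cmp k
  obtain ⟨δ, hδ, hδ1, hcontr⟩ := contr p K hp hp2 hK
  have hS0 : 0 < S := lt_of_lt_of_le one_pos hS
  have hM : 0 < 2 * MK k := by unfold MK; positivity
  refine ⟨min (δ / S) (min (1 / (2 * MK k)) 1), ?_, ?_, ?_, ?_⟩
  · exact lt_min (div_pos hδ hS0) (lt_min (div_pos one_pos hM) one_pos)
  · exact (min_le_right _ _).trans (min_le_right _ _)
  · exact (min_le_right _ _).trans (min_le_left _ _)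
  intro E _ _ _ _ _ _ V hV τ hτ ε hε hε1 z hz
  set r : ℝ := min (δ / S) (min (1 / (2 * MK k)) 1) with hr
  have hrM : r ≤ 1 / (2 * MK k) := (min_le_right _ _).trans (min_le_left _ _)
  have hrS : r * S ≤ δ := by
    have h1 : r ≤ δ / S := min_le_left _ _
    exact (le_div_iff₀ hS0).1 h1
  obtain ⟨hDn, hCaa, hrest⟩ := hcmp E V hV
  obtain ⟨hWt, hCas⟩ := hrest ε hε hε1
  have hP : Pert K δ (gb V) (fun x => s0 k V ε x / S)
      (fun y => fk V τ ε z y - ((gb V y : ℝ) : ℂ)) := by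
    refine { da := hDn, ws := hWt, meas := ?_, even := ?_, zero := ?_, le := ?_, caa := hCaa,
             cas := hCas }
    · exact (fk_meas hV τ ε z).sub (Complex.measurable_ofReal.comp hDn.meas)
    · intro y
      show fk V τ ε z (-y) - ((gb V (-y) : ℝ) : ℂ) = fk V τ ε z y - ((gb V y : ℝ) : ℂ)
      rw [fk_even hV, hDn.even]
    · exact fk_sub_int hV (hτ.trans hrM) hε z
    · intro y
      have h1 := fk_bound hV hrM hτ hε hε1 hz y
      have h2 : 0 ≤ s0 k V ε y / S := hWt.nonneg y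
      calc ‖fk V τ ε z y - ((gb V y : ℝ) : ℂ)‖ ≤ r * s0 k V ε y := h1
        _ = (r * S) * (s0 k V ε y / S) := by field_simp
        _ ≤ δ * (s0 k V ε y / S) := mul_le_mul_of_nonneg_right hrS h2
  have h := hcontr E (gb V) (fun x => s0 k V ε x / S) _ hP
  have he : (fun y => ((gb V y : ℝ) : ℂ) + (fk V τ ε z y - ((gb V y : ℝ) : ℂ))) = fk V τ ε z := by
    funext y
    ring
  rw [he] at h
  exact h

end Pool.Agent.MO
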