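import Pool.Agent.MO.Defs2

/-!
# MO-Fej: the band-limited cut-off

`fej r s = sinc(x)^2 + sinc(x + π/2)^2`, `x = r s / 2`: upper and lower bounds, and its
representation as the Fourier transform of `kap r`, which is supported in `[-r, r]`.
-/

set_option autoImplicit false

open MeasureTheory Set
open scoped ENNReal NNReal

namespace Pool.Agent.MO

theorem fej_nonneg (r s : ℝ) : 0 ≤ fej r s := by
  unfold fej
  positivity

private theorem fej_sinc_low {y Y : ℝ} (hY : 0 < Y) (h : |y| ≤ Y) :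
    Real.sin y ^ 2 / Y ^ 2 ≤ Real.sinc y ^ 2 := by
  by_cases hy : y = 0
  · rw [hy, Real.sin_zero, Real.sinc_zero]
    norm_num
  · rw [Real.sinc_of_ne_zero hy, div_pow]
    refine div_le_div_of_nonneg_left (sq_nonneg _) (by positivity) ?_
    rw [← sq_abs y]
    exact pow_le_pow_left₀ (abs_nonneg _) h 2

private theorem fej_sinc_one (y : ℝ) : Real.sinc y ^ 2 ≤ 1 := by
  rw [← sq_abs]
  exact pow_le_one₀ (abs_nonneg _) (Real.abs_sinc_le_one y)

private theorem fej_sinc_mul (y : ℝ) : Real.sinc y ^ 2 * y ^ 2 ≤ 1 := by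
  by_cases hy : y = 0
  · rw [hy]
    norm_num
  · rw [Real.sinc_of_ne_zero hy, div_pow, div_mul_cancel₀ _ (pow_ne_zero 2 hy)]
    exact Real.sin_sq_le_one y

theorem fej_cont (r : ℝ) : Continuous (fej r) := by
  unfold fej
  fun_prop

theorem fej_low {r : ℝ} (hr : 0 < r) (s : ℝ) : 4 / (r * |s| + Real.pi) ^ 2 ≤ fej r s := by
  have hY : 0 < (r * |s| + Real.pi) / 2 := by
    have := Real.pi_pos
    positivity
  have hpi := Real.pi_pos
  have hx1 : |r * s / 2| ≤ (r * |s| + Real.pi) / 2 := by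
    rw [abs_div, abs_mul, abs_of_pos hr, abs_of_pos (by norm_num : (0 : ℝ) < 2)]
    linarith
  have he : r * (s + Real.pi / r) / 2 = r * s / 2 + Real.pi / 2 := by
    field_simp
  have hx2 : |r * (s + Real.pi / r) / 2| ≤ (r * |s| + Real.pi) / 2 := by
    rw [he]
    refine (abs_add_le _ _).trans ?_
    rw [abs_div, abs_mul, abs_of_pos hr, abs_of_pos (by norm_num : (0 : ℝ) < 2),
      abs_of_pos (by positivity : (0 : ℝ) < Real.pi / 2)]
    linarith
  have h1 := fej_sinc_low hY hx1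
  have h2 := fej_sinc_low hY hx2
  have h3 : Real.sin (r * (s + Real.pi / r) / 2) ^ 2 = Real.cos (r * s / 2) ^ 2 := by
    rw [he, Real.sin_add_pi_div_two]
  rw [h3] at h2
  have h4 : Real.sin (r * s / 2) ^ 2 / ((r * |s| + Real.pi) / 2) ^ 2 +
      Real.cos (r * s / 2) ^ 2 / ((r * |s| + Real.pi) / 2) ^ 2 = 4 / (r * |s| + Real.pi) ^ 2 := by
    rw [← add_div, Real.sin_sq_add_cos_sq, div_pow, one_div_div]
    norm_num
  unfold fej
  linarith

theorem fej_up {r : ℝ} (hr : 0 < r) : ∃ C : ℝ, 0 < C ∧ ∀ s : ℝ, fej r s ≤ C / (1 + s ^ 2) := by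
  refine ⟨2 + 4 / r ^ 2 * (3 + Real.pi ^ 2 / 2), by positivity, fun s => ?_⟩
  rw [le_div_iff₀ (by positivity)]
  have he : r * (s + Real.pi / r) / 2 = r * s / 2 + Real.pi / 2 := by
    field_simp
  have hs : s ^ 2 = 4 / r ^ 2 * (r * s / 2) ^ 2 := by
    field_simp
    ring
  unfold fej
  rw [he]
  have a1 := fej_sinc_one (r * s / 2)
  have a2 := fej_sinc_one (r * s / 2 + Real.pi / 2)
  have b1 := fej_sinc_mul (r * s / 2)
  have b2 := fej_sinc_mul (r * s / 2 + Real.pi / 2)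
  have a0 : 0 ≤ Real.sinc (r * s / 2 + Real.pi / 2) ^ 2 := sq_nonneg _
  rw [hs]
  generalize r * s / 2 = x at *
  have h1 : x ^ 2 ≤ 2 * (x + Real.pi / 2) ^ 2 + Real.pi ^ 2 / 2 := by
    nlinarith [sq_nonneg (x + Real.pi)]
  have h2 : Real.sinc (x + Real.pi / 2) ^ 2 * x ^ 2 ≤ 2 + Real.pi ^ 2 / 2 := by
    calc Real.sinc (x + Real.pi / 2) ^ 2 * x ^ 2
        ≤ Real.sinc (x + Real.pi / 2) ^ 2 * (2 * (x + Real.pi / 2) ^ 2 + Real.pi ^ 2 / 2) :=
          mul_le_mul_of_nonneg_left h1 a0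
      _ = 2 * (Real.sinc (x + Real.pi / 2) ^ 2 * (x + Real.pi / 2) ^ 2) +
          Real.sinc (x + Real.pi / 2) ^ 2 * (Real.pi ^ 2 / 2) := by ring
      _ ≤ 2 * 1 + 1 * (Real.pi ^ 2 / 2) := by
          refine add_le_add (by linarith) (mul_le_mul_of_nonneg_right a2 (by positivity))
      _ = 2 + Real.pi ^ 2 / 2 := by ring
  have h3 : (0 : ℝ) ≤ 4 / r ^ 2 := by positivity
  have h4 : 4 / r ^ 2 * (Real.sinc x ^ 2 * x ^ 2 + Real.sinc (x + Real.pi / 2) ^ 2 * x ^ 2) ≤
      4 / r ^ 2 * (3 + Real.pi ^ 2 / 2) :=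
    mul_le_mul_of_nonneg_left (by linarith) h3
  calc (Real.sinc x ^ 2 + Real.sinc (x + Real.pi / 2) ^ 2) * (1 + 4 / r ^ 2 * x ^ 2)
      = (Real.sinc x ^ 2 + Real.sinc (x + Real.pi / 2) ^ 2) +
        4 / r ^ 2 * (Real.sinc x ^ 2 * x ^ 2 + Real.sinc (x + Real.pi / 2) ^ 2 * x ^ 2) := by ring
    _ ≤ 2 + 4 / r ^ 2 * (3 + Real.pi ^ 2 / 2) := by linarith

theorem fej_exp_low {r : ℝ} (hr : 0 < r) :
    ∃ c : ℝ, 0 < c ∧ ∀ s : ℝ, s ≤ 0 → c ≤ fej r s * Real.exp (-s) := by
  refine ⟨2 / (r + Real.pi) ^ 2, by positivity, fun s hs => ?_⟩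
  have hpi := Real.pi_pos
  have hu : 0 ≤ -s := by linarith
  have h1 := fej_low hr s
  rw [abs_of_nonpos hs] at h1
  have h2 := Real.quadratic_le_exp_of_nonneg hu
  generalize -s = u at *
  have h3 : (1 + u) ^ 2 / 2 ≤ Real.exp u := by nlinarith
  have h4 : (r * u + Real.pi) ^ 2 ≤ (r + Real.pi) ^ 2 * (1 + u) ^ 2 := by
    rw [← mul_pow]
    refine pow_le_pow_left₀ (by positivity) ?_ 2
    nlinarith [mul_nonneg hpi.le hu]
  have h5 : 2 / (r + Real.pi) ^ 2 ≤ 4 / (r * u + Real.pi) ^ 2 * ((1 + u) ^ 2 / 2) := by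
    rw [div_mul_div_comm, div_le_div_iff₀ (by positivity) (by positivity)]
    nlinarith
  refine h5.trans (mul_le_mul h1 h3 (by positivity) (fej_nonneg r s))

theorem kap_cont {r : ℝ} (hr : 0 < r) : Continuous (kap r) := by
  unfold kap
  fun_prop

theorem kap_norm {r : ℝ} (hr : 0 < r) {τ : ℝ} (hτ : |τ| ≤ r) : ‖kap r τ‖ ≤ 2 / r := by
  unfold kap
  rw [norm_mul]
  have h0 : |τ| / r ≤ 1 := by
    rw [div_le_one hr]
    exact hτ
  have h0' : 0 ≤ |τ| / r := by positivity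
  have h1 : ‖((1 / r * (1 - |τ| / r) : ℝ) : ℂ)‖ ≤ 1 / r := by
    rw [Complex.norm_real, Real.norm_eq_abs, abs_mul, abs_of_pos (by positivity : 0 < 1 / r),
      abs_of_nonneg (by linarith)]
    have : 0 < 1 / r := by positivity
    nlinarith
  have h2 : ‖1 + Complex.exp (-(Real.pi * τ / r : ℝ) * Complex.I)‖ ≤ 2 := by
    refine (norm_add_le _ _).trans ?_
    rw [← Complex.ofReal_neg, Complex.norm_exp_ofReal_mul_I, norm_one]
    norm_num
  calc ‖((1 / r * (1 - |τ| / r) : ℝ) : ℂ)‖ *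
        ‖1 + Complex.exp (-(Real.pi * τ / r : ℝ) * Complex.I)‖ ≤ 1 / r * 2 :=
        mul_le_mul h1 h2 (norm_nonneg _) (by positivity)
    _ = 2 / r := by ring

private theorem fej_int (r s : ℝ) : IntervalIntegrable
    (fun τ : ℝ => ((1 / r * (1 - |τ| / r) : ℝ) : ℂ) * Complex.exp (-(τ * s : ℝ) * Complex.I))
    volume (-r) r := by
  apply Continuous.intervalIntegrable
  fun_prop

private theorem fej_real {r s : ℝ} (hr : 0 < r) (hs : s ≠ 0) :
    ∫ τ in (0 : ℝ)..r, 1 / r * (1 - τ / r) * Real.cos (τ * s) =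
      (1 - Real.cos (r * s)) / (r ^ 2 * s ^ 2) := by
  have hd : ∀ τ ∈ Set.uIcc 0 r, HasDerivAt
      (fun τ : ℝ => 1 / r * ((1 - τ / r) * (Real.sin (τ * s) / s) -
        Real.cos (τ * s) / (r * s ^ 2))) (1 / r * (1 - τ / r) * Real.cos (τ * s)) τ := by
    intro τ _
    have h1 : HasDerivAt (fun τ : ℝ => τ * s) s τ := by
      simpa using (hasDerivAt_id τ).mul_const s
    have h2 := h1.sin
    have h3 := h1.cos
    have h4 : HasDerivAt (fun τ : ℝ => 1 - τ / r) (-(1 / r)) τ := by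
      simpa using ((hasDerivAt_id τ).div_const r).const_sub 1
    have h5 := ((h4.mul (h2.div_const s)).sub (h3.div_const (r * s ^ 2))).const_mul (1 / r)
    refine h5.congr_deriv ?_
    field_simp
    ring
  rw [intervalIntegral.integral_eq_sub_of_hasDerivAt hd
    (Continuous.intervalIntegrable (by fun_prop) _ _)]
  have h6 : r / r = 1 := div_self hr.ne'
  rw [h6]
  simp only [zero_mul, Real.sin_zero, Real.cos_zero, zero_div, mul_zero, sub_self]
  field_simp
  ring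

private theorem fej_real0 {r : ℝ} (hr : 0 < r) :
    ∫ τ in (0 : ℝ)..r, 1 / r * (1 - τ / r) * Real.cos (τ * 0) = 1 / 2 := by
  have hd : ∀ τ ∈ Set.uIcc 0 r, HasDerivAt
      (fun τ : ℝ => 1 / r * (τ - τ ^ 2 / (2 * r))) (1 / r * (1 - τ / r) * Real.cos (τ * 0)) τ := by
    intro τ _
    have h1 : HasDerivAt (fun τ : ℝ => τ ^ 2) (2 * τ) τ := by
      simpa using hasDerivAt_pow 2 τ
    have h5 := ((hasDerivAt_id τ).sub (h1.div_const (2 * r))).const_mul (1 / r)
    refine h5.congr_deriv ?_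
    rw [mul_zero, Real.cos_zero]
    field_simp
  rw [intervalIntegral.integral_eq_sub_of_hasDerivAt hd
    (Continuous.intervalIntegrable (by fun_prop) _ _)]
  field_simp
  ring

private theorem fej_one {r : ℝ} (hr : 0 < r) (s : ℝ) :
    ∫ τ in (-r)..r, ((1 / r * (1 - |τ| / r) : ℝ) : ℂ) *
      Complex.exp (-(τ * s : ℝ) * Complex.I) = ((Real.sinc (r * s / 2) ^ 2 : ℝ) : ℂ) := by
  set f : ℝ → ℂ := fun τ => ((1 / r * (1 - |τ| / r) : ℝ) : ℂ) *
    Complex.exp (-(τ * s : ℝ) * Complex.I) with hf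
  have hfc : Continuous f := by
    rw [hf]
    fun_prop
  have h1 : ∫ τ in (-r)..r, f τ = ∫ τ in (0 : ℝ)..r, (f (-τ) + f τ) := by
    have hneg : IntervalIntegrable (fun τ => f (-τ)) volume 0 r :=
      (hfc.comp continuous_neg).intervalIntegrable _ _
    rw [intervalIntegral.integral_add hneg
      (hfc.intervalIntegrable _ _), intervalIntegral.integral_comp_neg, neg_zero,
      intervalIntegral.integral_add_adjacent_intervals (hfc.intervalIntegrable _ _)
      (hfc.intervalIntegrable _ _)]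
  have h2 : ∫ τ in (0 : ℝ)..r, (f (-τ) + f τ) =
      ∫ τ in (0 : ℝ)..r, ((2 * (1 / r * (1 - τ / r) * Real.cos (τ * s)) : ℝ) : ℂ) := by
    refine intervalIntegral.integral_congr fun τ hτ => ?_
    rw [Set.uIcc_of_le hr.le] at hτ
    have h3 : |τ| = τ := abs_of_nonneg hτ.1
    simp only [hf, abs_neg, h3]
    rw [← mul_add]
    have h4 : Complex.exp (-((-τ * s : ℝ) : ℂ) * Complex.I) +
        Complex.exp (-((τ * s : ℝ) : ℂ) * Complex.I) = 2 * Complex.cos ((τ * s : ℝ) : ℂ) := by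
      rw [Complex.cos]
      have h5 : -((-τ * s : ℝ) : ℂ) * Complex.I = ((τ * s : ℝ) : ℂ) * Complex.I := by
        push_cast
        ring
      rw [h5]
      ring
    rw [h4]
    push_cast
    ring
  rw [h1, h2, intervalIntegral.integral_ofReal, intervalIntegral.integral_const_mul]
  congr 1
  by_cases hs : s = 0
  · rw [hs, fej_real0 hr]
    simp
  · have hrs : r * s / 2 ≠ 0 := by
      have := mul_ne_zero hr.ne' hs
      positivity
    rw [fej_real hr hs, Real.sinc_of_ne_zero hrs]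
    have h6 : Real.cos (r * s) = 1 - 2 * Real.sin (r * s / 2) ^ 2 := by
      have h7 := Real.cos_sq (r * s / 2)
      rw [show 2 * (r * s / 2) = r * s by ring] at h7
      have h8 := Real.sin_sq_add_cos_sq (r * s / 2)
      linarith
    rw [h6]
    have := hr.ne'
    field_simp
    ring

theorem fej_rep {r : ℝ} (hr : 0 < r) (s : ℝ) :
    (fej r s : ℂ) = ∫ τ in (-r)..r, kap r τ * Complex.exp (-(τ * s : ℝ) * Complex.I) := by
  have h1 : ∀ τ : ℝ, kap r τ * Complex.exp (-(τ * s : ℝ) * Complex.I) =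
      ((1 / r * (1 - |τ| / r) : ℝ) : ℂ) * Complex.exp (-(τ * s : ℝ) * Complex.I) +
      ((1 / r * (1 - |τ| / r) : ℝ) : ℂ) *
        Complex.exp (-(τ * (s + Real.pi / r) : ℝ) * Complex.I) := by
    intro τ
    have h2 : Complex.exp (-(τ * (s + Real.pi / r) : ℝ) * Complex.I) =
        Complex.exp (-(Real.pi * τ / r : ℝ) * Complex.I) *
          Complex.exp (-(τ * s : ℝ) * Complex.I) := by
      rw [← Complex.exp_add]
      congr 1
      push_cast
      ring
    rw [h2]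
    unfold kap
    ring
  simp_rw [h1]
  rw [intervalIntegral.integral_add (fej_int r s) (fej_int r _), fej_one hr, fej_one hr]
  unfold fej
  push_cast
  ring

end Pool.Agent.MO
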