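import Pool.Agent.MO.Glob
import Pool.Agent.MO.Chain
import Pool.Agent.MO.ExtE

/-!
# MO-LocU: local boundedness for the level sets

The uniform measure of the level set `{Ψ ≤ lam}` is dominated by a multiple of the measure with the
density `m` of `glob`, for which `chain` gives the local maximal inequality; `ext_E` passes from
continuous to measurable functions.
-/

set_option autoImplicit false

open MeasureTheory Set
open scoped ENNReal NNReal

namespace Pool.Agent.MO

/-- a measure with density at most `c` times the density of `μ` -/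
private theorem unif_le {E : Type} [NormedAddCommGroup E] [NormedSpace ℝ E] [MeasureSpace E]
    {K : Set E} (hK : MeasurableSet K) (h0 : 0 < volume K) (hf : volume K ≠ ∞) {m : E → ℝ}
    {C : ℝ} (hC : 0 ≤ C) (h : ∀ x ∈ K, 1 ≤ C * (volume K).toReal * m x) :
    MX.unif K ≤ (C.toNNReal : ℝ≥0∞) • (volume.withDensity fun x => ENNReal.ofReal (m x)) := by
  rw [Measure.le_iff]
  intro s hs
  have h1 : MX.unif K s = ∫⁻ _ in s ∩ K, (volume K)⁻¹ := by
    unfold MX.unif
    rw [Measure.smul_apply, Measure.restrict_apply hs, smul_eq_mul, setLIntegral_const]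
  rw [h1, Measure.smul_apply, withDensity_apply _ hs, smul_eq_mul,
    ← lintegral_const_mul' _ _ ENNReal.coe_ne_top]
  have h2 : ∫⁻ _ in s ∩ K, (volume K)⁻¹ ≤
      ∫⁻ x in s ∩ K, (C.toNNReal : ℝ≥0∞) * ENNReal.ofReal (m x) := by
    refine setLIntegral_mono' (hs.inter hK) fun x hx => ?_
    have h3 := h x hx.2
    have h4 : (1 : ℝ≥0∞) ≤ ((C.toNNReal : ℝ≥0∞) * ENNReal.ofReal (m x)) * volume K := by
      have h5 : ENNReal.ofReal 1 ≤ ENNReal.ofReal (C * (volume K).toReal * m x) :=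
        ENNReal.ofReal_le_ofReal h3
      rw [ENNReal.ofReal_one, ENNReal.ofReal_mul (by positivity), ENNReal.ofReal_mul hC,
        ENNReal.ofReal_toReal hf] at h5
      refine h5.trans (le_of_eq ?_)
      change ENNReal.ofReal C * volume K * ENNReal.ofReal (m x) =
        ENNReal.ofReal C * ENNReal.ofReal (m x) * volume K
      ring
    calc (volume K)⁻¹ = 1 * (volume K)⁻¹ := (one_mul _).symm
      _ ≤ ((C.toNNReal : ℝ≥0∞) * ENNReal.ofReal (m x)) * volume K * (volume K)⁻¹ := by gcongr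
      _ = (C.toNNReal : ℝ≥0∞) * ENNReal.ofReal (m x) := by
        rw [mul_assoc, ENNReal.mul_inv_cancel h0.ne' hf, mul_one]
  exact h2.trans (lintegral_mono_set inter_subset_left)

private theorem mx_le {E : Type} [NormedAddCommGroup E] [NormedSpace ℝ E] [MeasureSpace E]
    {ν μ : Measure E} {c : ℝ≥0∞} (h : ν ≤ c • μ) (S : Finset ℝ) (f : E → ℝ≥0∞) (x : E) :
    MX.mx ν S f x ≤ c * MX.mx μ S f x := by
  unfold MX.mx
  refine iSup₂_le fun t ht => ?_
  refine (lintegral_mono' h le_rfl).trans ?_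
  rw [lintegral_smul_measure, smul_eq_mul]
  gcongr
  exact le_iSup₂ (f := fun (t : ℝ) (_ : t ∈ S) => ∫⁻ y, f (x + t • y) ∂μ) t ht

theorem loc_of_cfg (p r L C1 : ℝ) (hp : 1 < p) (hr : 0 < r) (hL : 0 < L) (hC1 : 0 ≤ C1) :
    ∃ D : ℝ≥0, ∀ (E : Type) [NormedAddCommGroup E] [NormedSpace ℝ E]
      [FiniteDimensional ℝ E] [MeasureSpace E] [BorelSpace E]
      [Measure.IsAddHaarMeasure (volume : Measure E)] (Ψ : E → ℝ≥0∞) (S lam : ℝ), Cfg p r L C1 S lam Ψ →
      LocE p (D : ℝ≥0∞) (MX.unif {x | Ψ x ≤ ENNReal.ofReal lam}) := by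
  obtain ⟨C, hC, H⟩ := glob p r L C1 hp hr hL hC1
  obtain ⟨D, hD⟩ := chain p r C hp hr hC.le
  refine ⟨C.toNNReal * D, ?_⟩
  intro E _ _ _ _ _ _ Ψ S lam hc
  obtain ⟨m, m1, m2, m3, m4, m5, m6⟩ := H E Ψ S lam hc
  have hloc := hD E m m1 m2 m3 m4 m6
  have hK : MeasurableSet {x | Ψ x ≤ ENNReal.ofReal lam} := hc.meas measurableSet_Iic
  have hprob : IsProbabilityMeasure (MX.unif {x | Ψ x ≤ ENNReal.ofReal lam}) := by
    constructor
    unfold MX.unif
    rw [Measure.smul_apply, Measure.restrict_apply MeasurableSet.univ, univ_inter, smul_eq_mul,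
      ENNReal.inv_mul_cancel hc.bpos.ne' hc.bfin]
  have hle := unif_le hK hc.bpos hc.bfin hC.le fun x hx => m5 x hx
  apply ext_E hp.le
  intro k T hT f f1 f2 f3
  have hp0 : 0 ≤ p := by linarith
  calc ∫⁻ x, MX.mx (MX.unif {x | Ψ x ≤ ENNReal.ofReal lam}) T (fun y => ENNReal.ofReal (f y)) x ^ p
      ≤ ∫⁻ x, ((C.toNNReal : ℝ≥0∞) * MX.mx (volume.withDensity fun x => ENNReal.ofReal (m x)) T
          (fun y => ENNReal.ofReal (f y)) x) ^ p := by
        refine lintegral_mono fun x => ?_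
        exact ENNReal.rpow_le_rpow (mx_le hle T _ x) hp0
    _ = (C.toNNReal : ℝ≥0∞) ^ p * ∫⁻ x, MX.mx (volume.withDensity fun x => ENNReal.ofReal (m x)) T
          (fun y => ENNReal.ofReal (f y)) x ^ p := by
        rw [← lintegral_const_mul' _ _ (ENNReal.rpow_ne_top_of_nonneg hp0 ENNReal.coe_ne_top)]
        refine lintegral_congr fun x => ?_
        rw [ENNReal.mul_rpow_of_nonneg _ _ hp0]
    _ ≤ (C.toNNReal : ℝ≥0∞) ^ p * ((D : ℝ≥0∞) ^ p * ∫⁻ x, ENNReal.ofReal (f x) ^ p) := by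
        gcongr
        exact hloc k T hT f f1 f2 f3
    _ = ((C.toNNReal * D : ℝ≥0) : ℝ≥0∞) ^ p * ∫⁻ x, ENNReal.ofReal (f x) ^ p := by
        rw [ENNReal.coe_mul, ENNReal.mul_rpow_of_nonneg _ _ hp0, mul_assoc]

end Pool.Agent.MO
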