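import Pool.Agent.MO.CfgO
import Pool.Agent.MO.LocU
import Pool.Agent.MO.Body
import Pool.Agent.MO.CVb

/-!
# MO-FinO: Theorem O (assembly)
-/

set_option autoImplicit false

open MeasureTheory Set
open scoped Pointwise ENNReal NNReal

namespace Pool.Agent.MO

theorem fin_O (k : ℕ) {p : ℝ} (hp : 1 < p) (hp2 : p ≤ 2) :
    ∃ C : ℝ≥0, ∀ (m : ℕ) (n : Fin m → ℕ), (∀ j, n j ≤ k) →
      ∀ φ : ∀ j, (Fin (n j) → ℝ) → ℝ≥0∞, (∀ j, CV (φ j)) →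
      IsCompact {x : (∀ j, Fin (n j) → ℝ) | ∑ j, φ j (x j) ≤ 1} →
      (interior {x : (∀ j, Fin (n j) → ℝ) | ∑ j, φ j (x j) ≤ 1}).Nonempty →
      MX.Bdd p (C : ℝ≥0∞) {x : (∀ j, Fin (n j) → ℝ) | ∑ j, φ j (x j) ≤ 1} := by
  have h1 : 1 < (1 + p) / 2 := by linarith
  have h2 : (1 + p) / 2 < p := by linarith
  have h3 : (1 + p) / 2 ≤ 2 := by linarith
  obtain ⟨r, L, hr, hL, h⟩ := cfg_pi k h1 h3
  obtain ⟨D, hD⟩ := loc_of_cfg ((1 + p) / 2) r L (Real.exp 2) h1 hr hL (Real.exp_pos 2).le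
  obtain ⟨C, hC⟩ := body_bdd h1 h2 hp2 D
  refine ⟨C, fun m n hn φ hφ hc hi => ?_⟩
  have hcv : CV (fun x : (∀ j, Fin (n j) → ℝ) => ∑ j, φ j (x j)) := CV.pi hφ
  have hpos : 0 < volume {x : (∀ j, Fin (n j) → ℝ) | ∑ j, φ j (x j) ≤ 1} :=
    lt_of_lt_of_le (isOpen_interior.measure_pos volume hi) (measure_mono interior_subset)
  obtain ⟨S, lam, Ψ, hΨ, he⟩ := h m n hn φ hφ hc hpos
  have hloc := hD _ Ψ S lam hΨ
  rw [he] at hloc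
  refine hC _ _ hc ?_ hi ?_ hloc
  · exact hcv.convex 1
  · intro x hx
    have := hcv.even x
    simp only [mem_setOf_eq] at hx ⊢
    rw [this]
    exact hx

/-- The explicit form. -/
theorem fin_O_explicit (k : ℕ) {p : ℝ} (hp : 1 < p) (hp2 : p ≤ 2) :
    ∃ C : ℝ, ∀ (m : ℕ) (n : Fin m → ℕ), (∀ j, n j ≤ k) →
      ∀ φ : ∀ j, (Fin (n j) → ℝ) → ℝ≥0∞,
      (∀ j, Measurable (φ j)) → (∀ j, φ j 0 = 0) → (∀ j x, φ j (-x) = φ j x) →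
      (∀ (j) (x y : Fin (n j) → ℝ) (a b : ℝ≥0), a + b = 1 →
        φ j (a • x + b • y) ≤ a * φ j x + b * φ j y) →
      ∀ B : Set (∀ j, Fin (n j) → ℝ), B = {x | ∑ j, φ j (x j) ≤ 1} →
      IsCompact B → (interior B).Nonempty → volume B = 1 →
        ∀ f : (∀ j, Fin (n j) → ℝ) → ℝ, Measurable f →
          ∫⁻ x, (⨆ t : ℝ, ⨆ (_ : 0 < t),
              (∫⁻ y in t • B, ‖f (x + y)‖ₑ) / ENNReal.ofReal (t ^ ∑ j, n j)) ^ p ≤
            ENNReal.ofReal C * ∫⁻ x, ‖f x‖ₑ ^ p := by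
  obtain ⟨C, hC⟩ := fin_O k hp hp2
  refine ⟨(C : ℝ) ^ p, fun m n hn φ g1 g2 g3 g4 B hB hB1 hB2 hB3 f hf => ?_⟩
  have h := hC m n hn φ (fun j => ⟨g1 j, g3 j, g2 j, g4 j⟩) (by rw [← hB]; exact hB1)
    (by rw [← hB]; exact hB2)
  rw [← hB] at h
  have h := h f hf
  have hp0 : 0 ≤ p := by linarith
  have e1 : ENNReal.ofReal ((C : ℝ) ^ p) = (C : ℝ≥0∞) ^ p := by
    rw [← ENNReal.ofReal_rpow_of_nonneg (NNReal.coe_nonneg C) hp0, ENNReal.ofReal_coe_nnreal]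
  rw [e1]
  refine le_trans (le_of_eq ?_) h
  refine lintegral_congr fun x => ?_
  congr 1
  unfold MX.maxF
  refine iSup_congr fun t => iSup_congr fun ht => ?_
  have e2 : Module.finrank ℝ (∀ j, Fin (n j) → ℝ) = ∑ j, n j := by
    rw [Module.finrank_pi_fintype]
    refine Finset.sum_congr rfl fun j _ => ?_
    rw [Module.finrank_pi, Fintype.card_fin]
  rw [Measure.addHaar_smul, hB3, mul_one]
  congr 2
  rw [e2, abs_of_pos (pow_pos ht _)]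

end Pool.Agent.MO
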