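import Pool.Agent.MO.Sc3

/-!
# MO-Sc4: three points, change of base

`1 < p ≤ 2`.
`three`: `M1 = max ‖u‖ ‖w‖`, `M2 = max ‖w‖ ‖v‖`. If `M2 = 0` then `w = v = 0`, the left side is `0`. If `M1 = 0` the
left side is `0`. By `sub_le_dd`, `Jp_sub_le`, `sub_le_dd`: left side `≤ 2 M1^(1-p/2) √d * 2 M2^(p-2) * 2 M2^(1-p/2) √d'
= 8 (M1/M2)^(1-p/2) √d √d'` with `d = dd u w`, `d' = dd w v`.
Case `M1^(p/2) ≤ 2 M2^(p/2)`: `(M1/M2)^(1-p/2) = ((M1/M2)^(p/2))^(2/p-1) ≤ 2` (`0 ≤ 2/p-1 ≤ 1`), and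
`16 √d √d' ≤ 8 (d + d')`.
Case `M1^(p/2) > 2 M2^(p/2)`: then `M1 = ‖u‖` (else `M1 = ‖w‖ ≤ M2`), `‖w‖^(p/2) ≤ ‖u‖^(p/2)/2`,
`√d = ‖ph u - ph w‖ ≥ ‖u‖^(p/2)/2`, `√d' ≤ ‖w‖^(p/2) + ‖v‖^(p/2) ≤ 2 M2^(p/2)`, so
`(M1/M2)^(1-p/2) √d' ≤ 2 M1^(1-p/2) M2^(p-1) ≤ 2 M1^(p/2) ≤ 4 √d` (`M2 ≤ M1`, `p - 1 ≥ 0`); total `≤ 32 d`.
`qq_scale`: `δ = 0`: `g = 0`. Else `m = max u h`: if `m = 0` both sides are `0` (`0 ^ 2 * _`). `g^2 max(u,g)^(p-2)`
is monotone in `g` (`g^2 * max(u,g)^(p-2)`: for `g ≤ g'`, if `g' ≤ u` clear; in general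
`g^2 (max u g)^(p-2) ≤ g'^2 (max u g')^(p-2)` because `(max u g')/(max u g) ≤ g'/g` and `2-p ≤ 2`... write it as
`(g/m)^2 m^p` and compare; or treat the cases `g ≤ u`, `u < g`: for `u < g` it is `g^p`), then
`max u (δ h) ≥ δ max u h` gives `(δ h)^2 (max u (δ h))^(p-2) ≤ δ^2 h^2 δ^(p-2) (max u h)^(p-2)`.
`qq_base`: if `‖w‖/4 ≤ ‖u‖`: `max ‖u‖ h ≥ max ‖w‖ h / 4`, `4^(2-p) ≤ 4`. Else `‖ph w‖ - ‖ph u‖ ≥
‖w‖^(p/2) (1 - 4^(-p/2)) ≥ ‖w‖^(p/2)/2` so `‖w‖^p ≤ 4 dd`; always `qq p h t ≤ h^p` (`h ≥ 0`); if `h ≥ ‖w‖`,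
`qq p h ‖w‖ = h^p`; else `h^p ≤ ‖w‖^p`.
`qq_le_pow`: `max u h ≥ h`, `p - 2 ≤ 0`. `qq_le_sq`: `max u h ≥ u`.
`Br_qq`: `Br_le`, `dd_le_sub` (with `a = u + g`, `b = u`), `M = max ‖u+g‖ ‖u‖ ≥ (max ‖u‖ ‖g‖)/2`, `2^(2-p) ≤ 2`.
-/

set_option autoImplicit false

open MeasureTheory Set
open scoped ENNReal NNReal

namespace Pool.Agent.MO

private theorem sqrt_dd (p : ℝ) (a b : ℂ) : Real.sqrt (dd p a b) = ‖ph p a - ph p b‖ := by
  unfold dd
  exact Real.sqrt_sq (norm_nonneg _)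

theorem three {p : ℝ} (hp : 1 < p) (hp2 : p ≤ 2) (u w v : ℂ) :
    ‖u - w‖ * ‖Jp p w - Jp p v‖ ≤ 32 * (dd p u w + dd p w v) := by
  have hd := dd_nonneg p u w
  have hd' := dd_nonneg p w v
  have hp0 : 0 < p := by linarith
  rcases (le_max_of_le_left (norm_nonneg u) : 0 ≤ max ‖u‖ ‖w‖).eq_or_lt with hM1 | hM1
  · have h1 : ‖u‖ ≤ 0 := hM1 ▸ le_max_left _ _
    have h2 : ‖w‖ ≤ 0 := hM1 ▸ le_max_right _ _
    rw [norm_le_zero_iff.1 h1, norm_le_zero_iff.1 h2, sub_zero, norm_zero, zero_mul]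
    have := dd_nonneg p 0 0
    have := dd_nonneg p 0 v
    positivity
  rcases (le_max_of_le_left (norm_nonneg w) : 0 ≤ max ‖w‖ ‖v‖).eq_or_lt with hM2 | hM2
  · have h1 : ‖w‖ ≤ 0 := hM2 ▸ le_max_left _ _
    have h2 : ‖v‖ ≤ 0 := hM2 ▸ le_max_right _ _
    rw [norm_le_zero_iff.1 h1, norm_le_zero_iff.1 h2, sub_self (Jp p 0), norm_zero, mul_zero]
    have := dd_nonneg p u 0
    have := dd_nonneg p 0 0
    positivity
  have hA := sub_le_dd hp hp2 u w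
  have hB := Jp_sub_le hp hp2 w v
  have hC := sub_le_dd hp hp2 w v
  obtain ⟨M1, hM1e⟩ : ∃ M1, M1 = max ‖u‖ ‖w‖ := ⟨_, rfl⟩
  obtain ⟨M2, hM2e⟩ : ∃ M2, M2 = max ‖w‖ ‖v‖ := ⟨_, rfl⟩
  obtain ⟨r, hr⟩ : ∃ r, r = Real.sqrt (dd p u w) := ⟨_, rfl⟩
  obtain ⟨r', hr'⟩ : ∃ r', r' = Real.sqrt (dd p w v) := ⟨_, rfl⟩
  have hr0 : 0 ≤ r := hr ▸ Real.sqrt_nonneg _
  have hr0' : 0 ≤ r' := hr' ▸ Real.sqrt_nonneg _
  have hrd : dd p u w = r ^ 2 := by rw [hr, Real.sq_sqrt hd]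
  have hrd' : dd p w v = r' ^ 2 := by rw [hr', Real.sq_sqrt hd']
  rw [← hM1e] at hM1 hA
  rw [← hM2e] at hM2 hB hC
  rw [← hr] at hA
  rw [← hr'] at hC
  have hB' : ‖Jp p w - Jp p v‖ ≤ 4 * M2 ^ (p / 2 - 1) * r' := by
    have e : M2 ^ (p / 2 - 1) = M2 ^ (p - 2) * M2 ^ (1 - p / 2) := by
      rw [← Real.rpow_add hM2]
      congr 1
      ring
    have h0 : 0 ≤ 2 * M2 ^ (p - 2) := by positivity
    calc ‖Jp p w - Jp p v‖ ≤ 2 * M2 ^ (p - 2) * ‖w - v‖ := hB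
      _ ≤ 2 * M2 ^ (p - 2) * (2 * M2 ^ (1 - p / 2) * r') := mul_le_mul_of_nonneg_left hC h0
      _ = 4 * M2 ^ (p / 2 - 1) * r' := by rw [e]; ring
  obtain ⟨κ, hκ⟩ : ∃ κ, κ = M1 ^ (1 - p / 2) * M2 ^ (p / 2 - 1) := ⟨_, rfl⟩
  have hκ0 : 0 ≤ κ := by rw [hκ]; positivity
  have hAB : ‖u - w‖ * ‖Jp p w - Jp p v‖ ≤ 8 * κ * r * r' := by
    have h0 : 0 ≤ 2 * M1 ^ (1 - p / 2) * r := by positivity
    calc ‖u - w‖ * ‖Jp p w - Jp p v‖
        ≤ (2 * M1 ^ (1 - p / 2) * r) * (4 * M2 ^ (p / 2 - 1) * r') :=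
          mul_le_mul hA hB' (norm_nonneg _) h0
      _ = 8 * κ * r * r' := by rw [hκ]; ring
  refine hAB.trans ?_
  rw [hrd, hrd']
  rcases le_or_gt (M1 ^ (p / 2)) (2 * M2 ^ (p / 2)) with hc | hc
  · have hκ2 : κ ≤ 2 := by
      have e1 : κ = ((M1 / M2) ^ (p / 2)) ^ (2 / p - 1) := by
        rw [← Real.rpow_mul (by positivity), hκ, Real.div_rpow hM1.le hM2.le]
        have e2 : p / 2 * (2 / p - 1) = 1 - p / 2 := by field_simp
        have e3 : M2 ^ (p / 2 - 1) = (M2 ^ (1 - p / 2))⁻¹ := by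
          rw [← Real.rpow_neg hM2.le, neg_sub]
        rw [e2, e3]
        exact (div_eq_mul_inv _ _).symm
      have h1 : (M1 / M2) ^ (p / 2) ≤ 2 := by
        rw [Real.div_rpow hM1.le hM2.le, div_le_iff₀ (by positivity)]
        exact hc
      have h2 : 0 ≤ 2 / p - 1 := by
        rw [sub_nonneg, le_div_iff₀ hp0]
        linarith
      have h3 : 2 / p - 1 ≤ 1 := by
        have : 2 / p ≤ 2 := by
          rw [div_le_iff₀ hp0]
          linarith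
        linarith
      rw [e1]
      calc ((M1 / M2) ^ (p / 2)) ^ (2 / p - 1) ≤ (2 : ℝ) ^ (2 / p - 1) :=
            Real.rpow_le_rpow (by positivity) h1 h2
        _ ≤ (2 : ℝ) ^ (1 : ℝ) := Real.rpow_le_rpow_of_exponent_le (by norm_num) h3
        _ = 2 := Real.rpow_one 2
    have h4 : κ * (r * r') ≤ 2 * (r * r') := mul_le_mul_of_nonneg_right hκ2 (by positivity)
    nlinarith [sq_nonneg (r - r'), sq_nonneg r, sq_nonneg r']
  · have hlt : M2 < M1 := by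
      by_contra h
      rw [not_lt] at h
      have h1 := Real.rpow_le_rpow hM1.le h (by positivity : 0 ≤ p / 2)
      have h2 : 0 < M2 ^ (p / 2) := by positivity
      linarith
    have hw1 : ‖w‖ ≤ M2 := hM2e ▸ le_max_left _ _
    have hv1 : ‖v‖ ≤ M2 := hM2e ▸ le_max_right _ _
    have hu1 : M1 = ‖u‖ := by
      rcases max_choice ‖u‖ ‖w‖ with h | h
      · rw [hM1e, h]
      · rw [h] at hM1e
        linarith
    have hw2 : ‖w‖ ^ (p / 2) ≤ M2 ^ (p / 2) :=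
      Real.rpow_le_rpow (norm_nonneg _) hw1 (by positivity)
    have hv2 : ‖v‖ ^ (p / 2) ≤ M2 ^ (p / 2) :=
      Real.rpow_le_rpow (norm_nonneg _) hv1 (by positivity)
    have h3 : M1 ^ (p / 2) ≤ 2 * r := by
      have h4 : ‖ph p u‖ - ‖ph p w‖ ≤ r := by
        rw [hr, sqrt_dd]
        exact norm_sub_norm_le _ _
      rw [ph_norm hp0, ph_norm hp0, ← hu1] at h4
      linarith
    have h5 : r' ≤ 2 * M2 ^ (p / 2) := by
      have h6 : r' ≤ ‖ph p w‖ + ‖ph p v‖ := by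
        rw [hr', sqrt_dd]
        exact norm_sub_le _ _
      rw [ph_norm hp0, ph_norm hp0] at h6
      linarith
    have h7 : κ * r' ≤ 4 * r := by
      have e1 : M2 ^ (p / 2 - 1) * M2 ^ (p / 2) = M2 ^ (p - 1) := by
        rw [← Real.rpow_add hM2]
        congr 1
        ring
      have e2 : M1 ^ (1 - p / 2) * M1 ^ (p - 1) = M1 ^ (p / 2) := by
        rw [← Real.rpow_add hM1]
        congr 1
        ring
      have h8 : M2 ^ (p - 1) ≤ M1 ^ (p - 1) :=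
        Real.rpow_le_rpow hM2.le hlt.le (by linarith)
      calc κ * r' ≤ κ * (2 * M2 ^ (p / 2)) := mul_le_mul_of_nonneg_left h5 hκ0
        _ = 2 * (M1 ^ (1 - p / 2) * (M2 ^ (p / 2 - 1) * M2 ^ (p / 2))) := by rw [hκ]; ring
        _ ≤ 2 * (M1 ^ (1 - p / 2) * M1 ^ (p - 1)) := by
            rw [e1]
            exact mul_le_mul_of_nonneg_left
              (mul_le_mul_of_nonneg_left h8 (by positivity)) (by norm_num)
        _ ≤ 4 * r := by rw [e2]; linarith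
    have h9 : κ * r' * r ≤ 4 * r * r := mul_le_mul_of_nonneg_right h7 hr0
    nlinarith [sq_nonneg r']

theorem qq_nonneg (p : ℝ) {h u : ℝ} (hh : 0 ≤ h) : 0 ≤ qq p h u := by
  unfold qq
  exact mul_nonneg (sq_nonneg h) (Real.rpow_nonneg (le_max_of_le_right hh) _)

theorem qq_scale {p : ℝ} (hp : 1 < p) (hp2 : p ≤ 2) {δ g h u : ℝ} (hδ : 0 ≤ δ) (hδ1 : δ ≤ 1)
    (hg : 0 ≤ g) (hgh : g ≤ δ * h) (hh : 0 ≤ h) (hu : 0 ≤ u) :
    qq p g u ≤ δ ^ p * qq p h u := by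
  rcases hg.eq_or_lt with hg0 | hg0
  · have h1 := qq_nonneg p (u := u) hh
    have h2 : qq p g u = 0 := by
      unfold qq
      rw [← hg0]
      ring
    rw [h2]
    positivity
  have hh0 : 0 < h := by
    rcases hh.eq_or_lt with h1 | h1
    · rw [← h1, mul_zero] at hgh
      linarith
    · exact h1
  unfold qq
  obtain ⟨t, ht⟩ : ∃ t, t = g / h := ⟨_, rfl⟩
  have ht0 : 0 < t := by rw [ht]; positivity
  have htδ : t ≤ δ := by rw [ht, div_le_iff₀ hh0]; exact hgh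
  have hgt : g = t * h := by rw [ht]; field_simp
  have hm : 0 < max u h := lt_max_of_lt_right hh0
  have hmn : t * max u h ≤ max u g := by
    rw [mul_max_of_nonneg _ _ ht0.le]
    refine max_le ?_ ?_
    · refine le_trans ?_ (le_max_left _ _)
      nlinarith
    · rw [hgt]
      exact le_max_right _ _
  have h1 : (max u g) ^ (p - 2) ≤ (t * max u h) ^ (p - 2) :=
    Real.rpow_le_rpow_of_nonpos (by positivity) hmn (by linarith)
  rw [Real.mul_rpow ht0.le hm.le] at h1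
  have h2 : t ^ p = t ^ 2 * t ^ (p - 2) := by
    rw [← Real.rpow_natCast t 2, ← Real.rpow_add ht0]
    congr 1
    push_cast
    ring
  have h3 : t ^ p ≤ δ ^ p := Real.rpow_le_rpow ht0.le htδ (by linarith)
  calc g ^ 2 * (max u g) ^ (p - 2) ≤ g ^ 2 * (t ^ (p - 2) * (max u h) ^ (p - 2)) :=
        mul_le_mul_of_nonneg_left h1 (sq_nonneg g)
    _ = t ^ p * (h ^ 2 * (max u h) ^ (p - 2)) := by rw [h2, hgt]; ring
    _ ≤ δ ^ p * (h ^ 2 * (max u h) ^ (p - 2)) :=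
        mul_le_mul_of_nonneg_right h3 (by positivity)

theorem qq_le_pow {p : ℝ} (hp : 1 < p) (hp2 : p ≤ 2) {h u : ℝ} (hh : 0 ≤ h) (hu : 0 ≤ u) :
    qq p h u ≤ h ^ p := by
  unfold qq
  rcases hh.eq_or_lt with hh0 | hh0
  · rw [← hh0, Real.zero_rpow (by linarith)]
    simp
  · have h1 : (max u h) ^ (p - 2) ≤ h ^ (p - 2) :=
      Real.rpow_le_rpow_of_nonpos hh0 (le_max_right _ _) (by linarith)
    have h2 : h ^ p = h ^ 2 * h ^ (p - 2) := by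
      rw [← Real.rpow_natCast h 2, ← Real.rpow_add hh0]
      congr 1
      push_cast
      ring
    rw [h2]
    exact mul_le_mul_of_nonneg_left h1 (sq_nonneg h)

theorem qq_le_sq {p : ℝ} (hp : 1 < p) (hp2 : p ≤ 2) {h u : ℝ} (hh : 0 ≤ h) (hu : 0 < u) :
    qq p h u ≤ h ^ 2 * u ^ (p - 2) := by
  unfold qq
  exact mul_le_mul_of_nonneg_left
    (Real.rpow_le_rpow_of_nonpos hu (le_max_left _ _) (by linarith)) (sq_nonneg h)

theorem qq_base {p : ℝ} (hp : 1 < p) (hp2 : p ≤ 2) {h : ℝ} (hh : 0 ≤ h) (u w : ℂ) :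
    qq p h ‖u‖ ≤ 4 * qq p h ‖w‖ + 4 * dd p u w := by
  have hd := dd_nonneg p u w
  have hp0 : 0 < p := by linarith
  rcases hh.eq_or_lt with hh0 | hh0
  · have h1 := qq_nonneg p (u := ‖w‖) hh
    have h2 : qq p h ‖u‖ = 0 := by
      unfold qq
      rw [← hh0]
      ring
    rw [h2]
    positivity
  rcases le_or_gt (‖w‖ / 4) ‖u‖ with hc | hc
  · have hm : 0 < max ‖w‖ h := lt_max_of_lt_right hh0
    have h1 : max ‖w‖ h * (1 / 4) ≤ max ‖u‖ h := by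
      rw [max_mul_of_nonneg _ _ (by norm_num)]
      refine max_le ?_ ?_
      · refine le_trans ?_ (le_max_left _ _)
        linarith
      · refine le_trans ?_ (le_max_right _ _)
        linarith
    have h2 : (max ‖u‖ h) ^ (p - 2) ≤ (max ‖w‖ h * (1 / 4)) ^ (p - 2) :=
      Real.rpow_le_rpow_of_nonpos (by positivity) h1 (by linarith)
    rw [Real.mul_rpow hm.le (by norm_num)] at h2
    have h3 : ((1 : ℝ) / 4) ^ (p - 2) ≤ 4 := by
      have e : ((1 : ℝ) / 4) ^ (p - 2) = (4 : ℝ) ^ (2 - p) := by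
        rw [one_div, Real.inv_rpow (by norm_num), ← Real.rpow_neg (by norm_num)]
        congr 1
        ring
      rw [e]
      calc (4 : ℝ) ^ (2 - p) ≤ (4 : ℝ) ^ (1 : ℝ) :=
            Real.rpow_le_rpow_of_exponent_le (by norm_num) (by linarith)
        _ = 4 := Real.rpow_one 4
    have h4 : (max ‖u‖ h) ^ (p - 2) ≤ (max ‖w‖ h) ^ (p - 2) * 4 :=
      h2.trans (mul_le_mul_of_nonneg_left h3 (by positivity))
    have h5 : qq p h ‖u‖ ≤ 4 * qq p h ‖w‖ := by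
      unfold qq
      calc h ^ 2 * (max ‖u‖ h) ^ (p - 2) ≤ h ^ 2 * ((max ‖w‖ h) ^ (p - 2) * 4) :=
            mul_le_mul_of_nonneg_left h4 (sq_nonneg h)
        _ = 4 * (h ^ 2 * (max ‖w‖ h) ^ (p - 2)) := by ring
    linarith
  · have hw0 : 0 < ‖w‖ := by
      have := norm_nonneg u
      linarith
    have h1 : ‖u‖ ^ (p / 2) ≤ ‖w‖ ^ (p / 2) * (1 / 2) := by
      have h2 : ‖u‖ ^ (p / 2) ≤ (‖w‖ * (1 / 4)) ^ (p / 2) :=
        Real.rpow_le_rpow (norm_nonneg _) (by linarith) (by positivity)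
      rw [Real.mul_rpow hw0.le (by norm_num)] at h2
      have h3 : ((1 : ℝ) / 4) ^ (p / 2) ≤ 1 / 2 := by
        have e : ((1 : ℝ) / 4) ^ (p / 2) = ((1 : ℝ) / 2) ^ p := by
          have e1 : (1 : ℝ) / 4 = (1 / 2) ^ (2 : ℝ) := by
            rw [Real.rpow_two]
            norm_num
          rw [e1, ← Real.rpow_mul (by norm_num)]
          congr 1
          ring
        rw [e]
        calc ((1 : ℝ) / 2) ^ p ≤ ((1 : ℝ) / 2) ^ (1 : ℝ) :=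
              Real.rpow_le_rpow_of_exponent_ge (by norm_num) (by norm_num) hp.le
          _ = 1 / 2 := Real.rpow_one _
      exact h2.trans (mul_le_mul_of_nonneg_left h3 (by positivity))
    have h4 : ‖w‖ ^ (p / 2) ≤ 2 * ‖ph p u - ph p w‖ := by
      have h5 : ‖ph p w‖ - ‖ph p u‖ ≤ ‖ph p w - ph p u‖ := norm_sub_norm_le _ _
      rw [ph_norm hp0, ph_norm hp0, norm_sub_rev] at h5
      linarith
    have h6 : ‖w‖ ^ p ≤ 4 * dd p u w := by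
      have e : ‖w‖ ^ p = (‖w‖ ^ (p / 2)) ^ 2 := by
        rw [← Real.rpow_natCast, ← Real.rpow_mul hw0.le]
        congr 1
        push_cast
        ring
      have h7 : (‖w‖ ^ (p / 2)) ^ 2 ≤ (2 * ‖ph p u - ph p w‖) ^ 2 :=
        pow_le_pow_left₀ (by positivity) h4 2
      unfold dd
      rw [e]
      calc (‖w‖ ^ (p / 2)) ^ 2 ≤ (2 * ‖ph p u - ph p w‖) ^ 2 := h7
        _ = 4 * ‖ph p u - ph p w‖ ^ 2 := by ring
    have h8 := qq_le_pow hp hp2 hh (norm_nonneg u)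
    rcases le_or_gt ‖w‖ h with h9 | h9
    · have e : qq p h ‖w‖ = h ^ p := by
        unfold qq
        rw [max_eq_right h9, ← Real.rpow_natCast h 2, ← Real.rpow_add hh0]
        congr 1
        push_cast
        ring
      have h10 : 0 ≤ h ^ p := by positivity
      rw [e]
      linarith
    · have h10 : h ^ p ≤ ‖w‖ ^ p := Real.rpow_le_rpow hh h9.le hp0.le
      have h11 := qq_nonneg p (u := ‖w‖) hh
      linarith

theorem Br_qq {p : ℝ} (hp : 1 < p) (hp2 : p ≤ 2) (u g : ℂ) :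
    Br p (u + g) u ≤ 64 * p * qq p ‖g‖ ‖u‖ := by
  have hp0 : 0 < p := by linarith
  have h1 := Br_le hp hp2 (u + g) u
  have h2 := dd_le_sub hp hp2 (u + g) u
  rw [add_sub_cancel_left] at h2
  have h3 : Br p (u + g) u ≤ 32 * p * ((max ‖u + g‖ ‖u‖) ^ (p - 2) * ‖g‖ ^ 2) := by
    have := mul_le_mul_of_nonneg_left h2 (by positivity : 0 ≤ 8 * p)
    linarith
  rcases (norm_nonneg g).eq_or_lt with hg | hg
  · rw [← hg] at h3 ⊢
    have h4 := qq_nonneg p (u := ‖u‖) (le_refl (0 : ℝ))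
    have h5 : 32 * p * ((max ‖u + g‖ ‖u‖) ^ (p - 2) * (0 : ℝ) ^ 2) = 0 := by ring
    rw [h5] at h3
    exact h3.trans (by positivity)
  have hN : 0 < max ‖u‖ ‖g‖ := lt_max_of_lt_right hg
  have h4 : max ‖u‖ ‖g‖ * (1 / 2) ≤ max ‖u + g‖ ‖u‖ := by
    rw [max_mul_of_nonneg _ _ (by norm_num)]
    refine max_le ?_ ?_
    · refine le_trans ?_ (le_max_right _ _)
      have := norm_nonneg u
      linarith
    · have h5 : ‖g‖ ≤ ‖u + g‖ + ‖u‖ := by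
        have h6 := norm_sub_le (u + g) u
        rwa [add_sub_cancel_left] at h6
      have h7 := le_max_left ‖u + g‖ ‖u‖
      have h8 := le_max_right ‖u + g‖ ‖u‖
      linarith
  have h5 : (max ‖u + g‖ ‖u‖) ^ (p - 2) ≤ (max ‖u‖ ‖g‖ * (1 / 2)) ^ (p - 2) :=
    Real.rpow_le_rpow_of_nonpos (by positivity) h4 (by linarith)
  rw [Real.mul_rpow hN.le (by norm_num)] at h5
  have h6 : ((1 : ℝ) / 2) ^ (p - 2) ≤ 2 := by
    have e : ((1 : ℝ) / 2) ^ (p - 2) = (2 : ℝ) ^ (2 - p) := by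
      rw [one_div, Real.inv_rpow (by norm_num), ← Real.rpow_neg (by norm_num)]
      congr 1
      ring
    rw [e]
    calc (2 : ℝ) ^ (2 - p) ≤ (2 : ℝ) ^ (1 : ℝ) :=
          Real.rpow_le_rpow_of_exponent_le (by norm_num) (by linarith)
      _ = 2 := Real.rpow_one 2
  have h7 : (max ‖u + g‖ ‖u‖) ^ (p - 2) ≤ (max ‖u‖ ‖g‖) ^ (p - 2) * 2 :=
    h5.trans (mul_le_mul_of_nonneg_left h6 (by positivity))
  unfold qq
  calc Br p (u + g) u ≤ 32 * p * ((max ‖u + g‖ ‖u‖) ^ (p - 2) * ‖g‖ ^ 2) := h3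
    _ ≤ 32 * p * (((max ‖u‖ ‖g‖) ^ (p - 2) * 2) * ‖g‖ ^ 2) :=
        mul_le_mul_of_nonneg_left (mul_le_mul_of_nonneg_right h7 (sq_nonneg _)) (by positivity)
    _ = 64 * p * (‖g‖ ^ 2 * (max ‖u‖ ‖g‖) ^ (p - 2)) := by ring

end Pool.Agent.MO
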