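import Pool.Agent.MO.Rho

/-!
# MO-Fub: Fubini for the quadratic quantities

`dd p (f(x+y)) (f x) ≤ 2(‖f(x+y)‖^p + ‖f x‖^p)`, `g = ‖f‖^p` integrable. `(x,y) ↦ s y * dd p (f(x+y)) (f x)` is
(strongly) measurable and dominated by `2 s y g(x+y) + 2 s y g x`, integrable on the product (product of integrable functions,
composed with the shear `(x,y) ↦ (x+y,y)` which preserves the product measure). Then `integral_integral_swap`, `rho_sq`.
`fub_aa`: the function of `(x,y,z)` is dominated by `2 a y a z (g(x+y) + g(x+z))`; inner `x`-integral is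
`rho_shift`. `int_aa`: integrability in `x` of the double integral.
-/

set_option autoImplicit false

open MeasureTheory Set
open scoped ENNReal NNReal

namespace Pool.Agent.MO

variable {E : Type} [NormedAddCommGroup E] [NormedSpace ℝ E] [FiniteDimensional ℝ E]
  [MeasureSpace E] [BorelSpace E] [Measure.IsAddHaarMeasure (volume : Measure E)]

/-- a bounded continuous function times an integrable one -/
private theorem fub_bdd {X : Type} [TopologicalSpace X] [MeasurableSpace X]
    [OpensMeasurableSpace X] {μ : Measure X} {u v : X → ℝ} (hu : Integrable u μ)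
    (hv : Continuous v) {C : ℝ} (hC : ∀ x, |v x| ≤ C) : Integrable (fun x => u x * v x) μ := by
  refine (hu.norm.mul_const C).mono' ?_ ?_
  · exact hu.aestronglyMeasurable.mul hv.measurable.aestronglyMeasurable
  · refine Filter.Eventually.of_forall fun x => ?_
    rw [norm_mul]
    exact mul_le_mul_of_nonneg_left (hC x) (norm_nonneg _)

private theorem fub_rho_sq_bdd {ρ : E → ℝ} (h : Adm ρ) : ∃ C, ∀ y, |ρ y ^ 2| ≤ C := by
  obtain ⟨C, hC⟩ := h.bdd
  refine ⟨C ^ 2, fun y => ?_⟩
  rw [abs_of_nonneg (sq_nonneg _)]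
  exact pow_le_pow_left₀ (h.nonneg y) (hC y) 2

private theorem fub_dd_cont {X : Type} [TopologicalSpace X] {p : ℝ} (hp0 : 0 < p) {u v : X → ℂ}
    (hu : Continuous u) (hv : Continuous v) : Continuous fun q : X => dd p (u q) (v q) := by
  have h2 := (dd_cont hp0).comp (hu.prodMk hv)
  simp only [Function.comp_def] at h2
  exact h2

private theorem fub_dd_meas {p : ℝ} (hp : 0 < p) {s : E → ℝ} (hs : Wt s) {f : E → ℂ}
    (hf : TF f) : Measurable (fun q : E × E => s q.2 * dd p (f (q.1 + q.2)) (f q.1)) := by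
  have h1 : Continuous fun q : E × E => f (q.1 + q.2) :=
    hf.1.comp (continuous_fst.add continuous_snd)
  have h3 : Continuous fun q : E × E => f q.1 := hf.1.comp continuous_fst
  have h2 : Measurable fun q : E × E => s q.2 := hs.meas.comp measurable_snd
  exact h2.mul (fub_dd_cont hp h1 h3).measurable

private theorem fub_aa_meas {p : ℝ} (hp : 0 < p) {a : E → ℝ} (ha : Dn a) {f : E → ℂ}
    (hf : TF f) : Measurable (fun t : E × (E × E) =>
      a t.2.1 * a t.2.2 * dd p (f (t.1 + t.2.1)) (f (t.1 + t.2.2))) := by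
  have h1 : Continuous fun t : E × (E × E) => f (t.1 + t.2.1) :=
    hf.1.comp (continuous_fst.add (continuous_fst.comp continuous_snd))
  have h3 : Continuous fun t : E × (E × E) => f (t.1 + t.2.2) :=
    hf.1.comp (continuous_fst.add (continuous_snd.comp continuous_snd))
  have h2 : Measurable fun t : E × (E × E) => a t.2.1 :=
    ha.meas.comp (measurable_fst.comp measurable_snd)
  have h4 : Measurable fun t : E × (E × E) => a t.2.2 :=
    ha.meas.comp (measurable_snd.comp measurable_snd)
  exact (h2.mul h4).mul (fub_dd_cont hp h1 h3).measurable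

private theorem fub_dd_int {p : ℝ} (hp : 1 < p) {s : E → ℝ} (hs : Wt s) {f : E → ℂ}
    (hf : TF f) : Integrable (Function.uncurry fun x y => s y * dd p (f (x + y)) (f x))
      (volume.prod volume) := by
  have hp0 : 0 < p := by linarith
  have hmeas : Measurable (Function.uncurry fun x y => s y * dd p (f (x + y)) (f x)) :=
    fub_dd_meas hp0 hs hf
  have hadm := adm_rho hp hf
  obtain ⟨C, hC⟩ := fub_rho_sq_bdd hadm
  rw [integrable_prod_iff' hmeas.aestronglyMeasurable]
  constructor
  · refine Filter.Eventually.of_forall fun y => ?_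
    have h1 := (dd_int hp hf y 0).const_mul (s y)
    simp only [add_zero] at h1
    exact h1
  · have h2 : (fun y => ∫ x, ‖Function.uncurry (fun x y => s y * dd p (f (x + y)) (f x))
        (x, y)‖) = fun y => s y * rho p f y ^ 2 := by
      funext y
      rw [rho_sq, ← integral_const_mul]
      refine integral_congr_ae (Filter.Eventually.of_forall fun x => ?_)
      show ‖s y * dd p (f (x + y)) (f x)‖ = s y * dd p (f (x + y)) (f x)
      rw [Real.norm_of_nonneg (mul_nonneg (hs.nonneg y) (dd_nonneg _ _ _))]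
    rw [h2]
    exact fub_bdd hs.int (hadm.cont.pow 2) hC

private theorem fub_pw_int {p : ℝ} (hp : 1 < p) {a : E → ℝ} (ha : Dn a) {f : E → ℂ}
    (hf : TF f) : Integrable (Function.uncurry fun x y => a y * ‖f (x + y)‖ ^ p)
      (volume.prod volume) := by
  have hp0 : 0 < p := by linarith
  have hcont : Continuous fun q : E × E => ‖f (q.1 + q.2)‖ ^ p :=
    (hf.1.comp (continuous_fst.add continuous_snd)).norm.rpow_const fun _ => Or.inr hp0.le
  have hmeas : Measurable (Function.uncurry fun x y => a y * ‖f (x + y)‖ ^ p) :=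
    (ha.meas.comp measurable_snd).mul hcont.measurable
  have hg := hf.int_pow hp.le
  rw [integrable_prod_iff' hmeas.aestronglyMeasurable]
  constructor
  · refine Filter.Eventually.of_forall fun y => ?_
    exact (hg.comp_add_right y).const_mul (a y)
  · have h2 : (fun y => ∫ x, ‖Function.uncurry (fun x y => a y * ‖f (x + y)‖ ^ p)
        (x, y)‖) = fun y => a y * ∫ x, ‖f x‖ ^ p := by
      funext y
      rw [← integral_add_right_eq_self (fun x => ‖f x‖ ^ p) y, ← integral_const_mul]
      refine integral_congr_ae (Filter.Eventually.of_forall fun x => ?_)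
      show ‖a y * ‖f (x + y)‖ ^ p‖ = a y * ‖f (x + y)‖ ^ p
      rw [Real.norm_of_nonneg (mul_nonneg (ha.nonneg y) (Real.rpow_nonneg (norm_nonneg _) _))]
    rw [h2]
    exact ha.int.mul_const _

private theorem fub_aa_int2 {p : ℝ} (hp : 1 < p) {a : E → ℝ} (ha : Dn a) {f : E → ℂ}
    (hf : TF f) : Integrable (fun q : E × E => a q.1 * a q.2 * rho p f (q.1 - q.2) ^ 2)
      (volume.prod volume) := by
  have hadm := adm_rho hp hf
  obtain ⟨C, hC⟩ := fub_rho_sq_bdd hadm
  exact fub_bdd (v := fun q : E × E => rho p f (q.1 - q.2) ^ 2) (ha.int.mul_prod ha.int)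
    ((hadm.cont.comp (continuous_fst.sub continuous_snd)).pow 2) fun q => hC _

private theorem fub_aa_int {p : ℝ} (hp : 1 < p) {a : E → ℝ} (ha : Dn a) {f : E → ℂ}
    (hf : TF f) : Integrable (Function.uncurry fun (x : E) (q : E × E) =>
      a q.1 * a q.2 * dd p (f (x + q.1)) (f (x + q.2))) (volume.prod (volume.prod volume)) := by
  have hp0 : 0 < p := by linarith
  have hmeas : Measurable (Function.uncurry fun (x : E) (q : E × E) =>
      a q.1 * a q.2 * dd p (f (x + q.1)) (f (x + q.2))) :=
    fub_aa_meas hp0 ha hf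
  rw [integrable_prod_iff' hmeas.aestronglyMeasurable]
  constructor
  · refine Filter.Eventually.of_forall fun q => ?_
    exact (dd_int hp hf q.1 q.2).const_mul (a q.1 * a q.2)
  · have h2 : (fun q : E × E => ∫ x, ‖Function.uncurry (fun (x : E) (q : E × E) =>
        a q.1 * a q.2 * dd p (f (x + q.1)) (f (x + q.2))) (x, q)‖) =
        fun q : E × E => a q.1 * a q.2 * rho p f (q.1 - q.2) ^ 2 := by
      funext q
      rw [← rho_shift hp hf q.1 q.2, ← integral_const_mul]
      refine integral_congr_ae (Filter.Eventually.of_forall fun x => ?_)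
      show ‖a q.1 * a q.2 * dd p (f (x + q.1)) (f (x + q.2))‖ =
        a q.1 * a q.2 * dd p (f (x + q.1)) (f (x + q.2))
      rw [Real.norm_of_nonneg (mul_nonneg (mul_nonneg (ha.nonneg _) (ha.nonneg _))
        (dd_nonneg _ _ _))]
    rw [h2]
    exact fub_aa_int2 hp ha hf

private theorem fub_aa_ae {p : ℝ} (hp : 1 < p) {a : E → ℝ} (ha : Dn a) {f : E → ℂ}
    (hf : TF f) : ∀ᵐ x : E, ∫ q : E × E, a q.1 * a q.2 * dd p (f (x + q.1)) (f (x + q.2)) ∂
      (volume.prod volume) = ∫ y, ∫ z, a y * a z * dd p (f (x + y)) (f (x + z)) := by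
  have h1 := (fub_aa_int hp ha hf).prod_right_ae
  filter_upwards [h1] with x hx
  exact integral_prod _ hx

theorem int_dd {p : ℝ} (hp : 1 < p) {s : E → ℝ} (hs : Wt s) {f : E → ℂ} (hf : TF f) :
    Integrable fun x => ∫ y, s y * dd p (f (x + y)) (f x) := by
  exact (fub_dd_int hp hs hf).integral_prod_left

theorem fub_dd {p : ℝ} (hp : 1 < p) {s : E → ℝ} (hs : Wt s) {f : E → ℂ} (hf : TF f) :
    ∫ x, ∫ y, s y * dd p (f (x + y)) (f x) = ∫ y, rho p f y ^ 2 * s y := by
  rw [integral_integral_swap (fub_dd_int hp hs hf)]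
  refine integral_congr_ae (Filter.Eventually.of_forall fun y => ?_)
  show ∫ x, s y * dd p (f (x + y)) (f x) = rho p f y ^ 2 * s y
  rw [integral_const_mul, rho_sq, mul_comm]

theorem int_pw {p : ℝ} (hp : 1 < p) {a : E → ℝ} (ha : Dn a) {f : E → ℂ} (hf : TF f) :
    Integrable fun x => ∫ y, a y * ‖f (x + y)‖ ^ p := by
  exact (fub_pw_int hp ha hf).integral_prod_left

theorem fub_pw {p : ℝ} (hp : 1 < p) {a : E → ℝ} (ha : Dn a) {f : E → ℂ} (hf : TF f) :
    ∫ x, ∫ y, a y * ‖f (x + y)‖ ^ p = ∫ x, ‖f x‖ ^ p := by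
  rw [integral_integral_swap (fub_pw_int hp ha hf)]
  have h1 : ∀ y, ∫ x, a y * ‖f (x + y)‖ ^ p = a y * ∫ x, ‖f x‖ ^ p := by
    intro y
    rw [integral_const_mul, integral_add_right_eq_self (fun x => ‖f x‖ ^ p) y]
  simp_rw [h1]
  rw [integral_mul_const, ha.one, one_mul]

theorem int_aa {p : ℝ} (hp : 1 < p) {a : E → ℝ} (ha : Dn a) {f : E → ℂ} (hf : TF f) :
    Integrable fun x => ∫ y, ∫ z, a y * a z * dd p (f (x + y)) (f (x + z)) := by
  have h1 := (fub_aa_int hp ha hf).integral_prod_left
  refine h1.congr ?_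
  filter_upwards [fub_aa_ae hp ha hf] with x hx
  exact hx

theorem fub_aa {p : ℝ} (hp : 1 < p) {a : E → ℝ} (ha : Dn a) {f : E → ℂ} (hf : TF f) :
    ∫ x, ∫ y, ∫ z, a y * a z * dd p (f (x + y)) (f (x + z)) = Dq a (rho p f) := by
  have h1 : ∫ x, ∫ y, ∫ z, a y * a z * dd p (f (x + y)) (f (x + z)) =
      ∫ x, ∫ q : E × E, a q.1 * a q.2 * dd p (f (x + q.1)) (f (x + q.2)) ∂
        (volume.prod volume) := by
    refine integral_congr_ae ?_
    filter_upwards [fub_aa_ae hp ha hf] with x hx
    exact hx.symm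
  rw [h1, integral_integral_swap (fub_aa_int hp ha hf)]
  have h2 : ∫ q : E × E, (∫ x, a q.1 * a q.2 * dd p (f (x + q.1)) (f (x + q.2))) ∂
      (volume.prod volume) = ∫ q : E × E, a q.1 * a q.2 * rho p f (q.1 - q.2) ^ 2 ∂
        (volume.prod volume) := by
    refine integral_congr_ae (Filter.Eventually.of_forall fun q => ?_)
    show ∫ x, a q.1 * a q.2 * dd p (f (x + q.1)) (f (x + q.2)) =
      a q.1 * a q.2 * rho p f (q.1 - q.2) ^ 2
    rw [integral_const_mul, rho_shift hp hf]
  rw [h2, integral_prod _ (fub_aa_int2 hp ha hf)]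
  rfl

end Pool.Agent.MO
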