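import Pool.Agent.MO.Mean
import Pool.Agent.MO.Fub

/-!
# MO-Zero: the zero-order term and the distance to the average

For the averaging operator `U x = op a f x = ∫ a y f(x+y)`: the norm of `U` is at most the norm of `f`
minus the energy (`zero_order`), the function `dd p (U x) (f x)` is integrable (`dd_U_int`) and its
integral is bounded by `∫ ρ^2 a` (`dd_U`).
-/

set_option autoImplicit false

open MeasureTheory Set
open scoped ENNReal NNReal

namespace Pool.Agent.MO

variable {E : Type} [NormedAddCommGroup E] [NormedSpace ℝ E] [FiniteDimensional ℝ E]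
  [MeasureSpace E] [BorelSpace E] [Measure.IsAddHaarMeasure (volume : Measure E)]

theorem zero_order {p : ℝ} (hp : 1 < p) (hp2 : p ≤ 2) {a : E → ℝ} (ha : Dn a) {f : E → ℂ}
    (hf : TF f) :
    ∫ x, ‖op (fun y => (a y : ℂ)) f x‖ ^ p ≤
      (∫ x, ‖f x‖ ^ p) - (p - 1) / 8 * Dq a (rho p f) := by
  have haC : Integrable fun y => (a y : ℂ) := ha.int.ofReal
  have h1 : ∀ x, ‖op (fun y => (a y : ℂ)) f x‖ ^ p ≤ (∫ y, a y * ‖f (x + y)‖ ^ p) -
      (p - 1) / 8 * ∫ y, ∫ z, a y * a z * dd p (f (x + y)) (f (x + z)) := by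
    intro x
    obtain ⟨C, hC⟩ := hf.bdd
    have h2 := var_low hp hp2 ha (w := fun y => f (x + y))
      (hf.1.comp (continuous_const.add continuous_id)) ⟨C, fun y => hC _⟩
    change _ ≤ (∫ y, a y * ‖f (x + y)‖ ^ p) - ‖op (fun y => (a y : ℂ)) f x‖ ^ p at h2
    linarith
  have i1 := int_pw hp ha hf
  have i2 := (int_aa hp ha hf).const_mul ((p - 1) / 8)
  have h3 := integral_mono (op_int_pow haC hf hp.le) (i1.sub i2) h1
  refine h3.trans (le_of_eq ?_)
  rw [← fub_pw hp ha hf, ← fub_aa hp ha hf, ← integral_const_mul]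
  exact integral_sub i1 i2

theorem dd_U_int {p : ℝ} (hp : 1 < p) {a : E → ℝ} (ha : Dn a) {f : E → ℂ} (hf : TF f) :
    Integrable fun x => dd p (op (fun y => (a y : ℂ)) f x) (f x) := by
  have haC : Integrable fun y => (a y : ℂ) := ha.int.ofReal
  have hp0 : 0 < p := by linarith
  have hU : Continuous (op (fun y => (a y : ℂ)) f) := op_cont haC hf
  have hUi : Integrable fun x => ‖op (fun y => (a y : ℂ)) f x‖ ^ p := op_int_pow haC hf hp.le
  have hfi : Integrable fun x => ‖f x‖ ^ p := hf.int_pow hp.le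
  generalize op (fun y => (a y : ℂ)) f = U at hU hUi ⊢
  have hc : Continuous fun x => dd p (U x) (f x) := by
    have h1 : Continuous fun x => (U x, f x) := hU.prodMk hf.1
    have h2 := (dd_cont hp0).comp h1
    rw [Function.comp_def] at h2
    convert h2 using 1
  have hb : Integrable fun x => 2 * (‖U x‖ ^ p + ‖f x‖ ^ p) := (hUi.add hfi).const_mul 2
  refine Integrable.mono' hb hc.aestronglyMeasurable (Filter.Eventually.of_forall fun x => ?_)
  rw [Real.norm_of_nonneg (dd_nonneg _ _ _)]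
  exact dd_bound hp0 _ _

theorem dd_U {p : ℝ} (hp : 1 < p) (hp2 : p ≤ 2) {a : E → ℝ} (ha : Dn a) {f : E → ℂ}
    (hf : TF f) :
    ∫ x, dd p (op (fun y => (a y : ℂ)) f x) (f x) ≤
      16 * p / (p - 1) * ∫ y, rho p f y ^ 2 * a y := by
  have h1 : ∀ x, dd p (op (fun y => (a y : ℂ)) f x) (f x) ≤
      16 * p / (p - 1) * ∫ y, a y * dd p (f (x + y)) (f x) := by
    intro x
    obtain ⟨C, hC⟩ := hf.bdd
    exact dd_mean hp hp2 ha (w := fun y => f (x + y))
      (hf.1.comp (continuous_const.add continuous_id)) ⟨C, fun y => hC _⟩ (f x)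
  have i1 := (int_dd hp ha.toWt hf).const_mul (16 * p / (p - 1))
  refine (integral_mono (dd_U_int hp ha hf) i1 h1).trans (le_of_eq ?_)
  rw [integral_const_mul, fub_dd hp ha.toWt hf]

end Pool.Agent.MO
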