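import Pool.Agent.MO.Sym
import Pool.Agent.MO.Zero
import Pool.Agent.MO.Sc4

/-!
# MO-First: the first-order term

`U = op a f`, `G = op D f`. `∫ G conj(Jp U) = ∫ G conj(Jp f) + ∫ G conj(Jp U - Jp f)`; the first is `sym_first`.
`G x = ∫ D y (f(x+y) - f x) dy` (`∫ D = 0`), so `‖G x‖ ‖Jp(U x) - Jp(f x)‖ ≤ δ ∫ s y ‖f(x+y) - f x‖ ‖Jp(f x) - Jp(U x)‖ dy ≤
32 δ ∫ s y (dd (f(x+y)) (f x) + dd (f x) (U x)) dy ≤ 32 δ (∫ s y dd(f(x+y))(f x) dy + dd (U x) (f x))`
(`three` with `u = f(x+y)`, `w = f x`, `v = U x`; `∫ s ≤ 1`). Integrate in `x`: `fub_dd`, `dd_U`.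
-/

set_option autoImplicit false

open MeasureTheory Set
open scoped ENNReal NNReal

namespace Pool.Agent.MO

variable {E : Type} [NormedAddCommGroup E] [NormedSpace ℝ E] [FiniteDimensional ℝ E]
  [MeasureSpace E] [BorelSpace E] [Measure.IsAddHaarMeasure (volume : Measure E)]

omit [Measure.IsAddHaarMeasure (volume : Measure E)] in
/-- a weight times a bounded continuous function is integrable -/
private theorem first_wt_int {s : E → ℝ} (hs : Wt s) {w : E → ℝ} (hw : Continuous w)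
    {C : ℝ} (hb : ∀ y, |w y| ≤ C) : Integrable fun y => s y * w y := by
  refine Integrable.mono' (hs.int.mul_const C)
    (hs.meas.aestronglyMeasurable.mul hw.aestronglyMeasurable) (ae_of_all _ ?_)
  intro y
  rw [norm_mul, Real.norm_eq_abs, Real.norm_eq_abs, abs_of_nonneg (hs.nonneg y)]
  exact mul_le_mul_of_nonneg_left (hb y) (hs.nonneg y)

omit [Measure.IsAddHaarMeasure (volume : Measure E)] in
/-- an integrable function times a bounded continuous function is integrable -/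
private theorem first_mul_int {g : E → ℂ} (hg : Integrable g) {w : E → ℂ}
    (hw : Continuous w) {C : ℝ} (hb : ∀ y, ‖w y‖ ≤ C) : Integrable fun y => g y * w y := by
  refine Integrable.mono' (hg.norm.mul_const C)
    (hg.aestronglyMeasurable.mul hw.aestronglyMeasurable) (ae_of_all _ ?_)
  intro y
  rw [norm_mul]
  exact mul_le_mul_of_nonneg_left (hb y) (norm_nonneg _)

private theorem first_jp_bdd {X : Type} {p : ℝ} (hp : 1 < p) {w : X → ℂ} {C : ℝ} (hb : ∀ y, ‖w y‖ ≤ C)
    (y : X) : ‖(starRingEnd ℂ) (Jp p (w y))‖ ≤ C ^ (p - 1) := by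
  rw [RCLike.norm_conj, Jp_norm hp]
  exact Real.rpow_le_rpow (norm_nonneg _) (hb y) (by linarith)

omit [Measure.IsAddHaarMeasure (volume : Measure E)] in
/-- the value of `op D f` -/
private theorem first_G {δ : ℝ} {s : E → ℝ} (hs : Wt s) {D : E → ℂ} (hD : Measurable D)
    (hD0 : ∫ y, D y = 0) (hDs : ∀ y, ‖D y‖ ≤ δ * s y) {f : E → ℂ} (hf : Continuous f) {C : ℝ}
    (hC : ∀ x, ‖f x‖ ≤ C) (x : E) : ‖op D f x‖ ≤ ∫ y, δ * (s y * ‖f (x + y) - f x‖) := by
  have hDint : Integrable D := Integrable.mono' (hs.int.const_mul δ) hD.aestronglyMeasurable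
    (ae_of_all _ hDs)
  have hfx : Continuous fun y => f (x + y) := hf.comp (continuous_const.add continuous_id)
  have hfd : Continuous fun y => ‖f (x + y) - f x‖ := (hfx.sub continuous_const).norm
  have hfdb : ∀ y, |‖f (x + y) - f x‖| ≤ C + C := by
    intro y
    rw [abs_norm]
    exact (norm_sub_le _ _).trans (add_le_add (hC _) (hC _))
  have hG1 : op D f x = ∫ y, D y * (f (x + y) - f x) := by
    have e1 : ∀ y, D y * (f (x + y) - f x) = D y * f (x + y) - D y * f x := fun y => mul_sub _ _ _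
    simp_rw [e1]
    rw [integral_sub (first_mul_int hDint hfx (C := C) fun y => hC _) (hDint.mul_const _),
      integral_mul_const, hD0, zero_mul, sub_zero]
    rfl
  rw [hG1]
  refine norm_integral_le_of_norm_le ((first_wt_int hs hfd hfdb).const_mul δ) (ae_of_all _ ?_)
  intro y
  rw [norm_mul, ← mul_assoc]
  exact mul_le_mul_of_nonneg_right (hDs y) (norm_nonneg _)

omit [Measure.IsAddHaarMeasure (volume : Measure E)] in
/-- the pointwise bound -/
private theorem first_pt {p : ℝ} (hp : 1 < p) (hp2 : p ≤ 2) {δ : ℝ} (hδ : 0 ≤ δ) {s : E → ℝ}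
    (hs : Wt s) {D : E → ℂ} (hD : Measurable D) (hD0 : ∫ y, D y = 0)
    (hDs : ∀ y, ‖D y‖ ≤ δ * s y) {f : E → ℂ} (hf : Continuous f) {C : ℝ}
    (hC : ∀ x, ‖f x‖ ≤ C) (x : E) (v : ℂ) :
    ‖op D f x * (starRingEnd ℂ) (Jp p v - Jp p (f x))‖ ≤
      32 * δ * ((∫ y, s y * dd p (f (x + y)) (f x)) + dd p v (f x)) := by
  have hp0 : 0 < p := by linarith
  have hfx : Continuous fun y => f (x + y) := hf.comp (continuous_const.add continuous_id)
  have hfd : Continuous fun y => ‖f (x + y) - f x‖ := (hfx.sub continuous_const).norm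
  have hfdb : ∀ y, |‖f (x + y) - f x‖| ≤ C + C := by
    intro y
    rw [abs_norm]
    exact (norm_sub_le _ _).trans (add_le_add (hC _) (hC _))
  have hc0 : 0 ≤ ‖Jp p (f x) - Jp p v‖ := norm_nonneg _
  have hddc : Continuous fun y => dd p (f (x + y)) (f x) := by
    have hq : Continuous fun y : E => ((f (x + y), f x) : ℂ × ℂ) := hfx.prodMk continuous_const
    have hq2 := (dd_cont hp0).comp hq
    exact hq2
  have hddb : ∀ y, |dd p (f (x + y)) (f x)| ≤ 2 * (C ^ p + C ^ p) := by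
    intro y
    rw [abs_of_nonneg (dd_nonneg _ _ _)]
    refine (dd_bound hp0 _ _).trans ?_
    have h1 : ‖f (x + y)‖ ^ p ≤ C ^ p := Real.rpow_le_rpow (norm_nonneg _) (hC _) hp0.le
    have h2 : ‖f x‖ ^ p ≤ C ^ p := Real.rpow_le_rpow (norm_nonneg _) (hC _) hp0.le
    linarith
  have hI1 : Integrable fun y => s y * dd p (f (x + y)) (f x) := first_wt_int hs hddc hddb
  have hI2 : Integrable fun y => s y * dd p (f x) v := hs.int.mul_const _
  have hmain : (∫ y, δ * (s y * ‖f (x + y) - f x‖)) * ‖Jp p (f x) - Jp p v‖ ≤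
      ∫ y, 32 * δ * (s y * dd p (f (x + y)) (f x) + s y * dd p (f x) v) := by
    rw [← integral_mul_const]
    refine integral_mono (((first_wt_int hs hfd hfdb).const_mul δ).mul_const _)
      ((hI1.add hI2).const_mul _) ?_
    intro y
    have h3 := three hp hp2 (f (x + y)) (f x) v
    have h4 : δ * s y * (‖f (x + y) - f x‖ * ‖Jp p (f x) - Jp p v‖) ≤
        δ * s y * (32 * (dd p (f (x + y)) (f x) + dd p (f x) v)) :=
      mul_le_mul_of_nonneg_left h3 (mul_nonneg hδ (hs.nonneg y))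
    have h5 : δ * (s y * ‖f (x + y) - f x‖) * ‖Jp p (f x) - Jp p v‖ =
        δ * s y * (‖f (x + y) - f x‖ * ‖Jp p (f x) - Jp p v‖) := by ring
    have h6 : 32 * δ * (s y * dd p (f (x + y)) (f x) + s y * dd p (f x) v) =
        δ * s y * (32 * (dd p (f (x + y)) (f x) + dd p (f x) v)) := by ring
    show δ * (s y * ‖f (x + y) - f x‖) * ‖Jp p (f x) - Jp p v‖ ≤
      32 * δ * (s y * dd p (f (x + y)) (f x) + s y * dd p (f x) v)
    rw [h5, h6]
    exact h4
  have hcalc : ∫ y, 32 * δ * (s y * dd p (f (x + y)) (f x) + s y * dd p (f x) v) =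
      32 * δ * ((∫ y, s y * dd p (f (x + y)) (f x)) + (∫ y, s y) * dd p (f x) v) := by
    rw [integral_const_mul, integral_add hI1 hI2, integral_mul_const]
  have hmass : (∫ y, s y) * dd p (f x) v ≤ dd p v (f x) := by
    rw [dd_symm p v (f x)]
    exact mul_le_of_le_one_left (dd_nonneg _ _ _) hs.mass
  rw [norm_mul, RCLike.norm_conj, norm_sub_rev (Jp p v)]
  refine (mul_le_mul_of_nonneg_right (first_G hs hD hD0 hDs hf hC x) hc0).trans ?_
  refine hmain.trans ?_
  rw [hcalc]
  exact mul_le_mul_of_nonneg_left (by linarith) (by linarith)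

theorem first_order {p : ℝ} (hp : 1 < p) (hp2 : p ≤ 2) {K δ : ℝ} (hδ : 0 ≤ δ) {a s : E → ℝ}
    {D : E → ℂ} (h : Pert K δ a s D) {f : E → ℂ} (hf : TF f) :
    ‖∫ x, op D f x * (starRingEnd ℂ) (Jp p (op (fun y => (a y : ℂ)) f x))‖ ≤
      4 * δ * (∫ y, rho p f y ^ 2 * s y) + 32 * δ * ((∫ y, rho p f y ^ 2 * s y) +
        16 * p / (p - 1) * ∫ y, rho p f y ^ 2 * a y) := by
  have hDint : Integrable D := Integrable.mono' (h.ws.int.const_mul δ) h.meas.aestronglyMeasurable
    (ae_of_all _ h.le)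
  have haint : Integrable fun y => (a y : ℂ) := h.da.int.ofReal
  obtain ⟨Cf, hCf⟩ := hf.bdd
  obtain ⟨CU, hCU⟩ := op_bdd haint hf
  have hUc : Continuous (op (fun y => (a y : ℂ)) f) := op_cont haint hf
  have hGint : Integrable (op D f) := op_int hDint hf
  have hdU := dd_U hp hp2 h.da hf
  have hdUi := dd_U_int hp h.da hf
  generalize op (fun y => (a y : ℂ)) f = U at *
  have hJU : Continuous fun x => (starRingEnd ℂ) (Jp p (U x)) :=
    Complex.continuous_conj.comp ((Jp_cont hp).comp hUc)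
  have hJf : Continuous fun x => (starRingEnd ℂ) (Jp p (f x)) :=
    Complex.continuous_conj.comp ((Jp_cont hp).comp hf.1)
  have hi1 : Integrable fun x => op D f x * (starRingEnd ℂ) (Jp p (U x)) :=
    first_mul_int hGint hJU (C := CU ^ (p - 1)) (first_jp_bdd hp hCU)
  have hi2 : Integrable fun x => op D f x * (starRingEnd ℂ) (Jp p (f x)) :=
    first_mul_int hGint hJf (C := Cf ^ (p - 1)) (first_jp_bdd hp hCf)
  have hsplit : ∫ x, op D f x * (starRingEnd ℂ) (Jp p (U x)) =
      (∫ x, op D f x * (starRingEnd ℂ) (Jp p (f x))) +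
        ∫ x, op D f x * (starRingEnd ℂ) (Jp p (U x) - Jp p (f x)) := by
    have e1 : ∀ x, op D f x * (starRingEnd ℂ) (Jp p (U x) - Jp p (f x)) =
        op D f x * (starRingEnd ℂ) (Jp p (U x)) - op D f x * (starRingEnd ℂ) (Jp p (f x)) := by
      intro x
      rw [map_sub, mul_sub]
    simp_rw [e1]
    rw [integral_sub hi1 hi2]
    ring
  have hidd := int_dd hp h.ws hf
  have hsecond : ‖∫ x, op D f x * (starRingEnd ℂ) (Jp p (U x) - Jp p (f x))‖ ≤
      32 * δ * ((∫ y, rho p f y ^ 2 * s y) + 16 * p / (p - 1) * ∫ y, rho p f y ^ 2 * a y) := by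
    refine (norm_integral_le_of_norm_le ((hidd.add hdUi).const_mul (32 * δ))
      (ae_of_all _ fun x => first_pt hp hp2 hδ h.ws h.meas h.zero h.le hf.1 hCf x (U x))).trans ?_
    rw [integral_const_mul]
    refine mul_le_mul_of_nonneg_left ?_ (by linarith)
    have e2 := integral_add hidd hdUi
    refine (le_of_eq e2).trans ?_
    rw [fub_dd hp h.ws hf]
    linarith
  have hfirst : ‖∫ x, op D f x * (starRingEnd ℂ) (Jp p (f x))‖ ≤ 4 * δ * ∫ y, rho p f y ^ 2 * s y :=
    sym_first hp hp2 h.ws h.meas h.even h.zero hδ h.le hf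
  rw [hsplit]
  exact (norm_add_le _ _).trans (add_le_add hfirst hsecond)

end Pool.Agent.MO
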