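import Pool.Agent.MO.Opb

/-!
# MO-Mink: superposition of kernels

Fubini, the Hölder inequality with the weight `‖κ‖ ω`, Tonelli.
-/

set_option autoImplicit false

open MeasureTheory Set
open scoped ENNReal NNReal

namespace Pool.Agent.MO

variable {E : Type} [NormedAddCommGroup E] [NormedSpace ℝ E] [FiniteDimensional ℝ E]
  [MeasureSpace E] [BorelSpace E] [Measure.IsAddHaarMeasure (volume : Measure E)]

/-- Hölder with a weight: `(∫ k u)^p ≤ (∫ k ω (u/ω)^p) (∫ k ω)^(p-1)`. -/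
private theorem mink_holder {μ : Measure ℝ} {p : ℝ} (hp : 1 < p) {k w u : ℝ → ℝ≥0∞}
    (hk : Measurable k) (hw : Measurable w) (hu : Measurable u) (hw0 : ∀ τ, w τ ≠ 0)
    (hwt : ∀ τ, w τ ≠ ∞) (hkt : ∀ τ, k τ ≠ ∞) :
    (∫⁻ τ, k τ * u τ ∂μ) ^ p ≤
      (∫⁻ τ, k τ * w τ ∂μ) ^ (p - 1) * ∫⁻ τ, k τ * w τ * (u τ / w τ) ^ p ∂μ := by
  have hp0 : 0 < p := by linarith
  have hpq : p.HolderConjugate (Real.conjExponent p) := Real.HolderConjugate.conjExponent hp
  set q := Real.conjExponent p with hq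
  have hq0 : 0 < q := hpq.symm.pos
  have hpq1 : 1 / p + 1 / q = 1 := by
    have := hpq.inv_add_inv_eq_one
    rwa [← one_div, ← one_div] at this
  have h1 : ∀ τ, k τ * u τ = ((k τ * w τ) ^ (1 / p) * (u τ / w τ)) * (k τ * w τ) ^ (1 / q) := by
    intro τ
    have h2 : (k τ * w τ) ^ (1 / p) * (k τ * w τ) ^ (1 / q) = k τ * w τ := by
      by_cases h0 : k τ * w τ = 0
      · rw [h0, ENNReal.zero_rpow_of_pos (by positivity), zero_mul]
      · rw [← ENNReal.rpow_add _ _ h0 (ENNReal.mul_ne_top (hkt τ) (hwt τ)), hpq1,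
          ENNReal.rpow_one]
    calc k τ * u τ = k τ * w τ * (u τ / w τ) := by
          rw [mul_assoc, ENNReal.mul_div_cancel (hw0 τ) (hwt τ)]
      _ = ((k τ * w τ) ^ (1 / p) * (k τ * w τ) ^ (1 / q)) * (u τ / w τ) := by rw [h2]
      _ = _ := by ring
  have h2 := ENNReal.lintegral_mul_le_Lp_mul_Lq μ hpq
    (f := fun τ => (k τ * w τ) ^ (1 / p) * (u τ / w τ)) (g := fun τ => (k τ * w τ) ^ (1 / q))
    ((((hk.mul hw).pow_const _).mul (hu.div hw)).aemeasurable)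
    (((hk.mul hw).pow_const _).aemeasurable)
  have h3 : ∫⁻ τ, k τ * u τ ∂μ = ∫⁻ a, ((fun τ => (k τ * w τ) ^ (1 / p) * (u τ / w τ)) *
      fun τ => (k τ * w τ) ^ (1 / q)) a ∂μ := by
    refine lintegral_congr fun τ => ?_
    rw [h1 τ]
    rfl
  rw [← h3] at h2
  have h4 : ∀ τ, ((k τ * w τ) ^ (1 / p) * (u τ / w τ)) ^ p = k τ * w τ * (u τ / w τ) ^ p := by
    intro τ
    rw [ENNReal.mul_rpow_of_nonneg _ _ hp0.le, ← ENNReal.rpow_mul, one_div,
      inv_mul_cancel₀ hp0.ne', ENNReal.rpow_one]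
  have h5 : ∀ τ, ((k τ * w τ) ^ (1 / q)) ^ q = k τ * w τ := by
    intro τ
    rw [← ENNReal.rpow_mul, one_div, inv_mul_cancel₀ hq0.ne', ENNReal.rpow_one]
  simp only [h4, h5] at h2
  have h6 := ENNReal.rpow_le_rpow h2 hp0.le
  rw [ENNReal.mul_rpow_of_nonneg _ _ hp0.le, ← ENNReal.rpow_mul, ← ENNReal.rpow_mul, one_div,
    inv_mul_cancel₀ hp0.ne', ENNReal.rpow_one] at h6
  have h7 : 1 / q * p = p - 1 := by
    have h8 : 1 / q = 1 - 1 / p := by linarith
    rw [h8, sub_mul, one_mul, one_div, inv_mul_cancel₀ hp0.ne']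
  rw [h7] at h6
  rw [mul_comm]
  exact h6

theorem nb_integral {p r : ℝ} (hp : 1 < p) (hr : 0 < r) {κ : ℝ → ℂ} (hκ : Continuous κ)
    {ω : ℝ → ℝ} (hω : Continuous ω) (hω0 : ∀ τ, 0 < ω τ) {G : ℝ → E → ℂ}
    (hG : Measurable (Function.uncurry G)) {g : E → ℝ} (hg : Integrable g)
    (hGg : ∀ τ x, ‖G τ x‖ ≤ g x) (h : ∀ τ, |τ| ≤ r → NB p (ω τ) (G τ)) :
    NB p (∫ τ in (-r)..r, ‖κ τ‖ * ω τ) fun x => ∫ τ in (-r)..r, κ τ * G τ x := by
  intro f hf
  obtain ⟨C, hC⟩ := hf.bdd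
  have hp0 : 0 < p := by linarith
  have hle : -r ≤ r := by linarith
  set μ : Measure ℝ := volume.restrict (Ioc (-r) r) with hμ
  have hκi : Integrable κ μ := (hκ.integrableOn_Icc (a := -r) (b := r)).mono_set Ioc_subset_Icc_self
  -- joint measurability
  have hU : StronglyMeasurable fun z : E × ℝ => op (G z.2) f z.1 := by
    have h1 : Measurable (Function.uncurry fun (z : E × ℝ) (y : E) => G z.2 y * f (z.1 + y)) := by
      refine Measurable.mul ?_ ?_
      · exact hG.comp ((measurable_snd.comp measurable_fst).prodMk measurable_snd)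
      · exact hf.1.measurable.comp ((measurable_fst.comp measurable_fst).add measurable_snd)
    exact h1.stronglyMeasurable.integral_prod_right
  have hop : ∀ x, op (fun y => ∫ τ in (-r)..r, κ τ * G τ y) f x =
      ∫ τ, κ τ * op (G τ) f x ∂μ := by
    intro x
    unfold op
    have h1 : ∀ y, (∫ τ in (-r)..r, κ τ * G τ y) * f (x + y) =
        ∫ τ, κ τ * G τ y * f (x + y) ∂μ := by
      intro y
      rw [intervalIntegral.integral_of_le hle, ← integral_mul_const]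
    simp only [h1]
    rw [integral_integral_swap]
    · refine integral_congr_ae (Filter.Eventually.of_forall fun τ => ?_)
      show ∫ y, κ τ * G τ y * f (x + y) = κ τ * ∫ y, G τ y * f (x + y)
      rw [← integral_const_mul]
      exact integral_congr_ae (Filter.Eventually.of_forall fun y => mul_assoc _ _ _)
    · have h2 : Integrable (fun z : E × ℝ => (g z.1 * C) * ‖κ z.2‖)
          ((volume : Measure E).prod μ) := (hg.mul_const C).mul_prod hκi.norm
      have h3 : Measurable (Function.uncurry fun (y : E) (τ : ℝ) => κ τ * G τ y * f (x + y)) := by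
        refine Measurable.mul (Measurable.mul ?_ ?_) ?_
        · exact hκ.measurable.comp measurable_snd
        · exact hG.comp (measurable_snd.prodMk measurable_fst)
        · exact hf.1.measurable.comp (measurable_const.add measurable_fst)
      refine h2.mono' h3.aestronglyMeasurable (Filter.Eventually.of_forall fun z => ?_)
      show ‖κ z.2 * G z.2 z.1 * f (x + z.1)‖ ≤ g z.1 * C * ‖κ z.2‖
      rw [norm_mul, norm_mul]
      have h4 : ‖G z.2 z.1‖ * ‖f (x + z.1)‖ ≤ g z.1 * C :=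
        mul_le_mul (hGg _ _) (hC _) (norm_nonneg _) ((norm_nonneg _).trans (hGg z.2 z.1))
      calc ‖κ z.2‖ * ‖G z.2 z.1‖ * ‖f (x + z.1)‖ = ‖κ z.2‖ * (‖G z.2 z.1‖ * ‖f (x + z.1)‖) := by
            ring
        _ ≤ ‖κ z.2‖ * (g z.1 * C) := mul_le_mul_of_nonneg_left h4 (norm_nonneg _)
        _ = _ := by ring
  set w : ℝ → ℝ≥0∞ := fun τ => ENNReal.ofReal (ω τ) with hw
  have hwm : Measurable w := ENNReal.measurable_ofReal.comp hω.measurable
  have hw0 : ∀ τ, w τ ≠ 0 := fun τ => by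
    rw [hw]
    exact (ENNReal.ofReal_pos.2 (hω0 τ)).ne'
  have hwt : ∀ τ, w τ ≠ ∞ := fun τ => ENNReal.ofReal_ne_top
  have hkm : Measurable fun τ => ‖κ τ‖ₑ := hκ.measurable.enorm
  have hkt : ∀ τ, ‖κ τ‖ₑ ≠ ∞ := fun τ => enorm_ne_top
  set W : ℝ≥0∞ := ∫⁻ τ, ‖κ τ‖ₑ * w τ ∂μ with hW
  have hWe : ENNReal.ofReal (∫ τ in (-r)..r, ‖κ τ‖ * ω τ) = W := by
    rw [intervalIntegral.integral_of_le hle, ofReal_integral_eq_lintegral_ofReal, hW]
    · refine lintegral_congr fun τ => ?_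
      rw [ENNReal.ofReal_mul (norm_nonneg _), ofReal_norm]
    · exact ((hκ.norm.mul hω).integrableOn_Icc (a := -r) (b := r)).mono_set Ioc_subset_Icc_self
    · exact Filter.Eventually.of_forall fun τ => mul_nonneg (norm_nonneg _) (hω0 τ).le
  have hWt : W ≠ ∞ := by
    rw [← hWe]
    exact ENNReal.ofReal_ne_top
  set N : ℝ≥0∞ := ∫⁻ x, ‖f x‖ₑ ^ p with hN
  rw [hWe]
  have hux : ∀ x, Measurable fun τ => ‖op (G τ) f x‖ₑ := fun x =>
    (hU.measurable.comp (measurable_const.prodMk measurable_id)).enorm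
  have hux' : ∀ τ, Measurable fun x => ‖op (G τ) f x‖ₑ := fun τ =>
    (hU.measurable.comp (measurable_id.prodMk measurable_const)).enorm
  have h1 : ∀ x, ‖op (fun y => ∫ τ in (-r)..r, κ τ * G τ y) f x‖ₑ ^ p ≤
      W ^ (p - 1) * ∫⁻ τ, ‖κ τ‖ₑ * w τ * (‖op (G τ) f x‖ₑ / w τ) ^ p ∂μ := by
    intro x
    refine le_trans (ENNReal.rpow_le_rpow ?_ hp0.le)
      (mink_holder (μ := μ) hp hkm hwm (hux x) hw0 hwt hkt)
    rw [hop x]
    refine (enorm_integral_le_lintegral_enorm _).trans (le_of_eq ?_)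
    refine lintegral_congr fun τ => ?_
    rw [enorm_mul]
  have hjm : Measurable (Function.uncurry fun (x : E) (τ : ℝ) =>
      ‖κ τ‖ₑ * w τ * (‖op (G τ) f x‖ₑ / w τ) ^ p) := by
    refine Measurable.mul ?_ ?_
    · exact (hkm.comp measurable_snd).mul (hwm.comp measurable_snd)
    · exact (hU.measurable.enorm.div (hwm.comp measurable_snd)).pow_const p
  calc ∫⁻ x, ‖op (fun y => ∫ τ in (-r)..r, κ τ * G τ y) f x‖ₑ ^ p
      ≤ ∫⁻ x, W ^ (p - 1) * ∫⁻ τ, ‖κ τ‖ₑ * w τ * (‖op (G τ) f x‖ₑ / w τ) ^ p ∂μ :=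
        lintegral_mono h1
    _ = W ^ (p - 1) * ∫⁻ x, ∫⁻ τ, ‖κ τ‖ₑ * w τ * (‖op (G τ) f x‖ₑ / w τ) ^ p ∂μ := by
        refine lintegral_const_mul _ ?_
        exact hjm.lintegral_prod_right'
    _ = W ^ (p - 1) * ∫⁻ τ, (∫⁻ x : E, ‖κ τ‖ₑ * w τ * (‖op (G τ) f x‖ₑ / w τ) ^ p) ∂μ := by
        rw [lintegral_lintegral_swap hjm.aemeasurable]
    _ ≤ W ^ (p - 1) * ∫⁻ τ, ‖κ τ‖ₑ * w τ * N ∂μ := by
        refine mul_le_mul_right ?_ _
        refine lintegral_mono_ae ?_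
        refine (ae_restrict_mem measurableSet_Ioc).mono fun τ hτ => ?_
        have h2 : ∫⁻ x : E, ‖κ τ‖ₑ * w τ * (‖op (G τ) f x‖ₑ / w τ) ^ p =
            ‖κ τ‖ₑ * w τ * ∫⁻ x : E, (‖op (G τ) f x‖ₑ / w τ) ^ p :=
          lintegral_const_mul _ (((hux' τ).div_const _).pow_const p)
        rw [h2]
        refine mul_le_mul_right ?_ _
        have h3 : ∀ x : E, (‖op (G τ) f x‖ₑ / w τ) ^ p = ‖op (G τ) f x‖ₑ ^ p * (w τ ^ p)⁻¹ := by
          intro x
          rw [ENNReal.div_rpow_of_nonneg _ _ hp0.le, div_eq_mul_inv]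
        simp only [h3]
        rw [lintegral_mul_const _ ((hux' τ).pow_const p)]
        have h4 := h τ (abs_le.2 ⟨hτ.1.le, hτ.2⟩) f hf
        have h5 : w τ ^ p ≠ 0 := by
          rw [Ne, ENNReal.rpow_eq_zero_iff]
          push Not
          exact ⟨fun h0 => absurd h0 (hw0 τ), fun h0 => absurd h0 (hwt τ)⟩
        have h6 : w τ ^ p ≠ ∞ := ENNReal.rpow_ne_top_of_nonneg hp0.le (hwt τ)
        calc (∫⁻ x, ‖op (G τ) f x‖ₑ ^ p) * (w τ ^ p)⁻¹ ≤ (w τ ^ p * N) * (w τ ^ p)⁻¹ :=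
              mul_le_mul_left h4 _
          _ = N := by
              rw [mul_comm (w τ ^ p) N, mul_assoc, ENNReal.mul_inv_cancel h5 h6, mul_one]
    _ = W ^ p * N := by
        have h7 : ∫⁻ τ, ‖κ τ‖ₑ * w τ * N ∂μ = W * N :=
          lintegral_mul_const N (f := fun τ => ‖κ τ‖ₑ * w τ) (hkm.mul hwm)
        rw [h7, ← mul_assoc]
        congr 1
        by_cases h0 : W = 0
        · rw [h0, mul_zero, ENNReal.zero_rpow_of_pos hp0]
        · calc W ^ (p - 1) * W = W ^ (p - 1) * W ^ (1 : ℝ) := by rw [ENNReal.rpow_one]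
            _ = W ^ p := by rw [← ENNReal.rpow_add _ _ h0 hWt, sub_add_cancel]

end Pool.Agent.MO
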