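import Pool.Agent.MO.Dom
import Pool.Agent.MO.Mink
import Pool.Agent.MO.Cheb
import Pool.Agent.MO.Ker
import Pool.Agent.MO.ProdL

/-!
# MO-Glob: the dominating measure is Lipschitz in the dilation parameter

`Z = ∫ er Ψ`, `b` the volume of the level set, `N = ∫ md r lam Ψ ∈ [c b, C b]` (`dom_low` integrated over the level set, `dom`),
`m = md/N`. `1 ≤ C' b m` on the level set because `md ≥ c` and `N ≤ C b`.
Representation (`fej_rep` with `s = Ψ.toReal - lam`, where `Ψ < ∞`; both sides vanish where `Ψ = ∞`):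
`md r lam Ψ x = ∫_{-r}^r κ τ ec (1 + iτ) (Ψ x) dτ` with `κ τ = e^{lam} e^{iτ lam} kap r τ`. The same for the dilate. So
`dk (1+ε) m - m = N⁻¹ ∫ κ τ G τ dτ`, `G τ = dk (1+ε) (ec θ Ψ) - ec θ Ψ`, `‖G τ y‖ ≤ dk(1+ε)(er Ψ) + er Ψ`, jointly measurable.
`nb_integral` with `ω τ = L ε Z exp(-τ^2 S/4)` (`Cfg.lip`; for `|τ| ≤ r`) and `nb_smul`: the norm is at most
`N⁻¹ ∫_{-r}^r (2/r) e^{lam} L ε Z exp(-τ^2 S/4) dτ` (`kap_norm`), `∫_{-r}^r exp(-τ^2 S/4) dτ ≤ c_r/√(1+S)` (if `S ≤ 1`: `≤ 2r`;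
if `S ≥ 1`: the Gaussian integral `√(4π/S)`), and `Z ≤ (16/3) C1 √(1+S) e^{-lam} b` (`cheb`), `N ≥ c b`: total
`≤ C ε` with `C` depending on `r, L, C1` only. `nb_mono`.
-/

set_option autoImplicit false

open MeasureTheory Set
open scoped ENNReal NNReal

namespace Pool.Agent.MO

private noncomputable def kk (r lam τ : ℝ) : ℂ :=
  ((Real.exp lam : ℝ) : ℂ) * Complex.exp (((τ * lam : ℝ) : ℂ) * Complex.I) * kap r τ

private theorem kk_cont {r : ℝ} (hr : 0 < r) (lam : ℝ) : Continuous (kk r lam) := by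
  have h1 := kap_cont hr
  unfold kk
  fun_prop

private theorem kk_norm {r : ℝ} (hr : 0 < r) (lam : ℝ) {τ : ℝ} (hτ : |τ| ≤ r) :
    ‖kk r lam τ‖ ≤ Real.exp lam * (2 / r) := by
  unfold kk
  rw [norm_mul, norm_mul, Complex.norm_exp_ofReal_mul_I, mul_one, Complex.norm_real,
    Real.norm_of_nonneg (Real.exp_pos _).le]
  exact mul_le_mul_of_nonneg_left (kap_norm hr hτ) (Real.exp_pos _).le

private theorem md_rep {E : Type} {r : ℝ} (hr : 0 < r) (lam : ℝ) (Ψ : E → ℝ≥0∞) (x : E) :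
    ((md r lam Ψ x : ℝ) : ℂ) =
      ∫ τ in (-r)..r, kk r lam τ * ec (1 + τ * Complex.I) (Ψ x) := by
  unfold md
  by_cases hx : Ψ x = ∞
  · have h1 : ∀ τ : ℝ, ec (1 + τ * Complex.I) (Ψ x) = 0 := fun τ => by
      unfold ec
      rw [if_pos hx]
    have h2 : er (Ψ x) = 0 := by
      unfold er
      rw [if_pos hx]
    simp only [h1, h2, mul_zero, intervalIntegral.integral_zero, Complex.ofReal_zero]
  · have h1 : ∀ τ : ℝ, kk r lam τ * ec (1 + τ * Complex.I) (Ψ x) =
        ((Real.exp lam * er (Ψ x) : ℝ) : ℂ) *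
          (kap r τ * Complex.exp (-(τ * ((Ψ x).toReal - lam) : ℝ) * Complex.I)) := fun τ => by
      unfold ec er kk
      have e0 : ((Real.exp lam * Real.exp (-(Ψ x).toReal) : ℝ) : ℂ) =
          ((Real.exp lam : ℝ) : ℂ) * Complex.exp ((-(Ψ x).toReal : ℝ) : ℂ) := by
        rw [Complex.ofReal_mul, Complex.ofReal_exp (-(Ψ x).toReal)]
      rw [if_neg hx, if_neg hx, e0]
      have e : Complex.exp (((τ * lam : ℝ) : ℂ) * Complex.I) *
          Complex.exp (-(1 + τ * Complex.I) * ((Ψ x).toReal : ℂ)) =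
          Complex.exp ((-(Ψ x).toReal : ℝ) : ℂ) *
            Complex.exp (-(τ * ((Ψ x).toReal - lam) : ℝ) * Complex.I) := by
        rw [← Complex.exp_add, ← Complex.exp_add]
        congr 1
        push_cast
        ring
      linear_combination ((Real.exp lam : ℝ) : ℂ) * kap r τ * e
    simp only [h1]
    rw [intervalIntegral.integral_const_mul, ← fej_rep hr, ← Complex.ofReal_mul]
    congr 1
    ring

private theorem md_nonneg {E : Type} (r lam : ℝ) (Ψ : E → ℝ≥0∞) (x : E) : 0 ≤ md r lam Ψ x :=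
  mul_nonneg (fej_nonneg _ _) (mul_nonneg (Real.exp_pos _).le (er_nonneg _))

private theorem md_meas {E : Type} [MeasurableSpace E] (r lam : ℝ) {Ψ : E → ℝ≥0∞}
    (hΨ : Measurable Ψ) : Measurable (md r lam Ψ) := by
  have h1 : Measurable fun x => fej r ((Ψ x).toReal - lam) :=
    (fej_cont r).measurable.comp (hΨ.ennreal_toReal.sub_const lam)
  have h2 : Measurable fun x => Real.exp lam * er (Ψ x) := (er_meas.comp hΨ).const_mul _
  exact h1.mul h2

private theorem ec_joint {E : Type} [MeasurableSpace E] {Ψ : E → ℝ≥0∞} (hΨ : Measurable Ψ) :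
    Measurable fun z : ℝ × E => ec (1 + z.1 * Complex.I) (Ψ z.2) := by
  have hs : MeasurableSet {z : ℝ × E | Ψ z.2 = ∞} :=
    (hΨ.comp measurable_snd) (measurableSet_singleton ∞)
  have hm : Measurable fun z : ℝ × E => ((Ψ z.2).toReal : ℂ) :=
    Complex.measurable_ofReal.comp (hΨ.comp measurable_snd).ennreal_toReal
  have hf : Measurable fun z : ℝ × E => -(1 + (z.1 : ℂ) * Complex.I) :=
    ((Complex.measurable_ofReal.comp measurable_fst).mul_const Complex.I).const_add 1 |>.neg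
  unfold ec
  exact Measurable.ite hs measurable_const (Complex.measurable_exp.comp (hf.mul hm))

private theorem gauss_bound {r S : ℝ} (hr : 0 < r) (hS : 0 ≤ S) :
    (∫ τ in (-r)..r, Real.exp (-(τ ^ 2 * S / 4))) * Real.sqrt (1 + S) ≤ 4 * r + 6 := by
  have hc : Continuous fun τ : ℝ => Real.exp (-(τ ^ 2 * S / 4)) := by fun_prop
  have hle : -r ≤ r := by linarith
  have hJ0 : 0 ≤ ∫ τ in (-r)..r, Real.exp (-(τ ^ 2 * S / 4)) :=
    intervalIntegral.integral_nonneg hle fun τ _ => (Real.exp_pos _).le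
  have hJ1 : ∫ τ in (-r)..r, Real.exp (-(τ ^ 2 * S / 4)) ≤ 2 * r := by
    have h1 : ∫ τ in (-r)..r, Real.exp (-(τ ^ 2 * S / 4)) ≤ ∫ _τ in (-r)..r, (1 : ℝ) := by
      refine intervalIntegral.integral_mono_on hle (hc.intervalIntegrable _ _)
        (continuous_const.intervalIntegrable _ _) fun τ _ => ?_
      rw [← Real.exp_zero]
      refine Real.exp_le_exp.2 ?_
      have := mul_nonneg (sq_nonneg τ) hS
      linarith
    rw [intervalIntegral.integral_const, smul_eq_mul, mul_one] at h1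
    linarith
  rcases le_or_gt S 1 with hS1 | hS1
  · have h2 : Real.sqrt (1 + S) ≤ 2 := by
      rw [Real.sqrt_le_left (by norm_num)]
      linarith
    have h3 : 0 ≤ Real.sqrt (1 + S) := Real.sqrt_nonneg _
    nlinarith
  · have hS0 : 0 < S / 4 := by linarith
    have h2 : ∫ τ in (-r)..r, Real.exp (-(τ ^ 2 * S / 4)) ≤ Real.sqrt (Real.pi / (S / 4)) := by
      rw [← integral_gaussian, intervalIntegral.integral_of_le hle]
      have e : ∀ τ : ℝ, Real.exp (-(τ ^ 2 * S / 4)) = Real.exp (-(S / 4) * τ ^ 2) := fun τ => by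
        congr 1
        ring
      simp only [e]
      exact setIntegral_le_integral (integrable_exp_neg_mul_sq hS0)
        (Filter.Eventually.of_forall fun τ => (Real.exp_pos _).le)
    have h3 : Real.sqrt (Real.pi / (S / 4)) * Real.sqrt (1 + S) ≤ 6 := by
      rw [← Real.sqrt_mul (by positivity), Real.sqrt_le_left (by norm_num)]
      have h4 : Real.pi / (S / 4) * (1 + S) = 4 * Real.pi * ((1 + S) / S) := by
        field_simp
      have h5 : (1 + S) / S ≤ 2 := by
        rw [div_le_iff₀ (by linarith)]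
        linarith
      have h6 := Real.pi_lt_d2
      have h7 : 4 * Real.pi * ((1 + S) / S) ≤ 4 * Real.pi * 2 :=
        mul_le_mul_of_nonneg_left h5 (by positivity)
      rw [h4]
      norm_num at h6 ⊢
      linarith
    have h4 := mul_le_mul_of_nonneg_right h2 (Real.sqrt_nonneg (1 + S))
    linarith

theorem glob (p r L C1 : ℝ) (hp : 1 < p) (hr : 0 < r) (hL : 0 < L) (hC1 : 0 ≤ C1) :
    ∃ C : ℝ, 0 < C ∧ ∀ (E : Type) [NormedAddCommGroup E] [NormedSpace ℝ E]
      [FiniteDimensional ℝ E] [MeasureSpace E] [BorelSpace E]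
      [Measure.IsAddHaarMeasure (volume : Measure E)] (Ψ : E → ℝ≥0∞) (S lam : ℝ), Cfg p r L C1 S lam Ψ →
      ∃ m : E → ℝ, Measurable m ∧ (∀ x, 0 ≤ m x) ∧ Integrable m ∧ ∫ x, m x = 1 ∧
        (∀ x, Ψ x ≤ ENNReal.ofReal lam →
          1 ≤ C * (volume {x | Ψ x ≤ ENNReal.ofReal lam}).toReal * m x) ∧
        ∀ ε : ℝ, 0 < ε → ε < r →
          NB p (C * ε) fun y => dk (1 + ε) (fun x => (m x : ℂ)) y - (m y : ℂ) := by
  obtain ⟨c, hc, hlow⟩ := dom_low hr
  obtain ⟨Cd, hCd, hdom⟩ := dom r C1 hr hC1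
  refine ⟨Cd / c + 32 / (3 * r) * L * C1 * (4 * r + 6) / c, by positivity, ?_⟩
  intro E _ _ _ _ _ _ Ψ S lam h
  obtain ⟨hint, hup⟩ := hdom E Ψ p L S lam h
  obtain ⟨b, hb⟩ : ∃ b, b = (volume {x | Ψ x ≤ ENNReal.ofReal lam}).toReal := ⟨_, rfl⟩
  have hb0 : 0 < b := hb ▸ ENNReal.toReal_pos h.bpos.ne' h.bfin
  obtain ⟨N, hN⟩ : ∃ N, N = ∫ x, md r lam Ψ x := ⟨_, rfl⟩
  obtain ⟨Z, hZ⟩ : ∃ Z, Z = ∫ x, er (Ψ x) := ⟨_, rfl⟩
  have hZ0 : 0 < Z := hZ ▸ h.pos
  have hA : MeasurableSet {x | Ψ x ≤ ENNReal.ofReal lam} := h.meas measurableSet_Iic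
  have hNlow : c * b ≤ N := by
    have h1 : ∫ _x in {x | Ψ x ≤ ENNReal.ofReal lam}, c = b * c := by
      rw [setIntegral_const, smul_eq_mul, hb]
      rfl
    have h2 : ∫ _x in {x | Ψ x ≤ ENNReal.ofReal lam}, c ≤
        ∫ x in {x | Ψ x ≤ ENNReal.ofReal lam}, md r lam Ψ x :=
      setIntegral_mono_on (integrableOn_const h.bfin) hint.integrableOn hA
        fun x hx => hlow E Ψ lam h.lam0 x hx
    have h3 : ∫ x in {x | Ψ x ≤ ENNReal.ofReal lam}, md r lam Ψ x ≤ ∫ x, md r lam Ψ x :=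
      setIntegral_le_integral hint (Filter.Eventually.of_forall fun x => md_nonneg r lam Ψ x)
    rw [hN]
    linarith
  rw [← hb, ← hN] at hup
  have hN0 : 0 < N := lt_of_lt_of_le (by positivity) hNlow
  have hK0 : 0 ≤ 32 / (3 * r) * L * C1 * (4 * r + 6) / c := by positivity
  refine ⟨fun x => md r lam Ψ x / N, (md_meas r lam h.meas).div_const _,
    fun x => div_nonneg (md_nonneg r lam Ψ x) hN0.le, hint.div_const _, ?_, ?_, ?_⟩
  · rw [integral_div, ← hN]
    exact div_self hN0.ne'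
  · intro x hx
    rw [← hb]
    have h1 := hlow E Ψ lam h.lam0 x hx
    have h2 : 1 ≤ Cd / c * b * (md r lam Ψ x / N) := by
      have e : Cd / c * b * (md r lam Ψ x / N) = (Cd * b) * md r lam Ψ x / (c * N) := by
        field_simp
      rw [e, le_div_iff₀ (by positivity), one_mul]
      calc c * N = N * c := mul_comm _ _
        _ ≤ (Cd * b) * md r lam Ψ x := mul_le_mul hup h1 hc.le (by positivity)
    have h3 : 0 ≤ 32 / (3 * r) * L * C1 * (4 * r + 6) / c * b * (md r lam Ψ x / N) :=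
      mul_nonneg (mul_nonneg hK0 hb0.le) (div_nonneg (md_nonneg r lam Ψ x) hN0.le)
    have e : (Cd / c + 32 / (3 * r) * L * C1 * (4 * r + 6) / c) * b * (md r lam Ψ x / N) =
        Cd / c * b * (md r lam Ψ x / N) +
        32 / (3 * r) * L * C1 * (4 * r + 6) / c * b * (md r lam Ψ x / N) := by ring
    rw [e]
    linarith
  · intro ε hε hεr
    have ht : (0 : ℝ) < 1 + ε := by linarith
    obtain ⟨q, hq⟩ : ∃ q : ℝ, q = ((1 + ε) ^ Module.finrank ℝ E)⁻¹ := ⟨_, rfl⟩
    have hq0 : 0 ≤ q := by rw [hq]; positivity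
    obtain ⟨G, hG⟩ : ∃ G : ℝ → E → ℂ, G = fun (τ : ℝ) (y : E) =>
        dk (1 + ε) (fun x => ec (1 + τ * Complex.I) (Ψ x)) y - ec (1 + τ * Complex.I) (Ψ y) :=
      ⟨_, rfl⟩
    have hGm : Measurable (Function.uncurry G) := by
      have h1 := ec_joint h.meas
      have hd : Measurable fun z : ℝ × E => (z.1, (1 + ε)⁻¹ • z.2) :=
        measurable_fst.prodMk (measurable_snd.const_smul _)
      have h2 : Measurable fun z : ℝ × E => ec (1 + z.1 * Complex.I) (Ψ ((1 + ε)⁻¹ • z.2)) :=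
        h1.comp hd
      have e : Function.uncurry G = fun z : ℝ × E =>
          ((((1 + ε) ^ Module.finrank ℝ E)⁻¹ : ℝ) : ℂ) *
            ec (1 + z.1 * Complex.I) (Ψ ((1 + ε)⁻¹ • z.2)) -
          ec (1 + z.1 * Complex.I) (Ψ z.2) := by
        rw [hG]
        rfl
      rw [e]
      exact (h2.const_mul _).sub h1
    have hgi : Integrable fun x => q * er (Ψ ((1 + ε)⁻¹ • x)) + er (Ψ x) := by
      have h1 : Integrable fun x => er (Ψ ((1 + ε)⁻¹ • x)) :=
        (integrable_comp_smul_iff volume (fun x => er (Ψ x)) (inv_ne_zero ht.ne')).2 h.int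
      exact (h1.const_mul q).add h.int
    have hGg : ∀ τ x, ‖G τ x‖ ≤ q * er (Ψ ((1 + ε)⁻¹ • x)) + er (Ψ x) := by
      intro τ x
      rw [hG]
      refine (norm_sub_le _ _).trans ?_
      rw [ec_norm]
      unfold dk
      rw [← hq, norm_mul, ec_norm, Complex.norm_real, Real.norm_of_nonneg hq0]
    have hωc : Continuous fun τ : ℝ => L * ε * (Z * Real.exp (-(τ ^ 2 * S / 4))) := by fun_prop
    have hω0 : ∀ τ : ℝ, 0 < L * ε * (Z * Real.exp (-(τ ^ 2 * S / 4))) := fun τ => by positivity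
    have hnb := nb_integral (E := E) hp hr (kk_cont hr lam) hωc hω0 hGm hgi hGg
      (fun τ hτ => by
        rw [hG, hZ]
        exact h.lip τ ε hτ hε hεr)
    have hW0 : 0 ≤ ∫ τ in (-r)..r, ‖kk r lam τ‖ * (L * ε * (Z * Real.exp (-(τ ^ 2 * S / 4)))) :=
      intervalIntegral.integral_nonneg (by linarith) fun τ _ =>
        mul_nonneg (norm_nonneg _) (hω0 τ).le
    have hfin := nb_smul (by linarith : 0 ≤ p) hW0 hnb (((N : ℝ) : ℂ)⁻¹)
    have hfun : (fun y => dk (1 + ε) (fun x => ((md r lam Ψ x / N : ℝ) : ℂ)) y -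
        ((md r lam Ψ y / N : ℝ) : ℂ)) =
        fun y => ((N : ℝ) : ℂ)⁻¹ * ∫ τ in (-r)..r, kk r lam τ * G τ y := by
      funext y
      have hi : ∀ y : E, IntervalIntegrable
          (fun τ : ℝ => kk r lam τ * ec (1 + τ * Complex.I) (Ψ y)) volume (-r) r := by
        intro y
        refine Continuous.intervalIntegrable ?_ _ _
        refine (kk_cont hr lam).mul ?_
        unfold ec
        by_cases hy : Ψ y = ∞
        · simp only [hy, if_true]
          exact continuous_const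
        · simp only [hy, if_false]
          fun_prop
      have e1 : ∀ τ : ℝ, kk r lam τ * G τ y =
          (q : ℂ) * (kk r lam τ * ec (1 + τ * Complex.I) (Ψ ((1 + ε)⁻¹ • y))) -
            kk r lam τ * ec (1 + τ * Complex.I) (Ψ y) := fun τ => by
        rw [hG]
        simp only [dk]
        rw [← hq]
        ring
      simp only [e1]
      rw [intervalIntegral.integral_sub ((hi _).const_mul _) (hi y),
        intervalIntegral.integral_const_mul, ← md_rep hr, ← md_rep hr]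
      simp only [dk]
      rw [← hq]
      push_cast
      field_simp
    rw [hfun]
    refine nb_mono (by linarith) ?_ hfin
    have hW : ∫ τ in (-r)..r, ‖kk r lam τ‖ * (L * ε * (Z * Real.exp (-(τ ^ 2 * S / 4)))) ≤
        (Real.exp lam * (2 / r) * (L * ε * Z)) *
          ∫ τ in (-r)..r, Real.exp (-(τ ^ 2 * S / 4)) := by
      rw [← intervalIntegral.integral_const_mul]
      refine intervalIntegral.integral_mono_on (by linarith) ?_ ?_ fun τ hτ => ?_
      · exact Continuous.intervalIntegrable ((kk_cont hr lam).norm.mul hωc) _ _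
      · exact Continuous.intervalIntegrable (by fun_prop) _ _
      · have h1 := kk_norm hr lam (abs_le.2 ⟨hτ.1, hτ.2⟩ : |τ| ≤ r)
        calc ‖kk r lam τ‖ * (L * ε * (Z * Real.exp (-(τ ^ 2 * S / 4))))
            ≤ (Real.exp lam * (2 / r)) * (L * ε * (Z * Real.exp (-(τ ^ 2 * S / 4)))) :=
              mul_le_mul_of_nonneg_right h1 (hω0 τ).le
          _ = (Real.exp lam * (2 / r) * (L * ε * Z)) * Real.exp (-(τ ^ 2 * S / 4)) := by ring
    have hch := cheb h hC1
    rw [← hb, ← hZ] at hch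
    have hJ := gauss_bound hr h.S0
    have hJ0 : 0 ≤ ∫ τ in (-r)..r, Real.exp (-(τ ^ 2 * S / 4)) :=
      intervalIntegral.integral_nonneg (by linarith) fun τ _ => (Real.exp_pos _).le
    obtain ⟨J, hJe⟩ : ∃ J, J = ∫ τ in (-r)..r, Real.exp (-(τ ^ 2 * S / 4)) := ⟨_, rfl⟩
    rw [← hJe] at hW hJ hJ0
    obtain ⟨W, hWe⟩ : ∃ W, W = ∫ τ in (-r)..r,
      ‖kk r lam τ‖ * (L * ε * (Z * Real.exp (-(τ ^ 2 * S / 4)))) := ⟨_, rfl⟩
    rw [← hWe] at hW ⊢
    have hexp : Real.exp lam * Real.exp (-lam) = 1 := by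
      rw [← Real.exp_add, add_neg_cancel, Real.exp_zero]
    have h1 : W ≤ (32 / (3 * r) * L * C1 * (4 * r + 6)) * ε * b := by
      calc W ≤ (Real.exp lam * (2 / r) * (L * ε * Z)) * J := hW
        _ = (2 / r * L * ε * Real.exp lam * J) * Z := by ring
        _ ≤ (2 / r * L * ε * Real.exp lam * J) *
            (16 / 3 * C1 * Real.sqrt (1 + S) * Real.exp (-lam) * b) :=
              mul_le_mul_of_nonneg_left hch (by positivity)
        _ = (32 / (3 * r) * L * C1 * ε * b) * (J * Real.sqrt (1 + S)) *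
            (Real.exp lam * Real.exp (-lam)) := by
              field_simp
              ring
        _ = (32 / (3 * r) * L * C1 * ε * b) * (J * Real.sqrt (1 + S)) := by
              rw [hexp, mul_one]
        _ ≤ (32 / (3 * r) * L * C1 * ε * b) * (4 * r + 6) :=
              mul_le_mul_of_nonneg_left hJ (by positivity)
        _ = _ := by ring
    have h2 : ‖(((N : ℝ) : ℂ))⁻¹‖ = N⁻¹ := by
      rw [norm_inv, Complex.norm_real, Real.norm_of_nonneg hN0.le]
    rw [h2, ← div_eq_mul_inv, div_le_iff₀ hN0]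
    have h3 : (32 / (3 * r) * L * C1 * (4 * r + 6)) * ε * b ≤
        (32 / (3 * r) * L * C1 * (4 * r + 6) / c) * ε * N := by
      have e : (32 / (3 * r) * L * C1 * (4 * r + 6)) * ε * b =
          (32 / (3 * r) * L * C1 * (4 * r + 6) / c) * ε * (c * b) := by
        field_simp
      rw [e]
      exact mul_le_mul_of_nonneg_left hNlow (by positivity)
    have h4 : 0 ≤ Cd / c * ε * N := by positivity
    have e : (Cd / c + 32 / (3 * r) * L * C1 * (4 * r + 6) / c) * ε * N =
        Cd / c * ε * N + (32 / (3 * r) * L * C1 * (4 * r + 6) / c) * ε * N := by ring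
    rw [e]
    linarith

end Pool.Agent.MO
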