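import Pool.Agent.MO.Sc3

/-!
# MO-Mean: averages and Bregman divergences

`a` an even probability density (`Dn a`), `w` continuous and bounded, `W = ∫ a w`. Everything is integrable
(`Br_cont`, `dd_cont`, `w` bounded so `Br p (w y) c` is continuous and bounded, `a` integrable).
`mean_eq`: `∫ a Br(w, W) = ∫ a ‖w‖^p - ‖W‖^p - p Re((∫ a (w - W)) conj(Jp W))` and `∫ a (w - W) = 0`.
`Br_mean`: `∫ a Br(w, a0) - Br(W, a0) = ∫ a ‖w‖^p - ‖W‖^p = ∫ a Br(w,W) ≥ 0` (the linear terms agree).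
`dd_mean`: `dd W a0 ≤ 2/(p-1) Br(W,a0) ≤ 2/(p-1) ∫ a Br(w,a0) ≤ 2/(p-1) * 8 p ∫ a dd(w,a0)` (`le_Br`, `Br_mean`, `Br_le`).
`var_low`: `∫ a dd(w,W) ≤ 2/(p-1) ∫ a Br(w,W)`, and `∫∫ a(y) a(z) dd(w y, w z) ≤ ∫∫ a a 2(dd(w y, W) + dd(W, w z)) =
4 ∫ a dd(w,W)` (`dd_tri`, `dd_symm`).
-/

set_option autoImplicit false

open MeasureTheory Set
open scoped ENNReal NNReal

namespace Pool.Agent.MO

variable {E : Type} [NormedAddCommGroup E] [NormedSpace ℝ E] [FiniteDimensional ℝ E]
  [MeasureSpace E] [BorelSpace E] [Measure.IsAddHaarMeasure (volume : Measure E)]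

omit [NormedSpace ℝ E] [FiniteDimensional ℝ E] [Measure.IsAddHaarMeasure (volume : Measure E)] in
private theorem int_mul_bdd {a : E → ℝ} (ha : Integrable a) {g : E → ℝ}
    (hg : AEStronglyMeasurable g volume) {C : ℝ} (hb : ∀ y, ‖g y‖ ≤ C) :
    Integrable fun y => a y * g y :=
  ha.mul_bdd hg (Filter.Eventually.of_forall hb)

private theorem aux_meas {X : Type} [TopologicalSpace X] {w : E → ℂ} (hw : Continuous w)
    [TopologicalSpace.PseudoMetrizableSpace X] {g : ℂ → X} (hg : Continuous g) :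
    AEStronglyMeasurable (fun y => g (w y)) (volume : Measure E) := by
  have : SecondCountableTopology E := by
    have : ProperSpace E := FiniteDimensional.proper_real E
    infer_instance
  exact (hg.comp hw).aestronglyMeasurable

private theorem int_real {a : E → ℝ} (ha : Dn a) {w : E → ℂ} (hw : Continuous w)
    (hb : ∃ C, ∀ y, ‖w y‖ ≤ C) {g : ℂ → ℝ} (hg : Continuous g) :
    Integrable fun y => a y * g (w y) := by
  obtain ⟨C, hC⟩ := hb
  obtain ⟨D, hD⟩ := (isCompact_closedBall (0 : ℂ) C).exists_bound_of_continuousOn hg.continuousOn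
  exact int_mul_bdd ha.int (aux_meas hw hg)
    (fun y => hD (w y) (by rw [mem_closedBall_zero_iff]; exact hC y))

private theorem int_cpx {a : E → ℝ} (ha : Dn a) {w : E → ℂ} (hw : Continuous w)
    (hb : ∃ C, ∀ y, ‖w y‖ ≤ C) : Integrable fun y => (a y : ℂ) * w y := by
  obtain ⟨C, hC⟩ := hb
  exact ha.int.ofReal.mul_bdd (aux_meas hw continuous_id) (Filter.Eventually.of_forall hC)

private theorem key {p : ℝ} (hp : 1 < p) {a : E → ℝ} (ha : Dn a) {w : E → ℂ} (hw : Continuous w)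
    (hb : ∃ C, ∀ y, ‖w y‖ ≤ C) (c : ℂ) :
    ∫ y, a y * Br p (w y) c = (∫ y, a y * ‖w y‖ ^ p) - ‖c‖ ^ p -
      p * (((∫ y, (a y : ℂ) * w y) - c) * (starRingEnd ℂ) (Jp p c)).re := by
  have hn : Continuous fun z : ℂ => ‖z‖ ^ p :=
    continuous_norm.rpow_const (fun z => Or.inr (by linarith))
  have h1 : Integrable fun y => a y * ‖w y‖ ^ p := int_real ha hw hb hn
  have h2 : Integrable fun y => (a y : ℂ) * w y := int_cpx ha hw hb
  have h3 : Integrable fun y => (a y : ℂ) := ha.int.ofReal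
  have h4 : Integrable fun y => ((a y : ℂ) * w y - (a y : ℂ) * c) * (starRingEnd ℂ) (Jp p c) :=
    (h2.sub (h3.mul_const c)).mul_const _
  have e1 : ∀ y, a y * Br p (w y) c = a y * ‖w y‖ ^ p - a y * ‖c‖ ^ p -
      p * (((a y : ℂ) * w y - (a y : ℂ) * c) * (starRingEnd ℂ) (Jp p c)).re := by
    intro y
    unfold Br
    have : ((a y : ℂ) * w y - (a y : ℂ) * c) * (starRingEnd ℂ) (Jp p c) =
        (a y : ℂ) * ((w y - c) * (starRingEnd ℂ) (Jp p c)) := by ring
    rw [this, Complex.re_ofReal_mul]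
    ring
  have h1c : Integrable fun y => a y * ‖c‖ ^ p := ha.int.mul_const _
  have h5 : Integrable fun y => p * (((a y : ℂ) * w y - (a y : ℂ) * c) *
      (starRingEnd ℂ) (Jp p c)).re := h4.re.const_mul p
  have h6 : Integrable fun y => a y * ‖w y‖ ^ p - a y * ‖c‖ ^ p := h1.sub h1c
  have e2 : ∫ y, (((a y : ℂ) * w y - (a y : ℂ) * c) * (starRingEnd ℂ) (Jp p c)).re =
      (((∫ y, (a y : ℂ) * w y) - c) * (starRingEnd ℂ) (Jp p c)).re := by
    have e3 := integral_re h4
    have e4 : ∫ y, ((a y : ℂ) * w y - (a y : ℂ) * c) * (starRingEnd ℂ) (Jp p c) =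
        ((∫ y, (a y : ℂ) * w y) - c) * (starRingEnd ℂ) (Jp p c) := by
      rw [integral_mul_const, integral_sub h2 (h3.mul_const c), integral_mul_const]
      have : ∫ y, (a y : ℂ) = 1 := by
        have h : ∫ y, (a y : ℂ) = ((∫ y, a y : ℝ) : ℂ) := integral_ofReal
        rw [h, ha.one]; simp
      rw [this, one_mul]
    rw [← e4]
    exact e3
  rw [integral_congr_ae (Filter.Eventually.of_forall e1)]
  rw [integral_sub h6 h5, integral_sub h1 h1c, integral_const_mul, e2,
    integral_mul_const, ha.one, one_mul]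

theorem mean_eq {p : ℝ} (hp : 1 < p) {a : E → ℝ} (ha : Dn a) {w : E → ℂ} (hw : Continuous w)
    (hb : ∃ C, ∀ y, ‖w y‖ ≤ C) :
    ∫ y, a y * ‖w y‖ ^ p = ‖∫ y, (a y : ℂ) * w y‖ ^ p +
      ∫ y, a y * Br p (w y) (∫ z, (a z : ℂ) * w z) := by
  rw [key hp ha hw hb]
  simp

private theorem Br_mean_nonneg {p : ℝ} (hp : 1 < p) {a : E → ℝ} (ha : Dn a) {w : E → ℂ} (c : ℂ) :
    0 ≤ ∫ y, a y * Br p (w y) c :=
  integral_nonneg fun y => mul_nonneg (ha.nonneg y) (Br_nonneg hp _ _)

theorem Br_mean {p : ℝ} (hp : 1 < p) {a : E → ℝ} (ha : Dn a) {w : E → ℂ} (hw : Continuous w)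
    (hb : ∃ C, ∀ y, ‖w y‖ ≤ C) (a0 : ℂ) :
    Br p (∫ y, (a y : ℂ) * w y) a0 ≤ ∫ y, a y * Br p (w y) a0 := by
  rw [key hp ha hw hb, mean_eq hp ha hw hb]
  have h := Br_mean_nonneg hp ha (w := w) (∫ z, (a z : ℂ) * w z)
  unfold Br at h ⊢
  linarith

private theorem dd_real {p : ℝ} (hp : 1 < p) {a : E → ℝ} (ha : Dn a) {w : E → ℂ}
    (hw : Continuous w) (hb : ∃ C, ∀ y, ‖w y‖ ≤ C) (c : ℂ) :
    Integrable fun y => a y * dd p (w y) c := by
  have hg : Continuous fun z : ℂ => dd p z c := by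
    unfold dd
    exact ((ph_cont (p := p) (by linarith)).sub continuous_const).norm.pow 2
  exact int_real (g := fun z : ℂ => dd p z c) ha hw hb hg

private theorem Br_real {p : ℝ} (hp : 1 < p) {a : E → ℝ} (ha : Dn a) {w : E → ℂ}
    (hw : Continuous w) (hb : ∃ C, ∀ y, ‖w y‖ ≤ C) (c : ℂ) :
    Integrable fun y => a y * Br p (w y) c := by
  have hg : Continuous fun z : ℂ => Br p z c := by
    have hn : Continuous fun z : ℂ => ‖z‖ ^ p :=
      continuous_norm.rpow_const (fun z => Or.inr (by linarith))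
    unfold Br
    refine (hn.sub continuous_const).sub (continuous_const.mul ?_)
    exact Complex.continuous_re.comp ((continuous_id.sub continuous_const).mul continuous_const)
  exact int_real (g := fun z : ℂ => Br p z c) ha hw hb hg

theorem dd_mean {p : ℝ} (hp : 1 < p) (hp2 : p ≤ 2) {a : E → ℝ} (ha : Dn a) {w : E → ℂ}
    (hw : Continuous w) (hb : ∃ C, ∀ y, ‖w y‖ ≤ C) (a0 : ℂ) :
    dd p (∫ y, (a y : ℂ) * w y) a0 ≤ 16 * p / (p - 1) * ∫ y, a y * dd p (w y) a0 := by
  have h1 := le_Br hp hp2 (∫ y, (a y : ℂ) * w y) a0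
  have h2 := Br_mean hp ha hw hb a0
  have h3 : ∫ y, a y * Br p (w y) a0 ≤ ∫ y, 8 * p * (a y * dd p (w y) a0) := by
    apply integral_mono (Br_real hp ha hw hb a0) ((dd_real hp ha hw hb a0).const_mul _)
    intro y
    have := mul_le_mul_of_nonneg_left (Br_le hp hp2 (w y) a0) (ha.nonneg y)
    show a y * Br p (w y) a0 ≤ 8 * p * (a y * dd p (w y) a0)
    linarith
  rw [integral_const_mul] at h3
  have hp1 : 0 < p - 1 := by linarith
  have h4 : (p - 1) / 2 * dd p (∫ y, (a y : ℂ) * w y) a0 ≤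
      8 * p * ∫ y, a y * dd p (w y) a0 := h1.trans (h2.trans h3)
  rw [div_mul_eq_mul_div, le_div_iff₀ hp1]
  linarith

theorem var_low {p : ℝ} (hp : 1 < p) (hp2 : p ≤ 2) {a : E → ℝ} (ha : Dn a) {w : E → ℂ}
    (hw : Continuous w) (hb : ∃ C, ∀ y, ‖w y‖ ≤ C) :
    (p - 1) / 8 * ∫ y, ∫ z, a y * a z * dd p (w y) (w z) ≤
      (∫ y, a y * ‖w y‖ ^ p) - ‖∫ y, (a y : ℂ) * w y‖ ^ p := by
  have h0 := mean_eq hp ha hw hb
  set W := ∫ y, (a y : ℂ) * w y with hW
  set D := ∫ y, a y * dd p (w y) W with hD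
  have hI := dd_real hp ha hw hb W
  have h1 : (p - 1) / 2 * D ≤ ∫ y, a y * Br p (w y) W := by
    rw [hD, ← integral_const_mul]
    apply integral_mono (hI.const_mul _) (Br_real hp ha hw hb W)
    intro y
    have := mul_le_mul_of_nonneg_left (le_Br hp hp2 (w y) W) (ha.nonneg y)
    show (p - 1) / 2 * (a y * dd p (w y) W) ≤ a y * Br p (w y) W
    linarith
  have h2 : ∀ y, ∫ z, a y * a z * dd p (w y) (w z) ≤ 2 * (a y * dd p (w y) W) + 2 * D * a y := by
    intro y
    have hr : Integrable fun z => 2 * a y * dd p (w y) W * a z + 2 * a y * (a z * dd p (w z) W) :=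
      (ha.int.const_mul _).add (hI.const_mul _)
    have e : ∫ z, (2 * a y * dd p (w y) W * a z + 2 * a y * (a z * dd p (w z) W)) =
        2 * (a y * dd p (w y) W) + 2 * D * a y := by
      rw [integral_add (ha.int.const_mul _) (hI.const_mul _), integral_const_mul,
        integral_const_mul, ha.one, ← hD]
      ring
    rw [← e]
    apply integral_mono_of_nonneg
    · exact Filter.Eventually.of_forall fun z =>
        mul_nonneg (mul_nonneg (ha.nonneg y) (ha.nonneg z)) (dd_nonneg _ _ _)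
    · exact hr
    · refine Filter.Eventually.of_forall fun z => ?_
      have h := mul_le_mul_of_nonneg_left (dd_tri p (w y) W (w z))
        (mul_nonneg (ha.nonneg y) (ha.nonneg z))
      rw [dd_symm p W (w z)] at h
      show a y * a z * dd p (w y) (w z) ≤
        2 * a y * dd p (w y) W * a z + 2 * a y * (a z * dd p (w z) W)
      linarith
  have h3 : ∫ y, ∫ z, a y * a z * dd p (w y) (w z) ≤ 4 * D := by
    have e : ∫ y, (2 * (a y * dd p (w y) W) + 2 * D * a y) = 4 * D := by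
      rw [integral_add (hI.const_mul _) (ha.int.const_mul _), integral_const_mul,
        integral_const_mul, ha.one, ← hD]
      ring
    rw [← e]
    apply integral_mono_of_nonneg
    · exact Filter.Eventually.of_forall fun y => integral_nonneg fun z =>
        mul_nonneg (mul_nonneg (ha.nonneg y) (ha.nonneg z)) (dd_nonneg _ _ _)
    · exact (hI.const_mul _).add (ha.int.const_mul _)
    · exact Filter.Eventually.of_forall h2
  have hp1 : 0 < p - 1 := by linarith
  have h4 : (p - 1) / 8 * ∫ y, ∫ z, a y * a z * dd p (w y) (w z) ≤ (p - 1) / 8 * (4 * D) :=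
    mul_le_mul_of_nonneg_left h3 (by positivity)
  linarith

end Pool.Agent.MO
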