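import Pool.Agent.MO.CVb

/-!
# MO-Mom: moments of the energy

`n = finrank ℝ E ≤ k`. `V ((1/2) • x) ≤ V x / 2` (`CV.smul_le`), so `exp(-V x/2) ≤ er (V ((1/2) • x))` (`V x < ∞`), and
`∫ er (V ((1/2) • x)) dx = 2^n ∫ er (V x) dx` (`Measure.integral_comp_smul`, also integrability
`integrable_comp_smul_iff`). Pointwise `(V/2)^i / i! ≤ exp(V/2)` (`Real.pow_div_factorial_le_exp`), so
`V^i er V ≤ i! 2^i exp(-V/2) ≤ i! 2^i er (V ((1/2) • x))`; for `V x = ∞` the left side is `0`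
(`∞.toReal = 0`, `er ∞ = 0`). `mn_le`: `i = 1`, `MK k = 2 * 2^k`.
`gv_of_vol`: if `0 < vol {V ≤ 1} < ∞` then `er ∘ V` is integrable with positive integral:
`er (V x) ≤ ∑' i, exp(-i) 1_{V x ≤ i+1}` (take `i = ⌊V x⌋`), `vol {V ≤ i+1} ≤ (i+1)^n vol {V ≤ 1}` (`CV.vol`), the series
`∑ exp(-i) (i+1)^n` converges; positivity: `er V ≥ e⁻¹` on `{V ≤ 1}`. `vol_le_Z`, `Z_le_vol`: the same estimates
(`e⁻¹ vol{V≤1} ≤ Z ≤ C_k vol{V ≤ 1}` with `C_k = ∑ exp(-i) (i+1)^k`).
-/

set_option autoImplicit false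

open MeasureTheory Set
open scoped ENNReal NNReal

namespace Pool.Agent.MO

variable {E : Type} [NormedAddCommGroup E] [NormedSpace ℝ E] [FiniteDimensional ℝ E]
  [MeasureSpace E] [BorelSpace E] [Measure.IsAddHaarMeasure (volume : Measure E)]

private theorem mom_pt {V : E → ℝ≥0∞} (h : CV V) (i : ℕ) (x : E) :
    (V x).toReal ^ i * er (V x) ≤
      ((i.factorial : ℝ) * 2 ^ i) * er (V ((1 / 2 : ℝ) • x)) := by
  have h0 := er_nonneg (V ((1 / 2 : ℝ) • x))
  by_cases hx : V x = ∞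
  · rw [hx, er_top, mul_zero]
    positivity
  · have h1 := h.smul_le x (t := 1 / 2) (by norm_num) (by norm_num)
    have h2 : ENNReal.ofReal (1 / 2) * V x ≠ ∞ := ENNReal.mul_ne_top ENNReal.ofReal_ne_top hx
    have h3 : V ((1 / 2 : ℝ) • x) ≠ ∞ := ne_top_of_le_ne_top h2 h1
    have h4 : (V ((1 / 2 : ℝ) • x)).toReal ≤ (V x).toReal / 2 := by
      have := ENNReal.toReal_mono h2 h1
      rw [ENNReal.toReal_mul, ENNReal.toReal_ofReal (by norm_num)] at this
      linarith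
    have e1 : er (V x) = Real.exp (-(V x).toReal) := by simp [er, hx]
    have e2 : er (V ((1 / 2 : ℝ) • x)) = Real.exp (-(V ((1 / 2 : ℝ) • x)).toReal) := by
      simp only [er, if_neg h3]
    rw [e1, e2]
    set v := (V x).toReal with hv
    have hv0 : 0 ≤ v := ENNReal.toReal_nonneg
    have h5 : (v / 2) ^ i / (i.factorial : ℝ) ≤ Real.exp (v / 2) :=
      Real.pow_div_factorial_le_exp (v / 2) (by positivity) i
    have hf : (0 : ℝ) < i.factorial := by exact_mod_cast Nat.factorial_pos i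
    have h6 : v ^ i ≤ (i.factorial : ℝ) * 2 ^ i * Real.exp (v / 2) := by
      rw [div_le_iff₀ hf, div_pow, div_le_iff₀ (by positivity)] at h5
      calc v ^ i ≤ Real.exp (v / 2) * (i.factorial : ℝ) * 2 ^ i := h5
        _ = _ := by ring
    calc v ^ i * Real.exp (-v) ≤
        (i.factorial : ℝ) * 2 ^ i * Real.exp (v / 2) * Real.exp (-v) :=
          mul_le_mul_of_nonneg_right h6 (Real.exp_pos _).le
      _ = (i.factorial : ℝ) * 2 ^ i * Real.exp (-(v / 2)) := by
          rw [mul_assoc, ← Real.exp_add]; congr 2; ring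
      _ ≤ (i.factorial : ℝ) * 2 ^ i * Real.exp (-(V ((1 / 2 : ℝ) • x)).toReal) := by
          refine mul_le_mul_of_nonneg_left ?_ (by positivity)
          exact Real.exp_le_exp.2 (by linarith)

private theorem mom_half {k : ℕ} {V : E → ℝ≥0∞} (h : GV k V) :
    Integrable (fun x => er (V ((1 / 2 : ℝ) • x))) ∧
      ∫ x, er (V ((1 / 2 : ℝ) • x)) ≤ 2 ^ k * ∫ x, er (V x) := by
  constructor
  · exact (integrable_comp_smul_iff volume (fun x => er (V x)) (R := (1 / 2 : ℝ))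
      (by norm_num)).2 h.int
  · have h1 := Measure.integral_comp_smul (volume : Measure E) (fun x => er (V x)) (1 / 2 : ℝ)
    rw [h1, smul_eq_mul]
    refine mul_le_mul_of_nonneg_right ?_ h.pos.le
    rw [one_div, inv_pow, inv_inv, abs_of_nonneg (by positivity)]
    exact pow_le_pow_right₀ (by norm_num) h.dim

theorem GV.mom {k : ℕ} {V : E → ℝ≥0∞} (h : GV k V) (i : ℕ) :
    Integrable (fun x => (V x).toReal ^ i * er (V x)) ∧
      ∫ x, (V x).toReal ^ i * er (V x) ≤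
        (i.factorial : ℝ) * 2 ^ i * 2 ^ k * ∫ x, er (V x) := by
  obtain ⟨h1, h2⟩ := mom_half h
  have hi : Integrable (fun x => (V x).toReal ^ i * er (V x)) := by
    refine Integrable.mono' (h1.const_mul ((i.factorial : ℝ) * 2 ^ i)) ?_ ?_
    · exact ((h.cv.meas.ennreal_toReal.pow_const i).mul (er_meas.comp h.cv.meas)).aestronglyMeasurable
    · refine Filter.Eventually.of_forall fun x => ?_
      rw [Real.norm_of_nonneg (mul_nonneg (pow_nonneg ENNReal.toReal_nonneg i) (er_nonneg _))]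
      exact mom_pt h.cv i x
  refine ⟨hi, ?_⟩
  calc ∫ x, (V x).toReal ^ i * er (V x)
      ≤ ∫ x, ((i.factorial : ℝ) * 2 ^ i) * er (V ((1 / 2 : ℝ) • x)) :=
        integral_mono hi (h1.const_mul _) (fun x => mom_pt h.cv i x)
    _ = ((i.factorial : ℝ) * 2 ^ i) * ∫ x, er (V ((1 / 2 : ℝ) • x)) := integral_const_mul _ _
    _ ≤ ((i.factorial : ℝ) * 2 ^ i) * (2 ^ k * ∫ x, er (V x)) :=
        mul_le_mul_of_nonneg_left h2 (by positivity)
    _ = _ := by ring

theorem GV.mn_nonneg {k : ℕ} {V : E → ℝ≥0∞} (h : GV k V) : 0 ≤ mn V := by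
  unfold mn
  refine div_nonneg ?_ h.pos.le
  exact integral_nonneg fun x => mul_nonneg ENNReal.toReal_nonneg (er_nonneg _)

theorem GV.mn_le {k : ℕ} {V : E → ℝ≥0∞} (h : GV k V) : mn V ≤ MK k := by
  have h1 := (h.mom 1).2
  simp only [pow_one, Nat.factorial_one, Nat.cast_one, one_mul] at h1
  unfold mn MK
  rw [div_le_iff₀ h.pos]
  exact h1

private noncomputable def momC (k : ℕ) : ℝ := ∑' i : ℕ, Real.exp (-(i : ℝ)) * ((i : ℝ) + 1) ^ k

private theorem momC_summable (k : ℕ) :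
    Summable fun i : ℕ => Real.exp (-(i : ℝ)) * ((i : ℝ) + 1) ^ k := by
  have h1 : Summable fun n : ℕ => (n : ℝ) ^ k * Real.exp (-1 * (n : ℝ)) :=
    Real.summable_pow_mul_exp_neg_nat_mul k one_pos
  have h2 := ((summable_nat_add_iff 1).2 h1).mul_left (Real.exp 1)
  refine h2.congr fun i => ?_
  push_cast
  have : Real.exp (-(i : ℝ)) = Real.exp 1 * Real.exp (-1 * ((i : ℝ) + 1)) := by
    rw [← Real.exp_add]; congr 1; ring
  rw [this]; ring

private theorem momC_pos (k : ℕ) : 0 < momC k := by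
  refine (momC_summable k).tsum_pos (fun i => by positivity) 0 (by positivity)

private theorem momC_ofReal (k : ℕ) :
    ∑' i : ℕ, ENNReal.ofReal (Real.exp (-(i : ℝ)) * ((i : ℝ) + 1) ^ k) =
      ENNReal.ofReal (momC k) :=
  (ENNReal.ofReal_tsum_of_nonneg (fun i => by positivity) (momC_summable k)).symm

private theorem mom_lint {k : ℕ} {V : E → ℝ≥0∞} (h : CV V) (hk : Module.finrank ℝ E ≤ k) :
    ∫⁻ x, ENNReal.ofReal (er (V x)) ≤ ENNReal.ofReal (momC k) * volume {x | V x ≤ 1} := by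
  have hpt : ∀ x, ENNReal.ofReal (er (V x)) ≤ ∑' i : ℕ, ENNReal.ofReal (Real.exp (-(i : ℝ))) *
      ({x | V x ≤ ENNReal.ofReal ((i : ℝ) + 1) * 1}.indicator (fun _ => (1 : ℝ≥0∞)) x) := by
    intro x
    by_cases hx : V x = ∞
    · rw [hx, er_top, ENNReal.ofReal_zero]; exact bot_le
    · refine le_trans ?_ (ENNReal.le_tsum ⌊(V x).toReal⌋₊)
      have h0 : (0 : ℝ) ≤ (V x).toReal := ENNReal.toReal_nonneg
      have h1 : ((⌊(V x).toReal⌋₊ : ℕ) : ℝ) ≤ (V x).toReal := Nat.floor_le h0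
      have h2 : (V x).toReal < (⌊(V x).toReal⌋₊ : ℝ) + 1 := Nat.lt_floor_add_one _
      have hmem : x ∈ {y | V y ≤ ENNReal.ofReal ((⌊(V x).toReal⌋₊ : ℝ) + 1) * 1} := by
        show V x ≤ ENNReal.ofReal ((⌊(V x).toReal⌋₊ : ℝ) + 1) * 1
        rw [mul_one]
        calc V x = ENNReal.ofReal (V x).toReal := (ENNReal.ofReal_toReal hx).symm
          _ ≤ _ := ENNReal.ofReal_le_ofReal h2.le
      rw [indicator_of_mem hmem, mul_one]
      have e1 : er (V x) = Real.exp (-(V x).toReal) := by simp [er, hx]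
      rw [e1]
      exact ENNReal.ofReal_le_ofReal (Real.exp_le_exp.2 (by linarith))
  calc ∫⁻ x, ENNReal.ofReal (er (V x)) ≤ ∫⁻ x, ∑' i : ℕ, ENNReal.ofReal (Real.exp (-(i : ℝ))) *
      ({x | V x ≤ ENNReal.ofReal ((i : ℝ) + 1) * 1}.indicator (fun _ => (1 : ℝ≥0∞)) x) :=
        lintegral_mono hpt
    _ = ∑' i : ℕ, ENNReal.ofReal (Real.exp (-(i : ℝ))) *
          volume {x | V x ≤ ENNReal.ofReal ((i : ℝ) + 1) * 1} := by
        rw [lintegral_tsum]
        · refine tsum_congr fun i => ?_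
          rw [lintegral_const_mul _ (measurable_const.indicator (h.measSet _)),
            lintegral_indicator (h.measSet _)]
          simp
        · intro i
          exact ((measurable_const.indicator (h.measSet _)).const_mul _).aemeasurable
    _ ≤ ∑' i : ℕ, ENNReal.ofReal (Real.exp (-(i : ℝ)) * ((i : ℝ) + 1) ^ k) *
          volume {x | V x ≤ 1} := by
        refine ENNReal.tsum_le_tsum fun i => ?_
        rw [ENNReal.ofReal_mul (Real.exp_pos _).le, mul_assoc]
        refine mul_le_mul_right ?_ _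
        refine (h.vol 1 (t := (i : ℝ) + 1) (by linarith [Nat.cast_nonneg (α := ℝ) i])).trans ?_
        refine mul_le_mul_left (ENNReal.ofReal_le_ofReal ?_) _
        exact pow_le_pow_right₀ (by linarith [Nat.cast_nonneg (α := ℝ) i]) hk
    _ = _ := by rw [ENNReal.tsum_mul_right, momC_ofReal]

theorem gv_of_vol {k : ℕ} {V : E → ℝ≥0∞} (h : CV V) (hk : Module.finrank ℝ E ≤ k)
    (h0 : 0 < volume {x | V x ≤ 1}) (h1 : volume {x | V x ≤ 1} ≠ ∞) : GV k V := by
  have hi : Integrable fun x => er (V x) := by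
    refine ⟨(er_meas.comp h.meas).aestronglyMeasurable, ?_⟩
    rw [hasFiniteIntegral_iff_ofReal (Filter.Eventually.of_forall fun x => er_nonneg _)]
    exact (mom_lint h hk).trans_lt (ENNReal.mul_lt_top ENNReal.ofReal_lt_top h1.lt_top)
  refine ⟨h, hk, hi, ?_⟩
  rw [integral_pos_iff_support_of_nonneg (fun x => er_nonneg _) hi]
  refine h0.trans_le (measure_mono fun x hx => ?_)
  have hx' : V x ≤ 1 := hx
  have hx2 : V x ≠ ∞ := ne_top_of_le_ne_top ENNReal.one_ne_top hx'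
  rw [Function.mem_support]
  simp only [er, if_neg hx2]
  exact (Real.exp_pos _).ne'

theorem GV.vol_fin {k : ℕ} {V : E → ℝ≥0∞} (h : GV k V) (u : ℝ≥0∞) (hu : u ≠ ∞) :
    volume {x | V x ≤ u} ≠ ∞ := by
  have h1 := h.int.measure_norm_ge_lt_top (ε := Real.exp (-u.toReal)) (Real.exp_pos _)
  refine ne_top_of_le_ne_top h1.ne (measure_mono fun x hx => ?_)
  have hx' : V x ≤ u := hx
  have hx2 : V x ≠ ∞ := ne_top_of_le_ne_top hu hx'
  show Real.exp (-u.toReal) ≤ ‖er (V x)‖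
  rw [Real.norm_of_nonneg (er_nonneg _)]
  simp only [er, if_neg hx2]
  exact Real.exp_le_exp.2 (neg_le_neg (ENNReal.toReal_mono hu hx'))

end Pool.Agent.MO

namespace Pool.Agent.MO

theorem Z_le_vol (k : ℕ) : ∃ C : ℝ, 0 < C ∧ ∀ (E : Type) [NormedAddCommGroup E] [NormedSpace ℝ E]
      [FiniteDimensional ℝ E] [MeasureSpace E] [BorelSpace E]
      [Measure.IsAddHaarMeasure (volume : Measure E)] (V : E → ℝ≥0∞), GV k V →
      ∫ x, er (V x) ≤ C * (volume {x | V x ≤ 1}).toReal := by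
  refine ⟨momC k, momC_pos k, ?_⟩
  intro E _ _ _ _ _ _ V h
  have h1 := mom_lint h.cv h.dim
  have h2 := h.vol_fin 1 ENNReal.one_ne_top
  rw [integral_eq_lintegral_of_nonneg_ae (Filter.Eventually.of_forall fun x => er_nonneg _)
    h.int.aestronglyMeasurable]
  have h3 := ENNReal.toReal_mono (ENNReal.mul_ne_top ENNReal.ofReal_ne_top h2) h1
  rw [ENNReal.toReal_mul, ENNReal.toReal_ofReal (momC_pos k).le] at h3
  exact h3

end Pool.Agent.MO
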