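import Pool.Agent.MO.Defs

/-!
# MO-Opb: basic facts on `op` and test functions

`f` continuous with compact support, `G` integrable: `op G f x = ∫ G y f(x+y) dy` is continuous, bounded and integrable
(shear `(x,y) ↦ (x+y,y)` and Fubini); powers by `‖u‖^p ≤ C^(p-1) ‖u‖`.
-/

set_option autoImplicit false

open MeasureTheory Set
open scoped ENNReal NNReal

namespace Pool.Agent.MO

variable {E : Type} [NormedAddCommGroup E] [NormedSpace ℝ E] [FiniteDimensional ℝ E]
  [MeasureSpace E] [BorelSpace E] [Measure.IsAddHaarMeasure (volume : Measure E)]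

omit [FiniteDimensional ℝ E] [BorelSpace E]
  [Measure.IsAddHaarMeasure (volume : Measure E)] in
private theorem opb_bdd {f : E → ℂ} (hf : TF f) : ∃ C, 0 ≤ C ∧ ∀ x, ‖f x‖ ≤ C := by
  obtain ⟨C, hC⟩ := hf.2.exists_bound_of_continuous hf.1
  exact ⟨C, (norm_nonneg (f 0)).trans (hC 0), hC⟩

private theorem opb_mul {G : E → ℂ} (hG : Integrable G) {f : E → ℂ} (hf : TF f) (x : E) :
    Integrable fun y => G y * f (x + y) := by
  obtain ⟨C, hC0, hC⟩ := opb_bdd hf
  have hc : Continuous fun y => f (x + y) := hf.1.comp (by fun_prop)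
  refine (hG.norm.const_mul C).mono' (hG.aestronglyMeasurable.mul hc.aestronglyMeasurable)
    (Filter.Eventually.of_forall fun y => ?_)
  rw [norm_mul, mul_comm]
  exact mul_le_mul_of_nonneg_right (hC _) (norm_nonneg _)

private theorem opb_pow {u : E → ℂ} (hu : Continuous u) (hi : Integrable u) {C : ℝ}
    (hC : ∀ x, ‖u x‖ ≤ C) {p : ℝ} (hp : 1 ≤ p) : Integrable fun x => ‖u x‖ ^ p := by
  have hc : Continuous fun x => ‖u x‖ ^ p := hu.norm.rpow_const fun x => Or.inr (by linarith)
  refine (hi.norm.const_mul (C ^ (p - 1))).mono' hc.aestronglyMeasurable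
    (Filter.Eventually.of_forall fun x => ?_)
  have h0 : 0 ≤ ‖u x‖ := norm_nonneg _
  rw [Real.norm_of_nonneg (Real.rpow_nonneg h0 p)]
  rcases h0.eq_or_lt with h | h
  · rw [← h, Real.zero_rpow (by linarith), mul_zero]
  · have h1 : ‖u x‖ ^ p = ‖u x‖ ^ (p - 1) * ‖u x‖ := by
      rw [← Real.rpow_add_one h.ne', sub_add_cancel]
    rw [h1]
    exact mul_le_mul_of_nonneg_right (Real.rpow_le_rpow h0 (hC x) (by linarith)) h0

theorem TF.bdd {f : E → ℂ} (hf : TF f) : ∃ C, ∀ x, ‖f x‖ ≤ C := by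
  exact hf.2.exists_bound_of_continuous hf.1

theorem TF.int {f : E → ℂ} (hf : TF f) : Integrable f := by
  exact hf.1.integrable_of_hasCompactSupport hf.2

theorem TF.int_pow {f : E → ℂ} (hf : TF f) {p : ℝ} (hp : 1 ≤ p) :
    Integrable fun x => ‖f x‖ ^ p := by
  obtain ⟨C, hC⟩ := hf.bdd
  exact opb_pow hf.1 hf.int hC hp

theorem op_cont {G : E → ℂ} (hG : Integrable G) {f : E → ℂ} (hf : TF f) :
    Continuous (op G f) := by
  obtain ⟨C, hC0, hC⟩ := opb_bdd hf
  refine continuous_of_dominated (bound := fun y => C * ‖G y‖)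
    (fun x => (opb_mul hG hf x).aestronglyMeasurable)
    (fun x => Filter.Eventually.of_forall fun y => ?_) (hG.norm.const_mul C)
    (Filter.Eventually.of_forall fun y => ?_)
  · rw [norm_mul, mul_comm]
    exact mul_le_mul_of_nonneg_right (hC _) (norm_nonneg _)
  · exact continuous_const.mul (hf.1.comp (by fun_prop))

theorem op_bdd {G : E → ℂ} (hG : Integrable G) {f : E → ℂ} (hf : TF f) :
    ∃ C, ∀ x, ‖op G f x‖ ≤ C := by
  obtain ⟨C, hC0, hC⟩ := opb_bdd hf
  refine ⟨∫ y, C * ‖G y‖, fun x => ?_⟩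
  refine norm_integral_le_of_norm_le (hG.norm.const_mul C)
    (Filter.Eventually.of_forall fun y => ?_)
  rw [norm_mul, mul_comm]
  exact mul_le_mul_of_nonneg_right (hC _) (norm_nonneg _)

theorem op_int {G : E → ℂ} (hG : Integrable G) {f : E → ℂ} (hf : TF f) :
    Integrable (op G f) := by
  have h1 : Integrable (fun z : E × E => f z.1 * G z.2)
      ((volume : Measure E).prod (volume : Measure E)) := hf.int.mul_prod hG
  have h2 := (measurePreserving_add_prod (volume : Measure E)
    (volume : Measure E)).integrable_comp h1.aestronglyMeasurable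
  have h3 := (h2.2 h1).integral_prod_left
  refine h3.congr (Filter.Eventually.of_forall fun x => ?_)
  show ∫ y, f (x + y) * G y = op G f x
  unfold op
  refine integral_congr_ae (Filter.Eventually.of_forall fun y => ?_)
  exact mul_comm _ _

theorem op_int_pow {G : E → ℂ} (hG : Integrable G) {f : E → ℂ} (hf : TF f) {p : ℝ}
    (hp : 1 ≤ p) : Integrable fun x => ‖op G f x‖ ^ p := by
  obtain ⟨C, hC⟩ := op_bdd hG hf
  exact opb_pow (op_cont hG hf) (op_int hG hf) hC hp

theorem op_add {G H : E → ℂ} (hG : Integrable G) (hH : Integrable H) {f : E → ℂ} (hf : TF f)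
    (x : E) : op (fun y => G y + H y) f x = op G f x + op H f x := by
  unfold op
  rw [← integral_add (opb_mul hG hf x) (opb_mul hH hf x)]
  refine integral_congr_ae (Filter.Eventually.of_forall fun y => ?_)
  exact add_mul _ _ _

theorem lint_pow {u : E → ℂ} {p : ℝ} (hp : 0 ≤ p) (hu : Integrable fun x => ‖u x‖ ^ p) :
    ∫⁻ x, ‖u x‖ₑ ^ p = ENNReal.ofReal (∫ x, ‖u x‖ ^ p) := by
  rw [ofReal_integral_eq_lintegral_ofReal hu
    (Filter.Eventually.of_forall fun x => Real.rpow_nonneg (norm_nonneg _) p)]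
  refine lintegral_congr fun x => ?_
  rw [← ofReal_norm, ENNReal.ofReal_rpow_of_nonneg (norm_nonneg _) hp]

theorem nb_of_int {G : E → ℂ} (hG : Integrable G) {p : ℝ} (hp : 1 ≤ p)
    (h : ∀ f : E → ℂ, TF f → ∫ x, ‖op G f x‖ ^ p ≤ ∫ x, ‖f x‖ ^ p) : NB p 1 G := by
  intro f hf
  rw [ENNReal.ofReal_one, ENNReal.one_rpow, one_mul,
    lint_pow (by linarith) (op_int_pow hG hf hp), lint_pow (by linarith) (hf.int_pow hp)]
  exact ENNReal.ofReal_le_ofReal (h f hf)

end Pool.Agent.MO
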