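import Pool.Agent.MO.Sc2
import Pool.Agent.MO.Opb

/-!
# MO-Rho: the function `rho` is admissible

`F = ph p ∘ f` is continuous with compact support (`ph_cont`, `ph_zero`). `dd p (f (x+y)) (f (x+z)) =
‖F(x+y) - F(x+z)‖^2`, continuous with compact support in `x`, integrable. `rho_sq`: `Real.sq_sqrt`.
`rho_shift`: translation invariance (`integral_add_right_eq_self`, replace `x` by `x - z`):
`∫ dd(f(x+y), f(x+z)) dx = ∫ dd(f(x+(y-z)), f x) dx`. `adm_rho`: nonneg; bounded: `dd_bound` and translation invariance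
(`ρ^2 ≤ 4 ∫ ‖f‖^p`); even: `rho_shift` with `dd_symm`; continuous: the square is
`∫ ‖F(x+y)‖^2 + ∫ ‖F‖^2 - 2 Re ∫ F(x+y) conj F(x) dx = 2∫‖F‖^2 - 2 Re(...)` or directly: for `y` near `y0` dominated
convergence (everything is supported in a fixed compact set and bounded); subadditive: Minkowski in `L^2`:
`‖F(.+y+z) - F‖_2 ≤ ‖F(.+y+z) - F(.+z)‖_2 + ‖F(.+z) - F‖_2` (`eLpNorm_add_le` with `p = 2`, or
`lintegral_Lp_add_le`, or Cauchy-Schwarz), first term = `ρ(y)` by translation invariance.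
-/

set_option autoImplicit false

open MeasureTheory Set
open scoped ENNReal NNReal

namespace Pool.Agent.MO

variable {E : Type} [NormedAddCommGroup E] [NormedSpace ℝ E] [FiniteDimensional ℝ E]
  [MeasureSpace E] [BorelSpace E] [Measure.IsAddHaarMeasure (volume : Measure E)]

private theorem ph_TF {p : ℝ} (hp : 1 < p) {f : E → ℂ} (hf : TF f) :
    TF (fun x => ph p (f x)) :=
  ⟨(ph_cont (by linarith)).comp hf.1, hf.2.comp_left (ph_zero p)⟩

private theorem shift_TF {f : E → ℂ} (hf : TF f) (y : E) : TF (fun x => f (x + y)) :=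
  ⟨hf.1.comp (by fun_prop), hf.2.comp_homeomorph (Homeomorph.addRight y)⟩

private theorem sub_TF {f g : E → ℂ} (hf : TF f) (hg : TF g) : TF (fun x => f x - g x) :=
  ⟨hf.1.sub hg.1, hf.2.sub hg.2⟩

private theorem sq_int {f : E → ℂ} (hf : TF f) : Integrable fun x => ‖f x‖ ^ 2 := by
  refine (hf.1.norm.pow 2).integrable_of_hasCompactSupport ?_
  exact hf.2.comp_left (g := fun z : ℂ => ‖z‖ ^ 2) (by simp)

theorem dd_int {p : ℝ} (hp : 1 < p) {f : E → ℂ} (hf : TF f) (y z : E) :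
    Integrable fun x => dd p (f (x + y)) (f (x + z)) := by
  exact sq_int (sub_TF (shift_TF (ph_TF hp hf) y) (shift_TF (ph_TF hp hf) z))

theorem rho_sq {p : ℝ} {f : E → ℂ} (y : E) :
    rho p f y ^ 2 = ∫ x, dd p (f (x + y)) (f x) := by
  unfold rho
  rw [Real.sq_sqrt (integral_nonneg fun x => dd_nonneg _ _ _)]

theorem rho_shift {p : ℝ} (hp : 1 < p) {f : E → ℂ} (hf : TF f) (y z : E) :
    ∫ x, dd p (f (x + y)) (f (x + z)) = rho p f (y - z) ^ 2 := by
  rw [rho_sq, ← integral_add_right_eq_self (fun x => dd p (f (x + (y - z))) (f x)) z]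
  refine integral_congr_ae (Filter.Eventually.of_forall fun x => ?_)
  show dd p (f (x + y)) (f (x + z)) = dd p (f (x + z + (y - z))) (f (x + z))
  rw [show x + z + (y - z) = x + y by abel]

private theorem rho_nonneg (p : ℝ) (f : E → ℂ) (y : E) : 0 ≤ rho p f y := Real.sqrt_nonneg _

private theorem minkowski {u v : E → ℂ} (hu : TF u) (hv : TF v) :
    Real.sqrt (∫ x, ‖u x + v x‖ ^ 2) ≤
      Real.sqrt (∫ x, ‖u x‖ ^ 2) + Real.sqrt (∫ x, ‖v x‖ ^ 2) := by
  have hA : 0 ≤ ∫ x, ‖u x‖ ^ 2 := integral_nonneg fun x => by positivity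
  have hB : 0 ≤ ∫ x, ‖v x‖ ^ 2 := integral_nonneg fun x => by positivity
  have hm : ∀ w : E → ℂ, TF w → MemLp (fun x => ‖w x‖) (ENNReal.ofReal 2) := by
    intro w hw
    exact (hw.1.norm.memLp_of_hasCompactSupport (hw.2.norm))
  have hC : ∫ x, ‖u x‖ * ‖v x‖ ≤ Real.sqrt (∫ x, ‖u x‖ ^ 2) * Real.sqrt (∫ x, ‖v x‖ ^ 2) := by
    have h := integral_mul_le_Lp_mul_Lq_of_nonneg (μ := (volume : Measure E))
      Real.HolderConjugate.two_two (f := fun x => ‖u x‖)
      (g := fun x => ‖v x‖) (Filter.Eventually.of_forall fun x => norm_nonneg _)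
      (Filter.Eventually.of_forall fun x => norm_nonneg _) (hm u hu) (hm v hv)
    simpa only [Real.rpow_two, ← Real.sqrt_eq_rpow] using h
  have hint : Integrable fun x => ‖u x‖ * ‖v x‖ := by
    refine (hu.1.norm.mul hv.1.norm).integrable_of_hasCompactSupport ?_
    exact (hu.2.norm).mul_right
  refine Real.sqrt_le_iff.2 ⟨by positivity, ?_⟩
  have h1 : ∫ x, ‖u x + v x‖ ^ 2 ≤ ∫ x, (‖u x‖ ^ 2 + 2 * (‖u x‖ * ‖v x‖) + ‖v x‖ ^ 2) := by
    refine integral_mono (sq_int ⟨hu.1.add hv.1, hu.2.add hv.2⟩)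
      (((sq_int hu).add (hint.const_mul 2)).add (sq_int hv)) fun x => ?_
    have h2 : ‖u x + v x‖ ≤ ‖u x‖ + ‖v x‖ := norm_add_le _ _
    have h3 : ‖u x + v x‖ ^ 2 ≤ (‖u x‖ + ‖v x‖) ^ 2 := pow_le_pow_left₀ (norm_nonneg _) h2 2
    show ‖u x + v x‖ ^ 2 ≤ ‖u x‖ ^ 2 + 2 * (‖u x‖ * ‖v x‖) + ‖v x‖ ^ 2
    linarith [h3, sq_nonneg (‖u x‖ + ‖v x‖), (by ring :
      (‖u x‖ + ‖v x‖) ^ 2 = ‖u x‖ ^ 2 + 2 * (‖u x‖ * ‖v x‖) + ‖v x‖ ^ 2)]
  have hi1 : Integrable fun x => ‖u x‖ ^ 2 + 2 * (‖u x‖ * ‖v x‖) :=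
    (sq_int hu).add (hint.const_mul 2)
  rw [integral_add hi1 (sq_int hv),
    integral_add (sq_int hu) (hint.const_mul 2), integral_const_mul] at h1
  have h4 : Real.sqrt (∫ x, ‖u x‖ ^ 2) ^ 2 = ∫ x, ‖u x‖ ^ 2 := Real.sq_sqrt hA
  have h5 : Real.sqrt (∫ x, ‖v x‖ ^ 2) ^ 2 = ∫ x, ‖v x‖ ^ 2 := Real.sq_sqrt hB
  calc ∫ x, ‖u x + v x‖ ^ 2 ≤ (∫ x, ‖u x‖ ^ 2) + 2 * (∫ x, ‖u x‖ * ‖v x‖) + ∫ x, ‖v x‖ ^ 2 := h1
    _ ≤ (∫ x, ‖u x‖ ^ 2) + 2 * (Real.sqrt (∫ x, ‖u x‖ ^ 2) * Real.sqrt (∫ x, ‖v x‖ ^ 2)) +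
        ∫ x, ‖v x‖ ^ 2 := by linarith
    _ = (Real.sqrt (∫ x, ‖u x‖ ^ 2) + Real.sqrt (∫ x, ‖v x‖ ^ 2)) ^ 2 := by
        rw [add_sq, h4, h5]; ring

theorem adm_rho {p : ℝ} (hp : 1 < p) {f : E → ℂ} (hf : TF f) : Adm (rho p f) where
  cont := by
    have hF := ph_TF hp hf
    have hG : Integrable fun x => (starRingEnd ℂ) (ph p (f x)) := by
      have h1 : TF fun x => (starRingEnd ℂ) (ph p (f x)) :=
        ⟨Complex.continuous_conj.comp hF.1, hF.2.comp_left (map_zero _)⟩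
      exact h1.int
    have hc := op_cont hG hF
    have key : ∀ y, rho p f y = Real.sqrt (2 * (∫ x, ‖ph p (f x)‖ ^ 2) -
        2 * (op (fun x => (starRingEnd ℂ) (ph p (f x))) (fun x => ph p (f x)) y).re) := by
      intro y
      unfold rho
      congr 1
      have hop : (op (fun x => (starRingEnd ℂ) (ph p (f x))) (fun x => ph p (f x)) y).re =
          ∫ x, ((starRingEnd ℂ) (ph p (f x)) * ph p (f (y + x))).re := by
        unfold op
        have hi : Integrable fun x => (starRingEnd ℂ) (ph p (f x)) * ph p (f (y + x)) := by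
          have h1 : TF fun x => (starRingEnd ℂ) (ph p (f x)) * ph p (f (y + x)) :=
            ⟨(Complex.continuous_conj.comp hF.1).mul (hF.1.comp (by fun_prop)),
              (hF.2.comp_left (g := (starRingEnd ℂ)) (map_zero _)).mul_right⟩
          exact h1.int
        exact (integral_re hi).symm
      rw [hop]
      have hi2 : Integrable fun x => ((starRingEnd ℂ) (ph p (f x)) * ph p (f (y + x))).re := by
        have h1 : TF fun x => (starRingEnd ℂ) (ph p (f x)) * ph p (f (y + x)) :=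
          ⟨(Complex.continuous_conj.comp hF.1).mul (hF.1.comp (by fun_prop)),
            (hF.2.comp_left (g := (starRingEnd ℂ)) (map_zero _)).mul_right⟩
        exact h1.int.re
      have h2 : ∫ x, ‖ph p (f (x + y))‖ ^ 2 = ∫ x, ‖ph p (f x)‖ ^ 2 :=
        integral_add_right_eq_self (fun x => ‖ph p (f x)‖ ^ 2) y
      calc ∫ x, dd p (f (x + y)) (f x)
          = ∫ x, (‖ph p (f (x + y))‖ ^ 2 + ‖ph p (f x)‖ ^ 2 -
            2 * ((starRingEnd ℂ) (ph p (f x)) * ph p (f (y + x))).re) := by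
            refine integral_congr_ae (Filter.Eventually.of_forall fun x => ?_)
            show ‖ph p (f (x + y)) - ph p (f x)‖ ^ 2 = ‖ph p (f (x + y))‖ ^ 2 +
              ‖ph p (f x)‖ ^ 2 - 2 * ((starRingEnd ℂ) (ph p (f x)) * ph p (f (y + x))).re
            rw [add_comm y x]
            generalize ph p (f (x + y)) = a
            generalize ph p (f x) = b
            rw [← Complex.normSq_eq_norm_sq, ← Complex.normSq_eq_norm_sq,
              ← Complex.normSq_eq_norm_sq, Complex.normSq_sub]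
            rw [mul_comm a ((starRingEnd ℂ) b)]
        _ = (∫ x, ‖ph p (f (x + y))‖ ^ 2) + (∫ x, ‖ph p (f x)‖ ^ 2) -
            2 * ∫ x, ((starRingEnd ℂ) (ph p (f x)) * ph p (f (y + x))).re := by
            have hi1 : Integrable fun x => ‖ph p (f (x + y))‖ ^ 2 + ‖ph p (f x)‖ ^ 2 :=
              (sq_int (shift_TF hF y)).add (sq_int hF)
            rw [integral_sub hi1 (hi2.const_mul 2),
              integral_add (sq_int (shift_TF hF y)) (sq_int hF), integral_const_mul]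
        _ = _ := by rw [h2]; ring
    have hfun : rho p f = fun y => Real.sqrt (2 * (∫ x, ‖ph p (f x)‖ ^ 2) -
        2 * (op (fun x => (starRingEnd ℂ) (ph p (f x))) (fun x => ph p (f x)) y).re) :=
      funext key
    rw [hfun]
    exact Real.continuous_sqrt.comp
      (continuous_const.sub (continuous_const.mul (Complex.continuous_re.comp hc)))
  nonneg := fun y => rho_nonneg p f y
  bdd := by
    refine ⟨Real.sqrt (∫ x, 2 * (‖f x‖ ^ p + ‖f x‖ ^ p)), fun y => ?_⟩
    unfold rho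
    refine Real.sqrt_le_sqrt ?_
    have hi := hf.int_pow hp.le
    have hi' : Integrable fun x => ‖f (x + y)‖ ^ p := (shift_TF hf y).int_pow hp.le
    have h2 : ∫ x, ‖f (x + y)‖ ^ p = ∫ x, ‖f x‖ ^ p :=
      integral_add_right_eq_self (fun x => ‖f x‖ ^ p) y
    have h1 : ∫ x, dd p (f (x + y)) (f x) ≤ ∫ x, 2 * (‖f (x + y)‖ ^ p + ‖f x‖ ^ p) := by
      refine integral_mono ?_ ((hi'.add hi).const_mul 2) fun x => dd_bound (by linarith) _ _
      have := dd_int hp hf y 0
      simpa using this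
    refine h1.trans (le_of_eq ?_)
    rw [integral_const_mul, integral_const_mul, integral_add hi' hi, integral_add hi hi, h2]
  even := by
    intro y
    have h1 := rho_shift hp hf 0 y
    have h2 := rho_shift hp hf y 0
    have h3 : ∫ x, dd p (f (x + 0)) (f (x + y)) = ∫ x, dd p (f (x + y)) (f (x + 0)) :=
      integral_congr_ae (Filter.Eventually.of_forall fun x => dd_symm _ _ _)
    rw [h1, h2, zero_sub, sub_zero] at h3
    exact (sq_eq_sq₀ (rho_nonneg p f _) (rho_nonneg p f _)).1 h3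
  sub := by
    intro y z
    have hF := ph_TF hp hf
    have hm := minkowski (sub_TF (shift_TF hF (y + z)) (shift_TF hF z))
      (sub_TF (shift_TF hF z) hF)
    have e1 : rho p f (y + z) = Real.sqrt (∫ x, ‖(ph p (f (x + (y + z))) - ph p (f (x + z))) +
        (ph p (f (x + z)) - ph p (f x))‖ ^ 2) := by
      unfold rho dd
      simp only [sub_add_sub_cancel]
    have e2 : rho p f y = Real.sqrt (∫ x, ‖ph p (f (x + (y + z))) - ph p (f (x + z))‖ ^ 2) := by
      have h := rho_shift hp hf (y + z) z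
      rw [add_sub_cancel_right] at h
      unfold dd at h
      rw [h, Real.sqrt_sq (rho_nonneg p f y)]
    have e3 : rho p f z = Real.sqrt (∫ x, ‖ph p (f (x + z)) - ph p (f x)‖ ^ 2) := rfl
    rw [e1, e2, e3]
    exact hm

end Pool.Agent.MO
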