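import Pool.Agent.MO.Sc1

/-!
# MO-Sc2: the squared distance `dd`

Upper and lower comparisons of `dd p a b = ‖ph p a - ph p b‖^2` with `‖a - b‖`, and with the
differences of `Jp`, all from `hs_lip`.
-/

set_option autoImplicit false

open MeasureTheory Set
open scoped ENNReal NNReal

namespace Pool.Agent.MO

theorem dd_nonneg (p : ℝ) (a b : ℂ) : 0 ≤ dd p a b := by
  unfold dd; positivity

theorem dd_symm (p : ℝ) (a b : ℂ) : dd p a b = dd p b a := by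
  unfold dd; rw [norm_sub_rev]

theorem dd_self (p : ℝ) (a : ℂ) : dd p a a = 0 := by
  simp [dd]

theorem dd_tri (p : ℝ) (a b c : ℂ) : dd p a c ≤ 2 * (dd p a b + dd p b c) := by
  unfold dd
  have h1 : ‖ph p a - ph p c‖ ≤ ‖ph p a - ph p b‖ + ‖ph p b - ph p c‖ :=
    norm_sub_le_norm_sub_add_norm_sub _ _ _
  have h2 : ‖ph p a - ph p c‖ ^ 2 ≤ (‖ph p a - ph p b‖ + ‖ph p b - ph p c‖) ^ 2 :=
    pow_le_pow_left₀ (norm_nonneg _) h1 2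
  nlinarith [sq_nonneg (‖ph p a - ph p b‖ - ‖ph p b - ph p c‖)]

theorem dd_cont {p : ℝ} (hp : 0 < p) : Continuous fun z : ℂ × ℂ => dd p z.1 z.2 := by
  unfold dd
  exact (((ph_cont hp).comp continuous_fst).sub ((ph_cont hp).comp continuous_snd)).norm.pow 2

theorem dd_bound {p : ℝ} (hp : 0 < p) (a b : ℂ) : dd p a b ≤ 2 * (‖a‖ ^ p + ‖b‖ ^ p) := by
  have h0 : ∀ c : ℂ, ‖ph p c‖ ^ 2 = ‖c‖ ^ p := by
    intro c
    rw [ph_norm hp, ← Real.rpow_natCast, ← Real.rpow_mul (norm_nonneg _)]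
    congr 1
    push_cast
    ring
  unfold dd
  have h1 : ‖ph p a - ph p b‖ ≤ ‖ph p a‖ + ‖ph p b‖ := norm_sub_le _ _
  have h2 : ‖ph p a - ph p b‖ ^ 2 ≤ (‖ph p a‖ + ‖ph p b‖) ^ 2 :=
    pow_le_pow_left₀ (norm_nonneg _) h1 2
  rw [← h0 a, ← h0 b]
  nlinarith [sq_nonneg (‖ph p a‖ - ‖ph p b‖)]

theorem dd_le_sub {p : ℝ} (hp : 1 < p) (hp2 : p ≤ 2) (a b : ℂ) :
    dd p a b ≤ 4 * (max ‖a‖ ‖b‖) ^ (p - 2) * ‖a - b‖ ^ 2 := by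
  have h1 : ‖ph p a - ph p b‖ ≤ 2 * (max ‖a‖ ‖b‖) ^ (p / 2 - 1) * ‖a - b‖ :=
    hs_lip (by linarith) (by linarith) a b
  have hM : 0 ≤ max ‖a‖ ‖b‖ := (norm_nonneg a).trans (le_max_left _ _)
  have h2 : ((max ‖a‖ ‖b‖) ^ (p / 2 - 1)) ^ 2 = (max ‖a‖ ‖b‖) ^ (p - 2) := by
    rw [← Real.rpow_natCast, ← Real.rpow_mul hM]
    congr 1
    push_cast
    ring
  unfold dd
  calc ‖ph p a - ph p b‖ ^ 2 ≤ (2 * (max ‖a‖ ‖b‖) ^ (p / 2 - 1) * ‖a - b‖) ^ 2 :=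
        pow_le_pow_left₀ (norm_nonneg _) h1 2
    _ = 4 * ((max ‖a‖ ‖b‖) ^ (p / 2 - 1)) ^ 2 * ‖a - b‖ ^ 2 := by ring
    _ = 4 * (max ‖a‖ ‖b‖) ^ (p - 2) * ‖a - b‖ ^ 2 := by rw [h2]

theorem Jp_sub_le {p : ℝ} (hp : 1 < p) (hp2 : p ≤ 2) (a b : ℂ) :
    ‖Jp p a - Jp p b‖ ≤ 2 * (max ‖a‖ ‖b‖) ^ (p - 2) * ‖a - b‖ := by
  exact hs_lip (by linarith) (by linarith) a b

theorem sub_le_dd {p : ℝ} (hp : 1 < p) (hp2 : p ≤ 2) (a b : ℂ) :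
    ‖a - b‖ ≤ 2 * (max ‖a‖ ‖b‖) ^ (1 - p / 2) * Real.sqrt (dd p a b) := by
  have hp0 : 0 < p := by linarith
  have hs0 : 0 ≤ 2 / p - 1 := by
    rw [sub_nonneg, le_div_iff₀ hp0]
    linarith
  have hs1 : 2 / p - 1 ≤ 1 := by
    have : 2 / p ≤ 2 := by
      rw [div_le_iff₀ hp0]
      linarith
    linarith
  have hexp : p / 2 * (2 / p - 1) = 1 - p / 2 := by
    field_simp
  have hinv : ∀ c : ℂ, ((‖ph p c‖ ^ (2 / p - 1) : ℝ) : ℂ) * ph p c = c := by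
    intro c
    by_cases hc : c = 0
    · rw [hc, ph_zero, mul_zero]
    · have hc' : 0 < ‖c‖ := norm_pos_iff.2 hc
      rw [ph_norm hp0, ← Real.rpow_mul (norm_nonneg _), hexp, ph, ← mul_assoc,
        ← Complex.ofReal_mul, ← Real.rpow_add hc', show 1 - p / 2 + (p / 2 - 1) = 0 by ring,
        Real.rpow_zero, Complex.ofReal_one, one_mul]
  have h1 := hs_lip (s := 2 / p - 1) (by linarith) hs1 (ph p a) (ph p b)
  rw [hinv, hinv] at h1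
  have hM : 0 ≤ max ‖a‖ ‖b‖ := (norm_nonneg a).trans (le_max_left _ _)
  have h2 : max ‖ph p a‖ ‖ph p b‖ = (max ‖a‖ ‖b‖) ^ (p / 2) := by
    rw [ph_norm hp0, ph_norm hp0]
    rcases le_total ‖a‖ ‖b‖ with h | h
    · rw [max_eq_right h, max_eq_right (Real.rpow_le_rpow (norm_nonneg _) h (by linarith))]
    · rw [max_eq_left h, max_eq_left (Real.rpow_le_rpow (norm_nonneg _) h (by linarith))]
  rw [h2, ← Real.rpow_mul hM, hexp] at h1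
  unfold dd
  rwa [Real.sqrt_sq (norm_nonneg _)]

theorem sub_mul_Jp {p : ℝ} (hp : 1 < p) (hp2 : p ≤ 2) (a b : ℂ) :
    ‖a - b‖ * ‖Jp p a - Jp p b‖ ≤ 8 * dd p a b := by
  have hM : 0 ≤ max ‖a‖ ‖b‖ := (norm_nonneg a).trans (le_max_left _ _)
  rcases hM.eq_or_lt with h0 | h0
  · have ha : ‖a‖ = 0 := le_antisymm (h0 ▸ le_max_left _ _) (norm_nonneg _)
    have hb : ‖b‖ = 0 := le_antisymm (h0 ▸ le_max_right _ _) (norm_nonneg _)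
    rw [norm_eq_zero] at ha hb
    rw [ha, hb, sub_self, norm_zero, zero_mul]
    have := dd_nonneg p 0 0
    positivity
  · have h1 := Jp_sub_le hp hp2 a b
    have h2 := sub_le_dd hp hp2 a b
    have h3 : ‖a - b‖ ^ 2 ≤ (2 * (max ‖a‖ ‖b‖) ^ (1 - p / 2) * Real.sqrt (dd p a b)) ^ 2 :=
      pow_le_pow_left₀ (norm_nonneg _) h2 2
    have h4 : (2 * (max ‖a‖ ‖b‖) ^ (1 - p / 2) * Real.sqrt (dd p a b)) ^ 2 =
        4 * (max ‖a‖ ‖b‖) ^ (2 - p) * dd p a b := by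
      have h5 : ((max ‖a‖ ‖b‖) ^ (1 - p / 2)) ^ 2 = (max ‖a‖ ‖b‖) ^ (2 - p) := by
        rw [← Real.rpow_natCast, ← Real.rpow_mul hM]
        congr 1
        push_cast
        ring
      calc (2 * (max ‖a‖ ‖b‖) ^ (1 - p / 2) * Real.sqrt (dd p a b)) ^ 2
          = 4 * ((max ‖a‖ ‖b‖) ^ (1 - p / 2)) ^ 2 * Real.sqrt (dd p a b) ^ 2 := by ring
        _ = 4 * (max ‖a‖ ‖b‖) ^ (2 - p) * dd p a b := by
            rw [h5, Real.sq_sqrt (dd_nonneg p a b)]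
    rw [h4] at h3
    have hpow : (max ‖a‖ ‖b‖) ^ (p - 2) * (max ‖a‖ ‖b‖) ^ (2 - p) = 1 := by
      rw [← Real.rpow_add h0, show p - 2 + (2 - p) = 0 by ring, Real.rpow_zero]
    have hMp : 0 ≤ (max ‖a‖ ‖b‖) ^ (p - 2) := Real.rpow_nonneg hM _
    calc ‖a - b‖ * ‖Jp p a - Jp p b‖
        ≤ ‖a - b‖ * (2 * (max ‖a‖ ‖b‖) ^ (p - 2) * ‖a - b‖) :=
          mul_le_mul_of_nonneg_left h1 (norm_nonneg _)
      _ = 2 * (max ‖a‖ ‖b‖) ^ (p - 2) * ‖a - b‖ ^ 2 := by ring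
      _ ≤ 2 * (max ‖a‖ ‖b‖) ^ (p - 2) * (4 * (max ‖a‖ ‖b‖) ^ (2 - p) * dd p a b) :=
          mul_le_mul_of_nonneg_left h3 (by positivity)
      _ = 8 * ((max ‖a‖ ‖b‖) ^ (p - 2) * (max ‖a‖ ‖b‖) ^ (2 - p)) * dd p a b := by ring
      _ = 8 * dd p a b := by rw [hpow, mul_one]

end Pool.Agent.MO
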