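import Pool.Agent.MO.Sc2

/-!
# MO-Sc3: the Bregman divergence

`Br_nonneg` (Young): `p Re(a conj (Jp b)) ≤ p ‖a‖ ‖b‖^(p-1) ≤ ‖a‖^p + (p-1) ‖b‖^p`
(`Real.young_inequality_of_nonneg` or `Real.inner_le_nnorm_mul_nnorm`-free weighted AM-GM
`Real.geom_mean_le_arith_mean2_weighted`), and `p Re(b conj (Jp b)) = p ‖b‖^p` (`mul_Jp`).
`Br_le`: `Br p a b + Br p b a = p Re((a-b) conj (Jp a - Jp b))` (direct), `Br p b a ≥ 0`, `sub_mul_Jp`:
`Br p a b ≤ p ‖a-b‖ ‖Jp a - Jp b‖ ≤ 8 p dd`.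
`le_Br`: if `a = 0` or `b = 0` direct (`Br p 0 b = (p-1)‖b‖^p`, `Br p a 0 = ‖a‖^p`, `dd ≤ 2(..)`, `(p-1)/2 * 2 ≤ 1`).
In general `X = ‖a‖^(p/2)`, `Y = ‖b‖^(p/2)`, `c` with `Re(a conj b) = ‖a‖ ‖b‖ c`, `|c| ≤ 1`:
`Br = X^2 + (p-1) Y^2 - p c X^(2/p) Y^(2-2/p)`, `dd = X^2 + Y^2 - 2 c X Y`, and by weighted AM-GM
`G := X^(2/p) Y^(2-2/p) = X * (X^(2/p-1) Y^(2-2/p)) ≤ X ((2/p-1) X + (2-2/p) Y)`, so `p G ≤ (2-p) X^2 + 2(p-1) X Y`.
`c ≥ 0`: `Br ≥ (1-(2-p)c) X^2 + (p-1) Y^2 - 2(p-1) c X Y ≥ (p-1)(X^2 + Y^2 - 2cXY) = (p-1) dd ≥ (p-1)/2 dd`.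
`c < 0`: `Br ≥ X^2 + (p-1) Y^2 ≥ (p-1)(X^2+Y^2) ≥ (p-1)/2 dd` (`dd ≤ 2(X^2+Y^2)`, `dd_bound`).
`Br_cont`: `ph_cont`, `Jp_cont`, `Real.continuous_rpow_const`-type. `Br_abs`: `0 ≤ Br ≤ 16 p... ≤ 32 (..)` from
`Br_le`, `dd_bound`, `p ≤ 2`.
-/

set_option autoImplicit false

open MeasureTheory Set
open scoped ENNReal NNReal

namespace Pool.Agent.MO

theorem norm_add_rpow (p : ℝ) (u g : ℂ) :
    ‖u + g‖ ^ p = ‖u‖ ^ p + p * (g * (starRingEnd ℂ) (Jp p u)).re + Br p (u + g) u := by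
  unfold Br
  rw [add_sub_cancel_left]
  ring

private theorem Br_eq {p : ℝ} (hp : 1 < p) (a b : ℂ) :
    Br p a b = ‖a‖ ^ p + (p - 1) * ‖b‖ ^ p - p * (a * (starRingEnd ℂ) (Jp p b)).re := by
  unfold Br
  rw [sub_mul, Complex.sub_re, mul_Jp hp b, Complex.ofReal_re]
  ring

theorem Br_nonneg {p : ℝ} (hp : 1 < p) (a b : ℂ) : 0 ≤ Br p a b := by
  rw [Br_eq hp]
  have hp0 : 0 < p := by linarith
  have h1 : (a * (starRingEnd ℂ) (Jp p b)).re ≤ ‖a‖ * ‖b‖ ^ (p - 1) := by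
    refine (Complex.re_le_norm _).trans ?_
    rw [norm_mul, RCLike.norm_conj, Jp_norm hp]
  have h2 : ‖a‖ * ‖b‖ ^ (p - 1) ≤ 1 / p * ‖a‖ ^ p + (1 - 1 / p) * ‖b‖ ^ p := by
    have h3 := Real.geom_mean_le_arith_mean2_weighted (w₁ := 1 / p) (w₂ := 1 - 1 / p)
      (p₁ := ‖a‖ ^ p) (p₂ := ‖b‖ ^ p) (by positivity)
      (by
        rw [sub_nonneg, div_le_one hp0]
        linarith) (by positivity) (by positivity) (by ring)
    rw [← Real.rpow_mul (norm_nonneg a), ← Real.rpow_mul (norm_nonneg b)] at h3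
    have h4 : p * (1 / p) = 1 := by field_simp
    have h5 : p * (1 - 1 / p) = p - 1 := by field_simp
    rw [h4, h5, Real.rpow_one] at h3
    exact h3
  have h6 : p * (1 / p * ‖a‖ ^ p + (1 - 1 / p) * ‖b‖ ^ p) = ‖a‖ ^ p + (p - 1) * ‖b‖ ^ p := by
    field_simp
  have h7 := mul_le_mul_of_nonneg_left (h1.trans h2) hp0.le
  rw [h6] at h7
  linarith

theorem Br_le {p : ℝ} (hp : 1 < p) (hp2 : p ≤ 2) (a b : ℂ) : Br p a b ≤ 8 * p * dd p a b := by
  have h0 := Br_nonneg hp b a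
  have h1 : Br p a b + Br p b a = p * ((a - b) * (starRingEnd ℂ) (Jp p a - Jp p b)).re := by
    unfold Br
    rw [map_sub]
    simp only [Complex.mul_re, Complex.sub_re, Complex.sub_im]
    ring
  have h2 : ((a - b) * (starRingEnd ℂ) (Jp p a - Jp p b)).re ≤ 8 * dd p a b := by
    refine (Complex.re_le_norm _).trans ?_
    rw [norm_mul, RCLike.norm_conj]
    exact sub_mul_Jp hp hp2 a b
  have h3 := mul_le_mul_of_nonneg_left h2 (by linarith : (0 : ℝ) ≤ p)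
  linarith

theorem le_Br {p : ℝ} (hp : 1 < p) (hp2 : p ≤ 2) (a b : ℂ) :
    (p - 1) / 2 * dd p a b ≤ Br p a b := by
  have hp0 : 0 < p := by linarith
  have hdb := dd_bound hp0 a b
  have ha0 : 0 ≤ ‖a‖ ^ p := by positivity
  have hb0 : 0 ≤ ‖b‖ ^ p := by positivity
  -- the case of a non-positive inner product
  have neg : (a * (starRingEnd ℂ) (Jp p b)).re ≤ 0 → (p - 1) / 2 * dd p a b ≤ Br p a b := by
    intro h
    rw [Br_eq hp]
    have h1 : p * (a * (starRingEnd ℂ) (Jp p b)).re ≤ 0 := mul_nonpos_of_nonneg_of_nonpos hp0.le h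
    have h2 : (p - 1) / 2 * dd p a b ≤ (p - 1) / 2 * (2 * (‖a‖ ^ p + ‖b‖ ^ p)) :=
      mul_le_mul_of_nonneg_left hdb (by linarith)
    have h3 : (p - 1) * ‖a‖ ^ p ≤ 1 * ‖a‖ ^ p := mul_le_mul_of_nonneg_right (by linarith) ha0
    linarith
  have hJ : (a * (starRingEnd ℂ) (Jp p b)).re = ‖b‖ ^ (p - 2) * (a * (starRingEnd ℂ) b).re := by
    unfold Jp
    rw [map_mul, Complex.conj_ofReal, mul_left_comm, Complex.re_ofReal_mul]
  by_cases hR : (a * (starRingEnd ℂ) b).re ≤ 0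
  · apply neg
    rw [hJ]
    exact mul_nonpos_of_nonneg_of_nonpos (by positivity) hR
  push Not at hR
  have ha : a ≠ 0 := by
    rintro rfl
    simp at hR
  have hb : b ≠ 0 := by
    rintro rfl
    simp at hR
  have hr : 0 < ‖a‖ := norm_pos_iff.2 ha
  have hs : 0 < ‖b‖ := norm_pos_iff.2 hb
  set r := ‖a‖ with hrdef
  set s := ‖b‖ with hsdef
  have hRle : (a * (starRingEnd ℂ) b).re ≤ r * s := by
    refine (Complex.re_le_norm _).trans ?_
    rw [norm_mul, RCLike.norm_conj]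
  obtain ⟨c, hc⟩ : ∃ c : ℝ, (a * (starRingEnd ℂ) b).re = c * (r * s) :=
    ⟨(a * (starRingEnd ℂ) b).re / (r * s), by field_simp⟩
  have hrs : 0 < r * s := by positivity
  have hc0 : 0 ≤ c := by
    by_contra h
    push Not at h
    have := mul_neg_of_neg_of_pos h hrs
    linarith
  have hc1 : c ≤ 1 := by
    by_contra h
    push Not at h
    have := mul_lt_mul_of_pos_right h hrs
    linarith
  have hX2 : (r ^ (p / 2)) ^ 2 = r ^ p := by
    rw [← Real.rpow_natCast, ← Real.rpow_mul hr.le]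
    congr 1
    push_cast
    ring
  have hY2 : (s ^ (p / 2)) ^ 2 = s ^ p := by
    rw [← Real.rpow_natCast, ← Real.rpow_mul hs.le]
    congr 1
    push_cast
    ring
  set X := r ^ (p / 2) with hX
  set Y := s ^ (p / 2) with hY
  have hX0 : 0 < X := Real.rpow_pos_of_pos hr _
  have hY0 : 0 < Y := Real.rpow_pos_of_pos hs _
  have hdd : dd p a b = X ^ 2 + Y ^ 2 - 2 * (c * X * Y) := by
    unfold dd
    rw [← Complex.normSq_eq_norm_sq, Complex.normSq_sub, Complex.normSq_eq_norm_sq,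
      Complex.normSq_eq_norm_sq, ph_norm hp0, ph_norm hp0]
    have h1 : (ph p a * (starRingEnd ℂ) (ph p b)).re = c * X * Y := by
      have h2 : ph p a * (starRingEnd ℂ) (ph p b) =
          ((r ^ (p / 2 - 1) * s ^ (p / 2 - 1) : ℝ) : ℂ) * (a * (starRingEnd ℂ) b) := by
        unfold ph
        rw [map_mul, Complex.conj_ofReal]
        push_cast
        ring
      rw [h2, Complex.re_ofReal_mul, hc]
      have h3 : r ^ (p / 2 - 1) * r = X := by
        rw [← Real.rpow_add_one hr.ne']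
        congr 1
        ring
      have h4 : s ^ (p / 2 - 1) * s = Y := by
        rw [← Real.rpow_add_one hs.ne']
        congr 1
        ring
      rw [← h3, ← h4]
      ring
    rw [h1]
  have hBr : Br p a b = X ^ 2 + (p - 1) * Y ^ 2 - p * (c * (r * s ^ (p - 1))) := by
    rw [Br_eq hp, hJ, hc, hX2, hY2]
    have h4 : s ^ (p - 2) * s = s ^ (p - 1) := by
      rw [← Real.rpow_add_one hs.ne']
      congr 1
      ring
    rw [← h4]
    ring
  have hG : p * (r * s ^ (p - 1)) ≤ (2 - p) * X ^ 2 + 2 * (p - 1) * (X * Y) := by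
    have h3 := Real.geom_mean_le_arith_mean2_weighted (w₁ := 2 / p - 1) (w₂ := 2 - 2 / p)
      (p₁ := X) (p₂ := Y)
      (by
        rw [sub_nonneg, one_le_div hp0]
        exact hp2)
      (by
        rw [sub_nonneg, div_le_iff₀ hp0]
        linarith) hX0.le hY0.le (by ring)
    have h4 : r * s ^ (p - 1) = X * (X ^ (2 / p - 1) * Y ^ (2 - 2 / p)) := by
      rw [hX, hY, ← Real.rpow_mul hr.le, ← Real.rpow_mul hs.le, ← mul_assoc,
        ← Real.rpow_add hr]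
      have h5 : p / 2 + p / 2 * (2 / p - 1) = 1 := by field_simp; ring
      have h6 : p / 2 * (2 - 2 / p) = p - 1 := by field_simp
      rw [h5, h6, Real.rpow_one]
    rw [h4]
    have h7 : p * (X * (X ^ (2 / p - 1) * Y ^ (2 - 2 / p))) ≤
        p * (X * ((2 / p - 1) * X + (2 - 2 / p) * Y)) :=
      mul_le_mul_of_nonneg_left (mul_le_mul_of_nonneg_left h3 hX0.le) hp0.le
    refine h7.trans (le_of_eq ?_)
    field_simp
  have hcG := mul_le_mul_of_nonneg_left hG hc0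
  have hc2 : (2 - p) * c ≤ 2 - p := by
    have := mul_le_mul_of_nonneg_left hc1 (by linarith : (0 : ℝ) ≤ 2 - p)
    linarith
  have hc3 : (2 - p) * c * X ^ 2 ≤ (2 - p) * X ^ 2 :=
    mul_le_mul_of_nonneg_right hc2 (by positivity)
  have hdd0 := dd_nonneg p a b
  have hfin : (p - 1) * dd p a b ≤ Br p a b := by
    rw [hdd, hBr]
    nlinarith
  have : (p - 1) / 2 * dd p a b ≤ (p - 1) * dd p a b :=
    mul_le_mul_of_nonneg_right (by linarith) hdd0
  linarith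

theorem Br_cont {p : ℝ} (hp : 1 < p) : Continuous fun z : ℂ × ℂ => Br p z.1 z.2 := by
  unfold Br
  have h1 : Continuous fun z : ℂ × ℂ => ‖z.1‖ ^ p :=
    (continuous_norm.comp continuous_fst).rpow_const fun _ => Or.inr (by linarith)
  have h2 : Continuous fun z : ℂ × ℂ => ‖z.2‖ ^ p :=
    (continuous_norm.comp continuous_snd).rpow_const fun _ => Or.inr (by linarith)
  have h3 : Continuous fun z : ℂ × ℂ => ((z.1 - z.2) * (starRingEnd ℂ) (Jp p z.2)).re :=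
    Complex.continuous_re.comp ((continuous_fst.sub continuous_snd).mul
      (Complex.continuous_conj.comp ((Jp_cont hp).comp continuous_snd)))
  exact (h1.sub h2).sub (continuous_const.mul h3)

theorem Br_bound {p : ℝ} (hp : 1 < p) (hp2 : p ≤ 2) (a b : ℂ) :
    Br p a b ≤ 32 * (‖a‖ ^ p + ‖b‖ ^ p) := by
  have h1 := Br_le hp hp2 a b
  have h2 := dd_bound (by linarith : (0 : ℝ) < p) a b
  have h3 := dd_nonneg p a b
  have h4 : 8 * p * dd p a b ≤ 16 * dd p a b := mul_le_mul_of_nonneg_right (by linarith) h3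
  linarith

end Pool.Agent.MO
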