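import Pool.Agent.MO.Opb

/-!
# MO-Scal: increments along dilations

`A t f x = ∫ m y f(x + t y) dy`. `op (dk t (m)) f x = A t f x` for `t > 0` (substitution, `Measure.integral_comp_inv_smul` /
`integral_comp_smul`). For `s > 0`, `f_s x = f(s x)` (a test function): `A (s t) f (s x) = A t f_s x`, so
`A (s(1+ε)) f (s x) - A s f (s x) = op (dk (1+ε) m - m) f_s x`; integrate `x ↦ s x`: both sides scale by `s^n`. This gives
`scal_small` (`ε < r`) with constant `C ε`. `scal`: for `0 ≤ h ≤ 1`, `1 + ε = e^h`, `ε ≤ 2h`: if `ε < r` use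
`scal_small`; if `ε ≥ r`: Minkowski and `∫⁻ ‖A t f‖^p ≤ ∫⁻ ‖f‖^p` (Jensen; `∫ m = 1`), so the norm is at most
`2 ≤ (2/r) ε ≤ (4/r) h`. Constant `D = 2 C + 4/r`. (`h = 0` trivial.)
-/

set_option autoImplicit false

open MeasureTheory Set
open scoped ENNReal NNReal

namespace Pool.Agent.MO

variable {E : Type} [NormedAddCommGroup E] [NormedSpace ℝ E] [FiniteDimensional ℝ E]
  [MeasureSpace E] [BorelSpace E] [Measure.IsAddHaarMeasure (volume : Measure E)]

private theorem scal_bdd {f : E → ℂ} (hf : TF f) : ∃ C, 0 ≤ C ∧ ∀ x, ‖f x‖ ≤ C := by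
  obtain ⟨C, hC⟩ := hf.bdd
  exact ⟨C, (norm_nonneg (f 0)).trans (hC 0), hC⟩

private theorem scal_int {m : E → ℝ} (hmi : Integrable m) {f : E → ℂ} (hf : TF f) (t : ℝ)
    (x : E) : Integrable fun y => (m y : ℂ) * f (x + t • y) := by
  obtain ⟨C, hC0, hC⟩ := scal_bdd hf
  have hc : Continuous fun y => f (x + t • y) := hf.1.comp (by fun_prop)
  refine (hmi.norm.const_mul C).mono'
    (hmi.ofReal.aestronglyMeasurable.mul hc.aestronglyMeasurable)
    (Filter.Eventually.of_forall fun y => ?_)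
  rw [norm_mul, mul_comm, Complex.norm_real]
  exact mul_le_mul_of_nonneg_right (hC _) (norm_nonneg _)

private theorem scal_cont {m : E → ℝ} (hmi : Integrable m) {f : E → ℂ} (hf : TF f) (t : ℝ) :
    Continuous fun x => ∫ y, (m y : ℂ) * f (x + t • y) := by
  obtain ⟨C, hC0, hC⟩ := scal_bdd hf
  refine continuous_of_dominated (bound := fun y => C * ‖m y‖)
    (fun x => (scal_int hmi hf t x).aestronglyMeasurable)
    (fun x => Filter.Eventually.of_forall fun y => ?_) (hmi.norm.const_mul C)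
    (Filter.Eventually.of_forall fun y => ?_)
  · rw [norm_mul, mul_comm, Complex.norm_real]
    exact mul_le_mul_of_nonneg_right (hC _) (norm_nonneg _)
  · exact continuous_const.mul (hf.1.comp (by fun_prop))

private theorem scal_jensen {p : ℝ} (hp : 1 < p) {m : E → ℝ} (hm : Measurable m)
    (hm0 : ∀ x, 0 ≤ m x) (hmi : Integrable m) (hm1 : ∫ x, m x = 1) {f : E → ℂ} (hf : TF f)
    (t : ℝ) : ∫⁻ x, ‖∫ y, (m y : ℂ) * f (x + t • y)‖ₑ ^ p ≤ ∫⁻ x, ‖f x‖ₑ ^ p := by
  have hp0 : 0 < p := by linarith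
  have hw : Measurable fun y => ENNReal.ofReal (m y) := hm.ennreal_ofReal
  let μ : Measure E := (volume : Measure E).withDensity fun y => ENNReal.ofReal (m y)
  have hμ : μ univ = 1 := by
    rw [withDensity_apply _ MeasurableSet.univ, Measure.restrict_univ,
      ← ofReal_integral_eq_lintegral_ofReal hmi (Filter.Eventually.of_forall hm0), hm1,
      ENNReal.ofReal_one]
  have hprob : IsProbabilityMeasure μ := ⟨hμ⟩
  have hJ : ∀ x, ‖∫ y, (m y : ℂ) * f (x + t • y)‖ₑ ^ p ≤ ∫⁻ y, ‖f (x + t • y)‖ₑ ^ p ∂μ := by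
    intro x
    have hc : Continuous fun y => f (x + t • y) := hf.1.comp (by fun_prop)
    have h1 : ‖∫ y, (m y : ℂ) * f (x + t • y)‖ₑ ≤ ∫⁻ y, ‖f (x + t • y)‖ₑ ∂μ := by
      refine (enorm_integral_le_lintegral_enorm _).trans (le_of_eq ?_)
      rw [lintegral_withDensity_eq_lintegral_mul _ hw hc.measurable.enorm]
      apply lintegral_congr
      intro y
      rw [enorm_mul, Pi.mul_apply]
      congr 1
      rw [← ofReal_norm, Complex.norm_real, Real.norm_of_nonneg (hm0 y)]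
    have h2 := eLpNorm'_le_eLpNorm'_of_exponent_le (p := 1) (q := p) one_pos hp.le μ
      hc.aestronglyMeasurable
    rw [eLpNorm'_eq_lintegral_enorm, eLpNorm'_eq_lintegral_enorm] at h2
    simp only [ENNReal.rpow_one, div_one] at h2
    calc ‖∫ y, (m y : ℂ) * f (x + t • y)‖ₑ ^ p
        ≤ ((∫⁻ y, ‖f (x + t • y)‖ₑ ^ p ∂μ) ^ (1 / p)) ^ p :=
          ENNReal.rpow_le_rpow (h1.trans h2) hp0.le
      _ = ∫⁻ y, ‖f (x + t • y)‖ₑ ^ p ∂μ := by
          rw [← ENNReal.rpow_mul, one_div, inv_mul_cancel₀ hp0.ne', ENNReal.rpow_one]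
  refine (lintegral_mono hJ).trans (le_of_eq ?_)
  rw [lintegral_lintegral_swap]
  · have h3 : ∀ y : E, ∫⁻ x, ‖f (x + t • y)‖ₑ ^ p = ∫⁻ x, ‖f x‖ₑ ^ p := fun y =>
      lintegral_add_right_eq_self (fun x => ‖f x‖ₑ ^ p) (t • y)
    simp_rw [h3]
    rw [lintegral_const, hμ, mul_one]
  · have hc : Continuous fun z : E × E => f (z.1 + t • z.2) := hf.1.comp (by fun_prop)
    exact (hc.measurable.enorm.pow_const p).aemeasurable

private theorem scal_lint (g : E → ℝ≥0∞) (hg : Measurable g) {S : ℝ} (hS : 0 < S) :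
    ∫⁻ x, g x = ENNReal.ofReal (S ^ Module.finrank ℝ E) * ∫⁻ x, g (S • x) := by
  have h1 := Measure.map_addHaar_smul (volume : Measure E) hS.ne'
  have h2 : ∫⁻ x, g (S • x) = ∫⁻ x, g x ∂(Measure.map (S • ·) (volume : Measure E)) :=
    (lintegral_map hg (by fun_prop)).symm
  rw [h2, h1, lintegral_smul_measure, smul_eq_mul, ← mul_assoc,
    ← ENNReal.ofReal_mul (by positivity), abs_of_pos (by positivity), mul_inv_cancel₀
    (by positivity), ENNReal.ofReal_one, one_mul]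

private theorem scal_dk {m : E → ℝ} {f : E → ℂ} {t : ℝ} (ht : 0 < t) (x : E) :
    op (dk t (fun x => (m x : ℂ))) f x = ∫ y, (m y : ℂ) * f (x + t • y) := by
  unfold op dk
  have h1 : ∀ y : E, (((t ^ Module.finrank ℝ E)⁻¹ : ℝ) : ℂ) * (m (t⁻¹ • y) : ℂ) * f (x + y) =
      (((t ^ Module.finrank ℝ E)⁻¹ : ℝ) : ℂ) *
        (fun z => (m z : ℂ) * f (x + t • z)) (t⁻¹ • y) := by
    intro y
    simp only [smul_smul, mul_inv_cancel₀ ht.ne', one_smul]
    ring
  simp_rw [h1]
  rw [integral_const_mul, Measure.integral_comp_inv_smul (volume : Measure E)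
    (fun z => (m z : ℂ) * f (x + t • z)) t, abs_of_pos (by positivity), Complex.real_smul,
    ← mul_assoc, ← Complex.ofReal_mul, inv_mul_cancel₀ (by positivity), Complex.ofReal_one,
    one_mul]

private theorem scal_dk_int {m : E → ℝ} (hmi : Integrable m) {t : ℝ} (ht : 0 < t) :
    Integrable (dk t (fun x => (m x : ℂ))) := by
  unfold dk
  apply Integrable.const_mul
  exact (integrable_comp_smul_iff (volume : Measure E) (fun x => (m x : ℂ))
    (inv_ne_zero ht.ne')).2 hmi.ofReal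

private theorem scal_small {p r C : ℝ} (hp : 1 < p) {m : E → ℝ} (hmi : Integrable m)
    (h : ∀ ε : ℝ, 0 < ε → ε < r →
      NB p (C * ε) fun y => dk (1 + ε) (fun x => (m x : ℂ)) y - (m y : ℂ))
    {f : E → ℂ} (hf : TF f) {S : ℝ} (hS : 0 < S) {ε : ℝ} (hε : 0 < ε) (hεr : ε < r) :
    ∫⁻ x, ‖(∫ y, (m y : ℂ) * f (x + (S * (1 + ε)) • y)) -
        ∫ y, (m y : ℂ) * f (x + S • y)‖ₑ ^ p ≤
      ENNReal.ofReal (C * ε) ^ p * ∫⁻ x, ‖f x‖ₑ ^ p := by
  have hp0 : 0 < p := by linarith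
  have hfS : TF fun x => f (S • x) := by
    refine ⟨hf.1.comp (by fun_prop), ?_⟩
    exact hf.2.comp_homeomorph (Homeomorph.smulOfNeZero S hS.ne')
  have hε1 : 0 < 1 + ε := by linarith
  have h1 := h ε hε hεr (fun x => f (S • x)) hfS
  have hc1 := scal_cont hmi hf (S * (1 + ε))
  have hc2 := scal_cont hmi hf S
  have hfc := hf.1
  rw [scal_lint (fun x => ‖(∫ y, (m y : ℂ) * f (x + (S * (1 + ε)) • y)) -
        ∫ y, (m y : ℂ) * f (x + S • y)‖ₑ ^ p) (by fun_prop) hS,
    scal_lint (fun x => ‖f x‖ₑ ^ p) (by fun_prop) hS, mul_left_comm]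
  refine mul_le_mul_right ?_ _
  refine le_trans (le_of_eq ?_) h1
  apply lintegral_congr
  intro x
  congr 2
  have h2 : (fun y => dk (1 + ε) (fun x => (m x : ℂ)) y - (m y : ℂ)) =
      fun y => dk (1 + ε) (fun x => (m x : ℂ)) y + (- (m y : ℂ)) := by
    funext y
    ring
  rw [h2, op_add (H := fun y => -(m y : ℂ)) (scal_dk_int hmi hε1) hmi.ofReal.neg hfS,
    scal_dk hε1]
  have h3 : op (fun y => -(m y : ℂ)) (fun x => f (S • x)) x =
      - ∫ y, (m y : ℂ) * f (S • x + S • y) := by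
    unfold op
    rw [← integral_neg]
    apply integral_congr_ae
    refine Filter.Eventually.of_forall fun y => ?_
    simp only [smul_add]
    ring
  rw [h3, ← sub_eq_add_neg]
  congr 1
  apply integral_congr_ae
  refine Filter.Eventually.of_forall fun y => ?_
  simp only [smul_add, smul_smul]

theorem scal {p r C : ℝ} (hp : 1 < p) (hr : 0 < r) (hC : 0 ≤ C) {m : E → ℝ} (hm : Measurable m)
    (hm0 : ∀ x, 0 ≤ m x) (hmi : Integrable m) (hm1 : ∫ x, m x = 1)
    (h : ∀ ε : ℝ, 0 < ε → ε < r →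
      NB p (C * ε) fun y => dk (1 + ε) (fun x => (m x : ℂ)) y - (m y : ℂ))
    {f : E → ℂ} (hf : TF f) (s : ℝ) {u : ℝ} (hu : 0 ≤ u) (hu1 : u ≤ 1) :
    ∫⁻ x, ‖(∫ y, (m y : ℂ) * f (x + Real.exp (s + u) • y)) -
        ∫ y, (m y : ℂ) * f (x + Real.exp s • y)‖ₑ ^ p ≤
      ENNReal.ofReal ((2 * C + 4 / r) * u) ^ p * ∫⁻ x, ‖f x‖ₑ ^ p := by
  have hp0 : 0 < p := by linarith
  rcases hu.eq_or_lt with h0 | hupos
  · subst h0
    simp only [add_zero, sub_self, enorm_zero, ENNReal.zero_rpow_of_pos hp0, lintegral_zero]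
    exact zero_le
  · set ε : ℝ := Real.exp u - 1 with hε
    have hεu : u ≤ ε := by
      have := Real.add_one_le_exp u
      linarith
    have hε2 : ε ≤ 2 * u := by
      have h1 := Real.abs_exp_sub_one_le (x := u) (by rw [abs_of_pos hupos]; exact hu1)
      rw [abs_of_pos hupos] at h1
      exact (le_abs_self _).trans h1
    have hεpos : 0 < ε := by linarith
    by_cases hεr : ε < r
    · have h1 := scal_small hp hmi h hf (Real.exp_pos s) hεpos hεr
      have h2 : Real.exp s * (1 + ε) = Real.exp (s + u) := by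
        rw [Real.exp_add, hε]
        ring
      rw [h2] at h1
      refine h1.trans (mul_le_mul_left ?_ _)
      apply ENNReal.rpow_le_rpow _ hp0.le
      apply ENNReal.ofReal_le_ofReal
      have h3 : C * ε ≤ C * (2 * u) := mul_le_mul_of_nonneg_left hε2 hC
      have h4 : 0 ≤ 4 / r * u := by positivity
      linarith
    · rw [not_lt] at hεr
      have hc1 := scal_cont hmi hf (Real.exp (s + u))
      have hc2 := scal_cont hmi hf (Real.exp s)
      have h1 := scal_jensen hp hm hm0 hmi hm1 hf (Real.exp (s + u))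
      have h2 := scal_jensen hp hm hm0 hmi hm1 hf (Real.exp s)
      have h3 : ∀ x, ‖(∫ y, (m y : ℂ) * f (x + Real.exp (s + u) • y)) -
          ∫ y, (m y : ℂ) * f (x + Real.exp s • y)‖ₑ ^ p ≤ 2 ^ (p - 1) *
          (‖∫ y, (m y : ℂ) * f (x + Real.exp (s + u) • y)‖ₑ ^ p +
            ‖∫ y, (m y : ℂ) * f (x + Real.exp s • y)‖ₑ ^ p) := by
        intro x
        refine le_trans (ENNReal.rpow_le_rpow (enorm_sub_le) hp0.le) ?_
        exact ENNReal.rpow_add_le_mul_rpow_add_rpow _ _ hp.le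
      refine (lintegral_mono h3).trans ?_
      have hma := hc1.measurable.enorm.pow_const p
      have hmb := hc2.measurable.enorm.pow_const p
      rw [lintegral_const_mul _ (by exact hma.add hmb), lintegral_add_left hma]
      have h4 : (2 : ℝ≥0∞) ^ (p - 1) * ((∫⁻ x, ‖f x‖ₑ ^ p) + ∫⁻ x, ‖f x‖ₑ ^ p) =
          2 ^ p * ∫⁻ x, ‖f x‖ₑ ^ p := by
        rw [← two_mul, ← mul_assoc]
        congr 1
        have h5 : (2 : ℝ≥0∞) ^ (p - 1) * 2 = 2 ^ (p - 1) * 2 ^ (1 : ℝ) := by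
          rw [ENNReal.rpow_one]
        rw [h5, ← ENNReal.rpow_add _ _ (by norm_num) (by norm_num)]
        congr 1
        ring
      calc (2 : ℝ≥0∞) ^ (p - 1) * _ ≤ 2 ^ (p - 1) * ((∫⁻ x, ‖f x‖ₑ ^ p) + ∫⁻ x, ‖f x‖ₑ ^ p) :=
            mul_le_mul_right (add_le_add h1 h2) _
        _ = 2 ^ p * ∫⁻ x, ‖f x‖ₑ ^ p := h4
        _ ≤ _ := by
            refine mul_le_mul_left ?_ _
            apply ENNReal.rpow_le_rpow _ hp0.le
            rw [← ENNReal.ofReal_ofNat 2]
            apply ENNReal.ofReal_le_ofReal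
            have h6 : 2 ≤ 4 / r * u := by
              rw [div_mul_eq_mul_div, le_div_iff₀ hr]
              linarith
            have h7 : 0 ≤ 2 * C * u := by positivity
            linarith

end Pool.Agent.MO
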