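import Pool.Agent.MO.Fub

/-!
# MO-Sym: symmetrisation of the first-order term

`I y = ∫ f(x+y) conj(Jp (f x)) dx`: continuous and bounded in `y`. Fubini (`D` integrable because `‖D‖ ≤ δ s`):
`∫ op D f x conj(Jp(f x)) dx = ∫ D y I y dy`; by `D(-y) = D y` (`integral_neg_eq_self`) also `= ∫ D y I(-y) dy`, and
`∫ D = 0`; so it equals `(1/2) ∫ D y (I y + I(-y) - 2 I 0) dy`. Translation invariance: `I(-y) = ∫ f x conj(Jp(f(x+y))) dx`,
`I 0 = ∫ f(x+y) conj(Jp(f(x+y))) dx = ∫ f x conj (Jp (f x)) dx`, so
`I y + I(-y) - 2 I 0 = -∫ (f(x+y) - f x) conj(Jp(f(x+y)) - Jp(f x)) dx`, whose norm is at most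
`∫ 8 dd p (f(x+y)) (f x) dx = 8 ρ(y)^2` (`sub_mul_Jp`, `rho_sq`). Hence the norm is at most
`(1/2) ∫ δ s(y) 8 ρ(y)^2 dy = 4 δ ∫ ρ^2 s`.
-/

set_option autoImplicit false

open MeasureTheory Set
open scoped ENNReal NNReal

namespace Pool.Agent.MO

variable {E : Type} [NormedAddCommGroup E] [NormedSpace ℝ E] [FiniteDimensional ℝ E]
  [MeasureSpace E] [BorelSpace E] [Measure.IsAddHaarMeasure (volume : Measure E)]

/-- the product of a bounded continuous function and a test function is integrable -/
private lemma symf_int_mul {f g : E → ℂ} (hf : TF f) (hg : TF g) (y z : E) :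
    Integrable fun x => f (x + y) * g (x + z) := by
  obtain ⟨C, hC⟩ := hf.bdd
  have hgi : Integrable fun x => g (x + z) := hg.int.comp_add_right z
  refine Integrable.bdd_mul (c := C) hgi ?_ ?_
  · exact (hf.1.comp (continuous_id.add continuous_const)).aestronglyMeasurable
  · exact Filter.Eventually.of_forall fun x => hC _

theorem sym_first {p : ℝ} (hp : 1 < p) (hp2 : p ≤ 2) {s : E → ℝ} (hs : Wt s) {D : E → ℂ}
    (hD : Measurable D) (hDe : ∀ y, D (-y) = D y) (hD0 : ∫ y, D y = 0) {δ : ℝ} (hδ : 0 ≤ δ)
    (hDs : ∀ y, ‖D y‖ ≤ δ * s y) {f : E → ℂ} (hf : TF f) :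
    ‖∫ x, op D f x * (starRingEnd ℂ) (Jp p (f x))‖ ≤ 4 * δ * ∫ y, rho p f y ^ 2 * s y := by
  set J : E → ℂ := fun x => (starRingEnd ℂ) (Jp p (f x)) with hJ
  have hJT : TF J := by
    refine ⟨Complex.continuous_conj.comp ((Jp_cont hp).comp hf.1), ?_⟩
    refine hf.2.comp_left (g := fun z => (starRingEnd ℂ) (Jp p z)) ?_
    simp [Jp_zero]
  have hDi : Integrable D := by
    refine Integrable.mono' (hs.int.const_mul δ) hD.aestronglyMeasurable ?_
    exact Filter.Eventually.of_forall hDs
  obtain ⟨C, hC⟩ := hf.bdd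
  have hC0 : 0 ≤ C := (norm_nonneg _).trans (hC 0)
  set I : E → ℂ := fun y => ∫ x, f (x + y) * J x with hI
  -- integrability on the product
  have hprod : Integrable (fun z : E × E => D z.2 * f (z.1 + z.2) * J z.1)
      ((volume : Measure E).prod volume) := by
    have h1 : Integrable (fun z : E × E => J z.1 * D z.2) ((volume : Measure E).prod volume) :=
      hJT.int.mul_prod hDi
    have h2 : (fun z : E × E => D z.2 * f (z.1 + z.2) * J z.1) =
        fun z : E × E => f (z.1 + z.2) * (J z.1 * D z.2) := by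
      funext z; ring
    rw [h2]
    refine Integrable.bdd_mul (c := C) h1 ?_ ?_
    · exact (hf.1.comp (continuous_fst.add continuous_snd)).aestronglyMeasurable
    · exact Filter.Eventually.of_forall fun z => hC _
  have hmain : ∫ x, op D f x * J x = ∫ y, D y * I y := by
    have h1 : ∀ x, op D f x * J x = ∫ y, D y * f (x + y) * J x := by
      intro x
      unfold op
      rw [integral_mul_const]
    have h2 : ∀ y, D y * I y = ∫ x, D y * f (x + y) * J x := by
      intro y
      rw [hI]
      simp only
      rw [← integral_const_mul]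
      congr 1
      funext x
      ring
    simp only [h1, h2]
    exact integral_integral_swap hprod
  have hDI : Integrable fun y => D y * I y := by
    have h1 := hprod.integral_prod_right
    refine h1.congr (Filter.Eventually.of_forall fun y => ?_)
    simp only [hI]
    rw [← integral_const_mul]
    congr 1
    funext x
    ring
  have hDIn : Integrable fun y => D y * I (-y) := by
    have h1 := hDI.comp_neg
    refine h1.congr (Filter.Eventually.of_forall fun y => ?_)
    simp only [hDe]
  have hneg : ∫ y, D y * I (-y) = ∫ y, D y * I y := by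
    rw [← integral_neg_eq_self (fun y => D y * I y) volume]
    simp only [hDe]
  have hD0' : ∫ y, D y * I 0 = 0 := by
    rw [integral_mul_const, hD0, zero_mul]
  have hDi0 : Integrable fun y => D y * I 0 := hDi.mul_const _
  have hhalf : ∫ y, D y * I y = (1 / 2 : ℂ) * ∫ y, D y * (I y + I (-y) - 2 * I 0) := by
    have h1 : ∫ y, D y * (I y + I (-y) - 2 * I 0) =
        (∫ y, D y * I y) + (∫ y, D y * I (-y)) - 2 * ∫ y, D y * I 0 := by
      have k1 : ∫ y, (D y * I y + D y * I (-y)) = (∫ y, D y * I y) + ∫ y, D y * I (-y) :=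
        integral_add hDI hDIn
      have k2 : ∫ y, 2 * (D y * I 0) = 2 * ∫ y, D y * I 0 := integral_const_mul _ _
      have k3 : ∫ y, ((D y * I y + D y * I (-y)) - 2 * (D y * I 0)) =
          (∫ y, (D y * I y + D y * I (-y))) - ∫ y, 2 * (D y * I 0) :=
        integral_sub (hDI.add hDIn) (hDi0.const_mul 2)
      rw [← k1, ← k2, ← k3]
      congr 1
      funext y
      ring
    rw [h1, hneg, hD0']
    ring
  -- second differences
  have hsec : ∀ y, ‖I y + I (-y) - 2 * I 0‖ ≤ 8 * rho p f y ^ 2 := by
    intro y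
    have i1 := symf_int_mul hf hJT y y
    have i2 := symf_int_mul hf hJT y 0
    have i3 := symf_int_mul hf hJT 0 y
    have i4 := symf_int_mul hf hJT 0 0
    simp only [add_zero] at i2 i3 i4
    have e1 : ∫ x, f (x + y) * J (x + y) = I 0 := by
      rw [hI]
      simp only [add_zero]
      exact integral_add_right_eq_self (fun x => f x * J x) y
    have e3 : ∫ x, f x * J (x + y) = I (-y) := by
      rw [hI]
      simp only
      rw [← integral_add_right_eq_self (fun x => f (x + -y) * J x) y]
      congr 1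
      funext x
      rw [add_neg_cancel_right]
    have e4 : ∫ x, f x * J x = I 0 := by
      rw [hI]
      simp only [add_zero]
    have h1 : I y + I (-y) - 2 * I 0 = -∫ x, (f (x + y) - f x) * (J (x + y) - J x) := by
      have h2 : ∫ x, (f (x + y) - f x) * (J (x + y) - J x) =
          (∫ x, f (x + y) * J (x + y)) - (∫ x, f (x + y) * J x) - (∫ x, f x * J (x + y)) +
            ∫ x, f x * J x := by
        have k1 : ∫ x, (f (x + y) * J (x + y) - f (x + y) * J x) =
            (∫ x, f (x + y) * J (x + y)) - ∫ x, f (x + y) * J x := integral_sub i1 i2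
        have k2 : ∫ x, ((f (x + y) * J (x + y) - f (x + y) * J x) - f x * J (x + y)) =
            (∫ x, (f (x + y) * J (x + y) - f (x + y) * J x)) - ∫ x, f x * J (x + y) :=
          integral_sub (i1.sub i2) i3
        have k3 : ∫ x, (((f (x + y) * J (x + y) - f (x + y) * J x) - f x * J (x + y)) +
            f x * J x) =
            (∫ x, ((f (x + y) * J (x + y) - f (x + y) * J x) - f x * J (x + y))) +
              ∫ x, f x * J x :=
          integral_add ((i1.sub i2).sub i3) i4
        rw [← k1, ← k2, ← k3]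
        congr 1
        funext x
        ring
      rw [h2, e1, e3, e4]
      have e2 : ∫ x, f (x + y) * J x = I y := rfl
      rw [e2]
      ring
    rw [h1, norm_neg, rho_sq, ← integral_const_mul]
    have hdi := (dd_int hp hf y 0).const_mul 8
    simp only [add_zero] at hdi
    refine norm_integral_le_of_norm_le hdi (Filter.Eventually.of_forall fun x => ?_)
    rw [norm_mul]
    have h3 : ‖J (x + y) - J x‖ = ‖Jp p (f (x + y)) - Jp p (f x)‖ := by
      rw [hJ]
      simp only
      rw [← map_sub, RCLike.norm_conj]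
    rw [h3]
    exact sub_mul_Jp hp hp2 _ _
  have hadm := adm_rho hp hf
  have hri : Integrable fun y => rho p f y ^ 2 * s y := by
    obtain ⟨B, hB⟩ := hadm.bdd
    refine Integrable.bdd_mul (c := B ^ 2) hs.int ?_ ?_
    · exact (hadm.cont.pow 2).aestronglyMeasurable
    · refine Filter.Eventually.of_forall fun y => ?_
      rw [Real.norm_of_nonneg (sq_nonneg _)]
      exact pow_le_pow_left₀ (hadm.nonneg y) (hB y) 2
  rw [hmain, hhalf, norm_mul]
  have h5 : ‖∫ y, D y * (I y + I (-y) - 2 * I 0)‖ ≤ ∫ y, 8 * δ * (rho p f y ^ 2 * s y) := by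
    refine norm_integral_le_of_norm_le (hri.const_mul (8 * δ))
      (Filter.Eventually.of_forall fun y => ?_)
    rw [norm_mul]
    calc ‖D y‖ * ‖I y + I (-y) - 2 * I 0‖ ≤ (δ * s y) * (8 * rho p f y ^ 2) :=
          mul_le_mul (hDs y) (hsec y) (norm_nonneg _) (mul_nonneg hδ (hs.nonneg y))
      _ = 8 * δ * (rho p f y ^ 2 * s y) := by ring
  rw [integral_const_mul] at h5
  have h6 : ‖(1 / 2 : ℂ)‖ = 1 / 2 := by norm_num
  rw [h6]
  nlinarith [h5]

end Pool.Agent.MO
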