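import Pool.Agent.MO.Opb

/-!
# MO-Tens: contractions tensorise

Induction on `m`. `m = 0`: the space is a point, its volume is the Dirac measure of mass one
(`Measure.volume_pi`, `Measure.pi_of_empty`-type / `Unique`), `op G f x = f x`.
Step: `e = MeasurableEquiv.piFinSuccAbove (fun j => Fin (n j) → ℝ) 0 : (∀ j, _) ≃ᵐ (Fin (n 0) → ℝ) × (∀ j : Fin m, Fin (n j.succ) → ℝ)`
preserves the volumes (`volume_preserving_piFinSuccAbove`), it is the map `x ↦ (x 0, fun j => x j.succ)` (continuous,
linear, with inverse `Fin.cons`). Write `X = Fin (n 0) → ℝ`, `Y` the rest, `G0 = G 0`, `G' = ∏_{j : Fin m} G j.succ`. For `f` a test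
function on `X × Y`: `g (x, y) = ∫ G' y' f(x, y + y') dy'`. For fixed `x`, `f(x,.)` is a test function on `Y`, so
`∫⁻ ‖g(x,y)‖^p dy ≤ ∫⁻ ‖f(x,y)‖^p dy`. For fixed `y`, `g(., y)` is continuous with compact support (contained in the
projection of the support of `f`), a test function on `X`, so `∫⁻ ‖∫ G0 x' g(x + x', y) dx'‖^p dx ≤ ∫⁻ ‖g(x,y)‖^p dx`.
And `op (∏ G j) f (x,y) = ∫ G0 x' g(x + x', y) dx'` (Fubini: `G0 x' G' y' f(x+x', y+y')` is integrable, `f` bounded).
Integrate (Tonelli: `lintegral_prod`, `lintegral_prod_symm`). `tens_int`: `Integrable.fintype_prod`-type lemma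
(`MeasureTheory.Integrable.fintype_prod_dep` if available), or the same induction.
-/

set_option autoImplicit false

open MeasureTheory Set
open scoped ENNReal NNReal

namespace Pool.Agent.MO

theorem tens_int {m : ℕ} {n : Fin m → ℕ} {G : ∀ j, (Fin (n j) → ℝ) → ℂ}
    (hG : ∀ j, Integrable (G j)) :
    Integrable fun y : (∀ j, Fin (n j) → ℝ) => ∏ j, G j (y j) := by
  exact Integrable.fintype_prod_dep hG

/-- transfer along a measure preserving additive homeomorphism -/
private theorem nb_transfer {E F : Type} [NormedAddCommGroup E] [NormedSpace ℝ E] [MeasureSpace E]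
    [BorelSpace E] [NormedAddCommGroup F] [NormedSpace ℝ F] [MeasureSpace F] [BorelSpace F]
    (e : E ≃ₜ F) (hadd : ∀ x y, e (x + y) = e x + e y)
    (hmp : MeasurePreserving e volume volume) {p : ℝ} {G : F → ℂ} (h : NB p 1 G) :
    NB p 1 fun x => G (e x) := by
  intro f hf
  have hemb : MeasurableEmbedding e := e.measurableEmbedding
  set f' : F → ℂ := fun w => f (e.symm w) with hf'
  have htf : TF f' := ⟨hf.1.comp e.symm.continuous, hf.2.comp_homeomorph e.symm⟩
  have hop : ∀ x, op (fun x => G (e x)) f x = op G f' (e x) := by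
    intro x
    have h1 : ∀ y, G (e y) * f (x + y) = (fun w => G w * f' (e x + w)) (e y) := by
      intro y
      simp only [hf']
      rw [← hadd, e.symm_apply_apply]
    unfold op
    simp_rw [h1]
    exact hmp.integral_comp hemb (fun w => G w * f' (e x + w))
  have h2 := h f' htf
  have h3 : ∫⁻ x, ‖op (fun x => G (e x)) f x‖ₑ ^ p = ∫⁻ w, ‖op G f' w‖ₑ ^ p := by
    simp_rw [hop]
    exact hmp.lintegral_comp_emb hemb (fun w => ‖op G f' w‖ₑ ^ p)
  have h4 : ∫⁻ x, ‖f x‖ₑ ^ p = ∫⁻ w, ‖f' w‖ₑ ^ p := by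
    rw [← hmp.lintegral_comp_emb hemb (fun w => ‖f' w‖ₑ ^ p)]
    simp only [hf', e.symm_apply_apply]
  rw [h3, h4]
  exact h2

/-- two factors -/
private theorem nb_prod {p : ℝ} (hp : 1 ≤ p) {a m : ℕ} {n : Fin m → ℕ}
    {G0 : (Fin a → ℝ) → ℂ} {G1 : (∀ j, Fin (n j) → ℝ) → ℂ}
    (hG0 : Integrable G0) (hG1 : Integrable G1) (h0 : NB p 1 G0) (h1 : NB p 1 G1) :
    NB p 1 fun z : (Fin a → ℝ) × (∀ j, Fin (n j) → ℝ) => G0 z.1 * G1 z.2 := by
  intro f hf
  have hp0 : 0 ≤ p := by linarith
  have hG : Integrable fun z : (Fin a → ℝ) × (∀ j, Fin (n j) → ℝ) => G0 z.1 * G1 z.2 :=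
    hG0.mul_prod hG1
  have : Measure.IsAddHaarMeasure
      (volume : Measure ((Fin a → ℝ) × (∀ j, Fin (n j) → ℝ))) :=
    MeasureTheory.Measure.prod.instIsAddHaarMeasure _ _
  obtain ⟨C, hC⟩ := hf.bdd
  have hfc := hf.1
  -- the slices of `f`
  have hslice : ∀ x, TF fun y => f (x, y) := by
    intro x
    refine ⟨hfc.comp (f := fun y : (∀ j, Fin (n j) → ℝ) => (x, y)) (by fun_prop), ?_⟩
    refine HasCompactSupport.intro (K := Prod.snd '' tsupport f)
      (hf.2.isCompact.image continuous_snd) ?_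
    intro y hy
    by_contra hne
    exact hy ⟨(x, y), subset_tsupport f hne, rfl⟩
  set g : (Fin a → ℝ) → (∀ j, Fin (n j) → ℝ) → ℂ := fun x y => ∫ w, G1 w * f (x, y + w) with hg
  have hgop : ∀ x y, g x y = op G1 (fun y => f (x, y)) y := fun x y => rfl
  have hgcont : Continuous fun z : (Fin a → ℝ) × (∀ j, Fin (n j) → ℝ) => g z.1 z.2 := by
    refine continuous_of_dominated (bound := fun w => ‖G1 w‖ * C) ?_ ?_ ?_ ?_
    · intro z
      exact hG1.aestronglyMeasurable.mul
        (hfc.comp (f := fun w : (∀ j, Fin (n j) → ℝ) => (z.1, z.2 + w))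
          (by fun_prop)).aestronglyMeasurable
    · intro z
      refine Filter.Eventually.of_forall fun w => ?_
      rw [norm_mul]
      exact mul_le_mul_of_nonneg_left (hC _) (norm_nonneg _)
    · exact hG1.norm.mul_const C
    · refine Filter.Eventually.of_forall fun w => ?_
      exact continuous_const.mul
        (hfc.comp (f := fun z : (Fin a → ℝ) × (∀ j, Fin (n j) → ℝ) => (z.1, z.2 + w))
          (by fun_prop))
  have hgtf : ∀ y, TF fun x => g x y := by
    intro y
    refine ⟨hgcont.comp (f := fun x : (Fin a → ℝ) => (x, y)) (by fun_prop), ?_⟩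
    refine HasCompactSupport.intro (K := Prod.fst '' tsupport f)
      (hf.2.isCompact.image continuous_fst) ?_
    intro x hx
    have h2 : ∀ w, f (x, y + w) = 0 := by
      intro w
      by_contra hne
      exact hx ⟨(x, y + w), subset_tsupport f hne, rfl⟩
    simp only [hg, h2, mul_zero, integral_zero]
  have hopeq : ∀ x y, op (fun z : (Fin a → ℝ) × (∀ j, Fin (n j) → ℝ) => G0 z.1 * G1 z.2) f (x, y) =
      op G0 (fun x => g x y) x := by
    intro x y
    have hint : Integrable (fun z : (Fin a → ℝ) × (∀ j, Fin (n j) → ℝ) =>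
        G0 z.1 * G1 z.2 * f ((x, y) + z)) := by
      have h3 : Integrable (fun z : (Fin a → ℝ) × (∀ j, Fin (n j) → ℝ) =>
          f ((x, y) + z) * (G0 z.1 * G1 z.2)) := by
        refine hG.bdd_mul (c := C) ?_ (Filter.Eventually.of_forall fun z => hC _)
        exact (hfc.comp (f := fun z : (Fin a → ℝ) × (∀ j, Fin (n j) → ℝ) => (x, y) + z)
          (by fun_prop)).aestronglyMeasurable
      refine h3.congr (Filter.Eventually.of_forall fun z => ?_)
      exact mul_comm _ _
    unfold op
    rw [Measure.volume_eq_prod, integral_prod _ (by rwa [← Measure.volume_eq_prod])]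
    refine integral_congr_ae (Filter.Eventually.of_forall fun w => ?_)
    simp only [hg, Prod.mk_add_mk]
    rw [← integral_const_mul]
    refine integral_congr_ae (Filter.Eventually.of_forall fun w' => ?_)
    simp only
    ring
  have hone : ENNReal.ofReal 1 ^ p = 1 := by
    rw [ENNReal.ofReal_one, ENNReal.one_rpow]
  have hmeas1 : Measurable fun z : (Fin a → ℝ) × (∀ j, Fin (n j) → ℝ) =>
      ‖op (fun z : (Fin a → ℝ) × (∀ j, Fin (n j) → ℝ) => G0 z.1 * G1 z.2) f z‖ₑ ^ p :=
    (op_cont hG hf).measurable.enorm.pow_const p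
  have hmeas2 : Measurable fun z : (Fin a → ℝ) × (∀ j, Fin (n j) → ℝ) => ‖g z.1 z.2‖ₑ ^ p :=
    hgcont.measurable.enorm.pow_const p
  have hmeas3 : Measurable fun z : (Fin a → ℝ) × (∀ j, Fin (n j) → ℝ) => ‖f z‖ₑ ^ p :=
    hfc.measurable.enorm.pow_const p
  rw [hone, one_mul]
  calc ∫⁻ z, ‖op (fun z : (Fin a → ℝ) × (∀ j, Fin (n j) → ℝ) => G0 z.1 * G1 z.2) f z‖ₑ ^ p
      = ∫⁻ y, ∫⁻ x, ‖op G0 (fun x => g x y) x‖ₑ ^ p := by
        rw [Measure.volume_eq_prod, lintegral_prod_symm _ hmeas1.aemeasurable]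
        simp_rw [hopeq]
    _ ≤ ∫⁻ y, ∫⁻ x, ‖g x y‖ₑ ^ p := by
        refine lintegral_mono fun y => ?_
        have h3 := h0 _ (hgtf y)
        rwa [hone, one_mul] at h3
    _ = ∫⁻ x, ∫⁻ y, ‖g x y‖ₑ ^ p := by
        rw [← lintegral_prod_symm (μ := volume) (ν := volume)
          (fun z : (Fin a → ℝ) × (∀ j, Fin (n j) → ℝ) => ‖g z.1 z.2‖ₑ ^ p) hmeas2.aemeasurable,
          lintegral_prod _ hmeas2.aemeasurable]
    _ ≤ ∫⁻ x, ∫⁻ y, ‖f (x, y)‖ₑ ^ p := by
        refine lintegral_mono fun x => ?_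
        have h3 := h1 _ (hslice x)
        rwa [hone, one_mul] at h3
    _ = ∫⁻ z, ‖f z‖ₑ ^ p := by
        rw [Measure.volume_eq_prod, lintegral_prod _ hmeas3.aemeasurable]

theorem tens {p : ℝ} (hp : 1 ≤ p) (m : ℕ) (n : Fin m → ℕ) (G : ∀ j, (Fin (n j) → ℝ) → ℂ)
    (hG : ∀ j, Integrable (G j)) (h : ∀ j, NB p 1 (G j)) :
    NB p 1 fun y : (∀ j, Fin (n j) → ℝ) => ∏ j, G j (y j) := by
  induction m with
  | zero =>
    intro f hf
    have hv : (volume : Measure (∀ j : Fin 0, Fin (n j) → ℝ)) = Measure.dirac (fun j => j.elim0) := by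
      rw [volume_pi]
      exact Measure.pi_of_empty _ _
    have hop : ∀ x, op (fun y : (∀ j : Fin 0, Fin (n j) → ℝ) => ∏ j, G j (y j)) f x = f x := by
      intro x
      unfold op
      rw [hv, integral_dirac]
      simp only [Finset.univ_eq_empty, Finset.prod_empty, one_mul]
      exact congrArg f (Subsingleton.elim _ _)
    simp_rw [hop]
    rw [ENNReal.ofReal_one, ENNReal.one_rpow, one_mul]
  | succ m ih =>
    have h1 := ih (fun j => n ((0 : Fin (m + 1)).succAbove j))
      (fun j => G ((0 : Fin (m + 1)).succAbove j)) (fun j => hG _) (fun j => h _)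
    have h2 : Integrable fun y : (∀ j : Fin m, Fin (n ((0 : Fin (m + 1)).succAbove j)) → ℝ) =>
        ∏ j, G ((0 : Fin (m + 1)).succAbove j) (y j) := tens_int (fun j => hG _)
    have h3 := nb_prod hp (hG 0) h2 (h 0) h1
    set e0 := MeasurableEquiv.piFinSuccAbove (fun j : Fin (m + 1) => Fin (n j) → ℝ) 0 with he0
    have hc1 : Continuous e0 := by
      have : (e0 : (∀ j, Fin (n j) → ℝ) → _) =
          fun x => (x 0, fun j => x ((0 : Fin (m + 1)).succAbove j)) := rfl
      rw [this]
      fun_prop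
    have hc2 : Continuous e0.symm := by
      refine continuous_pi (Fin.forall_iff_succAbove (0 : Fin (m + 1)) |>.2 ⟨?_, fun j => ?_⟩)
      · have : (fun z => e0.symm z 0) = fun z => z.1 := by
          funext z
          exact congrArg Prod.fst (e0.apply_symm_apply z)
        rw [this]
        exact continuous_fst
      · have : (fun z => e0.symm z ((0 : Fin (m + 1)).succAbove j)) = fun z => z.2 j := by
          funext z
          exact congrFun (congrArg Prod.snd (e0.apply_symm_apply z)) j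
        rw [this]
        exact (continuous_apply j).comp continuous_snd
    set e : (∀ j, Fin (n j) → ℝ) ≃ₜ
        (Fin (n 0) → ℝ) × (∀ j : Fin m, Fin (n ((0 : Fin (m + 1)).succAbove j)) → ℝ) :=
      { e0.toEquiv with
        continuous_toFun := hc1
        continuous_invFun := hc2 } with he
    have hmp : MeasurePreserving e volume volume :=
      volume_preserving_piFinSuccAbove (fun j : Fin (m + 1) => Fin (n j) → ℝ) 0
    have h4 := nb_transfer e (fun x y => rfl) hmp h3
    have h5 : (fun y : (∀ j, Fin (n j) → ℝ) => ∏ j, G j (y j)) =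
        fun x => G 0 (e x).1 * ∏ j, G ((0 : Fin (m + 1)).succAbove j) ((e x).2 j) := by
      funext y
      rw [Fin.prod_univ_succAbove _ 0]
      rfl
    rw [h5]
    exact h4

end Pool.Agent.MO
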